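import Pool.Agent.Lib.MP_745d3a_ag.GM.Ser

/-!
Series, moments, the numerical law.
-/

section

set_option autoImplicit false
set_option linter.unusedSectionVars false
set_option linter.unusedSimpArgs false
set_option linter.unusedVariables false

open MvPolynomial

namespace Pool.Agent.Lib.MP_745d3a_ag.GM

private lemma L1_aux {h h' : ℤ × ℤ → ℝ} {τ : ℤ × ℤ} {ξ : ℤ × ℤ →+ ℤ} {B : ℤ} {u : ℝ}
    (hτ : 0 < ξ τ) (hu : 0 < u) (hu1 : u < 1) (hd : ∀ g, h g - h (g - τ) = h' g)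
    (hB : ∀ g, ξ g < B → h g = 0) (hs : Summable (fun g => |h' g| * u ^ ξ g)) (n : ℕ) :
    ∀ s : Finset (ℤ × ℤ), (∀ g ∈ s, ξ g < B + n) →
      ∑ g ∈ s, |h g| * u ^ ξ g ≤ (∑' g, |h' g| * u ^ ξ g) / (1 - u ^ ξ τ) := by
  have hq1 : u ^ ξ τ < 1 := zpow_lt_one₀ hu hu1 hτ
  have hq0 : 0 < u ^ ξ τ := zpow_pos hu _
  have hnn : ∀ g, 0 ≤ |h' g| * u ^ ξ g := fun g => mul_nonneg (abs_nonneg _) (zpow_pos hu _).le
  have hS : 0 ≤ ∑' g, |h' g| * u ^ ξ g := tsum_nonneg hnn
  induction n with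
  | zero =>
    intro s hs0
    rw [Finset.sum_eq_zero]
    · exact div_nonneg hS (by linarith)
    · intro g hg
      rw [hB g (by simpa using hs0 g hg)]
      simp
  | succ n ih =>
    intro s hs0
    have h1 : ∑ g ∈ s, |h g| * u ^ ξ g ≤ ∑ g ∈ s, (|h' g| * u ^ ξ g +
        u ^ ξ τ * (|h (g - τ)| * u ^ ξ (g - τ))) := by
      apply Finset.sum_le_sum
      intro g _
      have h2 : u ^ ξ τ * (|h (g - τ)| * u ^ ξ (g - τ)) = |h (g - τ)| * u ^ ξ g := by
        have : u ^ ξ g = u ^ ξ τ * u ^ ξ (g - τ) := by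
          rw [← zpow_add₀ hu.ne', map_sub]
          congr 1
          ring
        rw [this]
        ring
      rw [h2, ← add_mul]
      apply mul_le_mul_of_nonneg_right _ (zpow_pos hu _).le
      have h3 : h g = h' g + h (g - τ) := by
        rw [← hd g]
        ring
      rw [h3]
      exact abs_add_le _ _
    have h4 : ∑ g ∈ s, |h' g| * u ^ ξ g ≤ ∑' g, |h' g| * u ^ ξ g :=
      hs.sum_le_tsum s (fun g _ => hnn g)
    have h5 : ∑ g ∈ s, (|h (g - τ)| * u ^ ξ (g - τ)) ≤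
        (∑' g, |h' g| * u ^ ξ g) / (1 - u ^ ξ τ) := by
      have h6 : ∑ g ∈ s, (|h (g - τ)| * u ^ ξ (g - τ)) =
          ∑ g ∈ s.map (Equiv.subRight τ).toEmbedding, |h g| * u ^ ξ g := by
        rw [Finset.sum_map]
        rfl
      rw [h6]
      apply ih
      intro g hg
      rw [Finset.mem_map] at hg
      obtain ⟨a, ha, rfl⟩ := hg
      have h7 := hs0 a ha
      have h8 : ξ ((Equiv.subRight τ).toEmbedding a) = ξ a - ξ τ := by
        change ξ (a - τ) = _
        rw [map_sub]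
      rw [h8]
      push_cast at h7
      omega
    rw [Finset.sum_add_distrib, ← Finset.mul_sum] at h1
    have h9 : (∑' g, |h' g| * u ^ ξ g) / (1 - u ^ ξ τ) =
        (∑' g, |h' g| * u ^ ξ g) + u ^ ξ τ * ((∑' g, |h' g| * u ^ ξ g) / (1 - u ^ ξ τ)) := by
      have : (1 - u ^ ξ τ) ≠ 0 := by linarith
      field_simp
      ring
    rw [h9]
    have h10 := mul_le_mul_of_nonneg_left h5 hq0.le
    linarith

theorem sum_step {h h' : ℤ × ℤ → ℝ} {τ : ℤ × ℤ} {ξ : ℤ × ℤ →+ ℤ} {B : ℤ} {u : ℝ}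
    (hτ : 0 < ξ τ) (hu : 0 < u) (hu1 : u < 1) (hd : ∀ g, h g - h (g - τ) = h' g)
    (hB : ∀ g, ξ g < B → h g = 0) (hs : Summable (fun g => |h' g| * u ^ ξ g)) :
    Summable (fun g => |h g| * u ^ ξ g) ∧
      (∑' g, h g * u ^ ξ g) * (1 - u ^ ξ τ) = ∑' g, h' g * u ^ ξ g := by
  have hq1 : u ^ ξ τ < 1 := zpow_lt_one₀ hu hu1 hτ
  have hsum : Summable (fun g => |h g| * u ^ ξ g) := by
    apply summable_of_sum_le (c := (∑' g, |h' g| * u ^ ξ g) / (1 - u ^ ξ τ))
    · intro g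
      exact mul_nonneg (abs_nonneg _) (zpow_pos hu _).le
    · intro s
      obtain ⟨N, hN⟩ : ∃ N : ℕ, ∀ g ∈ s, ξ g < B + N := by
        refine ⟨∑ g ∈ s, (ξ g - B + 1).toNat, fun g hg => ?_⟩
        have h1 : (ξ g - B + 1).toNat ≤ ∑ g ∈ s, (ξ g - B + 1).toNat :=
          Finset.single_le_sum (f := fun g => (ξ g - B + 1).toNat) (fun _ _ => Nat.zero_le _) hg
        have h2 := Int.self_le_toNat (ξ g - B + 1)
        have h3 : ((ξ g - B + 1).toNat : ℤ) ≤ ((∑ g ∈ s, (ξ g - B + 1).toNat : ℕ) : ℤ) := by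
          exact_mod_cast h1
        linarith
      exact L1_aux hτ hu hu1 hd hB hs N s hN
  refine ⟨hsum, ?_⟩
  have hS1 : Summable (fun g => h g * u ^ ξ g) := by
    apply Summable.of_norm
    refine hsum.congr fun g => ?_
    rw [Real.norm_eq_abs, abs_mul, abs_of_pos (zpow_pos hu (ξ g))]
  have hS2 : Summable (fun g => h (g - τ) * u ^ ξ g) := by
    have h1 : Summable (fun g => u ^ ξ τ * (h (g - τ) * u ^ ξ (g - τ))) := by
      apply Summable.mul_left
      exact (Equiv.subRight τ).summable_iff.mpr hS1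
    refine h1.congr fun g => ?_
    have : u ^ ξ g = u ^ ξ τ * u ^ ξ (g - τ) := by
      rw [← zpow_add₀ hu.ne', map_sub]
      congr 1
      ring
    rw [this]
    ring
  have h3 : ∑' g, h (g - τ) * u ^ ξ g = u ^ ξ τ * ∑' g, h g * u ^ ξ g := by
    rw [← tsum_mul_left, ← (Equiv.subRight τ).tsum_eq (fun g => u ^ ξ τ * (h g * u ^ ξ g))]
    apply tsum_congr
    intro g
    have : u ^ ξ g = u ^ ξ τ * u ^ ξ (g - τ) := by
      rw [← zpow_add₀ hu.ne', map_sub]
      congr 1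
      ring
    rw [this]
    change _ = u ^ ξ τ * (h (g - τ) * u ^ ξ (g - τ))
    ring
  have h4 : ∑' g, h' g * u ^ ξ g = ∑' g, (h g * u ^ ξ g - h (g - τ) * u ^ ξ g) := by
    apply tsum_congr
    intro g
    rw [← hd g]
    ring
  rw [h4, hS1.tsum_sub hS2, h3]
  ring

end Pool.Agent.Lib.MP_745d3a_ag.GM

end

section

set_option autoImplicit false
set_option linter.unusedSectionVars false
set_option linter.unusedSimpArgs false
set_option linter.unusedVariables false

open MvPolynomial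

namespace Pool.Agent.Lib.MP_745d3a_ag.GM

theorem nab_series (w : Fin 5 → ℤ) (A : Finset (Fin 5)) {h : ℤ × ℤ → ℤ} {ξ : ℤ × ℤ →+ ℤ}
    (hξ : ∀ a ∈ A, 0 < ξ (om w a)) (hB : ∃ B : ℤ, ∀ g, ξ g < B → h g = 0)
    (hfin : (Function.support (Nab w A h)).Finite) {u : ℝ} (hu : 0 < u) (hu1 : u < 1) :
    Summable (fun g => |(h g : ℝ)| * u ^ ξ g) ∧
      (∑' g, (h g : ℝ) * u ^ ξ g) * ∏ a ∈ A, (1 - u ^ ξ (om w a)) =
        ∑ᶠ g, (Nab w A h g : ℝ) * u ^ ξ g := by
  induction A using Finset.induction_on generalizing h with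
  | empty =>
    rw [Nab_empty] at hfin ⊢
    have hsub1 : Function.support (fun g => |(h g : ℝ)| * u ^ ξ g) ⊆ Function.support h := by
      intro g hg hg0
      apply hg
      simp [hg0]
    have hsub2 : Function.support (fun g => (h g : ℝ) * u ^ ξ g) ⊆ Function.support h := by
      intro g hg hg0
      apply hg
      simp [hg0]
    refine ⟨summable_of_finite_support (hfin.subset hsub1), ?_⟩
    rw [Finset.prod_empty, mul_one]
    exact tsum_eq_finsum (hfin.subset hsub2)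
  | insert a A ha ih =>
    obtain ⟨B, hB⟩ := hB
    have ha0 : 0 < ξ (om w a) := hξ a (Finset.mem_insert_self _ _)
    rw [Nab_insert' w ha] at hfin ⊢
    have hB1 : ∃ B : ℤ, ∀ g, ξ g < B → (fun g => h g - h (g - om w a)) g = 0 := by
      refine ⟨B, fun g hg => ?_⟩
      have h1 : ξ (g - om w a) < B := by
        rw [map_sub]
        linarith
      simp only [hB g hg, hB _ h1, sub_zero]
    obtain ⟨h1, h2⟩ := ih (h := fun g => h g - h (g - om w a))
      (fun b hb => hξ b (Finset.mem_insert_of_mem hb)) hB1 hfin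
    have h3 := sum_step (h := fun g => (h g : ℝ)) (h' := fun g => ((h g - h (g - om w a) : ℤ) : ℝ))
      (τ := om w a) (ξ := ξ) (B := B) (u := u) ha0 hu hu1 (fun g => by push_cast; ring)
      (fun g hg => by simp [hB g hg]) h1
    refine ⟨h3.1, ?_⟩
    rw [Finset.prod_insert ha, ← mul_assoc, h3.2]
    exact h2

end Pool.Agent.Lib.MP_745d3a_ag.GM

end

section

set_option autoImplicit false
set_option linter.unusedSectionVars false
set_option linter.unusedSimpArgs false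
set_option linter.unusedVariables false

open MvPolynomial

namespace Pool.Agent.Lib.MP_745d3a_ag.GM

theorem nab_pos (w : Fin 5 → ℤ) (A : Finset (Fin 5)) {h : ℤ × ℤ → ℤ} (h0 : ∀ g, 0 ≤ h g)
    {ξ : ℤ × ℤ →+ ℤ} (hξ : ∀ a ∈ A, 0 < ξ (om w a)) (hB : ∃ B : ℤ, ∀ g, ξ g < B → h g = 0)
    (hfin : (Function.support (Nab w A h)).Finite) (hsum : ∑ᶠ g, Nab w A h g = 0) :
    ∑ᶠ g, Nab w A h g * ξ g ≤ 0 := by
  classical
  set s : Finset (ℤ × ℤ) := hfin.toFinset with hs
  have hmem : ∀ g, Nab w A h g ≠ 0 → g ∈ s := by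
    intro g hg
    rw [hs, Set.Finite.mem_toFinset]
    exact hg
  have h1 : ∑ᶠ g, Nab w A h g = ∑ g ∈ s, Nab w A h g := by
    refine finsum_eq_sum_of_support_subset _ ?_
    intro g hg
    exact hmem g hg
  have h2 : ∑ᶠ g, Nab w A h g * ξ g = ∑ g ∈ s, Nab w A h g * ξ g := by
    refine finsum_eq_sum_of_support_subset _ ?_
    intro g hg
    exact hmem g (left_ne_zero_of_mul (Function.mem_support.mp hg))
  let G : ℝ → ℝ := fun u => ∑ g ∈ s, (Nab w A h g : ℝ) * u ^ ξ g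
  have hG1 : G 1 = 0 := by
    have h3 : (∑ g ∈ s, Nab w A h g : ℤ) = 0 := by rw [← h1, hsum]
    have h4 : ((∑ g ∈ s, Nab w A h g : ℤ) : ℝ) = 0 := by rw [h3]; simp
    rw [Int.cast_sum] at h4
    simp only [G, one_zpow, mul_one]
    exact h4
  have hG0 : ∀ u : ℝ, 0 < u → u < 1 → 0 ≤ G u := by
    intro u hu hu1
    have h3 := (nab_series w A (h := h) hξ hB hfin hu hu1).2
    have h4 : ∑ᶠ g, (Nab w A h g : ℝ) * u ^ ξ g = G u := by
      refine finsum_eq_sum_of_support_subset _ ?_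
      intro g hg
      refine hmem g ?_
      have h5 := left_ne_zero_of_mul (Function.mem_support.mp hg)
      exact_mod_cast h5
    rw [← h4, ← h3]
    refine mul_nonneg (tsum_nonneg ?_) (Finset.prod_nonneg ?_)
    · intro g
      have h5 : (0 : ℝ) ≤ (h g : ℝ) := by exact_mod_cast h0 g
      exact mul_nonneg h5 (zpow_pos hu _).le
    · intro a ha
      have h5 : u ^ ξ (om w a) ≤ 1 := (zpow_lt_one₀ hu hu1 (hξ a ha)).le
      linarith
  have hder : HasDerivAt G (∑ g ∈ s, (Nab w A h g : ℝ) * ((ξ g : ℝ) * (1 : ℝ) ^ (ξ g - 1))) 1 := by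
    refine HasDerivAt.fun_sum ?_
    intro g _
    exact (hasDerivAt_zpow (ξ g) (1 : ℝ) (Or.inl one_ne_zero)).const_mul _
  have h6 := hasDerivAt_iff_tendsto_slope.mp hder
  have h7 : Filter.Tendsto (slope G 1) (nhdsWithin (1 : ℝ) (Set.Iio 1))
      (nhds (∑ g ∈ s, (Nab w A h g : ℝ) * ((ξ g : ℝ) * (1 : ℝ) ^ (ξ g - 1)))) := by
    refine h6.mono_left (nhdsWithin_mono _ ?_)
    intro x hx
    exact ne_of_lt hx
  have h8 : ∑ g ∈ s, (Nab w A h g : ℝ) * ((ξ g : ℝ) * (1 : ℝ) ^ (ξ g - 1)) ≤ 0 := by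
    refine le_of_tendsto h7 ?_
    have h9 : ∀ᶠ u : ℝ in nhdsWithin (1 : ℝ) (Set.Iio 1), u ∈ Set.Ioo (0 : ℝ) 1 :=
      Ioo_mem_nhdsLT one_pos
    filter_upwards [h9] with u hu
    rw [slope_def_field, hG1, sub_zero]
    exact div_nonpos_of_nonneg_of_nonpos (hG0 u hu.1 hu.2) (by linarith [hu.2])
  rw [h2]
  simp only [one_zpow, mul_one] at h8
  have h10 : ((∑ g ∈ s, Nab w A h g * ξ g : ℤ) : ℝ) ≤ 0 := by
    rw [Int.cast_sum]
    simpa only [Int.cast_mul] using h8
  exact_mod_cast h10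

end Pool.Agent.Lib.MP_745d3a_ag.GM

end

section

set_option autoImplicit false
set_option linter.unusedSectionVars false
set_option linter.unusedSimpArgs false
set_option linter.unusedVariables false

open MvPolynomial

namespace Pool.Agent.Lib.MP_745d3a_ag.GM

/-- Moment of a finitely supported function. -/
noncomputable def mom (Q : ℤ × ℤ → ℤ) (f : ℤ × ℤ → ℚ) : ℚ := ∑ᶠ g, (Q g : ℚ) * f g

/-- A vector as a linear form. -/
def ev (v : ℚ × ℚ) (x y : ℚ) : ℚ := v.1 * x + v.2 * y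

/-- Twice a weight, centred. -/
def tw (d g : ℤ × ℤ) : ℚ × ℚ := (2 * (g.1 : ℚ) - d.1, 2 * (g.2 : ℚ) - d.2)

/-- The weight of a variable as a rational vector. -/
def ch (w : Fin 5 → ℤ) (a : Fin 5) : ℚ × ℚ := (1, (w a : ℚ))

private lemma M1_fin {Q : ℤ × ℤ → ℤ} (hQ : (Function.support Q).Finite) (f : ℤ × ℤ → ℚ) :
    (Function.support fun g => (Q g : ℚ) * f g).Finite := by
  refine hQ.subset ?_
  intro g hg
  rw [Function.mem_support] at hg ⊢
  intro h
  apply hg
  rw [h, Int.cast_zero, zero_mul]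

section
variable {Q Q' : ℤ × ℤ → ℤ}

lemma mom_add (hQ : (Function.support Q).Finite) (f f' : ℤ × ℤ → ℚ) :
    mom Q (fun g => f g + f' g) = mom Q f + mom Q f' := by
  unfold mom
  rw [← finsum_add_distrib (M1_fin hQ f) (M1_fin hQ f')]
  exact finsum_congr fun g => mul_add _ _ _

lemma mom_sub (hQ : (Function.support Q).Finite) (f f' : ℤ × ℤ → ℚ) :
    mom Q (fun g => f g - f' g) = mom Q f - mom Q f' := by
  unfold mom
  rw [← finsum_sub_distrib (M1_fin hQ f) (M1_fin hQ f')]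
  exact finsum_congr fun g => mul_sub _ _ _

lemma mom_smul (Q : ℤ × ℤ → ℤ) (c : ℚ) (f : ℤ × ℤ → ℚ) :
    mom Q (fun g => c * f g) = c * mom Q f := by
  unfold mom
  rw [← smul_eq_mul, smul_finsum]
  exact finsum_congr fun g => by rw [smul_eq_mul]; ring

lemma mom_congr {f f' : ℤ × ℤ → ℚ} (h : ∀ g, f g = f' g) : mom Q f = mom Q f' := by
  rw [funext h]

lemma mom_addQ (hQ : (Function.support Q).Finite) (hQ' : (Function.support Q').Finite)
    (f : ℤ × ℤ → ℚ) : mom (fun g => Q g + Q' g) f = mom Q f + mom Q' f := by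
  unfold mom
  rw [← finsum_add_distrib (M1_fin hQ f) (M1_fin hQ' f)]
  exact finsum_congr fun g => by rw [Int.cast_add, add_mul]

lemma mom_subQ (hQ : (Function.support Q).Finite) (hQ' : (Function.support Q').Finite)
    (f : ℤ × ℤ → ℚ) : mom (fun g => Q g - Q' g) f = mom Q f - mom Q' f := by
  unfold mom
  rw [← finsum_sub_distrib (M1_fin hQ f) (M1_fin hQ' f)]
  exact finsum_congr fun g => by rw [Int.cast_sub, sub_mul]

lemma mom_delta (α : ℤ × ℤ) (f : ℤ × ℤ → ℚ) :
    mom (fun g => if g = α then 1 else 0) f = f α := by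
  unfold mom
  rw [finsum_eq_single _ α]
  · simp
  · intro g hg
    simp [hg]

lemma mom_shift (Q : ℤ × ℤ → ℤ) (τ : ℤ × ℤ) (f : ℤ × ℤ → ℚ) :
    mom (fun g => Q (g - τ)) f = mom Q (fun g => f (g + τ)) := by
  unfold mom
  rw [← finsum_comp_equiv (Equiv.addRight τ)]
  refine finsum_congr fun g => ?_
  show ((Q (g + τ - τ) : ℤ) : ℚ) * f (g + τ) = (Q g : ℚ) * f (g + τ)
  rw [add_sub_cancel_right]

lemma mom_diff (hQ : (Function.support Q).Finite) (τ : ℤ × ℤ) (f : ℤ × ℤ → ℚ) :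
    mom (fun g => Q g - Q (g - τ)) f = mom Q (fun g => f g - f (g + τ)) := by
  have h : (Function.support fun g => Q (g - τ)).Finite :=
    hQ.preimage (f := fun g => g - τ) (fun x _ y _ hxy => sub_left_injective hxy)
  rw [mom_subQ hQ h, mom_shift, ← mom_sub hQ]

lemma mom_one (Q : ℤ × ℤ → ℤ) : mom Q (fun _ => 1) = ((∑ᶠ g, Q g : ℤ) : ℚ) := by
  unfold mom
  have h := AddMonoidHom.map_finsum_of_injective (Int.castAddHom ℚ) Int.cast_injective Q
  have h2 : ((∑ᶠ g, Q g : ℤ) : ℚ) = ∑ᶠ g, ((Q g : ℤ) : ℚ) := h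
  rw [h2]
  exact finsum_congr fun g => mul_one _

end

lemma tw_add (d g τ : ℤ × ℤ) : tw d (g + τ) = tw d g + (2 * (τ.1 : ℚ), 2 * (τ.2 : ℚ)) := by
  unfold tw
  refine Prod.ext ?_ ?_
  · simp only [Prod.fst_add, Int.cast_add]
    ring
  · simp only [Prod.snd_add, Int.cast_add]
    ring

lemma ev_tw_om (w : Fin 5 → ℤ) (d g : ℤ × ℤ) (a : Fin 5) (x y : ℚ) :
    ev (tw d (g + om w a)) x y = ev (tw d g) x y + 2 * ev (ch w a) x y := by
  rw [tw_add]
  simp only [ev, ch, om, Prod.fst_add, Prod.snd_add, Int.cast_one]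
  ring

lemma ev_ch (w : Fin 5 → ℤ) (a : Fin 5) (x y : ℚ) : ev (ch w a) x y = x + w a * y := by
  simp only [ev, ch, one_mul]

end Pool.Agent.Lib.MP_745d3a_ag.GM

end

section

set_option autoImplicit false
set_option linter.unusedSectionVars false
set_option linter.unusedSimpArgs false
set_option linter.unusedVariables false

open MvPolynomial

namespace Pool.Agent.Lib.MP_745d3a_ag.GM

private lemma M2_delta_fin (α : ℤ × ℤ) :
    (Function.support (fun g : ℤ × ℤ => if g = α then (1 : ℤ) else 0)).Finite := by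
  refine (Set.finite_singleton α).subset ?_
  intro g hg
  by_contra h
  exact hg (if_neg h)

private lemma M2_diff_fin {M' : ℤ × ℤ → ℤ} (hM : (Function.support M').Finite) (τ : ℤ × ℤ) :
    (Function.support (fun g => M' g - M' (g - τ))).Finite := by
  have h1 : (Function.support (fun g => M' (g - τ))).Finite := by
    have : Function.support (fun g => M' (g - τ)) = (fun g => g - τ) ⁻¹' Function.support M' := rfl
    rw [this]
    exact hM.preimage (sub_left_injective (b := τ)).injOn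
  refine (hM.union h1).subset ?_
  intro g hg
  by_contra h
  rw [Set.mem_union, not_or, Function.notMem_support, Function.notMem_support] at h
  apply hg
  show M' g - M' (g - τ) = 0
  rw [h.1, h.2, sub_zero]

theorem mom_axis {w : Fin 5 → ℤ} {d : ℤ × ℤ} {Q M' : ℤ × ℤ → ℤ} {c : Fin 5} {α β : ℤ × ℤ}
    (hM : (Function.support M').Finite)
    (hQ : ∀ g, Q g = (if g = α then 1 else 0) + (if g = β then 1 else 0) +
      (M' g - M' (g - om w c))) (F : ℚ → ℚ) :
    mom Q (fun g => F (ev (tw d g) (-(w c : ℚ)) 1)) =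
      F (ev (tw d α) (-(w c : ℚ)) 1) + F (ev (tw d β) (-(w c : ℚ)) 1) := by
  have hQ' : Q = fun g => ((if g = α then (1 : ℤ) else 0) + (if g = β then (1 : ℤ) else 0)) +
      (M' g - M' (g - om w c)) := funext hQ
  have hadd : (Function.support (fun g : ℤ × ℤ =>
      (if g = α then (1 : ℤ) else 0) + (if g = β then (1 : ℤ) else 0))).Finite := by
    refine ((M2_delta_fin α).union (M2_delta_fin β)).subset ?_
    intro g hg
    by_contra h
    rw [Set.mem_union, not_or, Function.notMem_support, Function.notMem_support] at h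
    apply hg
    show (if g = α then (1 : ℤ) else 0) + (if g = β then (1 : ℤ) else 0) = 0
    rw [h.1, h.2, add_zero]
  have hinv : ∀ g, F (ev (tw d g) (-(w c : ℚ)) 1) -
      F (ev (tw d (g + om w c)) (-(w c : ℚ)) 1) = 0 := by
    intro g
    rw [ev_tw_om, ev_ch]
    have : -(w c : ℚ) + (w c : ℚ) * 1 = 0 := by ring
    rw [this, mul_zero, add_zero, sub_self]
  rw [hQ', mom_addQ hadd (M2_diff_fin hM (om w c)), mom_addQ (M2_delta_fin α) (M2_delta_fin β),
    mom_delta, mom_delta, mom_diff hM, mom_congr hinv]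
  have h0 : mom M' (fun _ => (0 : ℚ)) = 0 := by
    unfold mom
    simp
  rw [h0, add_zero]

end Pool.Agent.Lib.MP_745d3a_ag.GM

end

section

set_option autoImplicit false
set_option linter.unusedSectionVars false
set_option linter.unusedSimpArgs false
set_option linter.unusedVariables false

open MvPolynomial

namespace Pool.Agent.Lib.MP_745d3a_ag.GM

/-- The first three moments. -/
structure MomLaw (Q : ℤ × ℤ → ℤ) (d : ℤ × ℤ) (l : ℚ × ℚ) : Prop where
  fin : (Function.support Q).Finite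
  one : mom Q (fun _ => 1) = 2
  fst : ∀ x y, mom Q (fun g => ev (tw d g) x y) = 0
  snd : ∀ x y, mom Q (fun g => (ev (tw d g) x y) ^ 2) = 2 * (ev l x y) ^ 2

private lemma N2_lin2 {Q : ℤ × ℤ → ℤ} (hQ : (Function.support Q).Finite) (a b : ℚ)
    (f f' : ℤ × ℤ → ℚ) :
    mom Q (fun g => a * f g + b * f' g) = a * mom Q f + b * mom Q f' := by
  rw [mom_add hQ (fun g => a * f g) (fun g => b * f' g), mom_smul, mom_smul]

private lemma N2_lin3 {Q : ℤ × ℤ → ℤ} (hQ : (Function.support Q).Finite) (a b c : ℚ)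
    (f f' f'' : ℤ × ℤ → ℚ) :
    mom Q (fun g => a * f g + b * f' g + c * f'' g) =
      a * mom Q f + b * mom Q f' + c * mom Q f'' := by
  rw [mom_add hQ (fun g => a * f g + b * f' g) (fun g => c * f'' g), N2_lin2 hQ, mom_smul]

private lemma N2_lin5 {Q : ℤ × ℤ → ℤ} (hQ : (Function.support Q).Finite) (a b c e k : ℚ)
    (f1 f2 f3 f4 f5 : ℤ × ℤ → ℚ) :
    mom Q (fun g => a * f1 g + b * f2 g + c * f3 g + e * f4 g + k * f5 g) =
      a * mom Q f1 + b * mom Q f2 + c * mom Q f3 + e * mom Q f4 + k * mom Q f5 := by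
  rw [mom_add hQ (fun g => a * f1 g + b * f2 g + c * f3 g + e * f4 g) (fun g => k * f5 g),
    mom_add hQ (fun g => a * f1 g + b * f2 g + c * f3 g) (fun g => e * f4 g), N2_lin3 hQ,
    mom_smul, mom_smul]

private lemma N2_one {Q : ℤ × ℤ → ℤ} (hQ : (Function.support Q).Finite) (d : ℤ × ℤ) (x y : ℚ) :
    mom Q (fun g => ev (tw d g) x y) =
      x * mom Q (fun g => (tw d g).1) + y * mom Q (fun g => (tw d g).2) := by
  rw [← N2_lin2 hQ]
  apply mom_congr
  intro g
  unfold ev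
  ring

private lemma N2_two {Q : ℤ × ℤ → ℤ} (hQ : (Function.support Q).Finite) (d : ℤ × ℤ) (x y : ℚ) :
    mom Q (fun g => (ev (tw d g) x y) ^ 2) =
      x ^ 2 * mom Q (fun g => (tw d g).1 ^ 2) +
        2 * x * y * mom Q (fun g => (tw d g).1 * (tw d g).2) +
        y ^ 2 * mom Q (fun g => (tw d g).2 ^ 2) := by
  rw [← N2_lin3 hQ]
  apply mom_congr
  intro g
  unfold ev
  ring

private lemma N2_four {Q : ℤ × ℤ → ℤ} (hQ : (Function.support Q).Finite) (d : ℤ × ℤ) (x y : ℚ) :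
    mom Q (fun g => (ev (tw d g) x y) ^ 4) =
      x ^ 4 * mom Q (fun g => (tw d g).1 ^ 4) +
        4 * x ^ 3 * y * mom Q (fun g => (tw d g).1 ^ 3 * (tw d g).2) +
        6 * x ^ 2 * y ^ 2 * mom Q (fun g => (tw d g).1 ^ 2 * (tw d g).2 ^ 2) +
        4 * x * y ^ 3 * mom Q (fun g => (tw d g).1 * (tw d g).2 ^ 3) +
        y ^ 4 * mom Q (fun g => (tw d g).2 ^ 4) := by
  rw [← N2_lin5 hQ]
  apply mom_congr
  intro g
  unfold ev
  ring

private lemma N2_three (W1 W2 W3 p q r : ℚ) (h12 : W1 ≠ W2) (h23 : W2 ≠ W3) (h13 : W1 ≠ W3)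
    (h1 : W1 ^ 2 * p + W1 * q + r = 0) (h2 : W2 ^ 2 * p + W2 * q + r = 0)
    (h3 : W3 ^ 2 * p + W3 * q + r = 0) : p = 0 := by
  have e1 : (W1 - W2) * ((W1 + W2) * p + q) = 0 := by linear_combination h1 - h2
  have e2 : (W1 - W3) * ((W1 + W3) * p + q) = 0 := by linear_combination h1 - h3
  have e1' := (mul_eq_zero.mp e1).resolve_left (sub_ne_zero.mpr h12)
  have e2' := (mul_eq_zero.mp e2).resolve_left (sub_ne_zero.mpr h13)
  have e3 : (W2 - W3) * p = 0 := by linear_combination e1' - e2'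
  exact (mul_eq_zero.mp e3).resolve_left (sub_ne_zero.mpr h23)

theorem law_num {Q : ℤ × ℤ → ℤ} (hQ : (Function.support Q).Finite) {d : ℤ × ℤ} {w : Fin 5 → ℤ}
    (hti : ∀ x y x' y' : ℚ,
      2 * mom Q (fun g => (tw d g).1 ^ 2 * (ev (tw d g) x y * ev (tw d g) x' y')) =
        mom Q (fun g => (tw d g).1 ^ 2) * mom Q (fun g => ev (tw d g) x y * ev (tw d g) x' y'))
    (hax : ∀ c : Fin 5, ∃ s : ℚ, ∀ F : ℚ → ℚ,
      mom Q (fun g => F (ev (tw d g) (-(w c : ℚ)) 1)) = F s + F (-s))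
    (h3 : ∃ a b c, w a ≠ w b ∧ w b ≠ w c ∧ w a ≠ w c) :
    ∃ l : ℚ × ℚ, MomLaw Q d l := by
  set A := mom Q (fun g => (tw d g).1 ^ 2) with hA
  set B := mom Q (fun g => (tw d g).1 * (tw d g).2) with hB
  set C := mom Q (fun g => (tw d g).2 ^ 2) with hC
  set m1 := mom Q (fun g => (tw d g).1) with hm1
  set m2 := mom Q (fun g => (tw d g).2) with hm2
  have h40 : 2 * mom Q (fun g => (tw d g).1 ^ 4) = A * A := by
    have := hti 1 0 1 0
    have e1 : mom Q (fun g => (tw d g).1 ^ 2 * (ev (tw d g) 1 0 * ev (tw d g) 1 0)) =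
        mom Q (fun g => (tw d g).1 ^ 4) := mom_congr (fun g => by unfold ev; ring)
    have e2 : mom Q (fun g => ev (tw d g) 1 0 * ev (tw d g) 1 0) = A :=
      mom_congr (fun g => by unfold ev; ring)
    rw [e1, e2] at this
    exact this
  have h31 : 2 * mom Q (fun g => (tw d g).1 ^ 3 * (tw d g).2) = A * B := by
    have := hti 1 0 0 1
    have e1 : mom Q (fun g => (tw d g).1 ^ 2 * (ev (tw d g) 1 0 * ev (tw d g) 0 1)) =
        mom Q (fun g => (tw d g).1 ^ 3 * (tw d g).2) := mom_congr (fun g => by unfold ev; ring)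
    have e2 : mom Q (fun g => ev (tw d g) 1 0 * ev (tw d g) 0 1) = B :=
      mom_congr (fun g => by unfold ev; ring)
    rw [e1, e2] at this
    exact this
  have h22 : 2 * mom Q (fun g => (tw d g).1 ^ 2 * (tw d g).2 ^ 2) = A * C := by
    have := hti 0 1 0 1
    have e1 : mom Q (fun g => (tw d g).1 ^ 2 * (ev (tw d g) 0 1 * ev (tw d g) 0 1)) =
        mom Q (fun g => (tw d g).1 ^ 2 * (tw d g).2 ^ 2) :=
      mom_congr (fun g => by unfold ev; ring)
    have e2 : mom Q (fun g => ev (tw d g) 0 1 * ev (tw d g) 0 1) = C :=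
      mom_congr (fun g => by unfold ev; ring)
    rw [e1, e2] at this
    exact this
  have hone : mom Q (fun _ => 1) = 2 := by
    obtain ⟨s, hs⟩ := hax 0
    have := hs (fun _ => 1)
    norm_num at this
    exact this
  have hlin : ∀ c : Fin 5, -(w c : ℚ) * m1 + m2 = 0 := by
    intro c
    obtain ⟨s, hs⟩ := hax c
    have h1 := hs (fun z => z)
    rw [N2_one hQ] at h1
    rw [hm1, hm2]
    linarith
  have hsq : ∀ c : Fin 5, ∃ s : ℚ,
      (w c : ℚ) ^ 2 * A - 2 * (w c : ℚ) * B + C = 2 * s ^ 2 ∧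
      2 * ((w c : ℚ) ^ 4 * mom Q (fun g => (tw d g).1 ^ 4) -
        4 * (w c : ℚ) ^ 3 * mom Q (fun g => (tw d g).1 ^ 3 * (tw d g).2) +
        6 * (w c : ℚ) ^ 2 * mom Q (fun g => (tw d g).1 ^ 2 * (tw d g).2 ^ 2) -
        4 * (w c : ℚ) * mom Q (fun g => (tw d g).1 * (tw d g).2 ^ 3) +
        mom Q (fun g => (tw d g).2 ^ 4)) =
        ((w c : ℚ) ^ 2 * A - 2 * (w c : ℚ) * B + C) ^ 2 := by
    intro c
    obtain ⟨s, hs⟩ := hax c
    have h2 := hs (fun z => z ^ 2)
    have h4 := hs (fun z => z ^ 4)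
    rw [N2_two hQ] at h2
    rw [N2_four hQ] at h4
    have h2' : (w c : ℚ) ^ 2 * A - 2 * (w c : ℚ) * B + C = 2 * s ^ 2 := by
      rw [hA, hB, hC]
      linear_combination h2
    refine ⟨s, h2', ?_⟩
    rw [h2']
    linear_combination 2 * h4
  obtain ⟨a, b, c, hab, hbc, hac⟩ := h3
  have hab' : (w a : ℚ) ≠ w b := by exact_mod_cast hab
  have hbc' : (w b : ℚ) ≠ w c := by exact_mod_cast hbc
  have hac' : (w a : ℚ) ≠ w c := by exact_mod_cast hac
  have hm1z : m1 = 0 := by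
    have e : ((w a : ℚ) - w b) * m1 = 0 := by linear_combination hlin b - hlin a
    exact (mul_eq_zero.mp e).resolve_left (sub_ne_zero.mpr hab')
  have hm2z : m2 = 0 := by
    have := hlin a
    rw [hm1z] at this
    linarith
  have hdisc : 4 * (A * C - B ^ 2) = 0 := by
    apply N2_three (w a) (w b) (w c) _
      (-(8 * mom Q (fun g => (tw d g).1 * (tw d g).2 ^ 3) - 4 * B * C))
      (2 * mom Q (fun g => (tw d g).2 ^ 4) - C ^ 2) hab' hbc' hac'
    · obtain ⟨s, _, h⟩ := hsq a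
      linear_combination h - (w a : ℚ) ^ 4 * h40 + 4 * (w a : ℚ) ^ 3 * h31 -
        6 * (w a : ℚ) ^ 2 * h22
    · obtain ⟨s, _, h⟩ := hsq b
      linear_combination h - (w b : ℚ) ^ 4 * h40 + 4 * (w b : ℚ) ^ 3 * h31 -
        6 * (w b : ℚ) ^ 2 * h22
    · obtain ⟨s, _, h⟩ := hsq c
      linear_combination h - (w c : ℚ) ^ 4 * h40 + 4 * (w c : ℚ) ^ 3 * h31 -
        6 * (w c : ℚ) ^ 2 * h22
  have hfst : ∀ x y, mom Q (fun g => ev (tw d g) x y) = 0 := by
    intro x y
    rw [N2_one hQ, ← hm1, ← hm2, hm1z, hm2z]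
    ring
  by_cases hA0 : A = 0
  · have hB0 : B = 0 := by
      have : B ^ 2 = 0 := by
        rw [hA0] at hdisc
        linarith
      exact pow_eq_zero_iff (two_ne_zero) |>.mp this
    obtain ⟨s, hs, _⟩ := hsq a
    rw [hA0, hB0] at hs
    refine ⟨(0, s), hQ, hone, hfst, fun x y => ?_⟩
    rw [N2_two hQ, ← hA, ← hB, ← hC, hA0, hB0]
    unfold ev
    linear_combination y ^ 2 * hs
  · obtain ⟨c', hc'⟩ : ∃ c' : Fin 5, -A * (w c' : ℚ) + B ≠ 0 := by
      by_contra hcon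
      push Not at hcon
      have h1 := hcon a
      have h2 := hcon b
      have : A * ((w a : ℚ) - w b) = 0 := by linear_combination h2 - h1
      rcases mul_eq_zero.mp this with h | h
      · exact hA0 h
      · exact hab' (sub_eq_zero.mp h)
    obtain ⟨s, hs, _⟩ := hsq c'
    have hk : 2 * (s / (-A * (w c' : ℚ) + B)) ^ 2 * A = 1 := by
      have h5 : 2 * s ^ 2 * A = (-A * (w c' : ℚ) + B) ^ 2 := by
        rw [← hs]
        linear_combination hdisc / 4
      have h6 : 2 * (s / (-A * (w c' : ℚ) + B)) ^ 2 * A =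
          (2 * s ^ 2 * A) / (-A * (w c' : ℚ) + B) ^ 2 := by
        rw [div_pow]
        ring
      rw [h6, h5]
      exact div_self (pow_ne_zero 2 hc')
    refine ⟨(s / (-A * (w c' : ℚ) + B) * A, s / (-A * (w c' : ℚ) + B) * B), hQ, hone, hfst,
      fun x y => ?_⟩
    rw [N2_two hQ, ← hA, ← hB, ← hC]
    unfold ev
    set k := s / (-A * (w c' : ℚ) + B) with hkk
    have h6 : C * A = B ^ 2 := by linarith
    have h7 : A * (x ^ 2 * A + 2 * x * y * B + y ^ 2 * C -
        2 * (k * A * x + k * B * y) ^ 2) = 0 := by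
      linear_combination y ^ 2 * h6 - (A * x + B * y) ^ 2 * hk
    have h8 := (mul_eq_zero.mp h7).resolve_left hA0
    simp only
    linarith

end Pool.Agent.Lib.MP_745d3a_ag.GM

end
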