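import Pool.Agent.Lib.MP_745d3a_ag.GM.Good
import Pool.Agent.Lib.MP_745d3a_ag.GM.Mom

/-!
The law for sections; the cases for a simple minimum and maximum.
-/

section

set_option autoImplicit false
set_option linter.unusedSectionVars false
set_option linter.unusedSimpArgs false
set_option linter.unusedVariables false

open MvPolynomial

namespace Pool.Agent.Lib.MP_745d3a_ag.GM

section

variable {K M : Type*} [Field K] [CharZero K] [AddCommGroup M]
  [Module (MvPolynomial (Fin 5) K) M]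
  [Module.IsReflexive (MvPolynomial (Fin 5) K) M] [Module.Finite (MvPolynomial (Fin 5) K) M]
  {w : Fin 5 → ℤ} {𝓜 : ℤ × ℤ → AddSubgroup M} [DirectSum.Decomposition 𝓜]
  [SetLike.GradedSMul (weightedHomogeneousSubmodule K (om w)) 𝓜]
  {d : ℤ × ℤ}
  {br : M →ₗ[MvPolynomial (Fin 5) K] M →ₗ[MvPolynomial (Fin 5) K] MvPolynomial (Fin 5) K}

/-- The law for axis pairs and good sections. -/
structure Law (w : Fin 5 → ℤ) (𝓜 : ℤ × ℤ → AddSubgroup M) (d : ℤ × ℤ)
    (br : M →ₗ[MvPolynomial (Fin 5) K] M →ₗ[MvPolynomial (Fin 5) K] MvPolynomial (Fin 5) K)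
    (l : ℚ × ℚ) : Prop where
  axis : ∀ {c : Fin 5} {α β : ℤ × ℤ} {m n : M} {k : ℕ}, AxisPair w 𝓜 br c α β m n k →
    (ev (tw d α) (-(w c : ℚ)) 1) ^ 2 = (ev l (-(w c : ℚ)) 1) ^ 2
  pos : ∀ {s : Fin 5} {ζ : ℤ × ℤ} {σ : M}, Good 𝓜 br s ζ σ → ∃ m : ℚ × ℚ,
    (∀ x y : ℚ, (ev (tw d ζ) x y) ^ 2 - (ev l x y) ^ 2 = 4 * ev (ch w s) x y * ev m x y) ∧
    ∀ x y : ℤ, (∀ a, a ≠ s → 0 < x + w a * y) → 0 ≤ ev m x y
  planar : ∀ {s t : Fin 5} {ζ : ℤ × ℤ} {σ : M}, s ≠ t → Good 𝓜 br s ζ σ →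
    (∃ (k : ℕ) (y : M), br σ y = (X t : MvPolynomial (Fin 5) K) ^ k) → ∃ l' : ℚ,
      (∀ x y : ℚ, (ev (tw d ζ) x y) ^ 2 - (ev l x y) ^ 2 =
        4 * l' * ev (ch w s) x y * ev (ch w t) x y) ∧
      ((∃ (y : M) (e : Fin 5 →₀ ℕ), e s = 0 ∧ e t = 0 ∧ coeff e (br σ y) ≠ 0) ∨ 1 ≤ l')

lemma Law.neg {l : ℚ × ℚ} (L : Law w 𝓜 d br l) : Law w 𝓜 d br (-l) := by
  have h : ∀ x y, (ev (-l) x y) ^ 2 = (ev l x y) ^ 2 := by
    intro x y
    simp only [ev, Prod.fst_neg, Prod.snd_neg]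
    ring
  refine ⟨?_, ?_, ?_⟩
  · intro c α β m n k A
    rw [h]
    exact L.axis A
  · intro s ζ σ G
    simp only [h]
    exact L.pos G
  · intro s t ζ σ hst G hk
    simp only [h]
    exact L.planar hst G hk

end

end Pool.Agent.Lib.MP_745d3a_ag.GM

end

section

set_option autoImplicit false
set_option linter.unusedSectionVars false
set_option linter.unusedSimpArgs false
set_option linter.unusedVariables false

open MvPolynomial

namespace Pool.Agent.Lib.MP_745d3a_ag.GM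

section

variable {K M : Type*} [Field K] [CharZero K] [AddCommGroup M]
  [Module (MvPolynomial (Fin 5) K) M]
  [Module.IsReflexive (MvPolynomial (Fin 5) K) M] [Module.Finite (MvPolynomial (Fin 5) K) M]
  {w : Fin 5 → ℤ} {𝓜 : ℤ × ℤ → AddSubgroup M} [DirectSum.Decomposition 𝓜]
  [SetLike.GradedSMul (weightedHomogeneousSubmodule K (om w)) 𝓜]
  {d : ℤ × ℤ}
  {br : M →ₗ[MvPolynomial (Fin 5) K] M →ₗ[MvPolynomial (Fin 5) K] MvPolynomial (Fin 5) K}

theorem vertex_num (P : Pairing w 𝓜 d br) {l : ℚ × ℚ} (L : Law w 𝓜 d br l) {e : ℤ} {s : Fin 5}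
    (hs : Ext w e s) :
    ∃ (α β : ℤ × ℤ) (σ τ : M) (k : ℕ) (n1 n2 : ℚ), Good 𝓜 br s α σ ∧ Good 𝓜 br s β τ ∧
      br σ τ = (X s : MvPolynomial (Fin 5) K) ^ k ∧ tw d α = -l + (2 * n1) • ch w s ∧
      tw d β = l + (2 * n2) • ch w s ∧ n1 + n2 = k := by
  have core : ∀ (α β : ℤ × ℤ) (σ τ : M) (k : ℕ), Good 𝓜 br s α σ → Good 𝓜 br s β τ →
      br σ τ = (X s : MvPolynomial (Fin 5) K) ^ k → α + β - d = k • om w s →
      ev (tw d α) (-(w s : ℚ)) 1 = -ev l (-(w s : ℚ)) 1 →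
      ∃ (α β : ℤ × ℤ) (σ τ : M) (k : ℕ) (n1 n2 : ℚ), Good 𝓜 br s α σ ∧ Good 𝓜 br s β τ ∧
      br σ τ = (X s : MvPolynomial (Fin 5) K) ^ k ∧ tw d α = -l + (2 * n1) • ch w s ∧
      tw d β = l + (2 * n2) • ch w s ∧ n1 + n2 = k := by
    intro α β σ τ k h1 h2 h3 h4 h5
    have e1 : α.1 + β.1 - d.1 = k := by
      have := congrArg Prod.fst h4
      simpa [om] using this
    have e2 : α.2 + β.2 - d.2 = k * w s := by
      have := congrArg Prod.snd h4
      simpa [om] using this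
    have e1' : (α.1 : ℚ) + β.1 - d.1 = k := by exact_mod_cast e1
    have e2' : (α.2 : ℚ) + β.2 - d.2 = k * w s := by exact_mod_cast e2
    simp only [ev, tw] at h5
    refine ⟨α, β, σ, τ, k, (2 * (α.1 : ℚ) - d.1 + l.1) / 2, k - (2 * (α.1 : ℚ) - d.1 + l.1) / 2,
      h1, h2, h3, ?_, ?_, by ring⟩
    · refine Prod.ext ?_ ?_
      · simp only [tw, ch, Prod.fst_add, Prod.fst_neg, Prod.smul_fst, smul_eq_mul]
        ring
      · simp only [tw, ch, Prod.snd_add, Prod.snd_neg, Prod.smul_snd, smul_eq_mul]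
        linarith
    · refine Prod.ext ?_ ?_
      · simp only [tw, ch, Prod.fst_add, Prod.smul_fst, smul_eq_mul]
        linarith
      · simp only [tw, ch, Prod.snd_add, Prod.smul_snd, smul_eq_mul]
        linarith
  obtain ⟨α, β, σ, τ, k, Gσ, Gτ, hb, hw⟩ := vertex_pair P hs
  have A : AxisPair w 𝓜 br s α β σ τ k := ⟨Gσ.mem, Gτ.mem, by
    rw [hb, MvPolynomial.coeff_X_pow]
    simp⟩
  rcases sq_eq_sq_iff_eq_or_eq_neg.1 (L.axis A) with h | h
  · have Gn : Good 𝓜 br s α (-σ) := by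
      refine ⟨(𝓜 α).neg_mem Gσ.mem, ?_, ?_⟩
      · intro y hy
        apply Gσ.nd (-y)
        rw [smul_neg, ← hy, neg_neg]
      · obtain ⟨k', y, hy⟩ := Gσ.val
        refine ⟨k', -y, ?_⟩
        rw [map_neg, map_neg, LinearMap.neg_apply, neg_neg]
        exact hy
    refine core β α τ (-σ) k Gτ Gn ?_ ?_ ?_
    · rw [map_neg, P.swap σ τ, neg_neg]
      exact hb
    · rw [add_comm β α]
      exact hw
    · have e1 : α.1 + β.1 - d.1 = k := by
        have := congrArg Prod.fst hw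
        simpa [om] using this
      have e2 : α.2 + β.2 - d.2 = k * w s := by
        have := congrArg Prod.snd hw
        simpa [om] using this
      have e1' : (α.1 : ℚ) + β.1 - d.1 = k := by exact_mod_cast e1
      have e2' : (α.2 : ℚ) + β.2 - d.2 = k * w s := by exact_mod_cast e2
      simp only [ev, tw] at h ⊢
      have e3 : (2 * (β.1 : ℚ) - d.1) = 2 * k - (2 * (α.1 : ℚ) - d.1) := by linarith
      have e4 : (2 * (β.2 : ℚ) - d.2) = 2 * (k * w s) - (2 * (α.2 : ℚ) - d.2) := by linarith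
      rw [e3, e4]
      linarith
  · exact core α β σ τ k Gσ Gτ hb hw h

end

end Pool.Agent.Lib.MP_745d3a_ag.GM

end

section

set_option autoImplicit false
set_option linter.unusedSectionVars false
set_option linter.unusedSimpArgs false
set_option linter.unusedVariables false

open MvPolynomial

namespace Pool.Agent.Lib.MP_745d3a_ag.GM

section

variable {K M : Type*} [Field K] [CharZero K] [AddCommGroup M]
  [Module (MvPolynomial (Fin 5) K) M]
  [Module.IsReflexive (MvPolynomial (Fin 5) K) M] [Module.Finite (MvPolynomial (Fin 5) K) M]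
  {w : Fin 5 → ℤ} {𝓜 : ℤ × ℤ → AddSubgroup M} [DirectSum.Decomposition 𝓜]
  [SetLike.GradedSMul (weightedHomogeneousSubmodule K (om w)) 𝓜]
  {d : ℤ × ℤ}
  {br : M →ₗ[MvPolynomial (Fin 5) K] M →ₗ[MvPolynomial (Fin 5) K] MvPolynomial (Fin 5) K}

private lemma V3_key {w : Fin 5 → ℤ} {s : Fin 5} {m : ℚ × ℚ}
    (h : ∀ x y : ℚ, ev (ch w s) x y * ev m x y = 0) (x y : ℚ) : ev m x y = 0 := by
  by_cases hc : ev (ch w s) x y = 0
  · have h1 := h (x + 1) y
    have h2 := h (x - 1) y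
    simp only [ev, ch, one_mul] at hc h1 h2 ⊢
    have e1 : x + 1 + (w s : ℚ) * y = 1 := by linarith
    have e2 : x - 1 + (w s : ℚ) * y = -1 := by linarith
    rw [e1, one_mul] at h1
    rw [e2] at h2
    linarith
  · rcases mul_eq_zero.mp (h x y) with h1 | h1
    · exact absurd h1 hc
    · exact h1

private lemma V3_ev {d ζ : ℤ × ℤ} {l : ℚ × ℚ} {w : Fin 5 → ℤ} {s : Fin 5} {n : ℚ}
    (h : tw d ζ = -l + (2 * n) • ch w s) (x y : ℚ) :
    (ev (tw d ζ) x y) ^ 2 - (ev l x y) ^ 2 =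
      4 * ev (ch w s) x y * (n * (n * ev (ch w s) x y - ev l x y)) := by
  have h1 : ev (tw d ζ) x y = - ev l x y + 2 * n * ev (ch w s) x y := by
    rw [h]
    simp only [ev, Prod.fst_add, Prod.snd_add, Prod.fst_neg, Prod.snd_neg, Prod.smul_fst,
      Prod.smul_snd, smul_eq_mul]
    ring
  rw [h1]
  ring

private lemma V3_lin {l m : ℚ × ℚ} {w : Fin 5 → ℤ} {s : Fin 5} {n : ℚ}
    (h : ∀ x y : ℚ, 4 * ev (ch w s) x y * (n * (n * ev (ch w s) x y - ev l x y)) =
      4 * ev (ch w s) x y * ev m x y) (x y : ℚ) :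
    n * (n * ev (ch w s) x y - ev l x y) = ev m x y := by
  have h1 := V3_key (w := w) (s := s)
    (m := (n * (n * (ch w s).1 - l.1) - m.1, n * (n * (ch w s).2 - l.2) - m.2)) (fun x y => by
      have h2 := h x y
      simp only [ev] at h2 ⊢
      linear_combination h2 / 4) x y
  simp only [ev] at h1 ⊢
  linear_combination h1

theorem Law.pos1 {l : ℚ × ℚ} (L : Law w 𝓜 d br l) {s : Fin 5} {ζ : ℤ × ℤ} {σ : M}
    (G : Good 𝓜 br s ζ σ) {n : ℚ} (h : tw d ζ = -l + (2 * n) • ch w s) {x y : ℤ}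
    (hc : ∀ a, a ≠ s → 0 < x + w a * y) : 0 ≤ n * (n * ev (ch w s) x y - ev l x y) := by
  obtain ⟨m, hm, hpos⟩ := L.pos G
  have h1 := V3_lin (l := l) (m := m) (w := w) (s := s) (n := n) (fun x y => by
    rw [← V3_ev h x y, hm x y]) x y
  rw [h1]
  exact hpos x y hc

theorem Law.planar1 {l : ℚ × ℚ} (L : Law w 𝓜 d br l) {s t : Fin 5} {ζ : ℤ × ℤ} {σ : M}
    (hst : s ≠ t) (G : Good 𝓜 br s ζ σ)
    (ht : ∃ (k : ℕ) (y : M), br σ y = (X t : MvPolynomial (Fin 5) K) ^ k)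
    {n : ℚ} (h : tw d ζ = -l + (2 * n) • ch w s) : ∃ l' : ℚ,
      (∀ x y : ℚ, n * (n * ev (ch w s) x y - ev l x y) = l' * ev (ch w t) x y) ∧
      ((∃ (y : M) (e : Fin 5 →₀ ℕ), e s = 0 ∧ e t = 0 ∧ coeff e (br σ y) ≠ 0) ∨ 1 ≤ l') := by
  obtain ⟨l', h1, h2⟩ := L.planar hst G ht
  refine ⟨l', fun x y => ?_, h2⟩
  have h3 := V3_lin (l := l) (m := (l' * (ch w t).1, l' * (ch w t).2)) (w := w) (s := s) (n := n)
    (fun x y => by
      rw [← V3_ev h x y, h1 x y]
      simp only [ev]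
      ring) x y
  rw [h3]
  simp only [ev]
  ring

end

end Pool.Agent.Lib.MP_745d3a_ag.GM

end

section

set_option autoImplicit false
set_option linter.unusedSectionVars false
set_option linter.unusedSimpArgs false
set_option linter.unusedVariables false

open MvPolynomial

namespace Pool.Agent.Lib.MP_745d3a_ag.GM

section

variable {K M : Type*} [Field K] [CharZero K] [AddCommGroup M]
  [Module (MvPolynomial (Fin 5) K) M]
  [Module.IsReflexive (MvPolynomial (Fin 5) K) M] [Module.Finite (MvPolynomial (Fin 5) K) M]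
  {w : Fin 5 → ℤ} {𝓜 : ℤ × ℤ → AddSubgroup M} [DirectSum.Decomposition 𝓜]
  [SetLike.GradedSMul (weightedHomogeneousSubmodule K (om w)) 𝓜]
  {d : ℤ × ℤ}
  {br : M →ₗ[MvPolynomial (Fin 5) K] M →ₗ[MvPolynomial (Fin 5) K] MvPolynomial (Fin 5) K}

/-- A nonzero value whose weight is a nonpositive multiple sum is a constant. -/
theorem Pairing.free_of_neg (P : Pairing w 𝓜 d br) {α β : ℤ × ℤ} {σ τ : M} (hσ : σ ∈ 𝓜 α)
    (hτ : τ ∈ 𝓜 β) (h : br σ τ ≠ 0) {n m : ℚ} {s t : Fin 5} (hn : n ≤ 0) (hm : m ≤ 0)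
    (hw : tw d α + tw d β = (2 * n) • ch w s + (2 * m) • ch w t) :
    Module.Free (MvPolynomial (Fin 5) K) M := by
  have hhom := P.hom α β σ hσ τ hτ
  have hg : (α + β - d).1 ≤ 0 := by
    have h1 := congrArg Prod.fst hw
    simp only [tw, ch, Prod.fst_add, Prod.smul_fst, smul_eq_mul, mul_one] at h1
    have h2 : ((α.1 + β.1 - d.1 : ℤ) : ℚ) ≤ 0 := by
      push_cast
      linarith
    have h3 : α.1 + β.1 - d.1 ≤ 0 := by exact_mod_cast h2
    simpa using h3
  have hsupp : ∀ e : Fin 5 →₀ ℕ, coeff e (br σ τ) ≠ 0 → e = 0 := by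
    intro e he
    have h4 : Finsupp.weight (om w) e = α + β - d := hhom he
    have h5 : (Finsupp.weight (om w) e).1 = ((e.degree : ℕ) : ℤ) := by
      rw [Finsupp.weight_apply, Finsupp.sum, Prod.fst_sum, Finsupp.degree_apply]
      simp [om]
    have h6 : ((e.degree : ℕ) : ℤ) ≤ 0 := by
      rw [← h5, h4]
      exact hg
    have h7 : e.degree = 0 := by omega
    exact (Finsupp.degree_eq_zero_iff e).1 h7
  have hC : br σ τ = C (coeff 0 (br σ τ)) := by
    ext e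
    rw [coeff_C]
    split_ifs with h0
    · rw [h0]
    · by_contra hne
      exact h0 (hsupp e hne).symm
  refine P.free_of_const (c := coeff 0 (br σ τ)) ?_ hC
  intro h0
  apply h
  rw [hC, h0, C_0]

theorem R1_core (P : Pairing w 𝓜 d br) {l : ℚ × ℚ} (L : Law w 𝓜 d br l) {e : ℤ}
    {s t : Fin 5} (hs : Ext w e s) (ht : Ext w (-e) t) (hst : s ≠ t)
    (hl : l.2 = l.1 * w s) {k : ℕ} (hk : 0 < k) (hl1 : l.1 = -(k : ℚ)) {α β : ℤ × ℤ} {σ₁ σ₂ : M}
    (G₁ : Good 𝓜 br s α σ₁) (G₂ : Good 𝓜 br s β σ₂)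
    (hbr : br σ₁ σ₂ = (X s : MvPolynomial (Fin 5) K) ^ k) (hα : tw d α = -l)
    (hβ : tw d β = -l) : Module.Free (MvPolynomial (Fin 5) K) M := by
  obtain ⟨α', β', τ₁, τ₂, k', m1, m2, H1, H2, hbr', hα', hβ', hm⟩ := vertex_num P L ht
  have hpos := L.neg.pos1 (s := t) (n := m2) (x := e * w t) (y := -e) H2 (by
    rw [hβ', neg_neg]) (by
    intro a ha
    have := ht a ha
    nlinarith)
  have hm2 : m2 ≤ 0 := by
    have h1 : ev (ch w t) ((e * w t : ℤ) : ℚ) ((-e : ℤ) : ℚ) = 0 := by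
      rw [ev_ch]
      push_cast
      ring
    have h2 : ev (-l) ((e * w t : ℤ) : ℚ) ((-e : ℤ) : ℚ) =
        (k : ℚ) * ((e * (w t - w s) : ℤ) : ℚ) := by
      simp only [ev, Prod.fst_neg, Prod.snd_neg]
      rw [hl, hl1]
      push_cast
      ring
    rw [h1, h2] at hpos
    have h3 : (0 : ℚ) < ((e * (w t - w s) : ℤ) : ℚ) := by exact_mod_cast hs t (Ne.symm hst)
    have h4 : (0 : ℚ) < k := by exact_mod_cast hk
    have h5 : 0 < (k : ℚ) * ((e * (w t - w s) : ℤ) : ℚ) := mul_pos h4 h3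
    by_contra hcon
    push Not at hcon
    have h6 : 0 < m2 * ((k : ℚ) * ((e * (w t - w s) : ℤ) : ℚ)) := mul_pos hcon h5
    linarith
  have hsum : ∀ γ : ℤ × ℤ, tw d γ = -l →
      tw d γ + tw d β' = (2 * (0 : ℚ)) • ch w s + (2 * m2) • ch w t := by
    intro γ hγ
    rw [hγ, hβ', mul_zero, zero_smul, zero_add, neg_add_cancel_left]
  by_cases c1 : br σ₁ τ₂ = 0
  · by_cases c2 : br σ₂ τ₂ = 0
    · exfalso
      have h1 := P.plu2 σ₁ σ₂ τ₂
      rw [P.swap σ₂ τ₂, P.swap σ₁ τ₂, c1, c2, hbr, neg_zero, zero_smul, zero_smul, sub_zero] at h1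
      have h2 := H2.tf h1
      exact pow_ne_zero k (X_ne_zero s) h2
    · exact P.free_of_neg G₂.mem H2.mem c2 le_rfl hm2 (hsum β hβ)
  · exact P.free_of_neg G₁.mem H2.mem c1 le_rfl hm2 (hsum α hα)

theorem case_three (P : Pairing w 𝓜 d br) {l : ℚ × ℚ} (L : Law w 𝓜 d br l) {e : ℤ}
    {s t : Fin 5} (hs : Ext w e s) (ht : Ext w (-e) t) (hst : s ≠ t)
    (h0 : ev l (-(w s : ℚ)) 1 = 0) : Module.Free (MvPolynomial (Fin 5) K) M := by
  have hl : l.2 = l.1 * w s := by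
    simp only [ev] at h0
    linarith
  have hlc : l = l.1 • ch w s := by
    ext
    · simp [ch]
    · simp [ch, hl]
  obtain ⟨α, β, σ₁, σ₂, k, n1, n2, G₁, G₂, hbr, hα, hβ, hn⟩ := vertex_num P L hs
  have hpt : ∀ (δ : ℤ), -1 ≤ δ → ∀ a, a ≠ s → 0 < (-(2 * e * w s) + δ) + w a * (2 * e) := by
    intro δ hδ a ha
    have := hs a ha
    nlinarith
  have hch : ∀ δ : ℤ, ev (ch w s) ((-(2 * e * w s) + δ : ℤ) : ℚ) ((2 * e : ℤ) : ℚ) = δ := by
    intro δ
    rw [ev_ch]
    push_cast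
    ring
  have hlv : ∀ δ : ℤ, ev l ((-(2 * e * w s) + δ : ℤ) : ℚ) ((2 * e : ℤ) : ℚ) = l.1 * δ := by
    intro δ
    simp only [ev]
    rw [hl]
    push_cast
    ring
  have hlv' : ∀ δ : ℤ, ev (-l) ((-(2 * e * w s) + δ : ℤ) : ℚ) ((2 * e : ℤ) : ℚ) = -(l.1 * δ) := by
    intro δ
    rw [← hlv δ]
    simp only [ev, Prod.fst_neg, Prod.snd_neg]
    ring
  have hn1 : n1 * (n1 - l.1) = 0 := by
    have a1 := L.pos1 G₁ hα (hpt 1 (by norm_num))
    have a2 := L.pos1 G₁ hα (hpt (-1) (by norm_num))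
    rw [hch, hlv] at a1 a2
    push_cast at a1 a2
    nlinarith
  have hn2 : n2 * (n2 + l.1) = 0 := by
    have hβ2 : tw d β = -(-l) + (2 * n2) • ch w s := by rw [neg_neg]; exact hβ
    have a1 := L.neg.pos1 G₂ hβ2 (hpt 1 (by norm_num))
    have a2 := L.neg.pos1 G₂ hβ2 (hpt (-1) (by norm_num))
    rw [hch, hlv'] at a1 a2
    push_cast at a1 a2
    nlinarith
  rcases Nat.eq_zero_or_pos k with hk | hk
  · refine P.free_of_const (a := σ₁) (b := σ₂) (c := (1 : K)) one_ne_zero ?_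
    rw [hbr, hk, pow_zero, C_1]
  · have hk' : (0 : ℚ) < k := by exact_mod_cast hk
    rcases mul_eq_zero.1 hn1 with c1 | c1 <;> rcases mul_eq_zero.1 hn2 with c2 | c2
    · exfalso
      rw [c1, c2] at hn
      linarith
    · have hl1 : l.1 = -(k : ℚ) := by linarith
      refine R1_core P L hs ht hst hl hk hl1 G₁ G₂ hbr ?_ ?_
      · rw [hα, c1, mul_zero, zero_smul, add_zero]
      · have e2 : n2 = -l.1 := by linarith
        rw [hβ, e2]
        ext
        · simp [ch]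
          ring
        · simp [ch, hl]
          ring
    · have hl1 : (-l).1 = -(k : ℚ) := by
        rw [Prod.fst_neg]
        linarith
      have hl' : (-l).2 = (-l).1 * w s := by
        rw [Prod.fst_neg, Prod.snd_neg, hl]
        ring
      refine R1_core P L.neg hs ht hst hl' hk hl1 G₁ G₂ hbr ?_ ?_
      · have e1 : n1 = l.1 := by linarith
        rw [hα, e1]
        ext
        · simp [ch]
          ring
        · simp [ch, hl]
          ring
      · rw [hβ, c2, mul_zero, zero_smul, add_zero, neg_neg]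
    · exfalso
      linarith

end

end Pool.Agent.Lib.MP_745d3a_ag.GM

end

section

set_option autoImplicit false
set_option linter.unusedSectionVars false
set_option linter.unusedSimpArgs false
set_option linter.unusedVariables false

open MvPolynomial

namespace Pool.Agent.Lib.MP_745d3a_ag.GM

section

variable {K M : Type*} [Field K] [CharZero K] [AddCommGroup M]
  [Module (MvPolynomial (Fin 5) K) M]
  [Module.IsReflexive (MvPolynomial (Fin 5) K) M] [Module.Finite (MvPolynomial (Fin 5) K) M]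
  {w : Fin 5 → ℤ} {𝓜 : ℤ × ℤ → AddSubgroup M} [DirectSum.Decomposition 𝓜]
  [SetLike.GradedSMul (weightedHomogeneousSubmodule K (om w)) 𝓜]
  {d : ℤ × ℤ}
  {br : M →ₗ[MvPolynomial (Fin 5) K] M →ₗ[MvPolynomial (Fin 5) K] MvPolynomial (Fin 5) K}

/-- A good section proportional to one which is good at `t` is good at `t`. -/
private lemma R2_good_smul {s : Fin 5} {ζ ζ' : ℤ × ℤ} {σ τ : M} {c : K}
    (hσ : σ ∈ 𝓜 ζ) (G : Good 𝓜 br s ζ' τ) (h : τ = (C c : MvPolynomial (Fin 5) K) • σ) :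
    Good 𝓜 br s ζ σ := by
  obtain ⟨k, y, hy⟩ := G.val
  refine ⟨hσ, ?_, k, (C c : MvPolynomial (Fin 5) K) • y, ?_⟩
  · intro z hz
    refine G.nd ((C c : MvPolynomial (Fin 5) K) • z) ?_
    rw [h, hz, smul_smul, smul_smul, mul_comm]
  · rw [h] at hy
    rw [← hy, map_smul, map_smul, LinearMap.smul_apply]

private lemma R2_ev_weight (w : Fin 5 → ℤ) (e : Fin 5 →₀ ℕ) (x : ℤ) :
    (Finsupp.weight (om w) e).2 - x * (Finsupp.weight (om w) e).1 =
      ∑ a, (e a : ℤ) * (w a - x) := by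
  rw [Finsupp.weight_apply, Finsupp.sum_fintype _ _ (by intro i; simp)]
  rw [Prod.fst_sum, Prod.snd_sum, Finset.mul_sum, ← Finset.sum_sub_distrib]
  refine Finset.sum_congr rfl fun a _ => ?_
  have e1 : (e a • om w a).1 = (e a : ℤ) := by simp [om]
  have e2 : (e a • om w a).2 = (e a : ℤ) * w a := by simp [om]
  rw [e1, e2]
  ring

theorem case_one' (P : Pairing w 𝓜 d br) {l : ℚ × ℚ} (L : Law w 𝓜 d br l) {s t : Fin 5}
    (hs : Ext w 1 s) (ht : Ext w (-1) t) (hst : s ≠ t) (h1 : 0 < ev l (-(w s : ℚ)) 1)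
    (h2 : 0 < ev l (-(w t : ℚ)) 1) : Module.Free (MvPolynomial (Fin 5) K) M ∨
    ∃ (ζ : ℤ × ℤ) (σ : M) (u v : ℚ), Good 𝓜 br s ζ σ ∧ Good 𝓜 br t ζ σ ∧ 0 < u ∧ 0 < v ∧
      tw d ζ = -l - (2 * u) • ch w s ∧ tw d ζ = l - (2 * v) • ch w t := by
  obtain ⟨α, β, σ₁, σ₂, k, n1, n2, G1, G2, hbr, hα, hβ, hn⟩ := vertex_num P L hs
  obtain ⟨α', β', τ₁, τ₂, k', m1, m2, H1, H2, hbr', hα', hβ', hm⟩ := vertex_num P L ht
  have hws : w s < w t := by
    have := hs t (Ne.symm hst)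
    linarith
  have hwsQ : (w s : ℚ) < w t := by exact_mod_cast hws
  have hn1 : n1 ≤ 0 := by
    have hp := L.pos1 G1 hα (x := -w s) (y := 1) (by
      intro a ha
      have := hs a ha
      linarith)
    rw [ev_ch] at hp
    push_cast at hp
    by_contra hcon
    push Not at hcon
    have := mul_pos hcon h1
    nlinarith
  have hm2 : m2 ≤ 0 := by
    have hp := L.neg.pos1 (s := t) (n := m2) (x := w t) (y := -1) H2 (by
      rw [hβ', neg_neg]) (by
      intro a ha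
      have := ht a ha
      linarith)
    have e1 : ev (-l) ((w t : ℤ) : ℚ) ((-1 : ℤ) : ℚ) = ev l (-(w t : ℚ)) 1 := by
      simp only [ev, Prod.fst_neg, Prod.snd_neg]
      push_cast
      ring
    rw [ev_ch, e1] at hp
    push_cast at hp
    by_contra hcon
    push Not at hcon
    have := mul_pos hcon h2
    nlinarith
  by_cases hz : br σ₁ τ₂ = 0
  · right
    obtain ⟨hζ, c, hc, hτ⟩ := Good.prop P G1 H2 hz
    have heq : -l + (2 * n1) • ch w s = l + (2 * m2) • ch w t := by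
      rw [← hα, hζ, hβ']
    have c1 := congrArg Prod.fst heq
    have c2 := congrArg Prod.snd heq
    simp only [Prod.fst_add, Prod.fst_neg, Prod.smul_fst, Prod.snd_add, Prod.snd_neg,
      Prod.smul_snd, ch, smul_eq_mul, mul_one] at c1 c2
    have h1' : 0 < l.1 * -(w s : ℚ) + l.2 * 1 := h1
    have h2' : 0 < l.1 * -(w t : ℚ) + l.2 * 1 := h2
    refine ⟨α, σ₁, -n1, -m2, G1, R2_good_smul G1.mem H2 hτ, ?_, ?_, ?_, ?_⟩
    · have h3 : l.1 * -(w t : ℚ) + l.2 * 1 = -n1 * ((w t : ℚ) - w s) := by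
        linear_combination (1/2) * c1 * (w t : ℚ) - (1/2) * c2
      rw [h3] at h2'
      exact pos_of_mul_pos_left h2' (by linarith)
    · have h3 : l.1 * -(w s : ℚ) + l.2 * 1 = -m2 * ((w t : ℚ) - w s) := by
        linear_combination (1/2) * c1 * (w s : ℚ) - (1/2) * c2
      rw [h3] at h1'
      exact pos_of_mul_pos_left h1' (by linarith)
    · rw [hα, sub_eq_add_neg, ← neg_smul]
      congr 2
      ring
    · rw [hζ, hβ', sub_eq_add_neg, ← neg_smul]
      congr 2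
      ring
  · left
    refine P.free_of_neg (s := s) (t := t) G1.mem H2.mem hz hn1 hm2 ?_
    rw [hα, hβ']
    abel

theorem case_two' (P : Pairing w 𝓜 d br) {l : ℚ × ℚ} (L : Law w 𝓜 d br l) {s t : Fin 5}
    (hs : Ext w 1 s) (ht : Ext w (-1) t) (hst : s ≠ t) (h1 : 0 < ev l (-(w s : ℚ)) 1)
    (h2 : ev l (-(w t : ℚ)) 1 < 0) : Module.Free (MvPolynomial (Fin 5) K) M := by
  obtain ⟨α, β, σ₁, σ₂, k, n1, n2, G1, G2, hbr, hα, hβ, hn⟩ := vertex_num P L hs
  obtain ⟨α', β', τ₁, τ₂, k', m1, m2, H1, H2, hbr', hα', hβ', hm⟩ := vertex_num P L ht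
  have hws : w s < w t := by
    have := hs t (Ne.symm hst)
    linarith
  have hwsQ : (w s : ℚ) < w t := by exact_mod_cast hws
  have hn1 : n1 ≤ 0 := by
    have hp := L.pos1 G1 hα (x := -w s) (y := 1) (by
      intro a ha
      have := hs a ha
      linarith)
    rw [ev_ch] at hp
    push_cast at hp
    by_contra hcon
    push Not at hcon
    have := mul_pos hcon h1
    nlinarith
  have hm1 : m1 ≤ 0 := by
    have hp := L.pos1 (s := t) (n := m1) (x := w t) (y := -1) H1 hα' (by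
      intro a ha
      have := ht a ha
      linarith)
    have e1 : ev l ((w t : ℤ) : ℚ) ((-1 : ℤ) : ℚ) = -ev l (-(w t : ℚ)) 1 := by
      simp only [ev]
      push_cast
      ring
    rw [ev_ch, e1] at hp
    push_cast at hp
    by_contra hcon
    push Not at hcon
    have := mul_pos hcon (neg_pos.2 h2)
    nlinarith
  have h1' : 0 < l.1 * -(w s : ℚ) + l.2 * 1 := h1
  have hz : br σ₁ τ₁ = 0 := by
    by_contra hne
    obtain ⟨e, he⟩ := MvPolynomial.ne_zero_iff.1 hne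
    have hw : Finsupp.weight (om w) e = α + α' - d := P.hom α α' σ₁ G1.mem τ₁ H1.mem he
    have hpos : 0 ≤ ∑ a, (e a : ℤ) * (w a - w s) := by
      refine Finset.sum_nonneg fun a _ => ?_
      rcases eq_or_ne a s with rfl | ha
      · simp
      · have := hs a ha
        exact mul_nonneg (by positivity) (by linarith)
    rw [← R2_ev_weight, hw] at hpos
    have c1 := congrArg Prod.fst hα
    have c2 := congrArg Prod.snd hα
    have d1 := congrArg Prod.fst hα'
    have d2 := congrArg Prod.snd hα'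
    simp only [tw, Prod.fst_add, Prod.fst_neg, Prod.smul_fst, Prod.snd_add, Prod.snd_neg,
      Prod.smul_snd, ch, smul_eq_mul, mul_one] at c1 c2 d1 d2
    have hposQ : (0 : ℚ) ≤ ((α + α' - d).2 - w s * (α + α' - d).1 : ℤ) := by exact_mod_cast hpos
    simp only [Prod.fst_add, Prod.snd_add, Prod.fst_sub, Prod.snd_sub] at hposQ
    push_cast at hposQ
    have h3 : ((α.2 : ℚ) + α'.2 - d.2 - w s * (α.1 + α'.1 - d.1)) =
        -(l.1 * -(w s : ℚ) + l.2 * 1) + m1 * ((w t : ℚ) - w s) := by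
      linear_combination (1/2) * c2 + (1/2) * d2 - (w s : ℚ) * ((1/2) * c1 + (1/2) * d1)
    rw [h3] at hposQ
    have h4 : m1 * ((w t : ℚ) - w s) ≤ 0 :=
      mul_nonpos_of_nonpos_of_nonneg hm1 (by linarith)
    linarith
  obtain ⟨hζ, c, hc, hτ⟩ := Good.prop P G1 H1 hz
  have heq : -l + (2 * n1) • ch w s = -l + (2 * m1) • ch w t := by
    rw [← hα, hζ, hα']
  have c1 := congrArg Prod.fst heq
  have c2 := congrArg Prod.snd heq
  simp only [Prod.fst_add, Prod.fst_neg, Prod.smul_fst, Prod.snd_add, Prod.snd_neg,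
    Prod.smul_snd, ch, smul_eq_mul, mul_one] at c1 c2
  have hn0 : n1 = 0 := by
    have h3 : n1 * ((w t : ℚ) - w s) = 0 := by
      linear_combination (1/2) * c1 * (w t : ℚ) - (1/2) * c2
    rcases mul_eq_zero.1 h3 with h4 | h4
    · exact h4
    · linarith
  have Gt : Good 𝓜 br t α σ₁ := R2_good_smul G1.mem H1 hτ
  obtain ⟨l', hl', hor⟩ := L.planar1 hst G1 Gt.val hα
  have hl0 : l' = 0 := by
    have := hl' 1 0
    rw [hn0, zero_mul, ev_ch] at this
    linarith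
  rcases hor with hor | hor
  · exact P.free_of_mono hst G1 Gt hor
  · rw [hl0] at hor
    norm_num at hor

end

end Pool.Agent.Lib.MP_745d3a_ag.GM

end

section

set_option autoImplicit false
set_option linter.unusedSectionVars false
set_option linter.unusedSimpArgs false
set_option linter.unusedVariables false

open MvPolynomial

namespace Pool.Agent.Lib.MP_745d3a_ag.GM

section

variable {K M : Type*} [Field K] [CharZero K] [AddCommGroup M]
  [Module (MvPolynomial (Fin 5) K) M]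
  [Module.IsReflexive (MvPolynomial (Fin 5) K) M] [Module.Finite (MvPolynomial (Fin 5) K) M]
  {w : Fin 5 → ℤ} {𝓜 : ℤ × ℤ → AddSubgroup M} [DirectSum.Decomposition 𝓜]
  [SetLike.GradedSMul (weightedHomogeneousSubmodule K (om w)) 𝓜]
  {d : ℤ × ℤ}
  {br : M →ₗ[MvPolynomial (Fin 5) K] M →ₗ[MvPolynomial (Fin 5) K] MvPolynomial (Fin 5) K}

theorem simple_reduce (P : Pairing w 𝓜 d br) {l : ℚ × ℚ} (L : Law w 𝓜 d br l) {s t : Fin 5}
    (hs : Ext w 1 s) (ht : Ext w (-1) t) (hst : s ≠ t) :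
    Module.Free (MvPolynomial (Fin 5) K) M ∨
    ∃ (l : ℚ × ℚ) (ζ : ℤ × ℤ) (σ : M) (u v : ℚ), Law w 𝓜 d br l ∧
      Good 𝓜 br s ζ σ ∧ Good 𝓜 br t ζ σ ∧ 0 < u ∧ 0 < v ∧
      tw d ζ = -l - (2 * u) • ch w s ∧ tw d ζ = l - (2 * v) • ch w t := by
  have neg : ∀ x y : ℚ, ev (-l) x y = -ev l x y := by
    intro x y
    simp only [ev, Prod.fst_neg, Prod.snd_neg]
    ring
  rcases lt_trichotomy (ev l (-(w s : ℚ)) 1) 0 with h1 | h1 | h1
  · rcases lt_trichotomy (ev l (-(w t : ℚ)) 1) 0 with h2 | h2 | h2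
    · rcases case_one' P L.neg hs ht hst (by rw [neg]; linarith) (by rw [neg]; linarith) with
        h | ⟨ζ, σ, u, v, h⟩
      · exact Or.inl h
      · exact Or.inr ⟨-l, ζ, σ, u, v, L.neg, h⟩
    · exact Or.inl (case_three P L ht (by simpa using hs) hst.symm h2)
    · exact Or.inl (case_two' P L.neg hs ht hst (by rw [neg]; linarith) (by rw [neg]; linarith))
  · exact Or.inl (case_three P L hs ht hst h1)
  · rcases lt_trichotomy (ev l (-(w t : ℚ)) 1) 0 with h2 | h2 | h2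
    · exact Or.inl (case_two' P L hs ht hst h1 h2)
    · exact Or.inl (case_three P L ht (by simpa using hs) hst.symm h2)
    · rcases case_one' P L hs ht hst h1 h2 with h | ⟨ζ, σ, u, v, h⟩
      · exact Or.inl h
      · exact Or.inr ⟨l, ζ, σ, u, v, L, h⟩

end

end Pool.Agent.Lib.MP_745d3a_ag.GM

end
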