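import Pool.Agent.Lib.MP_745d3a_ag.GM.Defs

/-!
Axis pairs, good sections, presentations.
-/

section

set_option autoImplicit false
set_option linter.unusedSectionVars false
set_option linter.unusedSimpArgs false
set_option linter.unusedVariables false

open MvPolynomial

namespace Pool.Agent.Lib.MP_745d3a_ag.GM

section

variable {K M : Type*} [Field K] [CharZero K] [AddCommGroup M]
  [Module (MvPolynomial (Fin 5) K) M]
  [Module.IsReflexive (MvPolynomial (Fin 5) K) M] [Module.Finite (MvPolynomial (Fin 5) K) M]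
  {w : Fin 5 → ℤ} {𝓜 : ℤ × ℤ → AddSubgroup M} [DirectSum.Decomposition 𝓜]
  [SetLike.GradedSMul (weightedHomogeneousSubmodule K (om w)) 𝓜]
  {d : ℤ × ℤ}
  {br : M →ₗ[MvPolynomial (Fin 5) K] M →ₗ[MvPolynomial (Fin 5) K] MvPolynomial (Fin 5) K}

lemma Pairing.swap (P : Pairing w 𝓜 d br) (a b : M) : br b a = -br a b := by
  have h := P.alt (a + b)
  have ha := P.alt a
  have hb := P.alt b
  simp only [map_add, LinearMap.add_apply, ha, hb] at h
  have h2 : br a b + br b a = 0 := by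
    rw [← h]; ring
  exact eq_neg_of_add_eq_zero_right h2

/-- `⟨a, b⟩ z = ⟨z, b⟩ a - ⟨z, a⟩ b`. -/
lemma Pairing.plu2 (P : Pairing w 𝓜 d br) (a b z : M) :
    br a b • z = br z b • a - br z a • b := by
  have h := P.plu a b z
  rw [P.swap z b, neg_smul] at h
  have h2 : br a b • z - (br z b • a - br z a • b) = 0 := by
    rw [← h]; abel
  exact sub_eq_zero.mp h2

lemma Pairing.plu4 (P : Pairing w 𝓜 d br) (a b z y : M) :
    br a b * br z y = br z b * br a y - br z a * br b y := by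
  have h := congrArg (fun m => br m y) (P.plu2 a b z)
  simpa only [map_smul, map_sub, LinearMap.smul_apply, LinearMap.sub_apply, smul_eq_mul] using h

/-- The pairing is nondegenerate. -/
lemma Pairing.nondeg (P : Pairing w 𝓜 d br) {z : M} (h : ∀ y, br z y = 0) : z = 0 := by
  obtain ⟨N, hN⟩ := P.full 0
  have key : ∀ p ∈ Ideal.span {p : MvPolynomial (Fin 5) K | ∃ a b, br a b = p}, p • z = 0 := by
    intro p hp
    induction hp using Submodule.span_induction with
    | mem x hx =>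
      obtain ⟨a, b, rfl⟩ := hx
      rw [P.plu2 a b z, h, h, zero_smul, zero_smul, sub_zero]
    | zero => exact zero_smul _ _
    | add x y _ _ hx hy => rw [add_smul, hx, hy, add_zero]
    | smul a x _ hx => rw [smul_assoc, hx, smul_zero]
  have h1 := key _ hN
  rcases torsionfree_of_reflexive _ _ h1 with h2 | h2
  · exact absurd h2 (pow_ne_zero _ (X_ne_zero 0))
  · exact h2

end

end Pool.Agent.Lib.MP_745d3a_ag.GM

end

section

set_option autoImplicit false
set_option linter.unusedSectionVars false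
set_option linter.unusedSimpArgs false
set_option linter.unusedVariables false

open MvPolynomial

namespace Pool.Agent.Lib.MP_745d3a_ag.GM

section

variable {K M : Type*} [Field K] [CharZero K] [AddCommGroup M]
  [Module (MvPolynomial (Fin 5) K) M]
  [Module.IsReflexive (MvPolynomial (Fin 5) K) M] [Module.Finite (MvPolynomial (Fin 5) K) M]
  {w : Fin 5 → ℤ} {𝓜 : ℤ × ℤ → AddSubgroup M} [DirectSum.Decomposition 𝓜]
  [SetLike.GradedSMul (weightedHomogeneousSubmodule K (om w)) 𝓜]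
  {d : ℤ × ℤ}
  {br : M →ₗ[MvPolynomial (Fin 5) K] M →ₗ[MvPolynomial (Fin 5) K] MvPolynomial (Fin 5) K}

/-- A homogeneous pair whose value contains a pure power of `x_c`. -/
structure AxisPair (w : Fin 5 → ℤ) (𝓜 : ℤ × ℤ → AddSubgroup M)
    (br : M →ₗ[MvPolynomial (Fin 5) K] M →ₗ[MvPolynomial (Fin 5) K] MvPolynomial (Fin 5) K)
    (c : Fin 5) (α β : ℤ × ℤ) (m n : M) (k : ℕ) : Prop where
  hm : m ∈ 𝓜 α
  hn : n ∈ 𝓜 β
  coeff : coeff (Finsupp.single c k) (br m n) ≠ 0

theorem Pairing.axis (P : Pairing w 𝓜 d br) (c : Fin 5) :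
    ∃ (α β : ℤ × ℤ) (m n : M) (k : ℕ), AxisPair w 𝓜 br c α β m n k := by
  classical
  by_contra hcon
  have h1 : ∀ (g h : ℤ × ℤ) (m n : M), m ∈ 𝓜 g → n ∈ 𝓜 h → br m n ∈ vp K c := by
    intro g h m n hm hn
    by_contra h2
    obtain ⟨e, he, h3⟩ := exists_of_notMem_vp h2
    have he' : e = Finsupp.single c (e c) := by
      ext κ
      by_cases hκ : κ = c
      · rw [hκ]; simp
      · rw [h3 κ hκ]; simp [Finsupp.single_apply, Ne.symm hκ]
    rw [he'] at he
    exact hcon ⟨g, h, m, n, e c, ⟨hm, hn, he⟩⟩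
  have h4 : ∀ a b : M, br a b ∈ vp K c := by
    intro a b
    refine hom_induction 𝓜 (P := fun a => br a b ∈ vp K c) ?_ ?_ ?_ a
    · simp
    · intro g m hm
      refine hom_induction 𝓜 (P := fun b => br m b ∈ vp K c) ?_ ?_ ?_ b
      · simp
      · intro h n hn
        exact h1 g h m n hm hn
      · intro x y hx hy
        rw [map_add]
        exact Ideal.add_mem _ hx hy
    · intro x y hx hy
      rw [map_add, LinearMap.add_apply]
      exact Ideal.add_mem _ hx hy
  obtain ⟨N, hN⟩ := P.full c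
  have h5 : Ideal.span {p : MvPolynomial (Fin 5) K | ∃ a b, br a b = p} ≤ vp K c := by
    rw [Ideal.span_le]
    rintro p ⟨a, b, rfl⟩
    exact h4 a b
  exact X_notMem_vp c (Ideal.IsPrime.mem_of_pow_mem inferInstance N (h5 hN))

/-- The value of an axis pair is homogeneous of weight `k χ_c`. -/
theorem AxisPair.weight (P : Pairing w 𝓜 d br) {c : Fin 5} {α β : ℤ × ℤ} {m n : M} {k : ℕ}
    (A : AxisPair w 𝓜 br c α β m n k) :
    α + β - d = k • om w c ∧ IsWeightedHomogeneous (om w) (br m n) (k • om w c) := by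
  have h1 := P.hom α β m A.hm n A.hn
  have h2 := h1 A.coeff
  have h3 : Finsupp.weight (om w) (Finsupp.single c k) = k • om w c := by
    rw [Finsupp.weight_apply, Finsupp.sum_single_index (by simp)]
  have h4 : α + β - d = k • om w c := by rw [← h2, h3]
  exact ⟨h4, h4 ▸ h1⟩

end

end Pool.Agent.Lib.MP_745d3a_ag.GM

end

section

set_option autoImplicit false
set_option linter.unusedSectionVars false
set_option linter.unusedSimpArgs false
set_option linter.unusedVariables false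

open MvPolynomial

namespace Pool.Agent.Lib.MP_745d3a_ag.GM

section

variable {K M : Type*} [Field K] [CharZero K] [AddCommGroup M]
  [Module (MvPolynomial (Fin 5) K) M]
  [Module.IsReflexive (MvPolynomial (Fin 5) K) M] [Module.Finite (MvPolynomial (Fin 5) K) M]
  {w : Fin 5 → ℤ} {𝓜 : ℤ × ℤ → AddSubgroup M} [DirectSum.Decomposition 𝓜]
  [SetLike.GradedSMul (weightedHomogeneousSubmodule K (om w)) 𝓜]
  {d : ℤ × ℤ}
  {br : M →ₗ[MvPolynomial (Fin 5) K] M →ₗ[MvPolynomial (Fin 5) K] MvPolynomial (Fin 5) K}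

/-- A homogeneous element `σ` of weight `ζ`, not divisible by `x_s`, such that a power of `x_s` is
a value `⟨σ, y⟩`. -/
structure Good (𝓜 : ℤ × ℤ → AddSubgroup M)
    (br : M →ₗ[MvPolynomial (Fin 5) K] M →ₗ[MvPolynomial (Fin 5) K] MvPolynomial (Fin 5) K)
    (s : Fin 5) (ζ : ℤ × ℤ) (σ : M) : Prop where
  mem : σ ∈ 𝓜 ζ
  nd : ∀ y : M, σ ≠ (X s : MvPolynomial (Fin 5) K) • y
  val : ∃ (k : ℕ) (y : M), br σ y = (X s : MvPolynomial (Fin 5) K) ^ k

theorem Good.tf {s : Fin 5} {ζ : ℤ × ℤ} {σ : M} (G : Good 𝓜 br s ζ σ)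
    {a : MvPolynomial (Fin 5) K} (h : a • σ = 0) : a = 0 := by
  refine (torsionfree_of_reflexive a σ h).resolve_right ?_
  intro h0
  exact G.nd 0 (by rw [h0, smul_zero])

private lemma G1_ker_aux {s : Fin 5} {σ : M}
    (nd : ∀ y : M, σ ≠ (X s : MvPolynomial (Fin 5) K) • y) (k : ℕ) :
    ∀ (y : M) (a : MvPolynomial (Fin 5) K),
      (X s : MvPolynomial (Fin 5) K) ^ k • y = a • σ → ∃ a' : MvPolynomial (Fin 5) K,
        y = a' • σ := by
  induction k with
  | zero =>
    intro y a h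
    rw [pow_zero, one_smul] at h
    exact ⟨a, h⟩
  | succ k ih =>
    intro y a h
    have hX : Prime (X s : MvPolynomial (Fin 5) K) := X_prime
    have h1 : (X s : MvPolynomial (Fin 5) K) • ((X s : MvPolynomial (Fin 5) K) ^ k • y)
        = a • σ := by
      rw [smul_smul, ← pow_succ', h]
    by_cases hd : (X s : MvPolynomial (Fin 5) K) ∣ a
    · obtain ⟨a', rfl⟩ := hd
      refine ih y a' ?_
      rw [mul_smul] at h1
      have h2 : (X s : MvPolynomial (Fin 5) K) •
          ((X s : MvPolynomial (Fin 5) K) ^ k • y - a' • σ) = 0 := by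
        rw [smul_sub, h1, sub_self]
      exact sub_eq_zero.mp ((torsionfree_of_reflexive _ _ h2).resolve_left hX.ne_zero)
    · obtain ⟨m, hm, -⟩ := hartogs (a := (X s : MvPolynomial (Fin 5) K)) (b := a) hX.ne_zero
        (fun q hq => (hX.dvd_or_dvd hq).resolve_left hd) h1.symm
      exact absurd hm (nd m)

/-- `⟨σ, y⟩ = 0` implies `y ∈ S σ`. -/
theorem Good.ker (P : Pairing w 𝓜 d br) {s : Fin 5} {ζ : ℤ × ℤ} {σ : M} (G : Good 𝓜 br s ζ σ)
    {y : M} (h : br σ y = 0) : ∃ a : MvPolynomial (Fin 5) K, y = a • σ := by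
  obtain ⟨k, t, ht⟩ := G.val
  have h1 := P.plu2 σ t y
  have h2 : br y σ = 0 := by rw [P.swap σ y, h, neg_zero]
  rw [ht, h2, zero_smul, sub_zero] at h1
  exact G1_ker_aux G.nd k y _ h1

/-- Two good sections with `⟨σ, τ⟩ = 0` are proportional by a constant. -/
theorem Good.prop (P : Pairing w 𝓜 d br) {s t : Fin 5} {ζ ζ' : ℤ × ℤ} {σ τ : M}
    (G : Good 𝓜 br s ζ σ) (G' : Good 𝓜 br t ζ' τ) (h : br σ τ = 0) :
    ζ = ζ' ∧ ∃ c : K, c ≠ 0 ∧ τ = (C c : MvPolynomial (Fin 5) K) • σ := by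
  obtain ⟨a, ha⟩ := G.ker P h
  have h' : br τ σ = 0 := by rw [P.swap σ τ, h, neg_zero]
  obtain ⟨b, hb⟩ := G'.ker P h'
  have h1 : (b * a - 1) • σ = 0 := by
    rw [sub_smul, mul_smul, ← ha, ← hb, one_smul, sub_self]
  have h2 : b * a = 1 := sub_eq_zero.mp (G.tf h1)
  have hu : IsUnit a := IsUnit.of_mul_eq_one b (by rw [mul_comm]; exact h2)
  obtain ⟨c, hc, rfl⟩ := (MvPolynomial.isUnit_iff_eq_C_of_isReduced).mp hu
  have hτ : τ ∈ 𝓜 ζ := by
    have h3 : IsWeightedHomogeneous (om w) (C c : MvPolynomial (Fin 5) K) 0 :=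
      isWeightedHomogeneous_C _ _
    have h4 := smul_mem' (om w) 𝓜 h3 G.mem
    rw [zero_add] at h4
    rw [ha]
    exact h4
  refine ⟨?_, c, hc.ne_zero, ha⟩
  by_contra hne
  have h5 := comp_same 𝓜 hτ
  have h6 := comp_ne 𝓜 G'.mem (fun h => hne h.symm)
  rw [h6] at h5
  exact G'.nd 0 (by rw [← h5, smul_zero])

/-- If a value is a nonzero constant then the module is free. -/
theorem Pairing.free_of_const (P : Pairing w 𝓜 d br) {a b : M} {c : K} (hc : c ≠ 0)
    (h : br a b = C c) : Module.Free (MvPolynomial (Fin 5) K) M := by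
  have hC : (C c : MvPolynomial (Fin 5) K) ≠ 0 := by
    rw [Ne, MvPolynomial.C_eq_zero]
    exact hc
  refine free_of_pair (m1 := a) (m2 := b) ?_ ?_
  · intro x y hxy
    constructor
    · have h1 := congrArg (fun z => br z b) hxy
      simp only [map_add, map_smul, LinearMap.add_apply, LinearMap.smul_apply, P.alt, h,
        smul_eq_mul, mul_zero, add_zero, map_zero, LinearMap.zero_apply] at h1
      exact (mul_eq_zero.mp h1).resolve_right hC
    · have h1 := congrArg (fun z => br a z) hxy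
      simp only [map_add, map_smul, P.alt, h, smul_eq_mul, mul_zero, zero_add, map_zero] at h1
      exact (mul_eq_zero.mp h1).resolve_right hC
  · intro z
    have h1 := P.plu2 a b z
    rw [h] at h1
    refine ⟨C c⁻¹ * br z b, -(C c⁻¹ * br z a), ?_⟩
    have h2 : (C c⁻¹ : MvPolynomial (Fin 5) K) • ((C c : MvPolynomial (Fin 5) K) • z) = z := by
      rw [smul_smul, ← C_mul, inv_mul_cancel₀ hc, C_1, one_smul]
    rw [h1, smul_sub, smul_smul, smul_smul] at h2
    rw [neg_smul, ← sub_eq_add_neg]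
    exact h2.symm

end

end Pool.Agent.Lib.MP_745d3a_ag.GM

end

section

set_option autoImplicit false
set_option linter.unusedSectionVars false
set_option linter.unusedSimpArgs false
set_option linter.unusedVariables false

open MvPolynomial

namespace Pool.Agent.Lib.MP_745d3a_ag.GM

section

variable {K M : Type*} [Field K] [CharZero K] [AddCommGroup M]
  [Module (MvPolynomial (Fin 5) K) M]
  [Module.IsReflexive (MvPolynomial (Fin 5) K) M] [Module.Finite (MvPolynomial (Fin 5) K) M]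
  {w : Fin 5 → ℤ} {𝓜 : ℤ × ℤ → AddSubgroup M} [DirectSum.Decomposition 𝓜]
  [SetLike.GradedSMul (weightedHomogeneousSubmodule K (om w)) 𝓜]
  {d : ℤ × ℤ}
  {br : M →ₗ[MvPolynomial (Fin 5) K] M →ₗ[MvPolynomial (Fin 5) K] MvPolynomial (Fin 5) K}

theorem Pairing.local_unit (P : Pairing w 𝓜 d br) {p : Ideal (MvPolynomial (Fin 5) K)}
    [p.IsPrime] {u : Fin 5} (hu : (X u : MvPolynomial (Fin 5) K) ∉ p) {m1 m2 : M}
    (H : ∀ x : M, ∃ D a b : MvPolynomial (Fin 5) K, D ∉ p ∧ D • x = a • m1 + b • m2) :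
    br m1 m2 ∉ p := by
  intro hmem
  have hpr : p.IsPrime := inferInstance
  have hsw : br m2 m1 = - br m1 m2 := P.swap m1 m2
  have hall : ∀ a b : M, br a b ∈ p := by
    intro a b
    obtain ⟨D, a1, a2, hD, ha⟩ := H a
    obtain ⟨D', b1, b2, hD', hb⟩ := H b
    have key : D * (D' * br a b) = (a1 * b2 - a2 * b1) * br m1 m2 := by
      have h1 : D * (D' * br a b) = br (D • a) (D' • b) := by
        rw [map_smul, map_smul, LinearMap.smul_apply, smul_eq_mul, smul_eq_mul]; ring
      rw [h1, ha, hb]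
      simp only [map_add, map_smul, LinearMap.add_apply, LinearMap.smul_apply, P.alt, hsw,
        smul_eq_mul]
      ring
    have h2 : D * (D' * br a b) ∈ p := by rw [key]; exact p.mul_mem_left _ hmem
    rcases hpr.mem_or_mem h2 with h | h
    · exact absurd h hD
    · rcases hpr.mem_or_mem h with h | h
      · exact absurd h hD'
      · exact h
  obtain ⟨N, hN⟩ := P.full u
  have hle : Ideal.span {q : MvPolynomial (Fin 5) K | ∃ a b, br a b = q} ≤ p := by
    rw [Ideal.span_le]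
    rintro q ⟨a, b, rfl⟩
    exact hall a b
  exact hu (hpr.mem_of_pow_mem N (hle hN))

end

end Pool.Agent.Lib.MP_745d3a_ag.GM

end

section

set_option autoImplicit false
set_option linter.unusedSectionVars false
set_option linter.unusedSimpArgs false
set_option linter.unusedVariables false

open MvPolynomial

namespace Pool.Agent.Lib.MP_745d3a_ag.GM

section

variable {K M : Type*} [Field K] [CharZero K] [AddCommGroup M]
  [Module (MvPolynomial (Fin 5) K) M]
  [Module.IsReflexive (MvPolynomial (Fin 5) K) M] [Module.Finite (MvPolynomial (Fin 5) K) M]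
  {w : Fin 5 → ℤ} {𝓜 : ℤ × ℤ → AddSubgroup M} [DirectSum.Decomposition 𝓜]
  [SetLike.GradedSMul (weightedHomogeneousSubmodule K (om w)) 𝓜]
  {d : ℤ × ℤ}
  {br : M →ₗ[MvPolynomial (Fin 5) K] M →ₗ[MvPolynomial (Fin 5) K] MvPolynomial (Fin 5) K}

/-- The homogeneous component of `y` of the right weight has the same value `X c ^ k`. -/
private theorem T1_hom_val (P : Pairing w 𝓜 d br) {c : Fin 5} {ζ : ℤ × ℤ} {σ y : M} {k : ℕ}
    (hσ : σ ∈ 𝓜 ζ) (hy : br σ y = (X c : MvPolynomial (Fin 5) K) ^ k) :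
    comp 𝓜 (k • om w c - ζ + d) y ∈ 𝓜 (k • om w c - ζ + d) ∧
      br σ (comp 𝓜 (k • om w c - ζ + d) y) = (X c : MvPolynomial (Fin 5) K) ^ k := by
  classical
  refine ⟨comp_mem 𝓜 _ y, ?_⟩
  have key : ∀ z : M, weightedHomogeneousComponent (om w) (k • om w c) (br σ z) =
      br σ (comp 𝓜 (k • om w c - ζ + d) z) := by
    intro z
    refine hom_induction 𝓜 (P := fun z => weightedHomogeneousComponent (om w) (k • om w c)
      (br σ z) = br σ (comp 𝓜 (k • om w c - ζ + d) z)) ?_ ?_ ?_ z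
    · rw [comp_zero, map_zero, map_zero]
    · intro g m hm
      have h1 := P.hom ζ g σ hσ m hm
      by_cases hg : g = k • om w c - ζ + d
      · rw [← hg, comp_same 𝓜 hm]
        have h2 : ζ + g - d = k • om w c := by rw [hg]; abel
        rw [h2] at h1
        exact h1.weightedHomogeneousComponent_same
      · rw [comp_ne 𝓜 hm hg, map_zero]
        apply h1.weightedHomogeneousComponent_ne
        intro h2
        apply hg
        rw [h2]
        abel
    · intro m n hm hn
      rw [map_add, map_add, hm, hn, comp_add, map_add]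
  rw [← key y, hy]
  exact ((isWeightedHomogeneous_X K (om w) c).pow k).weightedHomogeneousComponent_same

theorem exists_pres' (P : Pairing w 𝓜 d br) {s t : Fin 5} (hst : s ≠ t) {ζ : ℤ × ℤ} {σ : M}
    (Gs : Good 𝓜 br s ζ σ) (Gt : Good 𝓜 br t ζ σ) (N0 : ℕ) :
    ∃ (N : ℕ) (μs μt : M) (Δ : MvPolynomial (Fin 5) K), N0 ≤ N ∧
      Pres s t N σ μs μt (br σ) Δ ∧ Red s t N Δ ∧
      IsWeightedHomogeneous (om w) Δ (N • om w s + N • om w t + d - ζ - ζ) := by
  classical
  have hσ0 : σ ≠ 0 := by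
    intro h
    apply Gs.nd 0
    rw [h, smul_zero]
  obtain ⟨k, y, hy⟩ := Gs.val
  obtain ⟨k', y', hy'⟩ := Gt.val
  have hX : ∀ (c : Fin 5) (n : ℕ), IsWeightedHomogeneous (om w)
      ((X c : MvPolynomial (Fin 5) K) ^ n) (n • om w c) := fun c n =>
    (isWeightedHomogeneous_X K (om w) c).pow n
  obtain ⟨hy0m, hy0⟩ := T1_hom_val P Gs.mem hy
  obtain ⟨hy0m', hy0'⟩ := T1_hom_val P Gs.mem hy'
  set y0 := comp 𝓜 (k • om w s - ζ + d) y with hy0def
  set y0' := comp 𝓜 (k' • om w t - ζ + d) y' with hy0'def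
  obtain ⟨N, hN0, hNk, hNk'⟩ : ∃ N : ℕ, N0 ≤ N ∧ k ≤ N ∧ k' ≤ N :=
    ⟨max N0 (max k k'), le_max_left _ _, (le_max_left _ _).trans (le_max_right _ _),
      (le_max_right _ _).trans (le_max_right _ _)⟩
  set ms := (X s : MvPolynomial (Fin 5) K) ^ (N - k) • y0 with hms
  set mt := (X t : MvPolynomial (Fin 5) K) ^ (N - k') • y0' with hmt
  have hbs : br σ ms = X s ^ N := by
    rw [hms, map_smul, hy0, smul_eq_mul, ← pow_add]
    congr 1
    omega
  have hbt : br σ mt = X t ^ N := by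
    rw [hmt, map_smul, hy0', smul_eq_mul, ← pow_add]
    congr 1
    omega
  have hmsm : ms ∈ 𝓜 (N • om w s + d - ζ) := by
    have h1 := smul_mem' (om w) 𝓜 (hX s (N - k)) hy0m
    have h2 : (N - k) • om w s + (k • om w s - ζ + d) = N • om w s + d - ζ := by
      have h3 : (N - k) • om w s + k • om w s = N • om w s := by
        rw [← add_nsmul]; congr 1; omega
      rw [← h3]; abel
    rw [h2] at h1
    exact h1
  have hmtm : mt ∈ 𝓜 (N • om w t + d - ζ) := by
    have h1 := smul_mem' (om w) 𝓜 (hX t (N - k')) hy0m'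
    have h2 : (N - k') • om w t + (k' • om w t - ζ + d) = N • om w t + d - ζ := by
      have h3 : (N - k') • om w t + k' • om w t = N • om w t := by
        rw [← add_nsmul]; congr 1; omega
      rw [← h3]; abel
    rw [h2] at h1
    exact h1
  clear_value ms mt
  have hE : br σ ((X t : MvPolynomial (Fin 5) K) ^ N • ms -
      (X s : MvPolynomial (Fin 5) K) ^ N • mt) = 0 := by
    rw [map_sub, map_smul, map_smul, hbs, hbt, smul_eq_mul, smul_eq_mul]
    ring
  obtain ⟨Δ0, hΔ0⟩ := Gs.ker P hE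
  have hEm : (X t : MvPolynomial (Fin 5) K) ^ N • ms - (X s : MvPolynomial (Fin 5) K) ^ N • mt ∈
      𝓜 (N • om w s + N • om w t + d - ζ) := by
    have h1 := smul_mem' (om w) 𝓜 (hX t N) hmsm
    have h2 := smul_mem' (om w) 𝓜 (hX s N) hmtm
    rw [show N • om w t + (N • om w s + d - ζ) = N • om w s + N • om w t + d - ζ by abel] at h1
    rw [show N • om w s + (N • om w t + d - ζ) = N • om w s + N • om w t + d - ζ by abel] at h2
    exact (𝓜 _).sub_mem h1 h2
  have hΔh : IsWeightedHomogeneous (om w) Δ0 (N • om w s + N • om w t + d - ζ - ζ) := by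
    rw [hΔ0] at hEm
    exact hom_of_smul_mem (om w) 𝓜 (fun a m h => torsionfree_of_reflexive a m h) Gs.mem hσ0 hEm
  obtain ⟨r, a, b, hr, hrc, hrab⟩ := exists_red s t N Δ0
  refine ⟨N, ms - b • σ, mt + a • σ, r, hN0, ?_, hr, ?_⟩
  · exact
      { ne := hst
        s_tf := fun a h => Gs.tf h
        pi_s := P.alt σ
        ker := fun m h => Gs.ker P h
        pi_i := by rw [map_sub, map_smul, P.alt, smul_zero, sub_zero, hbs]
        pi_j := by rw [map_add, map_smul, P.alt, smul_zero, add_zero, hbt]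
        rel := by
          have h1 : (X t : MvPolynomial (Fin 5) K) ^ N • (ms - b • σ) -
              (X s : MvPolynomial (Fin 5) K) ^ N • (mt + a • σ) =
              ((X t : MvPolynomial (Fin 5) K) ^ N • ms -
                (X s : MvPolynomial (Fin 5) K) ^ N • mt) - (X s ^ N * a + X t ^ N * b) • σ := by
            rw [smul_sub, smul_add, add_smul, mul_smul, mul_smul]
            abel
          rw [h1, hΔ0, hrab, add_smul]
          abel }
  · intro e he
    exact hΔh (hrc e he)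

theorem _root_.Pool.Agent.Lib.MP_745d3a_ag.Pres.colon_conv {s t : Fin 5} {N : ℕ} {σ μs μt : M}
    {π : M →ₗ[MvPolynomial (Fin 5) K] MvPolynomial (Fin 5) K} {Δ F : MvPolynomial (Fin 5) K}
    (Q : Pres s t N σ μs μt π Δ) (h : F * Δ ∈ J s t N) : ∃ y, π y = F := by
  obtain ⟨a, b, hab⟩ := mem_J_exists.mp h
  have h1 : (X t : MvPolynomial (Fin 5) K) ^ N • (F • μs - b • σ) =
      (X s : MvPolynomial (Fin 5) K) ^ N • (F • μt + a • σ) := by
    have h2 : F • ((X t : MvPolynomial (Fin 5) K) ^ N • μs -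
        (X s : MvPolynomial (Fin 5) K) ^ N • μt) = (X s ^ N * a + X t ^ N * b) • σ := by
      rw [Q.rel, ← mul_smul, hab]
    rw [smul_sub, add_smul, mul_smul, mul_smul, smul_comm F, smul_comm F, sub_eq_iff_eq_add] at h2
    rw [smul_sub, smul_add, h2]
    abel
  obtain ⟨m, hm, _⟩ := hartogs (X_pow_ne_zero' s N)
    (fun g hg => dvd_of_X_pow_dvd_mul Q.ne N N g hg) h1
  refine ⟨m, ?_⟩
  have h3 := congrArg π hm
  rw [map_sub, map_smul, map_smul, map_smul, Q.pi_i, Q.pi_s, smul_zero, sub_zero, smul_eq_mul,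
    smul_eq_mul, mul_comm F] at h3
  exact (mul_left_cancel₀ (X_pow_ne_zero' s N) h3).symm

theorem Pairing.free_of_mono (P : Pairing w 𝓜 d br) {s t : Fin 5} (hst : s ≠ t) {ζ : ℤ × ℤ}
    {σ : M} (Gs : Good 𝓜 br s ζ σ) (Gt : Good 𝓜 br t ζ σ)
    (h : ∃ (y : M) (e : Fin 5 →₀ ℕ), e s = 0 ∧ e t = 0 ∧ coeff e (br σ y) ≠ 0) :
    Module.Free (MvPolynomial (Fin 5) K) M := by
  obtain ⟨y, e, hes, het, he⟩ := h
  obtain ⟨N, μs, μt, Δ, _, Q, hred, _⟩ := exists_pres' P hst Gs Gt 0
  exact Q.free_zero (primary ⟨e, he, hes, het⟩ hred (Q.colon y))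

end

end Pool.Agent.Lib.MP_745d3a_ag.GM

end

section

set_option autoImplicit false
set_option linter.unusedSectionVars false
set_option linter.unusedSimpArgs false
set_option linter.unusedVariables false

open MvPolynomial

namespace Pool.Agent.Lib.MP_745d3a_ag.GM

section

variable {K M : Type*} [Field K] [CharZero K] [AddCommGroup M]
  [Module (MvPolynomial (Fin 5) K) M]
  [Module.IsReflexive (MvPolynomial (Fin 5) K) M] [Module.Finite (MvPolynomial (Fin 5) K) M]
  {w : Fin 5 → ℤ} {𝓜 : ℤ × ℤ → AddSubgroup M} [DirectSum.Decomposition 𝓜]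
  [SetLike.GradedSMul (weightedHomogeneousSubmodule K (om w)) 𝓜]
  {d : ℤ × ℤ}
  {br : M →ₗ[MvPolynomial (Fin 5) K] M →ₗ[MvPolynomial (Fin 5) K] MvPolynomial (Fin 5) K}

/-- The variable `s` has strictly extremal weight in the direction `e`. -/
def Ext (w : Fin 5 → ℤ) (e : ℤ) (s : Fin 5) : Prop := ∀ a, a ≠ s → 0 < e * (w a - w s)

/-- A homogeneous polynomial of weight `k χ_s`, `s` extremal, is a multiple of `X s ^ k`. -/
private lemma V1_mono {K : Type*} [Field K] {w : Fin 5 → ℤ} {e : ℤ} {s : Fin 5} (hs : Ext w e s)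
    {p : MvPolynomial (Fin 5) K} {k : ℕ} (hp : IsWeightedHomogeneous (om w) p (k • om w s)) :
    p = C (coeff (Finsupp.single s k) p) * (X s : MvPolynomial (Fin 5) K) ^ k := by
  classical
  ext ε
  rw [coeff_C_mul, coeff_X_pow]
  split_ifs with h
  · rw [← h, mul_one]
  · rw [mul_zero]
    by_contra hne
    have h1 := hp hne
    rw [Finsupp.weight_apply, Finsupp.sum_fintype _ _ (fun i => by simp)] at h1
    have h2 : ∑ a, (ε a : ℤ) = k := by
      have := congrArg Prod.fst h1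
      simpa [om, Prod.fst_sum] using this
    have h3 : ∑ a, (ε a : ℤ) * w a = k * w s := by
      have := congrArg Prod.snd h1
      simpa [om, Prod.snd_sum] using this
    have h4 : ∑ a, (ε a : ℤ) * (e * (w a - w s)) = 0 := by
      have h5 : ∑ a, (ε a : ℤ) * (e * (w a - w s)) =
          e * (∑ a, (ε a : ℤ) * w a) - e * w s * ∑ a, (ε a : ℤ) := by
        rw [Finset.mul_sum, Finset.mul_sum, ← Finset.sum_sub_distrib]
        exact Finset.sum_congr rfl fun a _ => by ring
      rw [h5, h2, h3]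
      ring
    have h6 : ∀ a ∈ Finset.univ, 0 ≤ (ε a : ℤ) * (e * (w a - w s)) := by
      intro a _
      by_cases ha : a = s
      · rw [ha, sub_self, mul_zero, mul_zero]
      · exact mul_nonneg (Int.natCast_nonneg _) (hs a ha).le
    have h7 := (Finset.sum_eq_zero_iff_of_nonneg h6).1 h4
    have h8 : ∀ a, a ≠ s → ε a = 0 := by
      intro a ha
      have h9 := h7 a (Finset.mem_univ a)
      rcases mul_eq_zero.1 h9 with h10 | h10
      · exact_mod_cast h10
      · exact absurd h10 (hs a ha).ne'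
    apply h
    ext a
    by_cases ha : a = s
    · subst ha
      rw [Finsupp.single_eq_same]
      rw [Finset.sum_eq_single a (fun b _ hb => by rw [h8 b hb]; rfl)
        (fun hb => absurd (Finset.mem_univ a) hb)] at h2
      exact_mod_cast h2.symm
    · rw [h8 a ha, Finsupp.single_eq_of_ne ha]

private lemma V1_le {K : Type*} [Field K] {s : Fin 5} {c : K} (hc : c ≠ 0) {i k : ℕ}
    {q : MvPolynomial (Fin 5) K}
    (h : (X s : MvPolynomial (Fin 5) K) ^ i * q = C c * (X s : MvPolynomial (Fin 5) K) ^ k) :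
    i ≤ k := by
  have h1 : (X s : MvPolynomial (Fin 5) K) ^ i ∣ C c * (X s : MvPolynomial (Fin 5) K) ^ k :=
    ⟨q, h.symm⟩
  have hu : IsUnit (C c : MvPolynomial (Fin 5) K) := (isUnit_iff_ne_zero.2 hc).map C
  rw [hu.dvd_mul_left] at h1
  exact (pow_dvd_pow_iff (X_ne_zero s) (X_prime (R := K) (i := s)).not_isUnit).1 h1

private lemma V1_max {s : Fin 5} {m : M} {k : ℕ}
    (h : ∀ (i : ℕ) (σ : M), m = (X s : MvPolynomial (Fin 5) K) ^ i • σ → i ≤ k) :
    ∃ (i : ℕ) (σ : M), m = (X s : MvPolynomial (Fin 5) K) ^ i • σ ∧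
      ∀ y : M, σ ≠ (X s : MvPolynomial (Fin 5) K) • y := by
  classical
  have h0 : ∃ σ : M, m = (X s : MvPolynomial (Fin 5) K) ^ 0 • σ := ⟨m, by rw [pow_zero, one_smul]⟩
  have h1 := Nat.findGreatest_spec
    (P := fun i => ∃ σ : M, m = (X s : MvPolynomial (Fin 5) K) ^ i • σ) (Nat.zero_le k) h0
  obtain ⟨σ, hσ⟩ := h1
  refine ⟨_, σ, hσ, fun y hy => ?_⟩
  have h2 : m = (X s : MvPolynomial (Fin 5) K) ^ (Nat.findGreatest
      (fun i => ∃ σ : M, m = (X s : MvPolynomial (Fin 5) K) ^ i • σ) k + 1) • y := by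
    rw [pow_succ, mul_smul, ← hy]
    exact hσ
  exact Nat.findGreatest_is_greatest
    (P := fun i => ∃ σ : M, m = (X s : MvPolynomial (Fin 5) K) ^ i • σ)
    (Nat.lt_succ_self _) (h _ _ h2) ⟨y, h2⟩

theorem vertex_pair (P : Pairing w 𝓜 d br) {e : ℤ} {s : Fin 5} (hs : Ext w e s) :
    ∃ (α β : ℤ × ℤ) (σ τ : M) (k : ℕ), Good 𝓜 br s α σ ∧ Good 𝓜 br s β τ ∧
      br σ τ = (X s : MvPolynomial (Fin 5) K) ^ k ∧ α + β - d = k • om w s := by
  obtain ⟨α, β, m, n, k, A⟩ := P.axis s
  obtain ⟨hw1, hw2⟩ := A.weight P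
  obtain ⟨c, hcdef⟩ : ∃ c, c = coeff (Finsupp.single s k) (br m n) := ⟨_, rfl⟩
  have hc : c ≠ 0 := by
    rw [hcdef]
    exact A.coeff
  have hval : br m n = C c * (X s : MvPolynomial (Fin 5) K) ^ k := by
    rw [hcdef]
    exact V1_mono hs hw2
  have hXs : (X s : MvPolynomial (Fin 5) K) ≠ 0 := X_ne_zero s
  obtain ⟨i, σ, hσ, hσd⟩ := V1_max (K := K) (s := s) (m := m) (k := k) (by
    intro i σ hσ
    rw [hσ, map_smul, LinearMap.smul_apply, smul_eq_mul] at hval
    exact V1_le hc hval)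
  obtain ⟨j, τ, hτ, hτd⟩ := V1_max (K := K) (s := s) (m := n) (k := k) (by
    intro j τ hτ
    rw [hτ, map_smul, smul_eq_mul] at hval
    exact V1_le hc hval)
  have h1 : (X s : MvPolynomial (Fin 5) K) ^ (i + j) * br σ τ =
      C c * (X s : MvPolynomial (Fin 5) K) ^ k := by
    rw [← hval, hσ, hτ, map_smul, map_smul, LinearMap.smul_apply, smul_eq_mul, smul_eq_mul, pow_add]
    ring
  have hij : i + j ≤ k := V1_le hc h1
  obtain ⟨l, hl⟩ : ∃ l, k = i + j + l := ⟨k - (i + j), by omega⟩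
  have h2 : br σ τ = C c * (X s : MvPolynomial (Fin 5) K) ^ l := by
    have h3 : (X s : MvPolynomial (Fin 5) K) ^ (i + j) * br σ τ =
        (X s : MvPolynomial (Fin 5) K) ^ (i + j) * (C c * (X s : MvPolynomial (Fin 5) K) ^ l) := by
      rw [h1, hl, pow_add _ (i + j) l]
      ring
    exact mul_left_cancel₀ (pow_ne_zero _ hXs) h3
  have hCc : (C c⁻¹ : MvPolynomial (Fin 5) K) * C c = 1 := by
    rw [← C_mul, inv_mul_cancel₀ hc, C_1]
  have hXi : ∀ r : ℕ, IsWeightedHomogeneous (om w) ((X s : MvPolynomial (Fin 5) K) ^ r)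
      (r • om w s) := fun r => (isWeightedHomogeneous_X K (om w) s).pow r
  have hσm : σ ∈ 𝓜 (α - i • om w s) :=
    mem_of_smul_mem (om w) 𝓜 torsionfree_of_reflexive (hXi i) (pow_ne_zero _ hXs)
      (by rw [← hσ]; exact A.hm)
  have hτm : τ ∈ 𝓜 (β - j • om w s) :=
    mem_of_smul_mem (om w) 𝓜 torsionfree_of_reflexive (hXi j) (pow_ne_zero _ hXs)
      (by rw [← hτ]; exact A.hn)
  have hv : br ((C c⁻¹ : MvPolynomial (Fin 5) K) • σ) τ = (X s : MvPolynomial (Fin 5) K) ^ l := by
    rw [map_smul, LinearMap.smul_apply, smul_eq_mul, h2, ← mul_assoc, hCc, one_mul]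
  refine ⟨α - i • om w s, β - j • om w s, (C c⁻¹ : MvPolynomial (Fin 5) K) • σ, τ, l,
    ⟨?_, ?_, ⟨l, τ, hv⟩⟩, ⟨hτm, hτd, ⟨l, -((C c⁻¹ : MvPolynomial (Fin 5) K) • σ), ?_⟩⟩, hv, ?_⟩
  · have h4 := smul_mem' (om w) 𝓜 (isWeightedHomogeneous_C (om w) c⁻¹) hσm
    rwa [zero_add] at h4
  · intro y hy
    apply hσd ((C c : MvPolynomial (Fin 5) K) • y)
    rw [smul_comm, ← hy, smul_smul, mul_comm, hCc, one_smul]
  · rw [map_neg, ← P.swap, hv]
  · rw [show α - i • om w s + (β - j • om w s) - d = (α + β - d) - (i + j) • om w s by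
      rw [add_smul]; abel, hw1, hl, add_smul (i + j) l, add_sub_cancel_left]

end

end Pool.Agent.Lib.MP_745d3a_ag.GM

end
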