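import Pool.Agent.Lib.MP_745d3a_ag.GM.Rank

/-!
The vertex data.
-/

section

set_option autoImplicit false
set_option linter.unusedSectionVars false
set_option linter.unusedSimpArgs false
set_option linter.unusedVariables false

open MvPolynomial

namespace Pool.Agent.Lib.MP_745d3a_ag.GM

/-- Data on `Δ` at the three middle axes. (In the applications `w s < w c < w t`; the conditions
are symmetric under exchanging `s`, `t`.) -/
structure VDat {K : Type*} [Field K] (w : Fin 5 → ℤ) (s t : Fin 5) (N : ℕ) (u v : ℚ)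
    (p q n : Fin 5 → ℕ) (Δ : MvPolynomial (Fin 5) K) : Prop where
  ne : s ≠ t
  hu : 0 < u
  hv : 0 < v
  lt : ∀ c, c ≠ s → c ≠ t → 0 < (w c - w s) * (w t - w c)
  hom : ∀ e, coeff e Δ ≠ 0 → ∑ a, (e a : ℚ) = (N + u) + (N + v) ∧
    ∑ a, (e a : ℚ) * w a = (N + u) * w s + (N + v) * w t
  red : Red s t N Δ
  bc : BC s t N Δ
  pos : ∀ c, c ≠ s → c ≠ t → 1 ≤ p c ∧ p c ≤ N ∧ 1 ≤ q c ∧ q c ≤ N ∧ 1 ≤ n c
  hp : ∀ c, c ≠ s → c ≠ t → (p c : ℚ) * (w c - w s) = v * (w t - w c)
  hq : ∀ c, c ≠ s → c ≠ t → (q c : ℚ) * (w t - w c) = u * (w c - w s)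
  hn1 : ∀ c, c ≠ s → c ≠ t → (n c : ℚ) * (w t - w c) = (w t - w s) * (u + p c)
  hn2 : ∀ c, c ≠ s → c ≠ t → (n c : ℚ) * (w c - w s) = (w t - w s) * (v + q c)
  vert : ∀ c, c ≠ s → c ≠ t → coeff (vx s t c (N - p c) (N - q c) (n c)) Δ ≠ 0
  low : ∀ c, c ≠ s → c ≠ t → ∀ e, coeff e Δ ≠ 0 → (∀ a, a ≠ s → a ≠ t → a ≠ c → e a = 0) →
    N - p c ≤ e s ∧ N - q c ≤ e t

/-- The weights of the function `S`. -/
def Sw (s t : Fin 5) (n : Fin 5 → ℕ) : Fin 5 → ℚ :=
  fun c => if c = s ∨ c = t then 0 else 1 / (n c : ℚ)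

end Pool.Agent.Lib.MP_745d3a_ag.GM

end

section

set_option autoImplicit false
set_option linter.unusedSectionVars false
set_option linter.unusedSimpArgs false
set_option linter.unusedVariables false

open MvPolynomial

namespace Pool.Agent.Lib.MP_745d3a_ag.GM

section

variable {K : Type*} [Field K] {w : Fin 5 → ℤ} {s t : Fin 5} {N : ℕ} {u v : ℚ}
  {p q n : Fin 5 → ℕ} {Δ : MvPolynomial (Fin 5) K}

lemma weight_Sw (s t : Fin 5) (n : Fin 5 → ℕ) (e : Fin 5 →₀ ℕ) :
    Finsupp.weight (Sw s t n) e = ∑ c ∈ (Finset.univ.erase s).erase t, (e c : ℚ) / n c := by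
  rw [Finsupp.weight_apply, Finsupp.sum_fintype _ _ (by simp)]
  symm
  refine (Finset.sum_congr rfl ?_).trans (Finset.sum_subset (Finset.subset_univ _) ?_)
  · intro c hc
    rw [Finset.mem_erase, Finset.mem_erase] at hc
    simp [Sw, hc.1, hc.2.1, nsmul_eq_mul, div_eq_mul_inv]
  · intro c _ hc
    rw [Finset.mem_erase, Finset.mem_erase] at hc
    have h : c = s ∨ c = t := by
      by_contra h
      push Not at h
      exact hc ⟨h.2, h.1, Finset.mem_univ _⟩
    simp [Sw, h]

lemma X1_ex (s t : Fin 5) : ∃ c : Fin 5, c ≠ s ∧ c ≠ t := by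
  revert s t; decide

lemma VDat.swap (V : VDat w s t N u v p q n Δ) : VDat w t s N v u q p n Δ where
  ne := V.ne.symm
  hu := V.hv
  hv := V.hu
  lt := by
    intro c h1 h2
    have := V.lt c h2 h1
    have e : (w c - w t) * (w s - w c) = (w c - w s) * (w t - w c) := by ring
    rw [e]; exact this
  hom := by
    intro e he
    have := V.hom e he
    exact ⟨by rw [this.1, add_comm], by rw [this.2, add_comm]⟩
  red := V.red.swap
  bc := V.bc.swap
  pos := by
    intro c h1 h2
    obtain ⟨a1, a2, a3, a4, a5⟩ := V.pos c h2 h1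
    exact ⟨a3, a4, a1, a2, a5⟩
  hp := by
    intro c h1 h2
    have := V.hq c h2 h1
    linarith
  hq := by
    intro c h1 h2
    have := V.hp c h2 h1
    linarith
  hn1 := by
    intro c h1 h2
    have := V.hn2 c h2 h1
    linarith
  hn2 := by
    intro c h1 h2
    have := V.hn1 c h2 h1
    linarith
  vert := by
    intro c h1 h2
    rw [vx_comm]
    exact V.vert c h2 h1
  low := by
    intro c h1 h2 e he h
    exact (V.low c h2 h1 e he (fun a ha hb hc => h a hb ha hc)).symm

lemma Sw_swap (s t : Fin 5) (n : Fin 5 → ℕ) : Sw t s n = Sw s t n := by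
  funext c
  simp only [Sw, or_comm]

lemma VDat.z_ne (V : VDat w s t N u v p q n Δ) : ((w t : ℚ) - w s) ≠ 0 := by
  obtain ⟨c, h1, h2⟩ := X1_ex s t
  have h := V.lt c h1 h2
  intro h0
  have h3 : w t = w s := by
    have : (w t : ℚ) = w s := by linarith
    exact_mod_cast this
  rw [h3] at h
  nlinarith [sq_nonneg (w c - w s)]

lemma X1_split (hst : s ≠ t) (f : Fin 5 → ℚ) :
    ∑ a, f a = f s + f t + ∑ c ∈ (Finset.univ.erase s).erase t, f c := by
  rw [← Finset.add_sum_erase Finset.univ f (Finset.mem_univ s),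
    ← Finset.add_sum_erase (Finset.univ.erase s) f
      (Finset.mem_erase.2 ⟨hst.symm, Finset.mem_univ t⟩)]
  ring

lemma VDat.es (V : VDat w s t N u v p q n Δ) {e : Fin 5 →₀ ℕ} (he : coeff e Δ ≠ 0) :
    (e s : ℚ) + ∑ c ∈ (Finset.univ.erase s).erase t, (e c : ℚ) / n c * (u + p c) = N + u := by
  obtain ⟨h1, h2⟩ := V.hom e he
  have h3 : ∑ a, (e a : ℚ) * ((w t : ℚ) - w a) = (N + u) * ((w t : ℚ) - w s) := by
    have : ∑ a, (e a : ℚ) * ((w t : ℚ) - w a) =
        (∑ a, (e a : ℚ)) * w t - ∑ a, (e a : ℚ) * w a := by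
      rw [Finset.sum_mul, ← Finset.sum_sub_distrib]
      exact Finset.sum_congr rfl (fun a _ => by ring)
    rw [this, h1, h2]; ring
  rw [X1_split V.ne] at h3
  have h4 : ∑ c ∈ (Finset.univ.erase s).erase t, (e c : ℚ) * ((w t : ℚ) - w c) =
      (∑ c ∈ (Finset.univ.erase s).erase t, (e c : ℚ) / n c * (u + p c)) *
        ((w t : ℚ) - w s) := by
    rw [Finset.sum_mul]
    refine Finset.sum_congr rfl (fun c hc => ?_)
    rw [Finset.mem_erase, Finset.mem_erase] at hc
    have h5 := V.hn1 c hc.2.1 hc.1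
    have h6 : (n c : ℚ) ≠ 0 := by
      have := (V.pos c hc.2.1 hc.1).2.2.2.2
      positivity
    have h7 : (w t : ℚ) - w c = ((w t : ℚ) - w s) * (u + p c) / n c := by
      rw [eq_div_iff h6, ← h5]; ring
    rw [h7]; ring
  rw [h4] at h3
  have h8 := V.z_ne
  apply mul_right_cancel₀ h8
  rw [← h3]; ring

lemma VDat.et (V : VDat w s t N u v p q n Δ) {e : Fin 5 →₀ ℕ} (he : coeff e Δ ≠ 0) :
    (e t : ℚ) + ∑ c ∈ (Finset.univ.erase s).erase t, (e c : ℚ) / n c * (v + q c) = N + v := by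
  have := V.swap.es he
  rw [Finset.erase_right_comm] at this
  exact this

lemma VDat.uv (V : VDat w s t N u v p q n Δ) {c : Fin 5} (hs : c ≠ s) (ht : c ≠ t) :
    (p c : ℚ) * q c = u * v := by
  have h1 := V.hp c hs ht
  have h2 := V.hq c hs ht
  have h3 : ((w c : ℚ) - w s) * ((w t : ℚ) - w c) ≠ 0 := by
    have := V.lt c hs ht
    have h4 : (0 : ℚ) < ((w c : ℚ) - w s) * ((w t : ℚ) - w c) := by exact_mod_cast this
    exact h4.ne'
  apply mul_right_cancel₀ h3
  calc (p c : ℚ) * q c * (((w c : ℚ) - w s) * ((w t : ℚ) - w c))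
      = ((p c : ℚ) * ((w c : ℚ) - w s)) * ((q c : ℚ) * ((w t : ℚ) - w c)) := by ring
    _ = u * v * (((w c : ℚ) - w s) * ((w t : ℚ) - w c)) := by rw [h1, h2]; ring

lemma VDat.mono_inj (V : VDat w s t N u v p q n Δ) {e e' : Fin 5 →₀ ℕ} (he : coeff e Δ ≠ 0)
    (he' : coeff e' Δ ≠ 0) (h : ∀ c, c ≠ s → c ≠ t → e c = e' c) : e = e' := by
  have hA : ∀ c ∈ (Finset.univ.erase s).erase t, e c = e' c := by
    intro c hc
    rw [Finset.mem_erase, Finset.mem_erase] at hc
    exact h c hc.2.1 hc.1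
  have h1 := V.es he
  have h2 := V.es he'
  have h3 := V.et he
  have h4 := V.et he'
  rw [Finset.sum_congr rfl (fun c hc => by rw [hA c hc])] at h1 h3
  have h5 : (e s : ℚ) = e' s := by linarith
  have h6 : (e t : ℚ) = e' t := by linarith
  ext a
  by_cases has : a = s
  · rw [has]; exact_mod_cast h5
  by_cases hat : a = t
  · rw [hat]; exact_mod_cast h6
  exact h a has hat

lemma VDat.ne_zero (V : VDat w s t N u v p q n Δ) : Δ ≠ 0 := by
  obtain ⟨c, h1, h2⟩ := X1_ex s t
  intro h0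
  have := V.vert c h1 h2
  rw [h0] at this
  exact this (coeff_zero _)

end

end Pool.Agent.Lib.MP_745d3a_ag.GM

end

section

set_option autoImplicit false
set_option linter.unusedSectionVars false
set_option linter.unusedSimpArgs false
set_option linter.unusedVariables false

open MvPolynomial

namespace Pool.Agent.Lib.MP_745d3a_ag.GM

section

variable {K : Type*} [Field K] {w : Fin 5 → ℤ} {s t : Fin 5} {N : ℕ} {u v : ℚ}
  {p q n : Fin 5 → ℕ} {Δ : MvPolynomial (Fin 5) K}

private lemma C0_dvd {K : Type*} [Field K] {s t : Fin 5} (hst : s ≠ t) {a b : ℕ}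
    {F : MvPolynomial (Fin 5) K} (h : ∀ e, coeff e F ≠ 0 → a ≤ e s ∧ b ≤ e t) :
    ∃ G : MvPolynomial (Fin 5) K, F = X s ^ a * X t ^ b * G := by
  classical
  refine ⟨∑ e ∈ F.support,
    monomial (e - (Finsupp.single s a + Finsupp.single t b)) (coeff e F), ?_⟩
  have h1 : (X s ^ a * X t ^ b : MvPolynomial (Fin 5) K) =
      monomial (Finsupp.single s a + Finsupp.single t b) 1 := by
    rw [X_pow_eq_monomial, X_pow_eq_monomial, monomial_mul, one_mul]
  rw [h1, Finset.mul_sum]
  conv_lhs => rw [F.as_sum]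
  refine Finset.sum_congr rfl fun e he => ?_
  obtain ⟨h2, h3⟩ := h e (mem_support_iff.1 he)
  have h4 : Finsupp.single s a + Finsupp.single t b ≤ e := by
    intro κ
    rw [Finsupp.add_apply]
    by_cases hs : κ = s
    · subst hs
      rw [Finsupp.single_eq_same, Finsupp.single_eq_of_ne hst, add_zero]
      exact h2
    · by_cases ht : κ = t
      · subst ht
        rw [Finsupp.single_eq_same, Finsupp.single_eq_of_ne hs, zero_add]
        exact h3
      · rw [Finsupp.single_eq_of_ne hs, Finsupp.single_eq_of_ne ht]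
        exact Nat.zero_le _
  rw [monomial_mul, one_mul, add_tsub_cancel_of_le h4]

theorem VDat.rk (V : VDat w s t N u v p q n Δ) {c : Fin 5} (hs : c ≠ s) (ht : c ≠ t) :
    RkLe s t N Δ (p c * q c) := by
  obtain ⟨_, hp, _, hq, _⟩ := V.pos c hs ht
  obtain ⟨G, hG⟩ := C0_dvd (K := K) V.ne (a := N - p c) (b := N - q c)
    (F := th s t (Pi.single c (1 : K)) Δ) (by
      intro e he
      obtain ⟨e', he', h1, h2⟩ := exists_of_coeff_th V.ne he
      have h3 := V.low c hs ht e' he' fun a has hat hac =>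
        h2 a has hat (Pi.single_eq_of_ne hac 1)
      have hes : e s = e' s := by
        rw [h1, Finsupp.add_apply, Finsupp.single_eq_same, Finsupp.single_eq_of_ne V.ne, add_zero]
      have het : e t = e' t := by
        rw [h1, Finsupp.add_apply, Finsupp.single_eq_same, Finsupp.single_eq_of_ne V.ne.symm,
          zero_add]
      rw [hes, het]
      exact h3)
  exact rk_of_point V.ne V.bc ⟨c, hs, ht, by simp⟩ hp hq hG

end

end Pool.Agent.Lib.MP_745d3a_ag.GM

end

section

set_option autoImplicit false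
set_option linter.unusedSectionVars false
set_option linter.unusedSimpArgs false
set_option linter.unusedVariables false

open MvPolynomial

namespace Pool.Agent.Lib.MP_745d3a_ag.GM

section

variable {K : Type*} [Field K] {w : Fin 5 → ℤ} {s t : Fin 5} {N : ℕ} {u v : ℚ}
  {p q n : Fin 5 → ℕ} {Δ : MvPolynomial (Fin 5) K}

lemma C1_five {i j : Fin 5} (hij : i ≠ j) : ∃ k l m, Five i j k l m := by
  have hcard : (Finset.univ \ {i, j} : Finset (Fin 5)).card = 3 := by
    rw [Finset.card_sdiff_of_subset (Finset.subset_univ _), Finset.card_pair hij]; rfl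
  obtain ⟨k, l, m, hkl, hkm, hlm, h⟩ := Finset.card_eq_three.mp hcard
  have hmem : ∀ κ, κ ∈ ({k, l, m} : Finset (Fin 5)) ↔ κ ≠ i ∧ κ ≠ j := by
    intro κ
    rw [← h]
    simp
  have hk := (hmem k).mp (by simp)
  have hl := (hmem l).mp (by simp)
  have hm := (hmem m).mp (by simp)
  refine ⟨k, l, m, hij, hk.1.symm, hl.1.symm, hm.1.symm, hk.2.symm, hl.2.symm, hm.2.symm,
    hkl, hkm, hlm, ?_⟩
  intro κ
  by_cases h1 : κ = i
  · exact Or.inl h1
  · by_cases h2 : κ = j
    · exact Or.inr (Or.inl h2)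
    · have := (hmem κ).mpr ⟨h1, h2⟩
      simp at this
      tauto

lemma C1_two {a a' b b' r : ℚ} (ha : 0 ≤ a) (ha' : 0 ≤ a') (hb : 0 ≤ b) (hb' : 0 ≤ b')
    (hr : 0 ≤ r) (h : a * b = r) (h' : a' * b' = r) : 0 ≤ a * b' + a' * b - 2 * r := by
  have h1 : (2 * r) ^ 2 ≤ (a * b' + a' * b) ^ 2 := by
    have e1 : (a * b' + a' * b) ^ 2 = (a * b' - a' * b) ^ 2 + 4 * ((a * b) * (a' * b')) := by ring
    rw [e1, h, h']
    have e2 : (2 * r) ^ 2 = 4 * (r * r) := by ring
    have e3 := sq_nonneg (a * b' - a' * b)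
    rw [e2]
    linarith
  have h2 : 0 ≤ a * b' + a' * b := by positivity
  have h3 := abs_le_of_sq_le_sq h1 h2
  have h4 := le_abs_self (2 * r)
  linarith

theorem VDat.S_le (V : VDat w s t N u v p q n Δ) :
    ∀ e, coeff e Δ ≠ 0 → Finsupp.weight (Sw s t n) e ≤ 1 := by
  obtain ⟨e, he, htop, hdep⟩ := exists_top_mono (φ := Sw s t n) V.ne V.ne_zero
    (fun e e' h1 h2 h3 => V.mono_inj h1 h2 h3) (by simp [Sw]) (by simp [Sw])
  intro e' he'
  refine (htop e' he').trans ?_
  by_contra hS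
  have hS := not_le.mp hS
  obtain ⟨k, l, m, F⟩ := C1_five V.ne
  have hset : (Finset.univ.erase s).erase t = ({k, l, m} : Finset (Fin 5)) := by
    ext c
    simp only [Finset.mem_erase, Finset.mem_univ, and_true, Finset.mem_insert,
      Finset.mem_singleton]
    constructor
    · rintro ⟨h1, h2⟩
      rcases F.ex c with h | h | h | h | h
      · exact absurd h h2
      · exact absurd h h1
      · exact Or.inl h
      · exact Or.inr (Or.inl h)
      · exact Or.inr (Or.inr h)
    · rintro (rfl | rfl | rfl)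
      · exact ⟨F.jk.symm, F.ik.symm⟩
      · exact ⟨F.jl.symm, F.il.symm⟩
      · exact ⟨F.jm.symm, F.im.symm⟩
  have hsum : ∀ f : Fin 5 → ℚ, ∑ c ∈ (Finset.univ.erase s).erase t, f c = f k + f l + f m := by
    intro f
    rw [hset, Finset.sum_insert (by simp [F.kl, F.km]), Finset.sum_insert (by simp [F.lm]),
      Finset.sum_singleton]
    ring
  have hes := V.es he
  have het := V.et he
  have hw := weight_Sw s t n e
  rw [hsum] at hes het hw
  rw [hw] at hS
  have huvk := V.uv F.ik.symm F.jk.symm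
  have huvl := V.uv F.il.symm F.jl.symm
  have huvm := V.uv F.im.symm F.jm.symm
  have hu := V.hu
  have hv := V.hv
  have hx : ∀ c, 0 ≤ (e c : ℚ) / n c := fun c => by positivity
  have hxk := hx k
  have hxl := hx l
  have hxm := hx m
  obtain ⟨hrs, hrt⟩ := V.red e he
  have hi : ((N - e s : ℕ) : ℚ) = N - e s := by push_cast [hrs.le]; ring
  have hj : ((N - e t : ℕ) : ℚ) = N - e t := by push_cast [hrt.le]; ring
  generalize hk' : (e k : ℚ) / n k = xk at *
  generalize hl' : (e l : ℚ) / n l = xl at *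
  generalize hm' : (e m : ℚ) / n m = xm at *
  have hpk : (0 : ℚ) ≤ p k := by positivity
  have hpl : (0 : ℚ) ≤ p l := by positivity
  have hpm : (0 : ℚ) ≤ p m := by positivity
  have hqk : (0 : ℚ) ≤ q k := by positivity
  have hql : (0 : ℚ) ≤ q l := by positivity
  have hqm : (0 : ℚ) ≤ q m := by positivity
  have huv : 0 < u * v := mul_pos hu hv
  have k1 := mul_nonneg (mul_nonneg hxk hxl) (C1_two hpk hpl hqk hql huv.le huvk huvl)
  have k2 := mul_nonneg (mul_nonneg hxk hxm) (C1_two hpk hpm hqk hqm huv.le huvk huvm)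
  have k3 := mul_nonneg (mul_nonneg hxl hxm) (C1_two hpl hpm hql hqm huv.le huvl huvm)
  have hAB : u * v * (xk + xl + xm) ^ 2 ≤
      (xk * p k + xl * p l + xm * p m) * (xk * q k + xl * q l + xm * q m) := by
    have e1 : (xk * p k + xl * p l + xm * p m) * (xk * q k + xl * q l + xm * q m) =
        u * v * (xk + xl + xm) ^ 2 + xk * xl * (p k * q l + p l * q k - 2 * (u * v)) +
        xk * xm * (p k * q m + p m * q k - 2 * (u * v)) +
        xl * xm * (p l * q m + p m * q l - 2 * (u * v)) := by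
      linear_combination xk ^ 2 * huvk + xl ^ 2 * huvl + xm ^ 2 * huvm
    rw [e1]
    linarith
  have hS2 : u * v < u * v * (xk + xl + xm) ^ 2 := by
    exact lt_mul_of_one_lt_right huv (one_lt_pow₀ hS (by norm_num))
  have hiA : xk * p k + xl * p l + xm * p m ≤ ((N - e s : ℕ) : ℚ) := by
    rw [hi]
    have : 0 ≤ (xk + xl + xm - 1) * u := mul_nonneg (by linarith) hu.le
    linarith
  have hjB : xk * q k + xl * q l + xm * q m ≤ ((N - e t : ℕ) : ℚ) := by
    rw [hj]
    have : 0 ≤ (xk + xl + xm - 1) * v := mul_nonneg (by linarith) hv.le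
    linarith
  have hij : u * v < ((N - e s : ℕ) : ℚ) * ((N - e t : ℕ) : ℚ) :=
    lt_of_lt_of_le (lt_of_lt_of_le hS2 hAB)
      (mul_le_mul hiA hjB (by positivity) (by positivity))
  have hnat : p k * q k < (N - e s) * (N - e t) := by
    rw [← huvk] at hij
    exact_mod_cast hij
  have hD := V.rk F.ik.symm F.jk.symm (Finset.range (N - e s) ×ˢ Finset.range (N - e t))
    (by
      intro x hx
      rw [Finset.mem_product, Finset.mem_range, Finset.mem_range] at hx
      omega)
    (by rw [Finset.card_product, Finset.card_range, Finset.card_range]; exact hnat)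
  exact not_dep_monomial V.ne he (by omega) (by omega) (hdep _ hD)

end

end Pool.Agent.Lib.MP_745d3a_ag.GM

end

section

set_option autoImplicit false
set_option linter.unusedSectionVars false
set_option linter.unusedSimpArgs false
set_option linter.unusedVariables false

open MvPolynomial

namespace Pool.Agent.Lib.MP_745d3a_ag.GM

section

variable {K : Type*} [Field K] {w : Fin 5 → ℤ} {s t : Fin 5} {N : ℕ} {u v : ℚ}
  {p q n : Fin 5 → ℕ} {Δ : MvPolynomial (Fin 5) K}

private lemma C2_vx_self {s t c : Fin 5} (hs : c ≠ s) (ht : c ≠ t) (a b r : ℕ) :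
    (vx s t c a b r) c = r := by
  rw [vx]
  simp [Finsupp.single_apply, Ne.symm hs, Ne.symm ht]

private lemma C2_vx_s {s t c : Fin 5} (hst : s ≠ t) (hs : c ≠ s) (a b r : ℕ) :
    (vx s t c a b r) s = a := by
  rw [vx]
  simp [Finsupp.single_apply, Ne.symm hst, hs]

private lemma C2_vx_t {s t c : Fin 5} (hst : s ≠ t) (ht : c ≠ t) (a b r : ℕ) :
    (vx s t c a b r) t = b := by
  rw [vx]
  simp [Finsupp.single_apply, hst, ht]

private lemma C2_vx_o {s t c l : Fin 5} (hs : l ≠ s) (ht : l ≠ t) (hc : l ≠ c) (a b r : ℕ) :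
    (vx s t c a b r) l = 0 := by
  rw [vx]
  simp [Finsupp.single_apply, Ne.symm hs, Ne.symm ht, Ne.symm hc]

lemma VDat.coeff_top (V : VDat w s t N u v p q n Δ) (e : Fin 5 →₀ ℕ) :
    coeff e (weightedHomogeneousComponent (Sw s t n) 1 Δ) =
      if ∑ c ∈ (Finset.univ.erase s).erase t, (e c : ℚ) / n c = 1 then coeff e Δ else 0 := by
  classical
  rw [coeff_weightedHomogeneousComponent, weight_Sw]

private lemma C2_mem {s t c : Fin 5} (hs : c ≠ s) (ht : c ≠ t) :
    c ∈ (Finset.univ.erase s).erase t :=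
  Finset.mem_erase.mpr ⟨ht, Finset.mem_erase.mpr ⟨hs, Finset.mem_univ _⟩⟩

lemma VDat.vert_top (V : VDat w s t N u v p q n Δ) {c : Fin 5} (hs : c ≠ s) (ht : c ≠ t) :
    coeff (vx s t c (N - p c) (N - q c) (n c))
      (weightedHomogeneousComponent (Sw s t n) 1 Δ) ≠ 0 := by
  rw [V.coeff_top, if_pos]
  · exact V.vert c hs ht
  · have h1 : (n c : ℚ) ≠ 0 := by
      have := (V.pos c hs ht).2.2.2.2
      exact_mod_cast (by omega : n c ≠ 0)
    rw [Finset.sum_eq_single_of_mem c (C2_mem hs ht), C2_vx_self hs ht, div_self h1]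
    intro b hb hbc
    rw [Finset.mem_erase, Finset.mem_erase] at hb
    rw [C2_vx_o hb.2.1 hb.1 hbc]
    simp

lemma VDat.top_le (V : VDat w s t N u v p q n Δ) {c : Fin 5} (hs : c ≠ s) (ht : c ≠ t)
    {e : Fin 5 →₀ ℕ} (he : coeff e (weightedHomogeneousComponent (Sw s t n) 1 Δ) ≠ 0) :
    e c ≤ n c ∧ (e c = n c → e = vx s t c (N - p c) (N - q c) (n c)) := by
  rw [V.coeff_top] at he
  have hsum : ∑ c ∈ (Finset.univ.erase s).erase t, (e c : ℚ) / n c = 1 := by
    by_contra h
    rw [if_neg h] at he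
    exact he rfl
  rw [if_pos hsum] at he
  have hnn : ∀ b ∈ (Finset.univ.erase s).erase t, (0 : ℚ) ≤ (e b : ℚ) / n b := fun b _ =>
    div_nonneg (Nat.cast_nonneg _) (Nat.cast_nonneg _)
  have hn : (0 : ℚ) < n c := by
    have := (V.pos c hs ht).2.2.2.2
    exact_mod_cast (by omega : 0 < n c)
  have hle : (e c : ℚ) / n c ≤ 1 := by
    rw [← hsum]
    exact Finset.single_le_sum hnn (C2_mem hs ht)
  refine ⟨?_, ?_⟩
  · rw [div_le_one hn] at hle
    exact_mod_cast hle
  · intro hec
    have h1 : (e c : ℚ) / n c = 1 := by rw [hec, div_self hn.ne']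
    refine V.mono_inj he (V.vert c hs ht) ?_
    intro b hbs hbt
    by_cases hbc : b = c
    · rw [hbc, C2_vx_self hs ht, hec]
    · rw [C2_vx_o hbs hbt hbc]
      rw [← Finset.add_sum_erase _ _ (C2_mem hs ht), h1] at hsum
      have hz : ∑ x ∈ ((Finset.univ.erase s).erase t).erase c, (e x : ℚ) / n x = 0 := by
        linarith
      have hz2 := (Finset.sum_eq_zero_iff_of_nonneg (fun x hx => hnn x (Finset.mem_of_mem_erase hx))).mp
        hz b (Finset.mem_erase.mpr ⟨hbc, C2_mem hbs hbt⟩)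
      have hnb : (n b : ℚ) ≠ 0 := by
        have := (V.pos b hbs hbt).2.2.2.2
        exact_mod_cast (by omega : n b ≠ 0)
      rw [div_eq_zero_iff] at hz2
      rcases hz2 with hz2 | hz2
      · exact_mod_cast hz2
      · exact absurd hz2 hnb

theorem VDat.vertex_indep (V : VDat w s t N u v p q n Δ) {c : Fin 5} (hs : c ≠ s) (ht : c ≠ t) :
    ¬ Dep s t N (weightedHomogeneousComponent (Sw s t n) 1 Δ)
      (Finset.range (p c) ×ˢ Finset.range (q c)) := by
  have hpos := V.pos c hs ht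
  refine not_dep_of_vertex V.ne hs ht (V.vert_top hs ht) ?_ ?_ ?_
  · rw [C2_vx_s V.ne hs]
    omega
  · rw [C2_vx_t V.ne ht]
    omega
  · intro e he
    rw [C2_vx_self hs ht]
    exact V.top_le hs ht he

theorem VDat.vertex_indep' (V : VDat w s t N u v p q n Δ) {c l : Fin 5} (hs : c ≠ s)
    (ht : c ≠ t) (hl : l ≠ c) (hls : l ≠ s) (hlt : l ≠ t) :
    ¬ Dep s t N (part (fun e => e l = 0) (weightedHomogeneousComponent (Sw s t n) 1 Δ))
      (Finset.range (p c) ×ˢ Finset.range (q c)) := by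
  have hpos := V.pos c hs ht
  have hc0 : coeff (vx s t c (N - p c) (N - q c) (n c))
      (part (fun e => e l = 0) (weightedHomogeneousComponent (Sw s t n) 1 Δ)) ≠ 0 := by
    rw [coeff_part, if_pos (C2_vx_o hls hlt hl _ _ _)]
    exact V.vert_top hs ht
  refine not_dep_of_vertex V.ne hs ht hc0 ?_ ?_ ?_
  · rw [C2_vx_s V.ne hs]
    omega
  · rw [C2_vx_t V.ne ht]
    omega
  · intro e he
    rw [C2_vx_self hs ht]
    refine V.top_le hs ht ?_
    rw [coeff_part] at he
    by_contra h0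
    rw [h0] at he
    exact he (by simp)

theorem VDat.rk_ge (V : VDat w s t N u v p q n Δ) {c : Fin 5} (hs : c ≠ s) (ht : c ≠ t) {ρ : ℕ}
    (h : RkLe s t N Δ ρ) : p c * q c ≤ ρ := by
  by_contra hlt
  have hpos := V.pos c hs ht
  have hdep := h (Finset.range (p c) ×ˢ Finset.range (q c)) (by
    intro e he
    rw [Finset.mem_product, Finset.mem_range, Finset.mem_range] at he
    exact ⟨by omega, by omega⟩) (by
    rw [Finset.card_product, Finset.card_range, Finset.card_range]
    omega)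
  refine V.vertex_indep hs ht (Dep.top V.ne hdep ?_ ?_ V.S_le)
  · simp [Sw]
  · simp [Sw]

end

end Pool.Agent.Lib.MP_745d3a_ag.GM

end
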