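import Pool.Agent.Lib.MP_745d3a_ag.GM.Defs
import Pool.Agent.Lib.MP_745d3a_ag.GM.Cases
import Pool.Agent.Lib.MP_745d3a_ag.GM.Good
import Pool.Agent.Lib.MP_745d3a_ag.GM.Vx

/-!
The ideal of values at an axis.
-/

section

set_option autoImplicit false
set_option linter.unusedSectionVars false
set_option linter.unusedSimpArgs false
set_option linter.unusedVariables false

open MvPolynomial

namespace Pool.Agent.Lib.MP_745d3a_ag.GM

lemma A1_eq_vx {s t c : Fin 5} (hst : s ≠ t) (hcs : c ≠ s) (hct : c ≠ t) {e : Fin 5 →₀ ℕ}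
    (h : ∀ κ, κ ≠ s → κ ≠ t → κ ≠ c → e κ = 0) : e = vx s t c (e s) (e t) (e c) := by
  classical
  ext κ
  simp only [vx, Finsupp.add_apply, Finsupp.single_apply]
  by_cases h1 : κ = s
  · subst h1
    simp [hst.symm, hcs]
  · by_cases h2 : κ = t
    · subst h2
      simp [hst, hct]
    · by_cases h3 : κ = c
      · subst h3
        simp [hcs.symm, hct.symm]
      · rw [h κ h1 h2 h3]
        simp [Ne.symm h1, Ne.symm h2, Ne.symm h3]

lemma A1_scal_one {K : Type*} [Field K] {s t c : Fin 5} {e : Fin 5 →₀ ℕ}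
    (h : ∀ κ, κ ≠ s → κ ≠ t → κ ≠ c → e κ = 0) :
    scal s t (Pi.single c (1 : K)) e = 1 := by
  rw [scal, Finsupp.prod_fintype _ _ (by intro κ; simp)]
  refine Finset.prod_eq_one fun κ _ => ?_
  by_cases h1 : κ = s ∨ κ = t
  · rw [if_pos h1]
  · rw [if_neg h1]
    by_cases h3 : κ = c
    · subst h3
      simp
    · push Not at h1
      rw [h κ h1.1 h1.2 h3, pow_zero]

lemma A1_scal_zero {K : Type*} [Field K] {s t c : Fin 5} {e : Fin 5 →₀ ℕ}
    (h : ¬ ∀ κ, κ ≠ s → κ ≠ t → κ ≠ c → e κ = 0) :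
    scal s t (Pi.single c (1 : K)) e = 0 := by
  push Not at h
  obtain ⟨κ, h1, h2, h3, h4⟩ := h
  rw [scal, Finsupp.prod_fintype _ _ (by intro κ; simp)]
  refine Finset.prod_eq_zero (Finset.mem_univ κ) ?_
  rw [if_neg (by tauto), Pi.single_eq_of_ne h3, zero_pow h4]

lemma A1_vals {s t c : Fin 5} (hst : s ≠ t) (hcs : c ≠ s) (hct : c ≠ t) (a b n : ℕ) :
    vx s t c a b n s = a ∧ vx s t c a b n t = b ∧ vx s t c a b n c = n ∧
      ∀ κ, κ ≠ s → κ ≠ t → κ ≠ c → vx s t c a b n κ = 0 := by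
  classical
  simp only [vx, Finsupp.add_apply, Finsupp.single_apply]
  refine ⟨?_, ?_, ?_, ?_⟩
  · simp [hst.symm, hcs]
  · simp [hst, hct]
  · simp [hcs.symm, hct.symm]
  · intro κ h1 h2 h3
    simp [Ne.symm h1, Ne.symm h2, Ne.symm h3]

lemma A1_pair {s t : Fin 5} (hst : s ≠ t) {a b a' b' : ℕ}
    (h : Finsupp.single s a' + Finsupp.single t b' = Finsupp.single s a + Finsupp.single t b) :
    a' = a ∧ b' = b := by
  classical
  have h1 := DFunLike.congr_fun h s
  have h2 := DFunLike.congr_fun h t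
  simp only [Finsupp.add_apply, Finsupp.single_apply] at h1 h2
  simp [hst, hst.symm] at h1 h2
  exact ⟨h1, h2⟩

lemma A1_tot {w : Fin 5 → ℤ} (e : Fin 5 →₀ ℕ) :
    (Finsupp.weight (om w) e).1 = ∑ κ, (e κ : ℤ) := by
  rw [Finsupp.weight_apply, Finsupp.sum_fintype _ _ (by intro i; exact zero_smul ℕ _), Prod.fst_sum]
  refine Finset.sum_congr rfl fun κ _ => ?_
  simp [om]

theorem coeff_th_single {K : Type*} [Field K] {w : Fin 5 → ℤ} {s t c : Fin 5} (hst : s ≠ t)
    (hcs : c ≠ s) (hct : c ≠ t) {f : MvPolynomial (Fin 5) K} {τ : ℤ × ℤ}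
    (hf : IsWeightedHomogeneous (om w) f τ) (a b n : ℕ) (h : (a + b + n : ℤ) = τ.1) :
    coeff (Finsupp.single s a + Finsupp.single t b) (th s t (Pi.single c (1 : K)) f) =
      coeff (vx s t c a b n) f := by
  classical
  have e1 : coeff (Finsupp.single s a + Finsupp.single t b) (th s t (Pi.single c (1 : K)) f) =
      ∑ e ∈ f.support, (if Finsupp.single s (e s) + Finsupp.single t (e t) =
        Finsupp.single s a + Finsupp.single t b then
          coeff e f * scal s t (Pi.single c (1 : K)) e else 0) := by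
    conv_lhs => rw [f.as_sum, map_sum, coeff_sum]
    refine Finset.sum_congr rfl fun e _ => ?_
    rw [th_monomial hst, coeff_monomial]
  have e2 : ∑ e ∈ f.support, (if Finsupp.single s (e s) + Finsupp.single t (e t) =
        Finsupp.single s a + Finsupp.single t b then
          coeff e f * scal s t (Pi.single c (1 : K)) e else 0) =
      ∑ e ∈ f.support, (if e = vx s t c a b n then coeff e f else 0) := by
    refine Finset.sum_congr rfl fun e he => ?_
    obtain ⟨v1, v2, v3, v4⟩ := A1_vals hst hcs hct a b n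
    by_cases hs : ∀ κ, κ ≠ s → κ ≠ t → κ ≠ c → e κ = 0
    · by_cases hc : Finsupp.single s (e s) + Finsupp.single t (e t) =
        Finsupp.single s a + Finsupp.single t b
      · obtain ⟨ha, hb⟩ := A1_pair hst hc
        have hw := hf (mem_support_iff.mp he)
        have htot := congrArg Prod.fst hw
        rw [A1_tot] at htot
        have hvx := A1_eq_vx hst hcs hct hs
        have htot2 : ∑ κ, (e κ : ℤ) = e s + e t + e c := by
          have h5 : ∀ κ, (e κ : ℤ) = (if κ = s then (e s : ℤ) else 0) +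
              (if κ = t then (e t : ℤ) else 0) + (if κ = c then (e c : ℤ) else 0) := by
            intro κ
            by_cases h1 : κ = s
            · subst h1
              simp [hst, hcs.symm]
            · by_cases h2 : κ = t
              · subst h2
                simp [hst.symm, hct.symm]
              · by_cases h3 : κ = c
                · subst h3
                  simp [hcs, hct]
                · rw [hs κ h1 h2 h3]
                  simp [h1, h2, h3]
          rw [Finset.sum_congr rfl (fun κ _ => h5 κ), Finset.sum_add_distrib,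
            Finset.sum_add_distrib, Finset.sum_ite_eq', Finset.sum_ite_eq', Finset.sum_ite_eq']
          simp
        have hn : e c = n := by
          rw [htot2, ha, hb, ← h] at htot
          omega
        rw [ha, hb, hn] at hvx
        rw [if_pos hc, if_pos hvx, A1_scal_one hs, mul_one]
      · rw [if_neg hc, if_neg]
        intro hvx
        apply hc
        rw [hvx, v1, v2]
    · rw [A1_scal_zero hs, mul_zero, ite_self, if_neg]
      intro hvx
      apply hs
      intro κ h1 h2 h3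
      rw [hvx]
      exact v4 κ h1 h2 h3
  rw [e1, e2, Finset.sum_ite_eq' f.support (vx s t c a b n) (fun e => coeff e f)]
  by_cases hm : vx s t c a b n ∈ f.support
  · rw [if_pos hm]
  · rw [if_neg hm]
    exact (notMem_support_iff.mp hm).symm

theorem exists_of_coeff_th_single {K : Type*} [Field K] {w : Fin 5 → ℤ} {s t c : Fin 5}
    (hst : s ≠ t) (hcs : c ≠ s) (hct : c ≠ t) {f : MvPolynomial (Fin 5) K} {e : Fin 5 →₀ ℕ}
    (h : coeff e (th s t (Pi.single c (1 : K)) f) ≠ 0) :
    e = Finsupp.single s (e s) + Finsupp.single t (e t) ∧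
      ∃ n, coeff (vx s t c (e s) (e t) n) f ≠ 0 := by
  classical
  obtain ⟨e', h1, h2, h3⟩ := exists_of_coeff_th hst h
  have hs : e s = e' s := by
    rw [h2]
    simp [Finsupp.single_apply, hst.symm]
  have ht : e t = e' t := by
    rw [h2]
    simp [Finsupp.single_apply, hst]
  refine ⟨?_, e' c, ?_⟩
  · rw [hs, ht]
    exact h2
  · rw [hs, ht, ← A1_eq_vx hst hcs hct (fun κ k1 k2 k3 => h3 κ k1 k2 (Pi.single_eq_of_ne k3 _))]
    exact h1

end Pool.Agent.Lib.MP_745d3a_ag.GM

end

section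

set_option autoImplicit false
set_option linter.unusedSectionVars false
set_option linter.unusedSimpArgs false
set_option linter.unusedVariables false

open MvPolynomial

namespace Pool.Agent.Lib.MP_745d3a_ag.GM

section

variable {K M : Type*} [Field K] [CharZero K] [AddCommGroup M]
  [Module (MvPolynomial (Fin 5) K) M]
  [Module.IsReflexive (MvPolynomial (Fin 5) K) M] [Module.Finite (MvPolynomial (Fin 5) K) M]
  {w : Fin 5 → ℤ} {𝓜 : ℤ × ℤ → AddSubgroup M} [DirectSum.Decomposition 𝓜]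
  [SetLike.GradedSMul (weightedHomogeneousSubmodule K (om w)) 𝓜]
  {d : ℤ × ℤ}
  {br : M →ₗ[MvPolynomial (Fin 5) K] M →ₗ[MvPolynomial (Fin 5) K] MvPolynomial (Fin 5) K}

/-- The ideal of values of `π` at the axis point `c` is `(x_s ^ p, x_t ^ q)`. -/
def AxDat {K M : Type*} [Field K] [AddCommGroup M] [Module (MvPolynomial (Fin 5) K) M]
    (s t c : Fin 5) (π : M →ₗ[MvPolynomial (Fin 5) K] MvPolynomial (Fin 5) K) (p q : ℕ) : Prop :=
  ∃ (y1 y2 : M) (D g1 g2 : MvPolynomial (Fin 5) K),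
    th s t (Pi.single c (1 : K)) (π y1) = X t ^ q * g1 ∧ coeff 0 g1 ≠ 0 ∧
    th s t (Pi.single c (1 : K)) (π y2) = X s ^ p * g2 ∧ coeff 0 g2 ≠ 0 ∧
    coeff 0 (th s t (Pi.single c (1 : K)) D) ≠ 0 ∧
    ∀ y, ∃ a b, D * π y = a * π y1 + b * π y2

private lemma A2_aux {K : Type*} [Field K] {x : Fin 5} {D A B f g : MvPolynomial (Fin 5) K}
    {N : ℕ} (h : D * X x ^ N = A * f + B * g) (hD : coeff 0 D ≠ 0)
    (hg : ∀ q, coeff (Finsupp.single x q) g = 0) : ∃ q, coeff (Finsupp.single x q) f ≠ 0 := by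
  classical
  by_contra hcon
  push Not at hcon
  have h1 : coeff (Finsupp.single x N) (D * X x ^ N) = coeff 0 D := by
    rw [X_pow_eq_monomial]
    have := coeff_mul_monomial 0 (Finsupp.single x N) (1 : K) D
    rw [zero_add, mul_one] at this
    exact this
  have h2 : ∀ (A f : MvPolynomial (Fin 5) K), (∀ q, coeff (Finsupp.single x q) f = 0) →
      coeff (Finsupp.single x N) (A * f) = 0 := by
    intro A f hf
    rw [coeff_mul]
    refine Finset.sum_eq_zero ?_
    intro y hy
    rw [Finset.HasAntidiagonal.mem_antidiagonal] at hy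
    have h3 : y.2 = Finsupp.single x (y.2 x) := by
      ext κ
      by_cases hκ : κ = x
      · rw [hκ, Finsupp.single_eq_same]
      · have := DFunLike.congr_fun hy κ
        rw [Finsupp.add_apply, Finsupp.single_apply, if_neg (Ne.symm hκ)] at this
        rw [Finsupp.single_apply, if_neg (Ne.symm hκ)]
        omega
    rw [h3, hf, mul_zero]
  rw [h, coeff_add, h2 A f hcon, h2 B g hg, add_zero] at h1
  exact hD h1.symm

private lemma A2_div {K : Type*} [Field K] {x : Fin 5} {f : MvPolynomial (Fin 5) K} {q : ℕ}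
    (h : ∀ e, coeff e f ≠ 0 → q ≤ e x) (h0 : coeff (Finsupp.single x q) f ≠ 0) :
    ∃ g, f = X x ^ q * g ∧ coeff 0 g ≠ 0 := by
  classical
  have h1 : (monomial (Finsupp.single x q) (1 : K)) ∣ f := by
    rw [monomial_one_dvd_iff_modMonomial_eq_zero]
    ext e
    rw [coeff_zero]
    by_cases he : Finsupp.single x q ≤ e
    · exact coeff_modMonomial_of_le f he
    · rw [coeff_modMonomial_of_not_le f he]
      by_contra hne
      exact he (Finsupp.single_le_iff.mpr (h e hne))
  obtain ⟨g, hg⟩ := h1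
  refine ⟨g, by rw [hg, X_pow_eq_monomial], ?_⟩
  intro hg0
  apply h0
  have := coeff_monomial_mul 0 (Finsupp.single x q) (1 : K) g
  rw [add_zero, one_mul] at this
  rw [hg, this, hg0]

private lemma A2_mono {K : Type*} [Field K] {w : Fin 5 → ℤ} {s t c : Fin 5} (hst : s ≠ t)
    (hcs : c ≠ s) (hct : c ≠ t) {f : MvPolynomial (Fin 5) K} {γ : ℤ × ℤ}
    (hf : IsWeightedHomogeneous (om w) f γ) {e : Fin 5 →₀ ℕ}
    (h : coeff e (th s t (Pi.single c (1 : K)) f) ≠ 0) :
    (e t : ℚ) * ((w t : ℚ) - w c) - (e s : ℚ) * ((w c : ℚ) - w s) =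
      (γ.2 : ℚ) - w c * γ.1 := by
  obtain ⟨_, n, hn⟩ := exists_of_coeff_th_single (w := w) hst hcs hct h
  have h1 := hf hn
  rw [vx, map_add, map_add, Finsupp.weight_single, Finsupp.weight_single,
    Finsupp.weight_single] at h1
  have h2 := congrArg Prod.fst h1
  have h3 := congrArg Prod.snd h1
  simp only [om, Prod.smul_mk, nsmul_eq_mul, mul_one, Prod.fst_add, Prod.snd_add] at h2 h3
  rw [← h2, ← h3]
  push_cast
  ring

private lemma A2_main (P : Pairing w 𝓜 d br) {l : ℚ × ℚ} {s t c : Fin 5}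
    (hst : s ≠ t) (hcs : c ≠ s) (hct : c ≠ t) (h1 : w s < w c) (h2 : w c < w t) {ζ : ℤ × ℤ}
    {σ : M} (Gs : Good 𝓜 br s ζ σ) (Gt : Good 𝓜 br t ζ σ) {u v : ℚ} (hu : 0 < u) (hv : 0 < v)
    (hζ : tw d ζ = -l - (2 * u) • ch w s) (hζ' : tw d ζ = l - (2 * v) • ch w t)
    {α β : ℤ × ℤ} {m n : M} {k : ℕ} (hm : m ∈ 𝓜 α) (hn : n ∈ 𝓜 β)
    (hc : coeff (Finsupp.single c k) (br m n) ≠ 0)
    (hD : IsWeightedHomogeneous (om w) (br m n) (k • om w c))
    (hα : ev (tw d α) (-(w c : ℚ)) 1 = ev l (-(w c : ℚ)) 1)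
    (hβ : ev (tw d β) (-(w c : ℚ)) 1 = -ev l (-(w c : ℚ)) 1) :
    ∃ p q : ℕ, 1 ≤ p ∧ 1 ≤ q ∧ (p : ℚ) * (w c - w s) = v * (w t - w c) ∧
      (q : ℚ) * (w t - w c) = u * (w c - w s) ∧ AxDat s t c (br σ) p q := by
  have g1 : (0 : ℚ) < (w c : ℚ) - w s := by
    have : (w s : ℚ) < w c := by exact_mod_cast h1
    linarith
  have g2 : (0 : ℚ) < (w t : ℚ) - w c := by
    have : (w c : ℚ) < w t := by exact_mod_cast h2
    linarith
  -- weights
  have z1 := congrArg Prod.fst hζ
  have z2 := congrArg Prod.snd hζ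
  have z3 := congrArg Prod.fst hζ'
  have z4 := congrArg Prod.snd hζ'
  simp only [tw, ch, Prod.fst_sub, Prod.snd_sub, Prod.fst_neg, Prod.snd_neg, Prod.smul_mk,
    smul_eq_mul] at z1 z2 z3 z4
  simp only [ev, tw] at hα hβ
  have hf1 := P.hom ζ α σ Gs.mem m hm
  have hf2 := P.hom ζ β σ Gs.mem n hn
  have hw1 : ((ζ + α - d).2 : ℚ) - w c * ((ζ + α - d).1 : ℚ) = u * ((w c : ℚ) - w s) := by
    simp only [Prod.snd_sub, Prod.snd_add, Prod.fst_sub, Prod.fst_add, Int.cast_sub, Int.cast_add]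
    linear_combination (1 / 2 : ℚ) * hα + (1 / 2 : ℚ) * z2 - (1 / 2 : ℚ) * (w c : ℚ) * z1
  have hw2 : ((ζ + β - d).2 : ℚ) - w c * ((ζ + β - d).1 : ℚ) = -(v * ((w t : ℚ) - w c)) := by
    simp only [Prod.snd_sub, Prod.snd_add, Prod.fst_sub, Prod.fst_add, Int.cast_sub, Int.cast_add]
    linear_combination (1 / 2 : ℚ) * hβ + (1 / 2 : ℚ) * z4 - (1 / 2 : ℚ) * (w c : ℚ) * z3
  have m1 : ∀ e, coeff e (th s t (Pi.single c (1 : K)) (br σ m)) ≠ 0 →
      (e t : ℚ) * ((w t : ℚ) - w c) - (e s : ℚ) * ((w c : ℚ) - w s) = u * ((w c : ℚ) - w s) :=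
    fun e he => by rw [A2_mono hst hcs hct hf1 he, hw1]
  have m2 : ∀ e, coeff e (th s t (Pi.single c (1 : K)) (br σ n)) ≠ 0 →
      (e t : ℚ) * ((w t : ℚ) - w c) - (e s : ℚ) * ((w c : ℚ) - w s) =
        -(v * ((w t : ℚ) - w c)) :=
    fun e he => by rw [A2_mono hst hcs hct hf2 he, hw2]
  have hD0 : coeff 0 (th s t (Pi.single c (1 : K)) (br m n)) ≠ 0 := by
    have := coeff_th_single (K := K) hst hcs hct hD 0 0 k (by simp [om])
    rw [Finsupp.single_zero, Finsupp.single_zero, add_zero] at this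
    rw [this, vx, Finsupp.single_zero, Finsupp.single_zero, add_zero, zero_add]
    exact hc
  have hcomb : ∀ y, br m n * br σ y = -(br n y) * br σ m + br m y * br σ n := by
    intro y
    rw [P.plu4 m n σ y]
    ring
  -- the exponent `q`
  obtain ⟨q, hq⟩ : ∃ q, coeff (Finsupp.single t q)
      (th s t (Pi.single c (1 : K)) (br σ m)) ≠ 0 := by
    obtain ⟨N, y, hy⟩ := Gt.val
    have e1 := congrArg (th s t (Pi.single c (1 : K))) (hcomb y)
    rw [hy, map_mul, map_pow, th_X_right, map_add, map_mul, map_mul] at e1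
    refine A2_aux e1 hD0 ?_
    intro q
    by_contra hne
    have := m2 _ hne
    rw [Finsupp.single_eq_same, Finsupp.single_apply, if_neg hst.symm] at this
    have hq0 : (0 : ℚ) ≤ q := Nat.cast_nonneg q
    simp only [Nat.cast_zero, zero_mul, sub_zero] at this
    nlinarith [mul_nonneg hq0 g2.le, mul_pos hv g2]
  obtain ⟨p, hp⟩ : ∃ p, coeff (Finsupp.single s p)
      (th s t (Pi.single c (1 : K)) (br σ n)) ≠ 0 := by
    obtain ⟨N, y, hy⟩ := Gs.val
    have e1 := congrArg (th s t (Pi.single c (1 : K))) (hcomb y)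
    rw [hy, map_mul, map_pow, th_X_left, map_add, map_mul, map_mul, add_comm] at e1
    refine A2_aux e1 hD0 ?_
    intro q
    by_contra hne
    have := m1 _ hne
    rw [Finsupp.single_eq_same, Finsupp.single_apply, if_neg hst] at this
    have hq0 : (0 : ℚ) ≤ q := Nat.cast_nonneg q
    simp only [Nat.cast_zero, zero_mul, zero_sub] at this
    nlinarith [mul_nonneg hq0 g1.le, mul_pos hu g1]
  have hq' : (q : ℚ) * ((w t : ℚ) - w c) = u * ((w c : ℚ) - w s) := by
    have := m1 _ hq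
    rw [Finsupp.single_eq_same, Finsupp.single_apply, if_neg hst.symm] at this
    simpa using this
  have hp' : (p : ℚ) * ((w c : ℚ) - w s) = v * ((w t : ℚ) - w c) := by
    have := m2 _ hp
    rw [Finsupp.single_eq_same, Finsupp.single_apply, if_neg hst] at this
    simp only [Nat.cast_zero, zero_mul, zero_sub] at this
    linarith
  have hp1 : 1 ≤ p := by
    rcases Nat.eq_zero_or_pos p with h | h
    · rw [h] at hp'
      have := mul_pos hv g2
      rw [← hp'] at this
      simp at this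
    · exact h
  have hq1 : 1 ≤ q := by
    rcases Nat.eq_zero_or_pos q with h | h
    · rw [h] at hq'
      have := mul_pos hu g1
      rw [← hq'] at this
      simp at this
    · exact h
  obtain ⟨r1, hr1, hr1'⟩ := A2_div (x := t) (q := q) (fun e he => by
    have h3 := m1 e he
    have h4 : (0 : ℚ) ≤ e s := Nat.cast_nonneg _
    have h5 : (q : ℚ) * ((w t : ℚ) - w c) ≤ (e t : ℚ) * ((w t : ℚ) - w c) := by
      nlinarith [mul_nonneg h4 g1.le]
    have h6 := le_of_mul_le_mul_right h5 g2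
    exact_mod_cast h6) hq
  obtain ⟨r2, hr2, hr2'⟩ := A2_div (x := s) (q := p) (fun e he => by
    have h3 := m2 e he
    have h4 : (0 : ℚ) ≤ e t := Nat.cast_nonneg _
    have h5 : (p : ℚ) * ((w c : ℚ) - w s) ≤ (e s : ℚ) * ((w c : ℚ) - w s) := by
      nlinarith [mul_nonneg h4 g2.le]
    have h6 := le_of_mul_le_mul_right h5 g1
    exact_mod_cast h6) hp
  exact ⟨p, q, hp1, hq1, hp', hq', m, n, br m n, r1, r2, hr1, hr1', hr2, hr2', hD0,
    fun y => ⟨_, _, hcomb y⟩⟩

theorem axis_values (P : Pairing w 𝓜 d br) {l : ℚ × ℚ} (L : Law w 𝓜 d br l) {s t c : Fin 5}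
    (hst : s ≠ t) (hcs : c ≠ s) (hct : c ≠ t) (h1 : w s < w c) (h2 : w c < w t) {ζ : ℤ × ℤ}
    {σ : M} (Gs : Good 𝓜 br s ζ σ) (Gt : Good 𝓜 br t ζ σ) {u v : ℚ} (hu : 0 < u) (hv : 0 < v)
    (hζ : tw d ζ = -l - (2 * u) • ch w s) (hζ' : tw d ζ = l - (2 * v) • ch w t) :
    ∃ p q : ℕ, 1 ≤ p ∧ 1 ≤ q ∧ (p : ℚ) * (w c - w s) = v * (w t - w c) ∧
      (q : ℚ) * (w t - w c) = u * (w c - w s) ∧ AxDat s t c (br σ) p q := by
  obtain ⟨α, β, m, n, k, A⟩ := P.axis c
  obtain ⟨hw, hD⟩ := A.weight P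
  have h3 := L.axis A
  have h4 : ev (tw d β) (-(w c : ℚ)) 1 = -ev (tw d α) (-(w c : ℚ)) 1 := by
    have e1 := congrArg Prod.fst hw
    have e2 := congrArg Prod.snd hw
    simp only [om, Prod.smul_mk, nsmul_eq_mul, mul_one, Prod.fst_add, Prod.snd_add,
      Prod.fst_sub, Prod.snd_sub] at e1 e2
    have e1' : (α.1 : ℚ) + β.1 - d.1 = k := by exact_mod_cast e1
    have e2' : (α.2 : ℚ) + β.2 - d.2 = k * w c := by exact_mod_cast e2
    simp only [ev, tw]
    linear_combination (-2 * (w c : ℚ)) * e1' + 2 * e2'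
  rcases sq_eq_sq_iff_eq_or_eq_neg.mp h3 with h | h
  · exact A2_main P hst hcs hct h1 h2 Gs Gt hu hv hζ hζ' A.hm A.hn A.coeff hD h
      (by rw [h4, h])
  · have hsw : br n m = -br m n := P.swap m n
    refine A2_main P hst hcs hct h1 h2 Gs Gt hu hv hζ hζ' A.hn A.hm (k := k) ?_ ?_
      (by rw [h4, h, neg_neg]) h
    · rw [hsw, coeff_neg]
      exact neg_ne_zero.mpr A.coeff
    · rw [hsw]
      intro e he
      rw [coeff_neg] at he
      exact hD (neg_ne_zero.mp he)

end

end Pool.Agent.Lib.MP_745d3a_ag.GM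

end

section

set_option autoImplicit false
set_option linter.unusedSectionVars false
set_option linter.unusedSimpArgs false
set_option linter.unusedVariables false

open MvPolynomial

namespace Pool.Agent.Lib.MP_745d3a_ag.GM

section

variable {K M : Type*} [Field K] [AddCommGroup M] [Module (MvPolynomial (Fin 5) K) M]

/-- Converse of `Pres.colon` (for this file: no finiteness, no characteristic). -/
private theorem A3_colon_conv [Module.IsReflexive (MvPolynomial (Fin 5) K) M] {s t : Fin 5} {N : ℕ}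
    {σ μs μt : M} {π : M →ₗ[MvPolynomial (Fin 5) K] MvPolynomial (Fin 5) K}
    {Δ F : MvPolynomial (Fin 5) K}
    (Q : Pres s t N σ μs μt π Δ) (h : F * Δ ∈ J s t N) : ∃ y, π y = F := by
  obtain ⟨a, b, hab⟩ := mem_J_exists.mp h
  have hne : (X s : MvPolynomial (Fin 5) K) ^ N ≠ 0 := pow_ne_zero _ (X_ne_zero s)
  have huv : (X t : MvPolynomial (Fin 5) K) ^ N • (F • μs - b • σ) =
      (X s : MvPolynomial (Fin 5) K) ^ N • (F • μt + a • σ) := by
    have e1 : (F * Δ) • σ = (F * X t ^ N) • μs - (F * X s ^ N) • μt := by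
      rw [mul_smul, ← Q.rel, smul_sub, ← mul_smul, ← mul_smul]
    have e2 : (F * Δ) • σ = (X s ^ N * a) • σ + (X t ^ N * b) • σ := by
      rw [hab, add_smul]
    have e3 := e1.symm.trans e2
    rw [smul_sub, smul_add, ← mul_smul, ← mul_smul, ← mul_smul, ← mul_smul,
      mul_comm (X t ^ N) F, mul_comm (X s ^ N) F]
    rw [sub_eq_iff_eq_add] at e3 ⊢
    rw [e3]
    abel
  obtain ⟨m, hm, _⟩ := hartogs hne (fun g hg => dvd_of_X_pow_dvd_mul Q.ne N N g hg) huv
  refine ⟨m, ?_⟩
  have h2 := congrArg π hm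
  rw [map_sub, map_smul, map_smul, map_smul, Q.pi_s, Q.pi_i, smul_zero, sub_zero, smul_eq_mul,
    smul_eq_mul] at h2
  refine mul_left_cancel₀ hne ?_
  rw [← h2]
  ring

/-- The coefficient of a multiple of `X j ^ n` at an exponent with a small value at `j`. -/
private lemma A3_coeff_zero {j : Fin 5} {n : ℕ} {e : Fin 5 →₀ ℕ} (h : e j < n)
    (A B : MvPolynomial (Fin 5) K) : coeff e (A * X j ^ n * B) = 0 := by
  have h1 : A * X j ^ n * B = A * B * monomial (Finsupp.single j n) 1 := by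
    rw [← X_pow_eq_monomial]; ring
  rw [h1, coeff_mul_monomial', if_neg]
  intro h2
  have h3 := h2 j
  rw [Finsupp.single_eq_same] at h3
  omega

/-- The coefficient of `A * X j ^ n` at `single j n`. -/
private lemma A3_coeff_same (j : Fin 5) (n : ℕ) (A : MvPolynomial (Fin 5) K) :
    coeff (Finsupp.single j n) (A * X j ^ n) = coeff 0 A := by
  rw [X_pow_eq_monomial]
  have := coeff_mul_monomial (0 : Fin 5 →₀ ℕ) (Finsupp.single j n) (1 : K) A
  rw [zero_add, mul_one] at this
  exact this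

private lemma A3_th_J {s t : Fin 5} {N : ℕ} {q : Fin 5 → K} {h : MvPolynomial (Fin 5) K}
    (H : h ∈ J s t N) : th s t q h ∈ J s t N := by
  obtain ⟨a, b, hab⟩ := mem_J_exists.mp H
  refine mem_J_exists.mpr ⟨th s t q a, th s t q b, ?_⟩
  rw [hab, map_add, map_mul, map_mul, map_pow, map_pow, th_X_left, th_X_right]

/-- `X j ^ q * θ Δ ∈ J` if `π y * Δ ∈ J` and `θ (π y) = X j ^ q * g`. -/
private lemma A3_mem {s t : Fin 5} {N : ℕ} {x Δ g : MvPolynomial (Fin 5) K} {c j : Fin 5} {q : ℕ}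
    (h : x * Δ ∈ J s t N) (hx : th s t (Pi.single c (1 : K)) x = X j ^ q * g)
    (hg : coeff 0 g ≠ 0) : X j ^ q * th s t (Pi.single c (1 : K)) Δ ∈ J s t N := by
  have h1 := A3_th_J (q := Pi.single c (1 : K)) h
  rw [map_mul, hx] at h1
  obtain ⟨r, a, b, hr, _, hab⟩ := exists_red s t N (X j ^ q * th s t (Pi.single c (1 : K)) Δ)
  have h2 : X s ^ N * a + X t ^ N * b ∈ J s t N := mem_J_exists.mpr ⟨a, b, rfl⟩
  have h3 : g * r ∈ J s t N := by
    have h4 : g * r = X j ^ q * g * th s t (Pi.single c (1 : K)) Δ -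
        g * (X s ^ N * a + X t ^ N * b) := by
      have : X j ^ q * g * th s t (Pi.single c (1 : K)) Δ =
          g * (X j ^ q * th s t (Pi.single c (1 : K)) Δ) := by ring
      rw [this, hab]; ring
    rw [h4]
    exact Ideal.sub_mem _ h1 (Ideal.mul_mem_left _ _ h2)
  have h5 : r = 0 := primary ⟨0, hg, rfl, rfl⟩ hr h3
  rw [hab, h5, zero_add]
  exact h2

private lemma A3_coeff_shift {j : Fin 5} {q : ℕ} (e : Fin 5 →₀ ℕ) (A : MvPolynomial (Fin 5) K) :
    coeff (e + Finsupp.single j q) (X j ^ q * A) = coeff e A := by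
  rw [mul_comm, X_pow_eq_monomial, coeff_mul_monomial, mul_one]

theorem vertex_of_axDat [Module.IsReflexive (MvPolynomial (Fin 5) K) M] {w : Fin 5 → ℤ}
    {s t c : Fin 5} (hst : s ≠ t) (hcs : c ≠ s)
    (hct : c ≠ t) {N : ℕ} {σ μs μt : M} {π : M →ₗ[MvPolynomial (Fin 5) K] MvPolynomial (Fin 5) K}
    {Δ : MvPolynomial (Fin 5) K} (Q : Pres s t N σ μs μt π Δ) (hred : Red s t N Δ)
    (hBC : BC s t N Δ) {p q : ℕ} (hp : 1 ≤ p) (hq : 1 ≤ q) (A : AxDat s t c π p q)
    (h1 : w s < w c) (h2 : w c < w t)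
    (hline : ∀ e, coeff e (th s t (Pi.single c (1 : K)) Δ) ≠ 0 →
      ((e s : ℚ) - (N - p)) * (w c - w s) = ((e t : ℚ) - (N - q)) * (w t - w c)) :
    p ≤ N ∧ q ≤ N ∧
      coeff (Finsupp.single s (N - p) + Finsupp.single t (N - q))
        (th s t (Pi.single c (1 : K)) Δ) ≠ 0 ∧
      ∀ e, coeff e (th s t (Pi.single c (1 : K)) Δ) ≠ 0 → N - p ≤ e s ∧ N - q ≤ e t := by
  obtain ⟨y1, y2, D, g1, g2, hy1, hg1, hy2, hg2, hD, hval⟩ := A
  -- the values of `π` after `th`
  have hth : ∀ y, ∃ a b, th s t (Pi.single c (1 : K)) D * th s t (Pi.single c (1 : K)) (π y) =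
      a * X t ^ q * g1 + b * X s ^ p * g2 := by
    intro y
    obtain ⟨a, b, hab⟩ := hval y
    refine ⟨th s t (Pi.single c (1 : K)) a, th s t (Pi.single c (1 : K)) b, ?_⟩
    rw [← map_mul, hab, map_add, map_mul, map_mul, hy1, hy2]
    ring
  have hpN : p ≤ N := by
    by_contra hcon
    push Not at hcon
    obtain ⟨a, b, hab⟩ := hth μs
    rw [Q.pi_i, map_pow, th_X_left] at hab
    have h3 := congrArg (coeff (Finsupp.single s N)) hab
    rw [A3_coeff_same, coeff_add, A3_coeff_zero (by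
      rw [Finsupp.single_eq_of_ne hst.symm]; omega), A3_coeff_zero (by
      rw [Finsupp.single_eq_same]; exact hcon), add_zero] at h3
    exact hD h3
  have hqN : q ≤ N := by
    by_contra hcon
    push Not at hcon
    obtain ⟨a, b, hab⟩ := hth μt
    rw [Q.pi_j, map_pow, th_X_right] at hab
    have h3 := congrArg (coeff (Finsupp.single t N)) hab
    rw [A3_coeff_same, coeff_add, A3_coeff_zero (by
      rw [Finsupp.single_eq_same]; exact hcon), A3_coeff_zero (by
      rw [Finsupp.single_eq_of_ne hst]; omega), add_zero] at h3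
    exact hD h3
  have hm1 := A3_mem (Q.colon y1) hy1 hg1
  have hm2 := A3_mem (Q.colon y2) hy2 hg2
  have hexp : ∀ e, coeff e (th s t (Pi.single c (1 : K)) Δ) ≠ 0 →
      e = Finsupp.single s (e s) + Finsupp.single t (e t) ∧ e s < N ∧ e t < N := by
    intro e he
    obtain ⟨e', he', heq, _⟩ := exists_of_coeff_th hst he
    have h3 : e s = e' s := by
      rw [heq, Finsupp.add_apply, Finsupp.single_eq_same, Finsupp.single_eq_of_ne hst, add_zero]
    have h4 : e t = e' t := by
      rw [heq, Finsupp.add_apply, Finsupp.single_eq_same, Finsupp.single_eq_of_ne hst.symm,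
        zero_add]
    have h5 := hred e' he'
    refine ⟨?_, by omega, by omega⟩
    rw [h3, h4]
    exact heq
  have hlow : ∀ e, coeff e (th s t (Pi.single c (1 : K)) Δ) ≠ 0 → N - p ≤ e s ∧ N - q ≤ e t := by
    intro e he
    obtain ⟨_, hes, het⟩ := hexp e he
    constructor
    · by_contra hcon
      push Not at hcon
      apply he
      rw [← A3_coeff_shift (j := s) (q := p) e]
      refine mem_J_coeff.mp hm2 _ ?_ ?_
      · rw [Finsupp.add_apply, Finsupp.single_eq_same]; omega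
      · rw [Finsupp.add_apply, Finsupp.single_eq_of_ne hst.symm]; omega
    · by_contra hcon
      push Not at hcon
      apply he
      rw [← A3_coeff_shift (j := t) (q := q) e]
      refine mem_J_coeff.mp hm1 _ ?_ ?_
      · rw [Finsupp.add_apply, Finsupp.single_eq_of_ne hst]; omega
      · rw [Finsupp.add_apply, Finsupp.single_eq_same]; omega
  refine ⟨hpN, hqN, ?_, hlow⟩
  intro hzero
  -- all exponents at `s` are at least `N - p + 1`
  have hbig : ∀ e, coeff e (th s t (Pi.single c (1 : K)) Δ) ≠ 0 → N - p + 1 ≤ e s := by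
    intro e he
    by_contra hcon
    have h3 := (hlow e he).1
    have h4 : e s = N - p := by omega
    have h5 := hline e he
    have h6 : (e s : ℚ) - (N - p) = 0 := by
      rw [h4, Nat.cast_sub hpN]; ring
    rw [h6, zero_mul] at h5
    have h7 : ((w t : ℚ) - w c) ≠ 0 := by
      have : (w c : ℚ) < w t := by exact_mod_cast h2
      linarith
    have h8 : (e t : ℚ) - (N - q) = 0 := by
      rcases mul_eq_zero.mp h5.symm with h9 | h9
      · exact h9
      · exact absurd h9 h7
    have h9 : e t = N - q := by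
      have : (e t : ℚ) = ((N - q : ℕ) : ℚ) := by rw [Nat.cast_sub hqN]; linarith
      exact_mod_cast this
    apply he
    rw [(hexp e he).1, h4, h9]
    exact hzero
  have hmem : th s t (Pi.single c (1 : K)) (X s ^ (p - 1)) *
      th s t (Pi.single c (1 : K)) Δ ∈ J s t N := by
    rw [map_pow, th_X_left, mem_J_coeff]
    intro e hes het
    by_contra hne
    rw [X_pow_eq_monomial, coeff_monomial_mul'] at hne
    split_ifs at hne with hle
    · rw [one_mul] at hne
      have h3 := hbig _ hne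
      have h4 := hle s
      rw [Finsupp.single_eq_same] at h4
      rw [Finsupp.tsub_apply, Finsupp.single_eq_same] at h3
      omega
    · exact hne rfl
  obtain ⟨F, D', hF1, hF2, hF3⟩ := hBC (Pi.single c (1 : K))
    ⟨c, hcs, hct, by rw [Pi.single_eq_same]; exact one_ne_zero⟩ _ hmem
  obtain ⟨y, hy⟩ := A3_colon_conv Q hF1
  obtain ⟨a, b, hab⟩ := hth y
  rw [hy, hF2, map_pow, th_X_left, ← mul_assoc] at hab
  have h3 := congrArg (coeff (Finsupp.single s (p - 1))) hab
  rw [A3_coeff_same, coeff_add, A3_coeff_zero (by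
    rw [Finsupp.single_eq_of_ne hst.symm]; omega), A3_coeff_zero (by
    rw [Finsupp.single_eq_same]; omega), add_zero] at h3
  have h4 : coeff 0 (th s t (Pi.single c (1 : K)) D * th s t (Pi.single c (1 : K)) D') =
      coeff 0 (th s t (Pi.single c (1 : K)) D) * coeff 0 (th s t (Pi.single c (1 : K)) D') := by
    have := map_mul (constantCoeff : MvPolynomial (Fin 5) K →+* K)
      (th s t (Pi.single c (1 : K)) D) (th s t (Pi.single c (1 : K)) D')
    simpa only [constantCoeff_eq] using this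
  rw [h4, coeff_zero_th s t (Pi.single c (1 : K)) D'] at h3
  exact (mul_ne_zero hD hF3) h3

end

end Pool.Agent.Lib.MP_745d3a_ag.GM

end

section

set_option autoImplicit false
set_option linter.unusedSectionVars false
set_option linter.unusedSimpArgs false
set_option linter.unusedVariables false

open MvPolynomial

namespace Pool.Agent.Lib.MP_745d3a_ag.GM

section

variable {K M : Type*} [Field K] [AddCommGroup M] [Module (MvPolynomial (Fin 5) K) M]

theorem bc_of_pres [Module.Finite (MvPolynomial (Fin 5) K) M]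
    [Module.IsReflexive (MvPolynomial (Fin 5) K) M]
    (hfree : PuncturedFree (K := K) (σ := Fin 5) M)
    (hrank : Module.finrank (MvPolynomial (Fin 5) K) M = 2)
    {s t : Fin 5} {N : ℕ} {σ μs μt : M}
    {π : M →ₗ[MvPolynomial (Fin 5) K] MvPolynomial (Fin 5) K} {Δ : MvPolynomial (Fin 5) K}
    (Q : Pres s t N σ μs μt π Δ) : BC s t N Δ := by
  classical
  apply Q.bc
  rintro q ⟨κ, hκi, hκj, hκ⟩
  have : (RingHom.ker (eval (pt s t q)) : Ideal (MvPolynomial (Fin 5) K)).IsPrime :=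
    RingHom.ker_isPrime _
  apply exists_LB _ (hfree _ ⟨κ, ?_⟩) hrank
  rw [RingHom.mem_ker, eval_X, pt, if_neg (by tauto)]
  exact hκ

end

end Pool.Agent.Lib.MP_745d3a_ag.GM

end

section

set_option autoImplicit false
set_option linter.unusedSectionVars false
set_option linter.unusedSimpArgs false
set_option linter.unusedVariables false

open MvPolynomial

namespace Pool.Agent.Lib.MP_745d3a_ag.GM

private lemma A5_vx_sum {R : Type*} [CommSemiring R] (s t c : Fin 5) (a b r : ℕ) (x : Fin 5 → R) :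
    ∑ κ, (vx s t c a b r κ : R) * x κ = a * x s + b * x t + r * x c := by
  simp only [vx, Finsupp.add_apply, Finsupp.single_apply, Nat.cast_add, add_mul,
    Finset.sum_add_distrib, Nat.cast_ite, Nat.cast_zero, ite_mul, zero_mul,
    Finset.sum_ite_eq, Finset.mem_univ, if_true]

private lemma A5_weight (w : Fin 5 → ℤ) (e : Fin 5 →₀ ℕ) :
    (Finsupp.weight (om w) e).1 = ∑ κ, (e κ : ℤ) ∧
      (Finsupp.weight (om w) e).2 = ∑ κ, (e κ : ℤ) * w κ := by
  rw [Finsupp.weight_apply, Finsupp.sum_fintype _ _ (by intro κ; simp)]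
  constructor
  · rw [Prod.fst_sum]
    simp [om]
  · rw [Prod.snd_sum]
    simp [om]

private lemma A5_vx_of_supp {s t c : Fin 5} (hst : s ≠ t) (hcs : c ≠ s) (hct : c ≠ t)
    {e : Fin 5 →₀ ℕ} (h : ∀ a, a ≠ s → a ≠ t → a ≠ c → e a = 0) :
    e = vx s t c (e s) (e t) (e c) := by
  ext a
  rw [vx, Finsupp.add_apply, Finsupp.add_apply, Finsupp.single_apply, Finsupp.single_apply,
    Finsupp.single_apply]
  by_cases h1 : a = s
  · subst h1
    rw [if_pos rfl, if_neg hst.symm, if_neg hcs]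
    simp
  · by_cases h2 : a = t
    · subst h2
      rw [if_neg hst, if_pos rfl, if_neg hct]
      simp
    · by_cases h3 : a = c
      · subst h3
        rw [if_neg hcs.symm, if_neg hct.symm, if_pos rfl]
        simp
      · rw [h a h1 h2 h3, if_neg (Ne.symm h1), if_neg (Ne.symm h2), if_neg (Ne.symm h3)]
        rfl

section

variable {K M : Type*} [Field K] [CharZero K] [AddCommGroup M]
  [Module (MvPolynomial (Fin 5) K) M]
  [Module.IsReflexive (MvPolynomial (Fin 5) K) M] [Module.Finite (MvPolynomial (Fin 5) K) M]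
  {w : Fin 5 → ℤ} {𝓜 : ℤ × ℤ → AddSubgroup M} [DirectSum.Decomposition 𝓜]
  [SetLike.GradedSMul (weightedHomogeneousSubmodule K (om w)) 𝓜]
  {d : ℤ × ℤ}
  {br : M →ₗ[MvPolynomial (Fin 5) K] M →ₗ[MvPolynomial (Fin 5) K] MvPolynomial (Fin 5) K}

theorem exists_vdat (P : Pairing w 𝓜 d br) {l : ℚ × ℚ} (L : Law w 𝓜 d br l)
    (hfree : PuncturedFree (K := K) (σ := Fin 5) M)
    (hrank : Module.finrank (MvPolynomial (Fin 5) K) M = 2) {s t : Fin 5}
    (hs : Ext w 1 s) (ht : Ext w (-1) t) (hst : s ≠ t) {ζ : ℤ × ℤ}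
    {σ : M} (Gs : Good 𝓜 br s ζ σ) (Gt : Good 𝓜 br t ζ σ) {u v : ℚ} (hu : 0 < u) (hv : 0 < v)
    (hζ : tw d ζ = -l - (2 * u) • ch w s) (hζ' : tw d ζ = l - (2 * v) • ch w t)
    {N : ℕ} {μs μt : M} {Δ : MvPolynomial (Fin 5) K} (Q : Pres s t N σ μs μt (br σ) Δ)
    (hred : Red s t N Δ)
    (hhom : IsWeightedHomogeneous (om w) Δ (N • om w s + N • om w t + d - ζ - ζ)) :
    ∃ p q n : Fin 5 → ℕ, VDat w s t N u v p q n Δ := by
  classical
  have hlt1 : ∀ c, c ≠ s → w s < w c := by
    intro c hc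
    have := hs c hc
    linarith
  have hlt2 : ∀ c, c ≠ t → w c < w t := by
    intro c hc
    have := ht c hc
    linarith
  have hst1 : w s < w t := hlt1 t hst.symm
  -- components of the weight of the section
  have z1 : 2 * (ζ.1 : ℚ) - d.1 = -u - v := by
    have e1 := congrArg Prod.fst hζ
    have e2 := congrArg Prod.fst hζ'
    simp only [tw, ch, Prod.fst_sub, Prod.fst_neg, Prod.smul_fst, smul_eq_mul, mul_one] at e1 e2
    linarith
  have z2 : 2 * (ζ.2 : ℚ) - d.2 = -u * w s - v * w t := by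
    have e1 := congrArg Prod.snd hζ
    have e2 := congrArg Prod.snd hζ'
    simp only [tw, ch, Prod.snd_sub, Prod.snd_neg, Prod.smul_snd, smul_eq_mul] at e1 e2
    linarith
  -- the weight of an exponent of Δ
  have hw1 : ∀ e, coeff e Δ ≠ 0 → ∑ a, (e a : ℤ) =
      (N • om w s + N • om w t + d - ζ - ζ).1 := by
    intro e he
    rw [← hhom he, (A5_weight w e).1]
  have hw2 : ∀ e, coeff e Δ ≠ 0 → ∑ a, (e a : ℤ) * w a =
      (N • om w s + N • om w t + d - ζ - ζ).2 := by
    intro e he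
    rw [← hhom he, (A5_weight w e).2]
  have hom : ∀ e, coeff e Δ ≠ 0 → ∑ a, (e a : ℚ) = (N + u) + (N + v) ∧
      ∑ a, (e a : ℚ) * w a = (N + u) * w s + (N + v) * w t := by
    intro e he
    constructor
    · have h1 := hw1 e he
      have h2 : (∑ a, (e a : ℚ)) = N + N + d.1 - ζ.1 - ζ.1 := by
        have h3 : ((∑ a, (e a : ℤ) : ℤ) : ℚ) = ((N • om w s + N • om w t + d - ζ - ζ).1 : ℤ) := by
          rw [h1]
        simp only [Prod.fst_sub, Prod.fst_add, Prod.smul_fst] at h3
        simp only [om, nsmul_eq_mul, mul_one] at h3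
        push_cast at h3
        exact h3
      rw [h2]
      linarith
    · have h1 := hw2 e he
      have h2 : (∑ a, (e a : ℚ) * w a) = N * w s + N * w t + d.2 - ζ.2 - ζ.2 := by
        have h3 : ((∑ a, (e a : ℤ) * w a : ℤ) : ℚ) =
            ((N • om w s + N • om w t + d - ζ - ζ).2 : ℤ) := by
          rw [h1]
        simp only [Prod.snd_sub, Prod.snd_add, Prod.smul_snd] at h3
        simp only [om, nsmul_eq_mul] at h3
        push_cast at h3
        exact h3
      rw [h2]
      linarith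
  have hvx : ∀ c a b r, coeff (vx s t c a b r) Δ ≠ 0 →
      (a : ℚ) + b + r = (N + u) + (N + v) ∧
      (a : ℚ) * w s + b * w t + r * w c = (N + u) * w s + (N + v) * w t := by
    intro c a b r h
    obtain ⟨h1, h2⟩ := hom _ h
    constructor
    · have h3 := A5_vx_sum (R := ℚ) s t c a b r (fun _ => 1)
      simp only [mul_one] at h3
      rw [← h3]
      exact h1
    · rw [← A5_vx_sum (R := ℚ) s t c a b r (fun κ => (w κ : ℚ))]
      exact h2
  have hBC : BC s t N Δ := bc_of_pres hfree hrank Q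
  have hpq : ∀ c : Fin 5, ∃ p q : ℕ, c ≠ s → c ≠ t → 1 ≤ p ∧ 1 ≤ q ∧
      (p : ℚ) * (w c - w s) = v * (w t - w c) ∧
      (q : ℚ) * (w t - w c) = u * (w c - w s) ∧ AxDat s t c (br σ) p q := by
    intro c
    by_cases hc : c ≠ s ∧ c ≠ t
    · obtain ⟨p, q, h⟩ := axis_values P L hst hc.1 hc.2 (hlt1 c hc.1) (hlt2 c hc.2) Gs Gt hu hv
        hζ hζ'
      exact ⟨p, q, fun _ _ => h⟩
    · exact ⟨1, 1, fun h1 h2 => absurd ⟨h1, h2⟩ hc⟩
  choose p q hpq using hpq
  have hline : ∀ c, c ≠ s → c ≠ t → ∀ e, coeff e (th s t (Pi.single c (1 : K)) Δ) ≠ 0 →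
      ((e s : ℚ) - (N - p c)) * (w c - w s) = ((e t : ℚ) - (N - q c)) * (w t - w c) := by
    intro c hcs hct e he
    obtain ⟨_, r, hr⟩ := exists_of_coeff_th_single (w := w) hst hcs hct he
    obtain ⟨e1, e2⟩ := hvx c _ _ _ hr
    obtain ⟨_, _, e3, e4, _⟩ := hpq c hcs hct
    linear_combination (w c : ℚ) * e1 - e2 + e3 - e4
  have hvert : ∀ c, c ≠ s → c ≠ t → p c ≤ N ∧ q c ≤ N ∧
      coeff (Finsupp.single s (N - p c) + Finsupp.single t (N - q c))
        (th s t (Pi.single c (1 : K)) Δ) ≠ 0 ∧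
      ∀ e, coeff e (th s t (Pi.single c (1 : K)) Δ) ≠ 0 → N - p c ≤ e s ∧ N - q c ≤ e t := by
    intro c hcs hct
    obtain ⟨hp1, hq1, _, _, hA⟩ := hpq c hcs hct
    exact vertex_of_axDat hst hcs hct Q hred hBC hp1 hq1 hA (hlt1 c hcs) (hlt2 c hct)
      (hline c hcs hct)
  have hn : ∀ c : Fin 5, ∃ n : ℕ, c ≠ s → c ≠ t →
      coeff (vx s t c (N - p c) (N - q c) n) Δ ≠ 0 := by
    intro c
    by_cases hc : c ≠ s ∧ c ≠ t
    · obtain ⟨_, _, h3, _⟩ := hvert c hc.1 hc.2
      obtain ⟨_, n, hn⟩ := exists_of_coeff_th_single (w := w) hst hc.1 hc.2 h3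
      refine ⟨n, fun _ _ => ?_⟩
      have e1 : (Finsupp.single s (N - p c) + Finsupp.single t (N - q c) : Fin 5 →₀ ℕ) s =
          N - p c := by
        simp [Finsupp.single_apply, hst.symm]
      have e2 : (Finsupp.single s (N - p c) + Finsupp.single t (N - q c) : Fin 5 →₀ ℕ) t =
          N - q c := by
        simp [Finsupp.single_apply, hst]
      rw [e1, e2] at hn
      exact hn
    · exact ⟨1, fun h1 h2 => absurd ⟨h1, h2⟩ hc⟩
  choose n hn using hn
  have hrel : ∀ c, c ≠ s → c ≠ t →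
      (n c : ℚ) * (w t - w c) = (w t - w s) * (u + p c) ∧
      (n c : ℚ) * (w c - w s) = (w t - w s) * (v + q c) := by
    intro c hcs hct
    obtain ⟨e1, e2⟩ := hvx c _ _ _ (hn c hcs hct)
    obtain ⟨h1, h2, _⟩ := hvert c hcs hct
    rw [Nat.cast_sub h1, Nat.cast_sub h2] at e1 e2
    constructor
    · linear_combination (w t : ℚ) * e1 - e2
    · linear_combination e2 - (w s : ℚ) * e1
  refine ⟨p, q, n, ?_⟩
  refine ⟨hst, hu, hv, ?_, hom, hred, hBC, ?_, ?_, ?_, ?_, ?_, ?_, ?_⟩
  · intro c hcs hct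
    exact mul_pos (sub_pos.mpr (hlt1 c hcs)) (sub_pos.mpr (hlt2 c hct))
  · intro c hcs hct
    obtain ⟨hp1, hq1, _, _, _⟩ := hpq c hcs hct
    obtain ⟨h1, h2, _⟩ := hvert c hcs hct
    refine ⟨hp1, h1, hq1, h2, ?_⟩
    rw [Nat.one_le_iff_ne_zero]
    intro h0
    have h3 := (hrel c hcs hct).1
    rw [h0] at h3
    have h4 : (0 : ℚ) < (w t - w s) * (u + p c) := by
      have h5 : (0 : ℚ) < (w t : ℚ) - w s := by
        have : (w s : ℚ) < w t := by exact_mod_cast hst1
        linarith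
      have h6 : (0 : ℚ) ≤ p c := Nat.cast_nonneg _
      exact mul_pos h5 (by linarith)
    rw [← h3] at h4
    simp at h4
  · intro c hcs hct
    exact (hpq c hcs hct).2.2.1
  · intro c hcs hct
    exact (hpq c hcs hct).2.2.2.1
  · intro c hcs hct
    exact (hrel c hcs hct).1
  · intro c hcs hct
    exact (hrel c hcs hct).2
  · intro c hcs hct
    exact hn c hcs hct
  · intro c hcs hct e he hsupp
    have e0 := A5_vx_of_supp hst hcs hct hsupp
    have hw := hw1 e he
    have hsum : ∑ a, (e a : ℤ) = e s + e t + e c := by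
      have h3 := A5_vx_sum (R := ℤ) s t c (e s) (e t) (e c) (fun _ => 1)
      rw [← e0] at h3
      simpa using h3
    rw [hsum] at hw
    have h4 := coeff_th_single hst hcs hct hhom (e s) (e t) (e c) hw
    rw [← e0] at h4
    have h5 := (hvert c hcs hct).2.2.2 _ (by rw [h4]; exact he)
    have e1 : (Finsupp.single s (e s) + Finsupp.single t (e t) : Fin 5 →₀ ℕ) s = e s := by
      simp [Finsupp.single_apply, hst.symm]
    have e2 : (Finsupp.single s (e s) + Finsupp.single t (e t) : Fin 5 →₀ ℕ) t = e t := by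
      simp [Finsupp.single_apply, hst]
    rw [e1, e2] at h5
    exact h5

end

end Pool.Agent.Lib.MP_745d3a_ag.GM

end
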