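import Pool.Agent.Lib.MP_745d3a_ag.GM.Good
import Pool.Agent.Lib.MP_745d3a_ag.CaseTwoMain
import Pool.Agent.Lib.MP_745d3a_ag.GM.Cases

/-!
Double minimum.
-/

section

set_option autoImplicit false
set_option linter.unusedSectionVars false
set_option linter.unusedSimpArgs false
set_option linter.unusedVariables false

open MvPolynomial

namespace Pool.Agent.Lib.MP_745d3a_ag.GM

section

variable {K M : Type*} [Field K] [CharZero K] [AddCommGroup M]
  [Module (MvPolynomial (Fin 5) K) M]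
  [Module.IsReflexive (MvPolynomial (Fin 5) K) M] [Module.Finite (MvPolynomial (Fin 5) K) M]
  {w : Fin 5 → ℤ} {𝓜 : ℤ × ℤ → AddSubgroup M} [DirectSum.Decomposition 𝓜]
  [SetLike.GradedSMul (weightedHomogeneousSubmodule K (om w)) 𝓜]
  {d : ℤ × ℤ}
  {br : M →ₗ[MvPolynomial (Fin 5) K] M →ₗ[MvPolynomial (Fin 5) K] MvPolynomial (Fin 5) K}

private lemma D2_third (s s' : Fin 5) : ∃ a : Fin 5, a ≠ s ∧ a ≠ s' := by
  revert s s'
  decide

/-- The functional. -/
private def D2_eta (w0 e : ℤ) : ℤ × ℤ →+ ℤ :=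
  AddMonoidHom.mk' (fun g => e * (g.2 - w0 * g.1)) (by
    intro a b; simp only [Prod.fst_add, Prod.snd_add]; ring)

private lemma D2_eta_apply (w0 e : ℤ) (g : ℤ × ℤ) : D2_eta w0 e g = e * (g.2 - w0 * g.1) := rfl

theorem double_min (P : Pairing w 𝓜 d br)
    (hfree : PuncturedFree (K := K) (σ := Fin 5) M)
    (hrank : Module.finrank (MvPolynomial (Fin 5) K) M = 2)
    {e : ℤ} {s s' : Fin 5} (hss : s ≠ s') (hw : w s = w s')
    (he : ∀ a, a ≠ s → a ≠ s' → 0 < e * (w a - w s)) :
    Module.Free (MvPolynomial (Fin 5) K) M ∨ ∃ (ζ : ℤ × ℤ) (σ : M), Good 𝓜 br s ζ σ ∧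
      Good 𝓜 br s' ζ σ ∧ ∀ g, ∀ m ∈ 𝓜 g, g.2 - w s * g.1 = ζ.2 - w s * ζ.1 →
        ∃ c c' : MvPolynomial (Fin 5) K, c ≠ 0 ∧ c • m = c' • σ := by
  classical
  have hηs : D2_eta (w s) e (om w s) = 0 := by
    rw [D2_eta_apply]
    show e * (w s - w s * 1) = 0
    ring
  have hηs' : D2_eta (w s) e (om w s') = 0 := by
    rw [D2_eta_apply]
    show e * (w s' - w s * 1) = 0
    rw [← hw]
    ring
  have hηa : ∀ a, a ≠ s → a ≠ s' → 0 < D2_eta (w s) e (om w a) := by
    intro a h1 h2
    have h3 := he a h1 h2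
    rw [D2_eta_apply]
    show 0 < e * (w a - w s * 1)
    rw [mul_one]
    exact h3
  have hη : ∀ κ, 0 ≤ D2_eta (w s) e (om w κ) := by
    intro κ
    by_cases h1 : κ = s
    · rw [h1, hηs]
    · by_cases h2 : κ = s'
      · rw [h2, hηs']
      · exact (hηa κ h1 h2).le
  have hδ : ∀ κ, (AddMonoidHom.fst ℤ ℤ) (om w κ) = 1 := fun κ => rfl
  obtain ⟨g1, g2, m1, hm1, m2, hm2, hind, _⟩ := exists_HB (ω := om w) (𝓜 := 𝓜)
    (η := D2_eta (w s) e) hη hfree hrank hηs (vp K s) (X_notMem_vp s)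
  have hm10 : m1 ≠ 0 := by
    intro h
    have := (hind 1 0 (by rw [h]; simp)).1
    exact one_ne_zero this
  obtain ⟨ζ, σ, hσ, hσ0, hmin1, hmin2⟩ := exists_min' (K := K) (ω := om w) (𝓜 := 𝓜)
    (η := D2_eta (w s) e) (δ := AddMonoidHom.fst ℤ ℤ) hη hδ ⟨g1, m1, hm1, hm10⟩
  by_cases hdep : ∀ g, ∀ m ∈ 𝓜 g, D2_eta (w s) e g = D2_eta (w s) e ζ →
      ∃ c c' : MvPolynomial (Fin 5) K, c ≠ 0 ∧ c • m = c' • σ
  · right
    have good : ∀ u : Fin 5, D2_eta (w s) e (om w u) = 0 → Good 𝓜 br u ζ σ := by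
      intro u hu
      refine ⟨hσ, ?_, ?_⟩
      · intro y hy
        have hX : IsWeightedHomogeneous (om w) (X u : MvPolynomial (Fin 5) K) (om w u) :=
          isWeightedHomogeneous_X K (om w) u
        have h1 := congrArg (comp 𝓜 ζ) hy
        rw [comp_same 𝓜 hσ, comp_smul_hom (om w) 𝓜 hX] at h1
        have h2 : comp 𝓜 (ζ - om w u) y ≠ 0 := by
          intro h0
          rw [h0, smul_zero] at h1
          exact hσ0 h1
        have h3 := hmin2 _ _ (comp_mem 𝓜 (ζ - om w u) y) h2 (by rw [map_sub, hu, sub_zero])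
        rw [map_sub, hδ] at h3
        linarith
      · by_contra hcon
        push Not at hcon
        have hnot : (X u : MvPolynomial (Fin 5) K) ∉
            Ideal.radical (LinearMap.range (br σ) : Ideal (MvPolynomial (Fin 5) K)) := by
          rintro ⟨n, hn⟩
          obtain ⟨μ, hμ⟩ := hn
          exact hcon n μ hμ
        rw [Ideal.radical_eq_sInf, Submodule.mem_sInf] at hnot
        push Not at hnot
        obtain ⟨p, ⟨hp1, hp2⟩, hp3⟩ := hnot
        have hp2i : Ideal.IsPrime p := hp2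
        obtain ⟨gt, t, ht, hind', hspan'⟩ := exists_HB_s (ω := om w) (𝓜 := 𝓜)
          (η := D2_eta (w s) e) (δ := AddMonoidHom.fst ℤ ℤ) hη hδ hfree hrank hσ hσ0
          hmin1 hmin2 hdep hu p hp3
        have h1 : br σ t ∉ p := by
          apply P.local_unit (p := p) hp3
          intro x
          obtain ⟨dd, D, a, b, hD, _, hab⟩ := span_all (ω := om w) (𝓜 := 𝓜) hspan' x
          exact ⟨D, a, b, hD, hab⟩
        exact h1 (hp1 ⟨t, rfl⟩)
    refine ⟨ζ, σ, good s hηs, good s' hηs', ?_⟩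
    intro g m hm hg
    apply hdep g m hm
    rw [D2_eta_apply, D2_eta_apply, hg]
  · left
    push Not at hdep
    obtain ⟨g, n, hn, hg, hdep⟩ := hdep
    obtain ⟨z, hz1, hz2⟩ := D2_third s s'
    refine case_two (ω := om w) (𝓜 := 𝓜) (η := D2_eta (w s) e) (δ := AddMonoidHom.fst ℤ ℤ)
      hη hδ hfree hrank hσ hσ0 hmin1 hn hg ?_ hss hηs hηs' (hηa z hz1 hz2).ne'
    intro a b hab
    have hb : b = 0 := by
      by_contra hb
      exact hdep b (-a) hb (by rw [neg_smul, eq_neg_iff_add_eq_zero, add_comm]; exact hab)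
    rw [hb, zero_smul, add_zero] at hab
    exact ⟨(torsionfree_of_reflexive _ _ hab).resolve_right hσ0, hb⟩

end

end Pool.Agent.Lib.MP_745d3a_ag.GM

end

section

set_option autoImplicit false
set_option linter.unusedSectionVars false
set_option linter.unusedSimpArgs false
set_option linter.unusedVariables false

open MvPolynomial

namespace Pool.Agent.Lib.MP_745d3a_ag.GM

section

variable {K M : Type*} [Field K] [CharZero K] [AddCommGroup M]
  [Module (MvPolynomial (Fin 5) K) M]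
  [Module.IsReflexive (MvPolynomial (Fin 5) K) M] [Module.Finite (MvPolynomial (Fin 5) K) M]
  {w : Fin 5 → ℤ} {𝓜 : ℤ × ℤ → AddSubgroup M} [DirectSum.Decomposition 𝓜]
  [SetLike.GradedSMul (weightedHomogeneousSubmodule K (om w)) 𝓜]
  {d : ℤ × ℤ}
  {br : M →ₗ[MvPolynomial (Fin 5) K] M →ₗ[MvPolynomial (Fin 5) K] MvPolynomial (Fin 5) K}


theorem double_case (P : Pairing w 𝓜 d br)
    (hfree : PuncturedFree (K := K) (σ := Fin 5) M)
    (hrank : Module.finrank (MvPolynomial (Fin 5) K) M = 2) {l : ℚ × ℚ} (L : Law w 𝓜 d br l)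
    {e : ℤ} {s s' : Fin 5} (hss : s ≠ s') (hw : w s = w s')
    (he : ∀ a, a ≠ s → a ≠ s' → 0 < e * (w a - w s)) :
    Module.Free (MvPolynomial (Fin 5) K) M := by
  rcases double_min P hfree hrank hss hw he with hF | ⟨ζ, σ, G, G', hdep⟩
  · exact hF
  have key : ∀ l : ℚ × ℚ, Law w 𝓜 d br l →
      ev (tw d ζ) (-(w s : ℚ)) 1 + ev l (-(w s : ℚ)) 1 = 0 →
      Module.Free (MvPolynomial (Fin 5) K) M := by
    intro l L hl
    have hw' : (w s : ℚ) = (w s' : ℚ) := by rw [hw]
    have hv : tw d ζ = -l + (2 * (((tw d ζ).1 + l.1) / 2)) • ch w s := by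
      ext
      · simp only [Prod.fst_add, Prod.fst_neg, Prod.smul_fst, ch, smul_eq_mul]
        ring
      · simp only [Prod.snd_add, Prod.snd_neg, Prod.smul_snd, ch, smul_eq_mul]
        unfold ev at hl
        linear_combination hl
    obtain ⟨l', h1, h2⟩ := L.planar1 hss G G'.val hv
    set n : ℚ := ((tw d ζ).1 + l.1) / 2 with hn
    have h3 := h1 (-(w s : ℚ)) 1
    have hcs : ev (ch w s) (-(w s : ℚ)) 1 = 0 := by
      simp only [ev, ch]
      ring
    have hcs' : ev (ch w s') (-(w s : ℚ)) 1 = 0 := by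
      simp only [ev, ch]
      rw [hw']
      ring
    rw [hcs, hcs'] at h3
    have h4 : n * ev l (-(w s : ℚ)) 1 = 0 := by
      linear_combination -h3
    rcases mul_eq_zero.mp h4 with h0 | h0
    · have h5 := h1 1 0
      rw [h0] at h5
      have h6 : l' = 0 := by
        simp only [ev, ch] at h5
        linarith
      rcases h2 with h7 | h7
      · exact P.free_of_mono hss G G' h7
      · rw [h6] at h7
        norm_num at h7
    · exfalso
      obtain ⟨α, β, m, n', k, A⟩ := P.axis s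
      have h5 := L.axis A
      rw [h0] at h5
      have h6 : ev (tw d α) (-(w s : ℚ)) 1 = 0 := by
        have : ev (tw d α) (-(w s : ℚ)) 1 ^ 2 = 0 := by rw [h5]; ring
        exact pow_eq_zero_iff two_ne_zero |>.mp this
      have h7 : ev (tw d ζ) (-(w s : ℚ)) 1 = 0 := by
        rw [h0, add_zero] at hl
        exact hl
      simp only [ev, tw] at h6 h7
      have h8 : α.2 - w s * α.1 = ζ.2 - w s * ζ.1 := by
        have : ((α.2 - w s * α.1 : ℤ) : ℚ) = ((ζ.2 - w s * ζ.1 : ℤ) : ℚ) := by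
          push_cast
          linear_combination (1 / 2) * h6 - (1 / 2) * h7
        exact_mod_cast this
      have hwt := (A.weight P).1
      have hb1 : α.1 + β.1 - d.1 = k := by
        have := congrArg Prod.fst hwt
        simpa [om] using this
      have hb2 : α.2 + β.2 - d.2 = k * w s := by
        have := congrArg Prod.snd hwt
        simpa [om] using this
      have h9 : β.2 - w s * β.1 = ζ.2 - w s * ζ.1 := by
        have hb1' : (α.1 : ℚ) + β.1 - d.1 = k := by exact_mod_cast hb1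
        have hb2' : (α.2 : ℚ) + β.2 - d.2 = k * w s := by exact_mod_cast hb2
        have : ((β.2 - w s * β.1 : ℤ) : ℚ) = ((ζ.2 - w s * ζ.1 : ℤ) : ℚ) := by
          push_cast
          linear_combination hb2' - (w s : ℚ) * hb1' - (1 / 2) * h6 - (1 / 2) * h7
        exact_mod_cast this
      obtain ⟨c, c', hc, hcm⟩ := hdep α m A.hm h8
      obtain ⟨f, f', hf, hfn⟩ := hdep β n' A.hn h9
      have h10 : c * (f * br m n') = 0 := by
        have e1 : br (c • m) (f • n') = c * (f * br m n') := by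
          rw [map_smul, map_smul, LinearMap.smul_apply, smul_eq_mul, smul_eq_mul]
          ring
        rw [← e1, hcm, hfn, map_smul, map_smul, LinearMap.smul_apply, P.alt, smul_zero, smul_zero]
      have h11 : br m n' = 0 := by
        rcases mul_eq_zero.mp h10 with h | h
        · exact absurd h hc
        · rcases mul_eq_zero.mp h with h | h
          · exact absurd h hf
          · exact h
      apply A.coeff
      rw [h11, coeff_zero]
  obtain ⟨l', h1, _⟩ := L.planar hss G G'.val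
  have h2 := h1 (-(w s : ℚ)) 1
  have hcs : ev (ch w s) (-(w s : ℚ)) 1 = 0 := by
    simp only [ev, ch]
    ring
  rw [hcs] at h2
  have h3 : (ev (tw d ζ) (-(w s : ℚ)) 1 - ev l (-(w s : ℚ)) 1) *
      (ev (tw d ζ) (-(w s : ℚ)) 1 + ev l (-(w s : ℚ)) 1) = 0 := by
    linear_combination h2
  rcases mul_eq_zero.mp h3 with h | h
  · apply key (-l) L.neg
    have : ev (-l) (-(w s : ℚ)) 1 = - ev l (-(w s : ℚ)) 1 := by
      simp only [ev, Prod.fst_neg, Prod.snd_neg]
      ring
    rw [this]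
    linarith
  · exact key l L h

end

end Pool.Agent.Lib.MP_745d3a_ag.GM

end
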