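import Pool.Agent.Lib.MP_745d3a_ag.GM.Vx

/-!
The middle weights are distinct; independence.
-/

section

set_option autoImplicit false
set_option linter.unusedSectionVars false
set_option linter.unusedSimpArgs false
set_option linter.unusedVariables false

open MvPolynomial

namespace Pool.Agent.Lib.MP_745d3a_ag.GM

section

variable {K : Type*} [Field K] {w : Fin 5 → ℤ} {s t : Fin 5} {N : ℕ} {u v : ℚ}
  {p q n : Fin 5 → ℕ} {Δ : MvPolynomial (Fin 5) K}

private lemma Y1_exists_five {i j : Fin 5} (hij : i ≠ j) : ∃ k l m, Five i j k l m := by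
  have hcard : (Finset.univ \ {i, j} : Finset (Fin 5)).card = 3 := by
    rw [Finset.card_sdiff_of_subset (Finset.subset_univ _), Finset.card_pair hij]; rfl
  obtain ⟨k, l, m, hkl, hkm, hlm, h⟩ := Finset.card_eq_three.mp hcard
  have hmem : ∀ κ, κ ∈ ({k, l, m} : Finset (Fin 5)) ↔ κ ≠ i ∧ κ ≠ j := by
    intro κ
    rw [← h]
    simp
  have hk := (hmem k).mp (by simp)
  have hl := (hmem l).mp (by simp)
  have hm := (hmem m).mp (by simp)
  refine ⟨k, l, m, hij, hk.1.symm, hl.1.symm, hm.1.symm, hk.2.symm, hl.2.symm, hm.2.symm,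
    hkl, hkm, hlm, ?_⟩
  intro κ
  by_cases h1 : κ = i
  · exact Or.inl h1
  · by_cases h2 : κ = j
    · exact Or.inr (Or.inl h2)
    · have := (hmem κ).mpr ⟨h1, h2⟩
      simp at this
      tauto

private lemma Y1_five {s t c c' : Fin 5} (hst : s ≠ t) (hs : c ≠ s) (ht : c ≠ t)
    (hs' : c' ≠ s) (ht' : c' ≠ t) (h : c ≠ c') : ∃ m, Five s t c c' m := by
  obtain ⟨k, l, m, F⟩ := Y1_exists_five hst
  rcases F.ex c with h1 | h1 | h1 | h1 | h1
  · exact absurd h1 hs
  · exact absurd h1 ht
  · rcases F.ex c' with h2 | h2 | h2 | h2 | h2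
    · exact absurd h2 hs'
    · exact absurd h2 ht'
    · exact absurd (h1.trans h2.symm) h
    · subst h1; subst h2; exact ⟨m, F⟩
    · subst h1; subst h2; exact ⟨l, F.swaplm⟩
  · rcases F.ex c' with h2 | h2 | h2 | h2 | h2
    · exact absurd h2 hs'
    · exact absurd h2 ht'
    · subst h1; subst h2; exact ⟨m, F.swapkl⟩
    · exact absurd (h1.trans h2.symm) h
    · subst h1; subst h2; exact ⟨k, F.swapkl.swaplm⟩
  · rcases F.ex c' with h2 | h2 | h2 | h2 | h2
    · exact absurd h2 hs'
    · exact absurd h2 ht'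
    · subst h1; subst h2; exact ⟨l, F.swaplm.swapkl⟩
    · subst h1; subst h2; exact ⟨k, F.swaplm.swapkl.swaplm⟩
    · exact absurd (h1.trans h2.symm) h

private lemma Y1_set {s t c c' m : Fin 5} (F : Five s t c c' m) :
    (Finset.univ.erase s).erase t = ({c, c', m} : Finset (Fin 5)) := by
  have := F.ij; have := F.ik; have := F.il; have := F.im; have := F.jk
  have := F.jl; have := F.jm; have := F.kl; have := F.km; have := F.lm
  ext κ
  simp only [Finset.mem_erase, Finset.mem_univ, and_true, Finset.mem_insert,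
    Finset.mem_singleton]
  constructor
  · rintro ⟨h1, h2⟩
    rcases F.ex κ with h | h | h | h | h
    · exact absurd h h2
    · exact absurd h h1
    · exact Or.inl h
    · exact Or.inr (Or.inl h)
    · exact Or.inr (Or.inr h)
  · rintro (h | h | h) <;> rw [h]
    · exact ⟨F.jk.symm, F.ik.symm⟩
    · exact ⟨F.jl.symm, F.il.symm⟩
    · exact ⟨F.jm.symm, F.im.symm⟩

private lemma Y1_sum {s t c c' m : Fin 5} (F : Five s t c c' m) (f : Fin 5 → ℚ) :
    ∑ a ∈ (Finset.univ.erase s).erase t, f a = f c + f c' + f m := by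
  rw [Y1_set F, Finset.sum_insert (by simp [F.kl, F.km]), Finset.sum_insert (by simp [F.lm]),
    Finset.sum_singleton]
  ring

private lemma Y1_scal {s t c c' m : Fin 5} (F : Five s t c c' m) (α : K) (e : Fin 5 →₀ ℕ) :
    scal s t (fun κ => if κ = c then α else if κ = c' then 1 else 0) e =
      if e m = 0 then α ^ e c else 0 := by
  rw [scal, Finsupp.prod_fintype _ _ (by intro κ; simp)]
  have h : (Finset.univ : Finset (Fin 5)) = {s, t, c, c', m} := by
    ext κ
    simpa using F.ex κ
  have := F.ij; have := F.ik; have := F.il; have := F.im; have := F.jk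
  have := F.jl; have := F.jm; have := F.kl; have := F.km; have := F.lm
  rw [h, Finset.prod_insert (by simp [*]), Finset.prod_insert (by simp [*]),
    Finset.prod_insert (by simp [*]), Finset.prod_insert (by simp [*]), Finset.prod_singleton]
  have a1 : ¬ (c = s ∨ c = t) := by
    rintro (h' | h')
    · exact F.ik h'.symm
    · exact F.jk h'.symm
  have a2 : ¬ (c' = s ∨ c' = t) := by
    rintro (h' | h')
    · exact F.il h'.symm
    · exact F.jl h'.symm
  have a3 : ¬ (m = s ∨ m = t) := by
    rintro (h' | h')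
    · exact F.im h'.symm
    · exact F.jm h'.symm
  rw [if_pos (Or.inl rfl), if_pos (Or.inr rfl), if_neg a1, if_pos rfl, if_neg a2,
    if_neg F.kl.symm, if_pos rfl, if_neg a3, if_neg F.km.symm, if_neg F.lm.symm, one_pow]
  by_cases hm : e m = 0
  · rw [if_pos hm, hm, pow_zero]
    ring
  · rw [if_neg hm, zero_pow hm]
    ring

private lemma Y1_dvd {s t : Fin 5} {a b : ℕ} {θ : MvPolynomial (Fin 5) K} (hst : s ≠ t)
    (h : ∀ e, coeff e θ ≠ 0 → a ≤ e s ∧ b ≤ e t) :
    ∃ G : MvPolynomial (Fin 5) K, θ = X s ^ a * X t ^ b * G := by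
  have h1 : X s ^ a * X t ^ b ∣ θ := by
    rw [θ.as_sum]
    refine Finset.dvd_sum fun e he => ?_
    have h2 := h e (mem_support_iff.mp he)
    have hle : Finsupp.single s a + Finsupp.single t b ≤ e := by
      intro κ
      rw [Finsupp.add_apply]
      by_cases h3 : s = κ
      · subst h3
        rw [Finsupp.single_eq_same, Finsupp.single_apply, if_neg hst.symm]
        omega
      · by_cases h4 : t = κ
        · subst h4
          rw [Finsupp.single_eq_same, Finsupp.single_apply, if_neg h3]
          omega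
        · rw [Finsupp.single_apply, if_neg h3, Finsupp.single_apply, if_neg h4]
          omega
    refine ⟨monomial (e - (Finsupp.single s a + Finsupp.single t b)) (coeff e θ), ?_⟩
    rw [X_pow_eq_monomial, X_pow_eq_monomial, monomial_mul, monomial_mul, one_mul, one_mul,
      add_tsub_cancel_of_le hle]
  exact h1

theorem VDat.inj [IsAlgClosed K] (V : VDat w s t N u v p q n Δ) {c c' : Fin 5} (hs : c ≠ s)
    (ht : c ≠ t) (hs' : c' ≠ s) (ht' : c' ≠ t) (h : c ≠ c') : w c ≠ w c' := by
  classical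
  intro hw
  obtain ⟨m, F⟩ := Y1_five V.ne hs ht hs' ht' h
  -- numbers
  have hlt := V.lt c hs ht
  have h1 : ((w c : ℚ) - w s) ≠ 0 := by
    intro h0
    have h0' : (w c - w s : ℤ) = 0 := by exact_mod_cast h0
    rw [h0', zero_mul] at hlt
    exact lt_irrefl _ hlt
  have h2 : ((w t : ℚ) - w c) ≠ 0 := by
    intro h0
    have h0' : (w t - w c : ℤ) = 0 := by exact_mod_cast h0
    rw [h0', mul_zero] at hlt
    exact lt_irrefl _ hlt
  have hpp : (p c' : ℚ) = p c := by
    have e1 := V.hp c hs ht
    have e2 := V.hp c' hs' ht'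
    rw [← hw, ← e1] at e2
    exact mul_right_cancel₀ h1 e2
  have hnn : (n c' : ℚ) = n c := by
    have e1 := V.hn1 c hs ht
    have e2 := V.hn1 c' hs' ht'
    rw [← hw, hpp, ← e1] at e2
    exact mul_right_cancel₀ h2 e2
  have hqq : (q c' : ℚ) = q c := by
    have e1 := V.hq c hs ht
    have e2 := V.hq c' hs' ht'
    rw [← hw, ← e1] at e2
    exact mul_right_cancel₀ h2 e2
  obtain ⟨hp1, hp2, hq1, hq2, hn1⟩ := V.pos c hs ht
  have hn0 : (0 : ℚ) < n c := by exact_mod_cast hn1
  have hu := V.hu
  have hv := V.hv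
  have hP : (0 : ℚ) < p c := by exact_mod_cast hp1
  have hQ : (0 : ℚ) < q c := by exact_mod_cast hq1
  -- monomials without `x_m`
  have hes : ∀ e, coeff e Δ ≠ 0 → e m = 0 →
      (e s : ℚ) = N - p c + (1 - ((e c : ℚ) + e c') / n c) * (u + p c) := by
    intro e he hem
    have := V.es he
    rw [Y1_sum F (fun a => (e a : ℚ) / n a * (u + p a)), hem, hpp, hnn, Nat.cast_zero,
      zero_div, zero_mul, add_zero] at this
    field_simp at this ⊢
    linarith
  have het : ∀ e, coeff e Δ ≠ 0 → e m = 0 →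
      (e t : ℚ) = N - q c + (1 - ((e c : ℚ) + e c') / n c) * (v + q c) := by
    intro e he hem
    have := V.et he
    rw [Y1_sum F (fun a => (e a : ℚ) / n a * (v + q a)), hem, hqq, hnn, Nat.cast_zero,
      zero_div, zero_mul, add_zero] at this
    field_simp at this ⊢
    linarith
  have hle : ∀ e, coeff e Δ ≠ 0 → e m = 0 → e c + e c' ≤ n c := by
    intro e he hem
    have := V.S_le e he
    rw [weight_Sw, Y1_sum F (fun a => (e a : ℚ) / n a), hem, hnn] at this
    have h3 : ((e c : ℚ) + e c') / n c ≤ 1 := by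
      have h4 : ((e c : ℚ) + e c') / n c = e c / n c + e c' / n c + (0 : ℕ) / n m := by
        push_cast
        ring
      rw [h4]
      exact this
    rw [div_le_one hn0] at h3
    exact_mod_cast h3
  have heq : ∀ e, coeff e Δ ≠ 0 → e m = 0 → e c + e c' = n c →
      e s = N - p c ∧ e t = N - q c := by
    intro e he hem hr
    have h3 := hes e he hem
    have h4 := het e he hem
    have h5 : ((e c : ℚ) + e c') / n c = 1 := by
      rw [div_eq_one_iff_eq hn0.ne']
      exact_mod_cast hr
    rw [h5, sub_self, zero_mul, add_zero] at h3 h4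
    have h6 : (e s : ℚ) = ((N - p c : ℕ) : ℚ) := by
      rw [h3, Nat.cast_sub hp2]
    have h7 : (e t : ℚ) = ((N - q c : ℕ) : ℚ) := by
      rw [h4, Nat.cast_sub hq2]
    exact ⟨by exact_mod_cast h6, by exact_mod_cast h7⟩
  have hne : ∀ e, coeff e Δ ≠ 0 → e m = 0 → e c + e c' ≠ n c →
      N - (p c - 1) ≤ e s ∧ N - (q c - 1) ≤ e t := by
    intro e he hem hr
    have hlt' : e c + e c' < n c := lt_of_le_of_ne (hle e he hem) hr
    have h3 := hes e he hem
    have h4 := het e he hem
    have h5 : ((e c : ℚ) + e c') / n c < 1 := by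
      rw [div_lt_one hn0]
      exact_mod_cast hlt'
    have h6 : (N : ℚ) - p c < e s := by
      rw [h3]
      have : 0 < (1 - ((e c : ℚ) + e c') / n c) * (u + p c) :=
        mul_pos (by linarith) (by linarith)
      linarith
    have h7 : (N : ℚ) - q c < e t := by
      rw [h4]
      have : 0 < (1 - ((e c : ℚ) + e c') / n c) * (v + q c) :=
        mul_pos (by linarith) (by linarith)
      linarith
    have h8 : N < e s + p c := by
      have : (N : ℚ) < ((e s + p c : ℕ) : ℚ) := by push_cast; linarith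
      exact_mod_cast this
    have h9 : N < e t + q c := by
      have : (N : ℚ) < ((e t + q c : ℕ) : ℚ) := by push_cast; linarith
      exact_mod_cast this
    omega
  -- the polynomial in one variable
  set S : Finset (Fin 5 →₀ ℕ) := Δ.support.filter
    (fun e => e s = N - p c ∧ e t = N - q c ∧ e m = 0) with hS
  set B : Polynomial K := ∑ e ∈ S, Polynomial.monomial (e c) (coeff e Δ) with hB
  have hvx : ∀ e ∈ S, e c = n c → e = vx s t c (N - p c) (N - q c) (n c) := by
    intro e he hec
    rw [hS, Finset.mem_filter, mem_support_iff] at he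
    obtain ⟨he0, he1, he2, he3⟩ := he
    have h3 := hle e he0 he3
    have h4 : e c' = 0 := by omega
    refine F.ext ?_ ?_ ?_ ?_ ?_
    · rw [he1]; simp [vx, F.ij.symm, F.ik.symm, Finsupp.single_apply]
    · rw [he2]; simp [vx, F.ij, F.jk.symm, Finsupp.single_apply]
    · rw [hec]; simp [vx, F.ik, F.jk, Finsupp.single_apply]
    · rw [h4]; simp [vx, F.il, F.jl, F.kl, Finsupp.single_apply]
    · rw [he3]; simp [vx, F.im, F.jm, F.km, Finsupp.single_apply]
  have hBc : B.coeff (n c) = coeff (vx s t c (N - p c) (N - q c) (n c)) Δ := by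
    rw [hB, Polynomial.finsetSum_coeff]
    simp only [Polynomial.coeff_monomial]
    rw [Finset.sum_eq_single (vx s t c (N - p c) (N - q c) (n c))]
    · rw [if_pos]
      simp [vx, F.ik, F.jk, Finsupp.single_apply]
    · intro e he hne'
      rw [if_neg]
      intro hec
      exact hne' (hvx e he hec)
    · intro hnot
      exfalso
      apply hnot
      rw [hS, Finset.mem_filter, mem_support_iff]
      refine ⟨V.vert c hs ht, ?_, ?_, ?_⟩
      · simp [vx, F.ij.symm, F.ik.symm, Finsupp.single_apply]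
      · simp [vx, F.ij, F.jk.symm, Finsupp.single_apply]
      · simp [vx, F.im, F.jm, F.km, Finsupp.single_apply]
  have hdeg : B.degree ≠ 0 := by
    intro h0
    have h3 : (n c : WithBot ℕ) ≤ B.degree :=
      Polynomial.le_degree_of_ne_zero (by rw [hBc]; exact V.vert c hs ht)
    rw [h0] at h3
    have h4 : n c ≤ 0 := by exact_mod_cast h3
    omega
  obtain ⟨α, hα⟩ := IsAlgClosed.exists_root B hdeg
  set q' : Fin 5 → K := fun κ => if κ = c then α else if κ = c' then 1 else 0 with hq'
  have hzero : coeff (Finsupp.single s (N - p c) + Finsupp.single t (N - q c))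
      (th s t q' Δ) = 0 := by
    have h3 : B.eval α = 0 := hα
    rw [hB, Polynomial.eval_finsetSum, hS, Finset.sum_filter] at h3
    rw [← h3]
    conv_lhs => rw [Δ.as_sum]
    rw [map_sum, coeff_sum]
    refine Finset.sum_congr rfl fun e he => ?_
    rw [th_monomial V.ne, coeff_monomial, hq', Y1_scal F, Polynomial.eval_monomial]
    have h4 : (Finsupp.single s (e s) + Finsupp.single t (e t) =
        (Finsupp.single s (N - p c) + Finsupp.single t (N - q c) : Fin 5 →₀ ℕ)) ↔
        (e s = N - p c ∧ e t = N - q c) := by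
      constructor
      · intro h5
        have h6 := DFunLike.congr_fun h5 s
        have h7 := DFunLike.congr_fun h5 t
        simp [Finsupp.single_apply, F.ij, F.ij.symm] at h6 h7
        exact ⟨h6, h7⟩
      · rintro ⟨h5, h6⟩
        rw [h5, h6]
    by_cases h5 : e s = N - p c ∧ e t = N - q c
    · rw [if_pos (h4.mpr h5)]
      by_cases h6 : e m = 0
      · rw [if_pos h6, if_pos ⟨h5.1, h5.2, h6⟩]
      · rw [if_neg h6, if_neg (fun h7 => h6 h7.2.2), mul_zero]
    · rw [if_neg (fun h6 => h5 (h4.mp h6)), if_neg (fun h6 => h5 ⟨h6.1, h6.2.1⟩)]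
  obtain ⟨G, hG⟩ := Y1_dvd (a := N - (p c - 1)) (b := N - (q c - 1)) (θ := th s t q' Δ) V.ne (by
    intro e' he'
    obtain ⟨e, he, h3, h4⟩ := exists_of_coeff_th V.ne he'
    have hem : e m = 0 := h4 m F.im.symm F.jm.symm (by
      rw [hq']
      simp [F.km.symm, F.lm.symm])
    have h5 : e' s = e s := by
      rw [h3]
      simp [Finsupp.single_apply, F.ij.symm]
    have h6 : e' t = e t := by
      rw [h3]
      simp [Finsupp.single_apply, F.ij]
    rw [h5, h6]
    by_cases h7 : e c + e c' = n c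
    · exfalso
      obtain ⟨h8, h9⟩ := heq e he hem h7
      rw [h3, h8, h9] at he'
      exact he' hzero
    · exact hne e he hem h7)
  have hrk := rk_of_point V.ne V.bc (q := q') ⟨c', hs', ht', by
    rw [hq']
    simp [F.kl.symm]⟩ (i := p c - 1) (j := q c - 1) (by omega) (by omega) hG
  have h3 := V.rk_ge hs ht hrk
  have h4 : (p c - 1) * (q c - 1) < p c * q c := Nat.mul_lt_mul'' (by omega) (by omega)
  omega

end

end Pool.Agent.Lib.MP_745d3a_ag.GM

end

section

set_option autoImplicit false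
set_option linter.unusedSectionVars false
set_option linter.unusedSimpArgs false
set_option linter.unusedVariables false

open MvPolynomial

namespace Pool.Agent.Lib.MP_745d3a_ag.GM

section

variable {K : Type*} [Field K] {w : Fin 5 → ℤ} {s t : Fin 5} {N : ℕ} {u v : ℚ}
  {p q n : Fin 5 → ℕ} {Δ : MvPolynomial (Fin 5) K}

private lemma Z1_rel (V : VDat w s t N u v p q n Δ) {c : Fin 5} (hs : c ≠ s) (ht : c ≠ t) :
    (0 : ℚ) < n c ∧ (w t - w s : ℚ) * (u * (w c - w s) + v * (w t - w c)) ≠ 0 ∧
    (1 : ℚ) / n c = ((w t - w c : ℚ) * (w c - w s)) /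
      ((w t - w s : ℚ) * (u * (w c - w s) + v * (w t - w c))) := by
  have h1 := V.hn1 c hs ht
  have h2 := V.hp c hs ht
  have h3 : (0 : ℚ) < (w c - w s : ℚ) * (w t - w c) := by
    have := V.lt c hs ht
    exact_mod_cast this
  have h4 : (0 : ℚ) < n c := by
    have := (V.pos c hs ht).2.2.2.2
    exact_mod_cast this
  have h5 : (n c : ℚ) * ((w t - w c : ℚ) * (w c - w s)) =
      (w t - w s : ℚ) * (u * (w c - w s) + v * (w t - w c)) := by
    linear_combination (w c - w s : ℚ) * h1 + (w t - w s : ℚ) * h2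
  have h6 : (w t - w s : ℚ) * (u * (w c - w s) + v * (w t - w c)) ≠ 0 := by
    rw [← h5]
    have : (0 : ℚ) < (n c : ℚ) * ((w t - w c : ℚ) * (w c - w s)) := by
      apply mul_pos h4
      rw [mul_comm]
      exact h3
    exact this.ne'
  refine ⟨h4, h6, ?_⟩
  rw [div_eq_div_iff h4.ne' h6, one_mul, mul_comm _ (n c : ℚ), h5]

theorem VDat.three (V : VDat w s t N u v p q n Δ) {k l m : Fin 5} (F5 : Five s t k l m)
    (hkl : w k ≠ w l) (hkm : w k ≠ w m) (hlm : w l ≠ w m) {x y z : ℚ} (h1 : x + y + z = 0)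
    (h2 : x * w k + y * w l + z * w m = 0) (h3 : x / n k + y / n l + z / n m = 0) :
    x = 0 ∧ y = 0 ∧ z = 0 := by
  obtain ⟨pk, nk, ek⟩ := Z1_rel V F5.ik.symm F5.jk.symm
  obtain ⟨pl, nl, el⟩ := Z1_rel V F5.il.symm F5.jl.symm
  obtain ⟨pm, nm, em⟩ := Z1_rel V F5.im.symm F5.jm.symm
  have hkl' : (w k : ℚ) - w l ≠ 0 := by
    rw [sub_ne_zero]
    exact_mod_cast hkl
  have hkm' : (w k : ℚ) - w m ≠ 0 := by
    rw [sub_ne_zero]
    exact_mod_cast hkm
  have hlm' : (w l : ℚ) - w m ≠ 0 := by
    rw [sub_ne_zero]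
    exact_mod_cast hlm
  have hz : (w t - w s : ℚ) ≠ 0 := left_ne_zero_of_mul nk
  have hLk := right_ne_zero_of_mul nk
  have hLl := right_ne_zero_of_mul nl
  have hLm := right_ne_zero_of_mul nm
  -- clear denominators in `h3`
  have e1 : x / n k = x * (1 / n k) := by ring
  have e2 : y / n l = y * (1 / n l) := by ring
  have e3 : z / n m = z * (1 / n m) := by ring
  rw [e1, e2, e3, ek, el, em] at h3
  set a : ℚ := (w s : ℚ) with ha
  set b : ℚ := (w t : ℚ) with hb
  set K1 : ℚ := (w k : ℚ) with hK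
  set L1 : ℚ := (w l : ℚ) with hL
  set M1 : ℚ := (w m : ℚ) with hM
  have h4 : x * ((b - K1) * (K1 - a)) * (u * (L1 - a) + v * (b - L1)) *
        (u * (M1 - a) + v * (b - M1))
      + y * ((b - L1) * (L1 - a)) * (u * (K1 - a) + v * (b - K1)) * (u * (M1 - a) + v * (b - M1))
      + z * ((b - M1) * (M1 - a)) * (u * (K1 - a) + v * (b - K1)) * (u * (L1 - a) + v * (b - L1))
      = 0 := by
    have e4 : ∀ A B X D : ℚ, X ≠ 0 → D ≠ 0 → A * (B / (X * D)) * (X * D) = A * B := by
      intro A B X D hX hD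
      field_simp
    have f1 := e4 x ((b - K1) * (K1 - a)) (b - a) _ hz hLk
    have f2 := e4 y ((b - L1) * (L1 - a)) (b - a) _ hz hLl
    have f3 := e4 z ((b - M1) * (M1 - a)) (b - a) _ hz hLm
    linear_combination ((b - a) * (u * (K1 - a) + v * (b - K1)) * (u * (L1 - a) + v * (b - L1)) *
      (u * (M1 - a) + v * (b - M1))) * h3
      - (u * (L1 - a) + v * (b - L1)) * (u * (M1 - a) + v * (b - M1)) * f1
      - (u * (K1 - a) + v * (b - K1)) * (u * (M1 - a) + v * (b - M1)) * f2
      - (u * (K1 - a) + v * (b - K1)) * (u * (L1 - a) + v * (b - L1)) * f3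
  have h5 : x * (K1 - M1) + y * (L1 - M1) = 0 := by
    linear_combination h2 - M1 * h1
  have h6 : z = - x - y := by linear_combination h1
  have hy : y = x * (M1 - K1) / (L1 - M1) := by
    rw [eq_div_iff hlm']
    linear_combination h5
  have hx0 : x = 0 := by
    have h7 : x * (u * v * (b - a) ^ 2 * ((K1 - L1) * (L1 - M1) * (K1 - M1))) = 0 := by
      rw [h6] at h4
      linear_combination -(L1 - M1) * h4
        + (u * (K1 - a) + v * (b - K1)) * ((b - L1) * (L1 - a) * (u * (M1 - a) + v * (b - M1))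
          - (b - M1) * (M1 - a) * (u * (L1 - a) + v * (b - L1))) * h5
    rcases mul_eq_zero.mp h7 with h | h
    · exact h
    · exfalso
      have hu := V.hu.ne'
      have hv := V.hv.ne'
      exact (mul_ne_zero (mul_ne_zero (mul_ne_zero hu hv) (pow_ne_zero 2 hz))
        (mul_ne_zero (mul_ne_zero hkl' hlm') hkm')) h
  have hy0 : y = 0 := by rw [hy, hx0]; simp
  refine ⟨hx0, hy0, ?_⟩
  rw [h6, hx0, hy0]; simp

end

end Pool.Agent.Lib.MP_745d3a_ag.GM

end
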