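import Pool.Agent.Lib.MP_745d3a_ag.GM.Vx
import Pool.Agent.Lib.MP_745d3a_ag.GM.Dist

/-!
The contradiction.
-/

section

set_option autoImplicit false
set_option linter.unusedSectionVars false
set_option linter.unusedSimpArgs false
set_option linter.unusedVariables false

open MvPolynomial

namespace Pool.Agent.Lib.MP_745d3a_ag.GM

section aux

variable {K : Type*} [Field K]

lemma Z2_part_mul (l : Fin 5) (a b : MvPolynomial (Fin 5) K) :
    part (fun e => e l = 0) (a * b) = part (fun e => e l = 0) a * part (fun e => e l = 0) b := by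
  classical
  ext e
  rw [coeff_part, coeff_mul, coeff_mul]
  by_cases h : e l = 0
  · rw [if_pos h]
    refine Finset.sum_congr rfl ?_
    intro x hx
    rw [Finset.HasAntidiagonal.mem_antidiagonal] at hx
    have h1 : x.1 l + x.2 l = e l := by rw [← hx]; rfl
    rw [coeff_part, coeff_part, if_pos (by omega), if_pos (by omega)]
  · rw [if_neg h]
    symm
    refine Finset.sum_eq_zero ?_
    intro x hx
    rw [Finset.HasAntidiagonal.mem_antidiagonal] at hx
    have h1 : x.1 l + x.2 l = e l := by rw [← hx]; rfl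
    rw [coeff_part, coeff_part]
    by_cases h2 : x.1 l = 0
    · rw [if_neg (show ¬ x.2 l = 0 by omega), mul_zero]
    · rw [if_neg h2, zero_mul]

lemma Z2_part_sum {ι : Type*} (l : Fin 5) (E : Finset ι) (f : ι → MvPolynomial (Fin 5) K) :
    part (fun e => e l = 0) (∑ i ∈ E, f i) = ∑ i ∈ E, part (fun e => e l = 0) (f i) := by
  ext e
  rw [coeff_part, coeff_sum, coeff_sum]
  by_cases h : e l = 0
  · rw [if_pos h]
    refine Finset.sum_congr rfl ?_
    intro x _
    rw [coeff_part, if_pos h]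
  · rw [if_neg h]
    symm
    refine Finset.sum_eq_zero ?_
    intro x _
    rw [coeff_part, if_neg h]

lemma Z2_part_mem_J {s t : Fin 5} {N : ℕ} (l : Fin 5) {h : MvPolynomial (Fin 5) K}
    (H : h ∈ J s t N) : part (fun e => e l = 0) h ∈ J s t N := by
  rw [mem_J_coeff] at *
  intro e h1 h2
  rw [coeff_part, H e h1 h2, ite_self]

lemma Z2_mono (s t : Fin 5) (a b : ℕ) : (X s ^ a * X t ^ b : MvPolynomial (Fin 5) K) =
    monomial (Finsupp.single s a + Finsupp.single t b) 1 := by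
  rw [X_pow_eq_monomial, X_pow_eq_monomial, monomial_mul, one_mul]

lemma Z2_part_mono {s t l : Fin 5} (hs : l ≠ s) (ht : l ≠ t) (a b : ℕ) :
    part (fun e => e l = 0) (X s ^ a * X t ^ b : MvPolynomial (Fin 5) K) = X s ^ a * X t ^ b := by
  classical
  ext e
  rw [coeff_part, Z2_mono, coeff_monomial]
  by_cases h : Finsupp.single s a + Finsupp.single t b = e
  · have h1 : e l = 0 := by
      rw [← h]
      simp [Finsupp.single_apply, hs.symm, ht.symm]
    rw [if_pos h1]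
  · rw [if_neg h, ite_self]

/-- Coefficients of `r * x^e` when `r` is free of `x_s`, `x_t`. -/
lemma Z2_coeff {s t : Fin 5} (hst : s ≠ t) {r : MvPolynomial (Fin 5) K}
    (hr : ∀ ε, coeff ε r ≠ 0 → ε s = 0 ∧ ε t = 0) (a b a' b' : ℕ) {ε : Fin 5 →₀ ℕ}
    (h1 : ε s = 0) (h2 : ε t = 0) :
    coeff (ε + (Finsupp.single s a' + Finsupp.single t b')) (r * (X s ^ a * X t ^ b)) =
      if a = a' ∧ b = b' then coeff ε r else 0 := by
  classical
  rw [Z2_mono]
  by_cases h : a = a' ∧ b = b'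
  · rw [if_pos h, h.1, h.2, coeff_mul_monomial, mul_one]
  · rw [if_neg h, coeff_mul_monomial']
    by_cases h3 : Finsupp.single s a + Finsupp.single t b ≤
        ε + (Finsupp.single s a' + Finsupp.single t b')
    · rw [if_pos h3, mul_one]
      by_contra h4
      obtain ⟨h5, h6⟩ := hr _ h4
      have h7 := h3 s
      have h8 := h3 t
      simp only [Finsupp.coe_tsub, Finsupp.coe_add, Pi.sub_apply, Pi.add_apply,
        Finsupp.single_apply, if_true, hst, hst.symm, if_false, h1, h2] at h5 h6 h7 h8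
      omega
    · rw [if_neg h3]

/-- Homogeneous relations. -/
def Z2_rel {G : Type*} [AddCommGroup G] (Ω : Fin 5 → G) (s t : Fin 5) (N : ℕ)
    (Δ : MvPolynomial (Fin 5) K) (E : Finset (ℕ × ℕ))
    (r : ℕ × ℕ → MvPolynomial (Fin 5) K) (τ : G) : Prop :=
  (∀ e, ∀ ε, coeff ε (r e) ≠ 0 → ε s = 0 ∧ ε t = 0) ∧ (∃ e ∈ E, r e ≠ 0) ∧
  (∑ e ∈ E, r e * (X s ^ e.1 * X t ^ e.2)) * Δ ∈ J s t N ∧
  ∀ e ∈ E, IsWeightedHomogeneous Ω (r e) (τ - (e.1 • Ω s + e.2 • Ω t))

lemma Z2_hom_mono {G : Type*} [AddCommGroup G] (Ω : Fin 5 → G) (s t : Fin 5) (a b : ℕ) :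
    IsWeightedHomogeneous Ω (X s ^ a * X t ^ b : MvPolynomial (Fin 5) K)
      (a • Ω s + b • Ω t) :=
  ((isWeightedHomogeneous_X K Ω s).pow a).mul ((isWeightedHomogeneous_X K Ω t).pow b)

lemma Z2_exists_rel {G : Type*} [AddCommGroup G] {Ω : Fin 5 → G} {s t : Fin 5} {N : ℕ}
    {Δ : MvPolynomial (Fin 5) K} {E : Finset (ℕ × ℕ)} {D : G}
    (hΔ : IsWeightedHomogeneous Ω Δ D) (h : Dep s t N Δ E) :
    ∃ r τ, Z2_rel Ω s t N Δ E r τ := by
  classical
  obtain ⟨r, h1, ⟨e0, he0, hr0⟩, h3⟩ := h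
  obtain ⟨ε0, hε0⟩ := MvPolynomial.ne_zero_iff.mp hr0
  set τ : G := Finsupp.weight Ω ε0 + (e0.1 • Ω s + e0.2 • Ω t) with hτ
  refine ⟨fun e => weightedHomogeneousComponent Ω (τ - (e.1 • Ω s + e.2 • Ω t)) (r e), τ,
    ?_, ⟨e0, he0, ?_⟩, ?_, ?_⟩
  · intro e ε hε
    apply h1 e ε
    intro h0
    rw [coeff_weightedHomogeneousComponent, h0, ite_self] at hε
    exact hε rfl
  · intro h0
    have h4 := congrArg (coeff ε0) h0
    rw [coeff_weightedHomogeneousComponent, coeff_zero, hτ, add_sub_cancel_right, if_pos rfl] at h4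
    exact hε0 h4
  · have h4 : (∑ e ∈ E, weightedHomogeneousComponent Ω (τ - (e.1 • Ω s + e.2 • Ω t)) (r e) *
        (X s ^ e.1 * X t ^ e.2)) =
        weightedHomogeneousComponent Ω τ (∑ e ∈ E, r e * (X s ^ e.1 * X t ^ e.2)) := by
      rw [map_sum]
      refine Finset.sum_congr rfl ?_
      intro e _
      rw [← wHC_mul_right (Z2_hom_mono Ω s t e.1 e.2), sub_add_cancel]
    rw [h4, ← wHC_mul_right hΔ]
    exact wHC_mem_J _ h3
  · intro e _
    exact weightedHomogeneousComponent_isWeightedHomogeneous _ _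

/-- A nonzero homogeneous polynomial has nonnegative total degree. -/
lemma Z2_nonneg {w : Fin 5 → ℤ} {φ : Fin 5 → ℚ} {f : MvPolynomial (Fin 5) K}
    {τ : (ℤ × ℤ) × ℚ} (hf : IsWeightedHomogeneous (fun a => (om w a, φ a)) f τ) (h : f ≠ 0) :
    0 ≤ τ.1.1 := by
  obtain ⟨ε, hε⟩ := MvPolynomial.ne_zero_iff.mp h
  rw [← hf hε, Finsupp.weight_apply, Finsupp.sum_fintype _ _ (by intro i; simp)]
  simp only [Prod.fst_sum]
  refine Finset.sum_nonneg ?_
  intro i _
  simp [om]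

/-- Division by `x_l`. -/
lemma Z2_div {G : Type*} [AddCommGroup G] {Ω : Fin 5 → G} {s t l : Fin 5} (hs : l ≠ s)
    (ht : l ≠ t) {N : ℕ} {Δ : MvPolynomial (Fin 5) K} {E : Finset (ℕ × ℕ)}
    {r : ℕ × ℕ → MvPolynomial (Fin 5) K} {τ : G} (h : Z2_rel Ω s t N Δ E r τ)
    (hl : ∀ e ∈ E, ∀ ε, coeff ε (r e) ≠ 0 → ε l ≠ 0) :
    ∃ r', Z2_rel Ω s t N Δ E r' (τ - Ω l) := by
  classical
  obtain ⟨h1, ⟨e0, he0, hr0⟩, h3, h4⟩ := h
  have hX : ∀ e ∈ E, r e = X l * divMonomial (r e) (Finsupp.single l 1) := by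
    intro e he
    ext ε
    rw [coeff_X_mul']
    by_cases h5 : l ∈ ε.support
    · rw [if_pos h5, coeff_divMonomial]
      congr 1
      ext i
      by_cases hi : i = l
      · rw [hi]
        rw [Finsupp.mem_support_iff] at h5
        simp only [Finsupp.coe_add, Finsupp.coe_tsub, Pi.add_apply, Pi.sub_apply,
          Finsupp.single_apply, if_true]
        omega
      · simp [Finsupp.single_apply, Ne.symm hi]
    · rw [if_neg h5]
      by_contra h6
      exact hl e he ε h6 (by simpa using h5)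
  refine ⟨fun e => divMonomial (r e) (Finsupp.single l 1), ?_, ⟨e0, he0, ?_⟩, ?_, ?_⟩
  · intro e ε hε
    rw [coeff_divMonomial] at hε
    have h5 := h1 e _ hε
    simp only [Finsupp.coe_add, Pi.add_apply, Finsupp.single_apply, hs, ht, if_false,
      zero_add] at h5
    exact h5
  · intro h5
    apply hr0
    have h5' : divMonomial (r e0) (Finsupp.single l 1) = 0 := h5
    rw [hX e0 he0, h5', mul_zero]
  · have h5 : (∑ e ∈ E, r e * (X s ^ e.1 * X t ^ e.2)) * Δ = X l *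
        ((∑ e ∈ E, divMonomial (r e) (Finsupp.single l 1) * (X s ^ e.1 * X t ^ e.2)) * Δ) := by
      rw [← mul_assoc, Finset.mul_sum]
      congr 1
      refine Finset.sum_congr rfl ?_
      intro e he
      calc r e * (X s ^ e.1 * X t ^ e.2)
          = (X l * divMonomial (r e) (Finsupp.single l 1)) * (X s ^ e.1 * X t ^ e.2) := by
            rw [← hX e he]
        _ = _ := mul_assoc _ _ _
    rw [h5] at h3
    rw [mem_J_coeff] at h3 ⊢
    intro ε h6 h7
    have h8 := h3 (Finsupp.single l 1 + ε) (by simpa [Finsupp.single_apply, hs] using h6)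
      (by simpa [Finsupp.single_apply, ht] using h7)
    rw [coeff_X_mul] at h8
    exact h8
  · intro e he ε hε
    rw [coeff_divMonomial] at hε
    have h5 := h4 e he hε
    rw [map_add, Finsupp.weight_single, one_smul] at h5
    rw [sub_right_comm, ← h5, add_sub_cancel_left]

/-- Restriction to `x_l = 0`. -/
lemma Z2_restrict {G : Type*} [AddCommGroup G] {Ω : Fin 5 → G} {s t l : Fin 5} (hs : l ≠ s)
    (ht : l ≠ t) {N : ℕ} {Δ : MvPolynomial (Fin 5) K} {E : Finset (ℕ × ℕ)} {e1 : ℕ × ℕ}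
    (he1 : e1 ∉ E)
    {r : ℕ × ℕ → MvPolynomial (Fin 5) K} {τ : G} (h : Z2_rel Ω s t N Δ (insert e1 E) r τ)
    (hl : ∃ e ∈ insert e1 E, ∃ ε, coeff ε (r e) ≠ 0 ∧ ε l = 0)
    (hind : ¬ Dep s t N (part (fun e => e l = 0) Δ) E) :
    ∃ ε, coeff ε (r e1) ≠ 0 ∧ ε l = 0 := by
  classical
  obtain ⟨h1, _, h3, _⟩ := h
  by_contra hcon
  push Not at hcon
  apply hind
  have hz : part (fun e => e l = 0) (r e1) = 0 := by
    ext ε
    rw [coeff_part, coeff_zero]
    by_cases h5 : ε l = 0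
    · rw [if_pos h5]
      by_contra h6
      exact hcon ε h6 h5
    · rw [if_neg h5]
  refine ⟨fun e => part (fun e => e l = 0) (r e), ?_, ?_, ?_⟩
  · intro e ε hε
    apply h1 e ε
    intro h0
    rw [coeff_part, h0, ite_self] at hε
    exact hε rfl
  · obtain ⟨e, he, ε, h5, h6⟩ := hl
    rw [Finset.mem_insert] at he
    rcases he with he | he
    · rw [he] at h5
      exact absurd h6 (hcon ε h5)
    · refine ⟨e, he, ?_⟩
      intro h0
      have h7 := congrArg (coeff ε) h0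
      rw [coeff_part, if_pos h6, coeff_zero] at h7
      exact h5 h7
  · have h5 := Z2_part_mem_J l h3
    rw [Z2_part_mul, Z2_part_sum, Finset.sum_insert he1, Z2_part_mul, hz, zero_mul, zero_add] at h5
    have h6 : ∑ e ∈ E, part (fun e => e l = 0) (r e * (X s ^ e.1 * X t ^ e.2)) =
        ∑ e ∈ E, part (fun e => e l = 0) (r e) * (X s ^ e.1 * X t ^ e.2) := by
      refine Finset.sum_congr rfl ?_
      intro e _
      rw [Z2_part_mul, Z2_part_mono hs ht]
    rw [h6] at h5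
    exact h5

end aux

section

variable {K : Type*} [Field K] {w : Fin 5 → ℤ} {s t : Fin 5} {N : ℕ} {u v : ℚ}
  {p q n : Fin 5 → ℕ} {Δ : MvPolynomial (Fin 5) K}

lemma Z2_weight_pair {w : Fin 5 → ℤ} {φ : Fin 5 → ℚ} (e : Fin 5 →₀ ℕ) :
    Finsupp.weight (fun a => (om w a, φ a)) e = ((∑ a, (e a : ℤ), ∑ a, (e a : ℤ) * w a),
      Finsupp.weight φ e) := by
  rw [Finsupp.weight_apply, Finsupp.weight_apply, Finsupp.sum_fintype _ _ (by intro i; simp),
    Finsupp.sum_fintype _ _ (by intro i; simp)]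
  refine Prod.ext (Prod.ext ?_ ?_) ?_
  · simp [Prod.fst_sum, om]
  · simp [Prod.fst_sum, Prod.snd_sum, om]
  · simp [Prod.snd_sum]

lemma VDat.Z2_hom (V : VDat w s t N u v p q n Δ) :
    ∃ D, IsWeightedHomogeneous (fun a => (om w a, Sw s t n a))
      (weightedHomogeneousComponent (Sw s t n) 1 Δ) D := by
  classical
  by_cases h0 : weightedHomogeneousComponent (Sw s t n) 1 Δ = 0
  · refine ⟨0, ?_⟩
    intro e he
    rw [h0, coeff_zero] at he
    exact absurd rfl he
  obtain ⟨e0, he0⟩ := MvPolynomial.ne_zero_iff.mp h0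
  have key : ∀ e, coeff e (weightedHomogeneousComponent (Sw s t n) 1 Δ) ≠ 0 →
      coeff e Δ ≠ 0 ∧ Finsupp.weight (Sw s t n) e = 1 := by
    intro e he
    rw [coeff_weightedHomogeneousComponent] at he
    by_cases h : Finsupp.weight (Sw s t n) e = 1
    · rw [if_pos h] at he
      exact ⟨he, h⟩
    · rw [if_neg h] at he
      exact absurd rfl he
  refine ⟨Finsupp.weight (fun a => (om w a, Sw s t n a)) e0, ?_⟩
  intro e he
  obtain ⟨h1, h2⟩ := key e he
  obtain ⟨h3, h4⟩ := key e0 he0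
  obtain ⟨h5, h6⟩ := V.hom e h1
  obtain ⟨h7, h8⟩ := V.hom e0 h3
  rw [Z2_weight_pair, Z2_weight_pair, h2, h4]
  have h9 : ∑ a, (e a : ℤ) = ∑ a, (e0 a : ℤ) := by
    have : ((∑ a, (e a : ℤ) : ℤ) : ℚ) = ((∑ a, (e0 a : ℤ) : ℤ) : ℚ) := by
      push_cast
      rw [h5, h7]
    exact_mod_cast this
  have h10 : ∑ a, (e a : ℤ) * w a = ∑ a, (e0 a : ℤ) * w a := by
    have : ((∑ a, (e a : ℤ) * w a : ℤ) : ℚ) = ((∑ a, (e0 a : ℤ) * w a : ℤ) : ℚ) := by
      push_cast
      rw [h6, h8]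
    exact_mod_cast this
  rw [h9, h10]

theorem VDat.exists_f (V : VDat w s t N u v p q n Δ) {k l m : Fin 5} (F5 : Five s t k l m)
    (hkl : w k ≠ w l) (hkm : w k ≠ w m) (hlm : w l ≠ w m) :
    ∃ f : MvPolynomial (Fin 5) K,
      f * weightedHomogeneousComponent (Sw s t n) 1 Δ ∈ J s t N ∧
      (∃ r, coeff (vx s t k (p k) 0 r) f ≠ 0) ∧ (∃ τ, IsWeightedHomogeneous (om w) f τ) ∧
      ∃ c, IsWeightedHomogeneous (Sw s t n) f c := by
  classical
  obtain ⟨hp1, hp2, hq1, hq2, hn⟩ := V.pos k F5.ik.symm F5.jk.symm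
  rcases Nat.lt_or_ge (p k) N with hpN | hpN
  swap
  · have hpN' : p k = N := le_antisymm hp2 hpN
    refine ⟨X s ^ N, ?_, ⟨0, ?_⟩, ⟨_, (isWeightedHomogeneous_X K (om w) s).pow N⟩,
      ⟨_, (isWeightedHomogeneous_X K (Sw s t n) s).pow N⟩⟩
    · exact Ideal.mul_mem_right _ _ (Ideal.subset_span (by simp))
    · rw [hpN', vx, Finsupp.single_zero, Finsupp.single_zero, add_zero, add_zero,
        X_pow_eq_monomial, coeff_monomial, if_pos rfl]
      exact one_ne_zero
  set Δ0 := weightedHomogeneousComponent (Sw s t n) 1 Δ with hΔ0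
  set B : Finset (ℕ × ℕ) := Finset.range (p k) ×ˢ Finset.range (q k) with hB
  have hnot : (p k, 0) ∉ B := by
    rw [hB, Finset.mem_product, Finset.mem_range]
    simp
  have hDep : Dep s t N Δ0 (insert (p k, 0) B) := by
    have h1 := (V.rk F5.ik.symm F5.jk.symm).top F5.ij (φ := Sw s t n) (M := 1)
      (by simp [Sw]) (by simp [Sw]) V.S_le
    refine h1 _ ?_ ?_
    · intro e he
      rw [Finset.mem_insert] at he
      rcases he with he | he
      · rw [he]
        exact ⟨hpN, by omega⟩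
      · rw [hB, Finset.mem_product, Finset.mem_range, Finset.mem_range] at he
        omega
    · rw [Finset.card_insert_of_notMem hnot, hB, Finset.card_product, Finset.card_range,
        Finset.card_range]
      omega
  obtain ⟨D, hD⟩ := V.Z2_hom
  -- a homogeneous relation of least total degree
  have hex : ∃ n0 : ℕ, ∃ r τ, Z2_rel (fun a => (om w a, Sw s t n a)) s t N Δ0
      (insert (p k, 0) B) r τ ∧ τ.1.1.toNat = n0 := by
    obtain ⟨r, τ, h⟩ := Z2_exists_rel hD hDep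
    exact ⟨_, r, τ, h, rfl⟩
  obtain ⟨r, τ, hrel, hmin⟩ := Nat.find_spec hex
  have hmin' : ∀ r' τ', Z2_rel (fun a => (om w a, Sw s t n a)) s t N Δ0
      (insert (p k, 0) B) r' τ' → τ.1.1.toNat ≤ τ'.1.1.toNat := by
    intro r' τ' h
    rw [hmin]
    exact Nat.find_min' hex ⟨r', τ', h, rfl⟩
  have hstep : ∀ {l m : Fin 5}, Five s t k l m →
      ∃ ε, coeff ε (r (p k, 0)) ≠ 0 ∧ ε l = 0 := by
    intro l m F
    refine Z2_restrict F.il.symm F.jl.symm hnot hrel ?_
      (V.vertex_indep' F.ik.symm F.jk.symm F.kl.symm F.il.symm F.jl.symm)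
    by_contra hcon
    push Not at hcon
    obtain ⟨r', hr'⟩ := Z2_div F.il.symm F.jl.symm hrel hcon
    have h1 := hmin' _ _ hr'
    obtain ⟨_, ⟨e, he, hne⟩, _, h4⟩ := hr'
    have h5 := Z2_nonneg (h4 e he) hne
    have h6 : (τ - (om w l, Sw s t n l) - (e.1 • ((om w s, Sw s t n s) : (ℤ × ℤ) × ℚ) +
        e.2 • ((om w t, Sw s t n t) : (ℤ × ℤ) × ℚ))).1.1 = τ.1.1 - 1 - (e.1 + e.2) := by
      simp [om]
    have h7 : (τ - (om w l, Sw s t n l)).1.1 = τ.1.1 - 1 := by simp [om]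
    rw [h6] at h5
    rw [h7] at h1
    omega
  obtain ⟨ε1, h1, h1l⟩ := hstep F5
  obtain ⟨ε2, h2, h2m⟩ := hstep F5.swaplm
  obtain ⟨hst, _, hJ, hh⟩ := hrel
  obtain ⟨h1s, h1t⟩ := hst _ _ h1
  obtain ⟨h2s, h2t⟩ := hst _ _ h2
  have hhk := hh (p k, 0) (Finset.mem_insert_self _ _)
  have hw : Finsupp.weight (fun a => (om w a, Sw s t n a)) ε1 =
      Finsupp.weight (fun a => (om w a, Sw s t n a)) ε2 := (hhk h1).trans (hhk h2).symm
  rw [Z2_weight_pair, Z2_weight_pair] at hw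
  have hSk : ∀ c, c ≠ s → c ≠ t → Sw s t n c = 1 / (n c : ℚ) := by
    intro c h3 h4
    simp [Sw, h3, h4]
  have hw1 : ∑ a, (ε1 a : ℤ) = ∑ a, (ε2 a : ℤ) := congrArg (fun z => z.1.1) hw
  have hw2 : ∑ a, (ε1 a : ℤ) * w a = ∑ a, (ε2 a : ℤ) * w a := congrArg (fun z => z.1.2) hw
  have hw3 : Finsupp.weight (Sw s t n) ε1 = Finsupp.weight (Sw s t n) ε2 :=
    congrArg (fun z => z.2) hw
  rw [Finsupp.weight_apply, Finsupp.weight_apply, Finsupp.sum_fintype _ _ (by intro i; simp),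
    Finsupp.sum_fintype _ _ (by intro i; simp), F5.sum, F5.sum, h1s, h1t, h2s, h2t,
    hSk k F5.ik.symm F5.jk.symm, hSk l F5.il.symm F5.jl.symm, hSk m F5.im.symm F5.jm.symm] at hw3
  rw [F5.sum, F5.sum, h1s, h1t, h2s, h2t] at hw1 hw2
  have hw1' : ((ε1 k : ℚ) - ε2 k) + ((ε1 l : ℚ) - ε2 l) + ((ε1 m : ℚ) - ε2 m) = 0 := by
    have := congrArg (fun z : ℤ => (z : ℚ)) hw1
    push_cast at this
    linarith
  have hw2' : ((ε1 k : ℚ) - ε2 k) * w k + ((ε1 l : ℚ) - ε2 l) * w l +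
      ((ε1 m : ℚ) - ε2 m) * w m = 0 := by
    have := congrArg (fun z : ℤ => (z : ℚ)) hw2
    push_cast at this
    linarith
  have hw3' : ((ε1 k : ℚ) - ε2 k) / n k + ((ε1 l : ℚ) - ε2 l) / n l +
      ((ε1 m : ℚ) - ε2 m) / n m = 0 := by
    simp only [zero_smul, nsmul_eq_mul, zero_add, one_div] at hw3
    simp only [div_eq_mul_inv]
    linarith
  obtain ⟨h3, h4, h5⟩ := V.three F5 hkl hkm hlm hw1' hw2' hw3'
  have h1m : ε1 m = 0 := by
    have : (ε1 m : ℚ) = ε2 m := by linarith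
    rw [h2m] at this
    exact_mod_cast this
  have hε1 : ε1 = Finsupp.single k (ε1 k) := by
    refine F5.ext ?_ ?_ ?_ ?_ ?_
    · rw [h1s, Finsupp.single_apply, if_neg F5.ik.symm]
    · rw [h1t, Finsupp.single_apply, if_neg F5.jk.symm]
    · rw [Finsupp.single_apply, if_pos rfl]
    · rw [h1l, Finsupp.single_apply, if_neg F5.kl]
    · rw [h1m, Finsupp.single_apply, if_neg F5.km]
  have hF : IsWeightedHomogeneous (fun a => (om w a, Sw s t n a))
      (∑ e ∈ insert (p k, 0) B, r e * (X s ^ e.1 * X t ^ e.2)) τ := by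
    refine IsWeightedHomogeneous.sum _ _ _ ?_
    intro e he
    have h6 := (hh e he).mul (Z2_hom_mono (K := K) (fun a => (om w a, Sw s t n a)) s t e.1 e.2)
    rw [sub_add_cancel] at h6
    exact h6
  refine ⟨_, hJ, ⟨ε1 k, ?_⟩, ⟨τ.1, ?_⟩, ⟨τ.2, ?_⟩⟩
  · have hvx : vx s t k (p k) 0 (ε1 k) =
        ε1 + (Finsupp.single s (p k) + Finsupp.single t 0) := by
      rw [vx, ← hε1, add_comm]
    rw [hvx, coeff_sum, Finset.sum_insert hnot, Finset.sum_eq_zero, add_zero,
      Z2_coeff F5.ij (hst _) _ _ _ _ h1s h1t, if_pos ⟨rfl, rfl⟩]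
    · exact h1
    · intro e he
      rw [Z2_coeff F5.ij (hst _) _ _ _ _ h1s h1t, if_neg]
      rintro ⟨h6, h7⟩
      apply hnot
      rw [← h6, ← h7]
      exact he
  · intro e he
    have h6 := hF he
    rw [Z2_weight_pair] at h6
    have h7 : Finsupp.weight (om w) e = (∑ a, (e a : ℤ), ∑ a, (e a : ℤ) * w a) := by
      rw [Finsupp.weight_apply, Finsupp.sum_fintype _ _ (by intro i; simp)]
      refine Prod.ext ?_ ?_
      · simp [Prod.fst_sum, om]
      · simp [Prod.snd_sum, om]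
    rw [h7]
    exact congrArg Prod.fst h6
  · intro e he
    have h6 := hF he
    rw [Z2_weight_pair] at h6
    exact congrArg Prod.snd h6

end

end Pool.Agent.Lib.MP_745d3a_ag.GM

end

section

set_option autoImplicit false
set_option linter.unusedSectionVars false
set_option linter.unusedSimpArgs false
set_option linter.unusedVariables false

open MvPolynomial

namespace Pool.Agent.Lib.MP_745d3a_ag.GM

section

variable {K : Type*} [Field K] {w : Fin 5 → ℤ} {s t : Fin 5} {N : ℕ} {u v : ℚ}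
  {p q n : Fin 5 → ℕ} {Δ : MvPolynomial (Fin 5) K}

private lemma Z3_erase {k l m : Fin 5} (F5 : Five s t k l m) (f : Fin 5 → ℚ) :
    ∑ c ∈ (Finset.univ.erase s).erase t, f c = f k + f l + f m := by
  have h := F5.sum f
  have h1 : f s + ∑ c ∈ Finset.univ.erase s, f c = ∑ c, f c :=
    Finset.add_sum_erase _ f (Finset.mem_univ s)
  have h2 : f t + ∑ c ∈ (Finset.univ.erase s).erase t, f c = ∑ c ∈ Finset.univ.erase s, f c :=
    Finset.add_sum_erase _ f (Finset.mem_erase.mpr ⟨F5.ij.symm, Finset.mem_univ t⟩)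
  linarith

private lemma Z3_mid {k l m c : Fin 5} (F5 : Five s t k l m) (h : c = k ∨ c = l ∨ c = m) :
    c ≠ s ∧ c ≠ t := by
  rcases h with h | h | h <;> rw [h]
  exacts [⟨F5.ik.symm, F5.jk.symm⟩, ⟨F5.il.symm, F5.jl.symm⟩, ⟨F5.im.symm, F5.jm.symm⟩]

private lemma Z3_top (V : VDat w s t N u v p q n Δ) {k l m : Fin 5} (F5 : Five s t k l m)
    {e : Fin 5 →₀ ℕ} (he : coeff e (weightedHomogeneousComponent (Sw s t n) 1 Δ) ≠ 0) :
    coeff e Δ ≠ 0 ∧ (e k : ℚ) / n k + e l / n l + e m / n m = 1 := by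
  rw [V.coeff_top, Z3_erase F5] at he
  split_ifs at he with h
  · exact ⟨he, h⟩
  · exact absurd rfl he

private lemma Z3_z (V : VDat w s t N u v p q n Δ) {k l m : Fin 5} (F5 : Five s t k l m) :
    ((w t : ℚ) - w s) ≠ 0 := by
  intro h
  have h1 := V.lt k F5.ik.symm F5.jk.symm
  have h2 : w t = w s := by
    have : (w t : ℚ) = w s := by linarith
    exact_mod_cast this
  rw [h2] at h1
  nlinarith [sq_nonneg (w k - w s)]

private lemma Z3_wt (e : Fin 5 →₀ ℕ) {k l m : Fin 5} (F5 : Five s t k l m) {τ : ℤ × ℤ}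
    (h : Finsupp.weight (om w) e = τ) :
    (e s : ℚ) + e t + e k + e l + e m = τ.1 ∧
    (e s : ℚ) * w s + e t * w t + e k * w k + e l * w l + e m * w m = τ.2 := by
  rw [Finsupp.weight_apply, Finsupp.sum_fintype _ _ (by intro κ; simp)] at h
  have h1 := congrArg Prod.fst h
  have h2 := congrArg Prod.snd h
  rw [Prod.fst_sum, F5.sum] at h1
  rw [Prod.snd_sum, F5.sum] at h2
  simp only [om, Prod.smul_mk, nsmul_eq_mul, mul_one] at h1 h2
  constructor
  · exact_mod_cast h1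
  · exact_mod_cast h2

theorem VDat.ddat (V : VDat w s t N u v p q n Δ) {k l m : Fin 5} (F5 : Five s t k l m) :
    DDat s t k l m N p q n (weightedHomogeneousComponent (Sw s t n) 1 Δ) := by
  refine ⟨F5, ?_, ?_, ?_, ?_, ?_⟩
  · intro κ h
    exact V.pos κ (Z3_mid F5 h).1 (Z3_mid F5 h).2
  · intro κ h
    exact V.vert_top (Z3_mid F5 h).1 (Z3_mid F5 h).2
  · intro e he
    exact (Z3_top V F5 he).2
  · intro e he
    obtain ⟨h1, h2⟩ := Z3_top V F5 he
    have h3 := V.es h1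
    rw [Z3_erase F5] at h3
    linear_combination h3 - u * h2
  · intro e he
    obtain ⟨h1, h2⟩ := Z3_top V F5 he
    have h3 := V.et h1
    rw [Z3_erase F5] at h3
    linear_combination h3 - v * h2

theorem VDat.fdat (V : VDat w s t N u v p q n Δ) {k l m : Fin 5} (F5 : Five s t k l m)
    {f : MvPolynomial (Fin 5) K}
    (h1 : f * weightedHomogeneousComponent (Sw s t n) 1 Δ ∈ J s t N)
    (h2 : ∃ r, coeff (vx s t k (p k) 0 r) f ≠ 0) {τ : ℤ × ℤ}
    (h3 : IsWeightedHomogeneous (om w) f τ) {c : ℚ} (h4 : IsWeightedHomogeneous (Sw s t n) f c) :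
    FDat s t k l m N p q n (weightedHomogeneousComponent (Sw s t n) 1 Δ) f := by
  obtain ⟨r, hr⟩ := h2
  have hk : k = k ∨ k = l ∨ k = m := Or.inl rfl
  have hz := Z3_z V F5
  have hnk : (n k : ℚ) ≠ 0 := by
    have := (V.pos k F5.ik.symm F5.jk.symm).2.2.2.2
    exact_mod_cast (by omega : n k ≠ 0)
  have hnl : (n l : ℚ) ≠ 0 := by
    have := (V.pos l F5.il.symm F5.jl.symm).2.2.2.2
    exact_mod_cast (by omega : n l ≠ 0)
  have hnm : (n m : ℚ) ≠ 0 := by
    have := (V.pos m F5.im.symm F5.jm.symm).2.2.2.2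
    exact_mod_cast (by omega : n m ≠ 0)
  have a1 := vx_i F5 hk (p k) 0 r
  have a2 := vx_j F5 hk (p k) 0 r
  have a3 := vx_self F5 hk (p k) 0 r
  have a4 := vx_other F5.il.symm F5.jl.symm F5.kl.symm (p k) 0 r
  have a5 := vx_other F5.im.symm F5.jm.symm F5.km.symm (p k) 0 r
  have hc : (r : ℚ) / n k = c := by
    have := h4 hr
    rw [weight_Sw, Z3_erase F5, a3, a4, a5] at this
    simpa using this
  obtain ⟨b1, b2⟩ := Z3_wt (w := w) _ F5 (h3 hr)
  rw [a1, a2, a3, a4, a5] at b1 b2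
  simp only [Nat.cast_zero, zero_mul, add_zero] at b1 b2
  have key : ∀ e, coeff e f ≠ 0 → (e k : ℚ) / n k + e l / n l + e m / n m = c := by
    intro e he
    have := h4 he
    rwa [weight_Sw, Z3_erase F5] at this
  have hn1k := V.hn1 k F5.ik.symm F5.jk.symm
  have hn1l := V.hn1 l F5.il.symm F5.jl.symm
  have hn1m := V.hn1 m F5.im.symm F5.jm.symm
  have hn2k := V.hn2 k F5.ik.symm F5.jk.symm
  have hn2l := V.hn2 l F5.il.symm F5.jl.symm
  have hn2m := V.hn2 m F5.im.symm F5.jm.symm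
  have hr' : (r : ℚ) = c * n k := by rw [← hc, div_mul_cancel₀ _ hnk]
  refine ⟨h1, ⟨r, hr⟩, ⟨c, key⟩, ?_, ?_⟩
  · intro e he
    obtain ⟨c1, c2⟩ := Z3_wt (w := w) _ F5 (h3 he)
    have hkey := key e he
    have ek : (e k : ℚ) = e k / n k * n k := (div_mul_cancel₀ _ hnk).symm
    have el : (e l : ℚ) = e l / n l * n l := (div_mul_cancel₀ _ hnl).symm
    have em : (e m : ℚ) = e m / n m * n m := (div_mul_cancel₀ _ hnm).symm
    generalize (e k : ℚ) / n k = xk at ek hkey ⊢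
    generalize (e l : ℚ) / n l = xl at el hkey ⊢
    generalize (e m : ℚ) / n m = xm at em hkey ⊢
    rw [ek, el, em] at c1 c2
    rw [hr'] at b1 b2
    refine mul_left_cancel₀ hz ?_
    linear_combination (w t : ℚ) * (c1 - b1) - (c2 - b2) - xk * hn1k - xl * hn1l - xm * hn1m +
      c * hn1k - ((w t : ℚ) - w s) * (u + p k) * hkey
  · intro e he
    obtain ⟨c1, c2⟩ := Z3_wt (w := w) _ F5 (h3 he)
    have hkey := key e he
    have ek : (e k : ℚ) = e k / n k * n k := (div_mul_cancel₀ _ hnk).symm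
    have el : (e l : ℚ) = e l / n l * n l := (div_mul_cancel₀ _ hnl).symm
    have em : (e m : ℚ) = e m / n m * n m := (div_mul_cancel₀ _ hnm).symm
    generalize (e k : ℚ) / n k = xk at ek hkey ⊢
    generalize (e l : ℚ) / n l = xl at el hkey ⊢
    generalize (e m : ℚ) / n m = xm at em hkey ⊢
    rw [ek, el, em] at c1 c2
    rw [hr'] at b1 b2
    refine mul_left_cancel₀ hz ?_
    linear_combination (c2 - b2) - (w s : ℚ) * (c1 - b1) - xk * hn2k - xl * hn2l - xm * hn2m +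
      c * hn2k - ((w t : ℚ) - w s) * (v + q k) * hkey

end

end Pool.Agent.Lib.MP_745d3a_ag.GM

end

section

set_option autoImplicit false
set_option linter.unusedSectionVars false
set_option linter.unusedSimpArgs false
set_option linter.unusedVariables false

open MvPolynomial

namespace Pool.Agent.Lib.MP_745d3a_ag.GM

/-- Five indices completing two given ones. -/
private lemma Z4_exists_five {i j : Fin 5} (hij : i ≠ j) : ∃ k l m, Five i j k l m := by
  have hcard : (Finset.univ \ {i, j} : Finset (Fin 5)).card = 3 := by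
    rw [Finset.card_sdiff_of_subset (Finset.subset_univ _), Finset.card_pair hij]; rfl
  obtain ⟨k, l, m, hkl, hkm, hlm, h⟩ := Finset.card_eq_three.mp hcard
  have hmem : ∀ κ, κ ∈ ({k, l, m} : Finset (Fin 5)) ↔ κ ≠ i ∧ κ ≠ j := by
    intro κ
    rw [← h]
    simp
  have hk := (hmem k).mp (by simp)
  have hl := (hmem l).mp (by simp)
  have hm := (hmem m).mp (by simp)
  refine ⟨k, l, m, hij, hk.1.symm, hl.1.symm, hm.1.symm, hk.2.symm, hl.2.symm, hm.2.symm,
    hkl, hkm, hlm, ?_⟩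
  intro κ
  by_cases h1 : κ = i
  · exact Or.inl h1
  · by_cases h2 : κ = j
    · exact Or.inr (Or.inl h2)
    · have := (hmem κ).mpr ⟨h1, h2⟩
      simp at this
      tauto

theorem vdat_false {w : Fin 5 → ℤ} {s t : Fin 5} {N : ℕ} {u v : ℚ} {p q n : Fin 5 → ℕ}
    {Δ : MvPolynomial (Fin 5) ℂ} (V : VDat w s t N u v p q n Δ) : False := by
  have hw : ∀ k l m, Five s t k l m → w k ≠ w l := fun k l m F5 =>
    V.inj F5.ik.symm F5.jk.symm F5.il.symm F5.jl.symm F5.kl
  have H : ∀ k l m, Five s t k l m →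
      DDat s t k l m N p q n (weightedHomogeneousComponent (Sw s t n) 1 Δ) ∧
      (∃ f, FDat s t k l m N p q n (weightedHomogeneousComponent (Sw s t n) 1 Δ) f) ∧
      (∃ g, FDat t s k l m N q p n (weightedHomogeneousComponent (Sw s t n) 1 Δ) g) := by
    intro k l m F5
    have hkl := hw k l m F5
    have hkm := hw k m l F5.swaplm
    have hlm := hw l m k F5.swapkl.swaplm
    refine ⟨V.ddat F5, ?_, ?_⟩
    · obtain ⟨f, h1, h2, ⟨τ, h3⟩, c, h4⟩ := V.exists_f F5 hkl hkm hlm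
      exact ⟨f, V.fdat F5 h1 h2 h3 h4⟩
    · obtain ⟨f, h1, h2, ⟨τ, h3⟩, c, h4⟩ := V.swap.exists_f F5.swap hkl hkm hlm
      have := V.swap.fdat F5.swap h1 h2 h3 h4
      rw [Sw_swap] at this
      exact ⟨f, this⟩
  have hp : ∀ k l m, Five s t k l m → p k ≠ p l := by
    intro k l m F5 heq
    have e1 := V.hp k F5.ik.symm F5.jk.symm
    have e2 := V.hp l F5.il.symm F5.jl.symm
    rw [← heq] at e2
    have hv := V.hv
    have hpk : (0 : ℚ) ≤ p k := Nat.cast_nonneg _
    have e3 : ((p k : ℚ) + v) * ((w k : ℚ) - w l) = 0 := by linear_combination e1 - e2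
    have e4 : ((w k : ℚ) - w l) = 0 := (mul_eq_zero.1 e3).resolve_left (by linarith)
    have e5 : (w k : ℚ) = w l := by linarith
    exact hw k l m F5 (by exact_mod_cast e5)
  obtain ⟨k, l, m, F5⟩ := Z4_exists_five V.ne
  have hkl := hp k l m F5
  have hkm := hp k m l F5.swaplm
  have hlm := hp l m k F5.swapkl.swaplm
  rcases lt_or_gt_of_ne hkl with h1 | h1 <;> rcases lt_or_gt_of_ne hkm with h2 | h2 <;>
    rcases lt_or_gt_of_ne hlm with h3 | h3
  · exact sorted H F5 h1 h3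
  · exact sorted H F5.swaplm h2 h3
  · omega
  · exact sorted H F5.swaplm.swapkl h2 h1
  · exact sorted H F5.swapkl h1 h2
  · omega
  · exact sorted H F5.swapkl.swaplm h3 h2
  · exact sorted H F5.swaplm.swapkl.swaplm h3 h1

end Pool.Agent.Lib.MP_745d3a_ag.GM

end
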