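import Pool.Agent.Lib.MP_745d3a_ag.GM.Defs

/-!
Existence of the pairing.
-/

section

set_option autoImplicit false
set_option linter.unusedSectionVars false
set_option linter.unusedSimpArgs false
set_option linter.unusedVariables false

open MvPolynomial

namespace Pool.Agent.Lib.MP_745d3a_ag.GM

lemma top_dvd_fst (w : Fin 5 → ℤ) (e : Fin 5 →₀ ℕ) :
    (Finsupp.weight (om w) e).1 = ∑ i, (e i : ℤ) := by
  rw [Finsupp.weight_apply, Finsupp.sum_fintype _ _ (fun i => by simp), Prod.fst_sum]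
  refine Finset.sum_congr rfl (fun i _ => ?_)
  simp [om]

lemma top_dvd_mul {K : Type*} [Field K] (w : Fin 5 → ℤ) (q r : MvPolynomial (Fin 5) K)
    (τ τ' : ℤ × ℤ)
    (hτ : ∀ e ∈ q.support, toLex (Finsupp.weight (om w) e) ≤ toLex τ)
    (hτ' : ∀ e ∈ r.support, toLex (Finsupp.weight (om w) e) ≤ toLex τ') :
    weightedHomogeneousComponent (om w) (τ + τ') (q * r) =
      weightedHomogeneousComponent (om w) τ q * weightedHomogeneousComponent (om w) τ' r := by
  classical
  have hh := (weightedHomogeneousComponent_isWeightedHomogeneous (w := om w) τ q).mul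
    (weightedHomogeneousComponent_isWeightedHomogeneous (w := om w) τ' r)
  ext u
  rw [coeff_weightedHomogeneousComponent]
  by_cases hu : Finsupp.weight (om w) u = τ + τ'
  · rw [if_pos hu, coeff_mul, coeff_mul]
    refine Finset.sum_congr rfl (fun x hx => ?_)
    rw [Finset.HasAntidiagonal.mem_antidiagonal] at hx
    rw [coeff_weightedHomogeneousComponent, coeff_weightedHomogeneousComponent]
    by_cases h1 : coeff x.1 q = 0
    · rw [h1]; simp
    by_cases h2 : coeff x.2 r = 0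
    · rw [h2]; simp
    have h3 := hτ x.1 (mem_support_iff.mpr h1)
    have h4 := hτ' x.2 (mem_support_iff.mpr h2)
    have h5 : Finsupp.weight (om w) x.1 + Finsupp.weight (om w) x.2 = τ + τ' := by
      rw [← map_add, hx, hu]
    have h5' : toLex (Finsupp.weight (om w) x.1) + toLex (Finsupp.weight (om w) x.2) =
        toLex τ + toLex τ' := by
      rw [← toLex_add, ← toLex_add, h5]
    have h6 : toLex (Finsupp.weight (om w) x.1) = toLex τ := by
      refine le_antisymm h3 ?_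
      by_contra h7
      push Not at h7
      have := add_lt_add_of_lt_of_le h7 h4
      exact absurd h5' this.ne
    have h7 : toLex (Finsupp.weight (om w) x.2) = toLex τ' := by
      rw [h6] at h5'
      exact add_left_cancel h5'
    rw [if_pos (toLex.injective h6), if_pos (toLex.injective h7)]
  · rw [if_neg hu, hh.coeff_eq_zero u hu]

theorem top_dvd {K : Type*} [Field K] (w : Fin 5 → ℤ) {q : MvPolynomial (Fin 5) K}
    (hq : ¬ IsUnit q) (hq0 : q ≠ 0) :
    ∃ q' : MvPolynomial (Fin 5) K, ¬ IsUnit q' ∧ q' ≠ 0 ∧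
      (∃ τ, IsWeightedHomogeneous (om w) q' τ) ∧
      ∀ f τ, IsWeightedHomogeneous (om w) f τ → q ∣ f → q' ∣ f := by
  classical
  have key : ∀ r : MvPolynomial (Fin 5) K, r ≠ 0 → ∃ e₀ ∈ r.support, ∀ e ∈ r.support,
      toLex (Finsupp.weight (om w) e) ≤ toLex (Finsupp.weight (om w) e₀) := by
    intro r hr
    exact Finset.exists_max_image r.support (fun e => toLex (Finsupp.weight (om w) e))
      (support_nonempty.mpr hr)
  obtain ⟨e₀, he₀, hmax⟩ := key q hq0
  set τ := Finsupp.weight (om w) e₀ with hτ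
  have hc : coeff e₀ (weightedHomogeneousComponent (om w) τ q) ≠ 0 := by
    rw [coeff_weightedHomogeneousComponent, if_pos rfl]
    exact mem_support_iff.mp he₀
  have hq'0 : weightedHomogeneousComponent (om w) τ q ≠ 0 := by
    intro h
    rw [h, coeff_zero] at hc
    exact hc rfl
  refine ⟨weightedHomogeneousComponent (om w) τ q, ?_, hq'0,
    ⟨τ, weightedHomogeneousComponent_isWeightedHomogeneous _ _⟩, ?_⟩
  · intro hu
    rw [MvPolynomial.isUnit_iff_eq_C_of_isReduced] at hu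
    obtain ⟨c, hc1, hc2⟩ := hu
    have he00 : e₀ = 0 := by
      rw [hc2, coeff_C] at hc
      by_contra h
      exact hc (if_neg (fun h' => h h'.symm))
    obtain ⟨e, he, hne⟩ : ∃ e ∈ q.support, e ≠ 0 := by
      by_contra h
      push Not at h
      apply hq
      have hqC : q = C (coeff 0 q) := by
        ext u
        rw [coeff_C]
        by_cases hu0 : 0 = u
        · rw [if_pos hu0, ← hu0]
        · rw [if_neg hu0]
          by_contra h1
          exact hu0 (h u (mem_support_iff.mpr h1)).symm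
      rw [hqC]
      refine IsUnit.map C ?_
      rw [isUnit_iff_ne_zero]
      intro h0
      rw [h0, C_0] at hqC
      exact hq0 hqC
    have h1 := hmax e he
    rw [Prod.Lex.toLex_le_toLex] at h1
    have h2 : (Finsupp.weight (om w) e).1 ≤ τ.1 := by
      rcases h1 with h1 | h1
      · exact h1.le
      · exact h1.1.le
    rw [hτ, he00, top_dvd_fst, top_dvd_fst] at h2
    apply hne
    ext i
    have h3 : (e i : ℤ) ≤ ∑ i, (e i : ℤ) :=
      Finset.single_le_sum (f := fun i => (e i : ℤ)) (fun i _ => by positivity)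
        (Finset.mem_univ i)
    simp at h2
    have h4 : (e i : ℤ) ≤ 0 := h3.trans (by simpa using h2)
    have h5 : e i = 0 := by omega
    simpa using h5
  · rintro f ρ hf ⟨r, rfl⟩
    by_cases hr : r = 0
    · rw [hr, mul_zero]; exact dvd_zero _
    obtain ⟨e₁, he₁, hmax₁⟩ := key r hr
    have hm := top_dvd_mul w q r τ (Finsupp.weight (om w) e₁) hmax hmax₁
    have hc1 : coeff e₁ (weightedHomogeneousComponent (om w) (Finsupp.weight (om w) e₁) r)
        ≠ 0 := by
      rw [coeff_weightedHomogeneousComponent, if_pos rfl]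
      exact mem_support_iff.mp he₁
    have hr'0 : weightedHomogeneousComponent (om w) (Finsupp.weight (om w) e₁) r ≠ 0 := by
      intro h
      rw [h, coeff_zero] at hc1
      exact hc1 rfl
    have hne := mul_ne_zero hq'0 hr'0
    rw [← hm] at hne
    have hρ : ρ = τ + Finsupp.weight (om w) e₁ := by
      by_contra h
      exact hne (hf.weightedHomogeneousComponent_ne _ (fun h7 => h h7.symm))
    rw [← hρ, hf.weightedHomogeneousComponent_same] at hm
    rw [hm]
    exact dvd_mul_right _ _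

end Pool.Agent.Lib.MP_745d3a_ag.GM

end

section

set_option autoImplicit false
set_option linter.unusedSectionVars false
set_option linter.unusedSimpArgs false
set_option linter.unusedVariables false

open MvPolynomial

namespace Pool.Agent.Lib.MP_745d3a_ag.GM

section

variable {K M : Type*} [Field K] [AddCommGroup M] [Module (MvPolynomial (Fin 5) K) M]
  [Module.IsReflexive (MvPolynomial (Fin 5) K) M] [Module.Finite (MvPolynomial (Fin 5) K) M]
  {w : Fin 5 → ℤ} {𝓜 : ℤ × ℤ → AddSubgroup M} [DirectSum.Decomposition 𝓜]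
  [SetLike.GradedSMul (weightedHomogeneousSubmodule K (om w)) 𝓜]

/-- A homogeneous element has a homogeneous denominator. -/
private lemma E2_hom_denom {g1 g2 : ℤ × ℤ} {m1 m2 : M} (h1 : m1 ∈ 𝓜 g1) (h2 : m2 ∈ 𝓜 g2)
    (hspan : ∀ z : M, ∃ D a b : MvPolynomial (Fin 5) K, D ≠ 0 ∧ D • z = a • m1 + b • m2)
    {g : ℤ × ℤ} {z : M} (hz : z ∈ 𝓜 g) :
    ∃ (D : MvPolynomial (Fin 5) K) (τ : ℤ × ℤ), D ≠ 0 ∧ IsWeightedHomogeneous (om w) D τ ∧
      D • z ∈ Submodule.span (MvPolynomial (Fin 5) K) ({m1, m2} : Set M) := by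
  obtain ⟨D, a, b, hD, hab⟩ := hspan z
  obtain ⟨e, he⟩ := exists_coeff_ne hD
  refine ⟨weightedHomogeneousComponent (om w) (Finsupp.weight (om w) e) D,
    Finsupp.weight (om w) e, ?_, weightedHomogeneousComponent_isWeightedHomogeneous _ _, ?_⟩
  · intro h0
    have h3 := congrArg (coeff e) h0
    rw [coeff_weightedHomogeneousComponent, if_pos rfl, coeff_zero] at h3
    exact he h3
  · have h4 := congrArg (comp 𝓜 (Finsupp.weight (om w) e + g)) hab
    rw [comp_add, comp_smul (om w) 𝓜 hz, comp_smul (om w) 𝓜 h1, comp_smul (om w) 𝓜 h2,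
      add_sub_cancel_right] at h4
    rw [h4, Submodule.mem_span_pair]
    exact ⟨_, _, rfl⟩

/-- Every element has a homogeneous denominator. -/
private lemma E2_denom {g1 g2 : ℤ × ℤ} {m1 m2 : M} (h1 : m1 ∈ 𝓜 g1) (h2 : m2 ∈ 𝓜 g2)
    (hspan : ∀ z : M, ∃ D a b : MvPolynomial (Fin 5) K, D ≠ 0 ∧ D • z = a • m1 + b • m2)
    (z : M) :
    ∃ (D : MvPolynomial (Fin 5) K) (τ : ℤ × ℤ), D ≠ 0 ∧ IsWeightedHomogeneous (om w) D τ ∧
      D • z ∈ Submodule.span (MvPolynomial (Fin 5) K) ({m1, m2} : Set M) := by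
  refine hom_induction 𝓜 (P := fun z => ∃ (D : MvPolynomial (Fin 5) K) (τ : ℤ × ℤ), D ≠ 0 ∧
      IsWeightedHomogeneous (om w) D τ ∧
      D • z ∈ Submodule.span (MvPolynomial (Fin 5) K) ({m1, m2} : Set M)) ?_ ?_ ?_ z
  · exact ⟨1, 0, one_ne_zero, isWeightedHomogeneous_one _ _, by
      rw [smul_zero]; exact Submodule.zero_mem _⟩
  · intro g m hm
    exact E2_hom_denom h1 h2 hspan hm
  · rintro m n ⟨D, τ, hD, hDh, hDm⟩ ⟨D', τ', hD', hDh', hDm'⟩
    refine ⟨D * D', τ + τ', mul_ne_zero hD hD', hDh.mul hDh', ?_⟩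
    rw [smul_add]
    refine Submodule.add_mem _ ?_ ?_
    · rw [mul_comm, mul_smul]
      exact Submodule.smul_mem _ _ hDm
    · rw [mul_smul]
      exact Submodule.smul_mem _ _ hDm'

/-- A common homogeneous denominator. -/
private lemma E2_common {g1 g2 : ℤ × ℤ} {m1 m2 : M} (h1 : m1 ∈ 𝓜 g1) (h2 : m2 ∈ 𝓜 g2)
    (hspan : ∀ z : M, ∃ D a b : MvPolynomial (Fin 5) K, D ≠ 0 ∧ D • z = a • m1 + b • m2) :
    ∃ (D : MvPolynomial (Fin 5) K) (τ : ℤ × ℤ), D ≠ 0 ∧ IsWeightedHomogeneous (om w) D τ ∧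
      ∀ z : M, D • z ∈ Submodule.span (MvPolynomial (Fin 5) K) ({m1, m2} : Set M) := by
  classical
  obtain ⟨s, hs⟩ := (Module.Finite.fg_top : (⊤ : Submodule (MvPolynomial (Fin 5) K) M).FG)
  have key : ∀ t : Finset M, ∃ (D : MvPolynomial (Fin 5) K) (τ : ℤ × ℤ), D ≠ 0 ∧
      IsWeightedHomogeneous (om w) D τ ∧
      ∀ z ∈ t, D • z ∈ Submodule.span (MvPolynomial (Fin 5) K) ({m1, m2} : Set M) := by
    intro t
    induction t using Finset.induction_on with
    | empty => exact ⟨1, 0, one_ne_zero, isWeightedHomogeneous_one _ _, by simp⟩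
    | insert x t hx ih =>
      obtain ⟨D, τ, hD, hDh, hDt⟩ := ih
      obtain ⟨D', τ', hD', hDh', hDx⟩ := E2_denom (w := w) h1 h2 hspan x
      refine ⟨D * D', τ + τ', mul_ne_zero hD hD', hDh.mul hDh', ?_⟩
      intro z hz
      rw [Finset.mem_insert] at hz
      rcases hz with hz | hz
      · rw [hz, mul_smul]
        exact Submodule.smul_mem _ _ hDx
      · rw [mul_comm, mul_smul]
        exact Submodule.smul_mem _ _ (hDt z hz)
  obtain ⟨D, τ, hD, hDh, hDs⟩ := key s
  refine ⟨D, τ, hD, hDh, ?_⟩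
  intro z
  have hz : z ∈ Submodule.span (MvPolynomial (Fin 5) K) (s : Set M) := by
    rw [hs]; exact Submodule.mem_top
  have hle : Submodule.span (MvPolynomial (Fin 5) K) (s : Set M) ≤
      (Submodule.span (MvPolynomial (Fin 5) K) ({m1, m2} : Set M)).comap
        (LinearMap.lsmul (MvPolynomial (Fin 5) K) M D) := by
    rw [Submodule.span_le]
    intro x hx
    exact hDs x hx
  exact hle hz

theorem exists_coord
    (hfree : PuncturedFree (K := K) (σ := Fin 5) M)
    (hrank : Module.finrank (MvPolynomial (Fin 5) K) M = 2) :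
    ∃ (g1 g2 τ : ℤ × ℤ) (m1 m2 : M) (D : MvPolynomial (Fin 5) K)
      (φ ψ : M →ₗ[MvPolynomial (Fin 5) K] MvPolynomial (Fin 5) K),
      m1 ∈ 𝓜 g1 ∧ m2 ∈ 𝓜 g2 ∧ D ≠ 0 ∧ IsWeightedHomogeneous (om w) D τ ∧
      (∀ a b : MvPolynomial (Fin 5) K, a • m1 + b • m2 = 0 → a = 0 ∧ b = 0) ∧
      (∀ z, D • z = φ z • m1 + ψ z • m2) ∧
      (∀ g, ∀ z ∈ 𝓜 g, IsWeightedHomogeneous (om w) (φ z) (g + τ - g1)) ∧
      (∀ g, ∀ z ∈ 𝓜 g, IsWeightedHomogeneous (om w) (ψ z) (g + τ - g2)) := by
  obtain ⟨n1, n2, H0⟩ := exists_LB (vp K (0 : Fin 5)) (hfree (vp K 0) ⟨0, X_notMem_vp 0⟩) hrank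
  obtain ⟨g1, g2, m1, hm1, m2, hm2, H⟩ := H0.homogeneous 𝓜
  have hspan : ∀ z : M, ∃ D a b : MvPolynomial (Fin 5) K, D ≠ 0 ∧ D • z = a • m1 + b • m2 := by
    intro z
    obtain ⟨D, a, b, hD, hab⟩ := H.span z
    exact ⟨D, a, b, fun h => hD (by rw [h]; exact Ideal.zero_mem _), hab⟩
  obtain ⟨D, τ, hD, hDh, hDs⟩ := E2_common (w := w) hm1 hm2 hspan
  have hco : ∀ z : M, ∃ p : MvPolynomial (Fin 5) K × MvPolynomial (Fin 5) K,
      D • z = p.1 • m1 + p.2 • m2 := by
    intro z
    obtain ⟨a, b, hab⟩ := Submodule.mem_span_pair.mp (hDs z)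
    exact ⟨(a, b), hab.symm⟩
  choose p hp using hco
  have huniq : ∀ a b a' b' : MvPolynomial (Fin 5) K, a • m1 + b • m2 = a' • m1 + b' • m2 →
      a = a' ∧ b = b' := by
    intro a b a' b' h
    have h3 : (a - a') • m1 + (b - b') • m2 = 0 := by
      have h4 : (a - a') • m1 + (b - b') • m2 =
          (a • m1 + b • m2) - (a' • m1 + b' • m2) := by
        rw [sub_smul, sub_smul]; abel
      rw [h4, h, sub_self]
    obtain ⟨h5, h6⟩ := H.ind _ _ h3
    exact ⟨sub_eq_zero.mp h5, sub_eq_zero.mp h6⟩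
  have hadd : ∀ x y : M, (p (x + y)).1 = (p x).1 + (p y).1 ∧
      (p (x + y)).2 = (p x).2 + (p y).2 := by
    intro x y
    apply huniq
    rw [← hp (x + y), smul_add, hp x, hp y, add_smul, add_smul]
    abel
  have hsm : ∀ (r : MvPolynomial (Fin 5) K) (x : M), (p (r • x)).1 = r * (p x).1 ∧
      (p (r • x)).2 = r * (p x).2 := by
    intro r x
    apply huniq
    rw [← hp (r • x), smul_comm D r x, hp x, smul_add, mul_smul, mul_smul]
  let φ : M →ₗ[MvPolynomial (Fin 5) K] MvPolynomial (Fin 5) K :=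
    { toFun := fun z => (p z).1
      map_add' := fun x y => (hadd x y).1
      map_smul' := fun r x => by simpa using (hsm r x).1 }
  let ψ : M →ₗ[MvPolynomial (Fin 5) K] MvPolynomial (Fin 5) K :=
    { toFun := fun z => (p z).2
      map_add' := fun x y => (hadd x y).2
      map_smul' := fun r x => by simpa using (hsm r x).2 }
  have hhom : ∀ g, ∀ z ∈ 𝓜 g, IsWeightedHomogeneous (om w) (p z).1 (g + τ - g1) ∧
      IsWeightedHomogeneous (om w) (p z).2 (g + τ - g2) := by
    intro g z hz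
    have h3 := smul_mem' (om w) 𝓜 hDh hz
    rw [hp z, add_comm τ g] at h3
    exact hom_of_pair (om w) 𝓜 hm1 hm2 H.ind h3
  exact ⟨g1, g2, τ, m1, m2, D, φ, ψ, hm1, hm2, hD, hDh, H.ind, hp,
    fun g z hz => (hhom g z hz).1, fun g z hz => (hhom g z hz).2⟩

end

end Pool.Agent.Lib.MP_745d3a_ag.GM

end

section

set_option autoImplicit false
set_option linter.unusedSectionVars false
set_option linter.unusedSimpArgs false
set_option linter.unusedVariables false

open MvPolynomial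

namespace Pool.Agent.Lib.MP_745d3a_ag.GM

section

variable {K M : Type*} [Field K] [AddCommGroup M] [Module (MvPolynomial (Fin 5) K) M]
  [Module.IsReflexive (MvPolynomial (Fin 5) K) M] [Module.Finite (MvPolynomial (Fin 5) K) M]
  {w : Fin 5 → ℤ} {𝓜 : ℤ × ℤ → AddSubgroup M} [DirectSum.Decomposition 𝓜]
  [SetLike.GradedSMul (weightedHomogeneousSubmodule K (om w)) 𝓜]

/-- A nonzero homogeneous alternating form satisfying the Plücker relation. -/
structure Form0 (w : Fin 5 → ℤ) (𝓜 : ℤ × ℤ → AddSubgroup M) (d : ℤ × ℤ)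
    (br : M →ₗ[MvPolynomial (Fin 5) K] M →ₗ[MvPolynomial (Fin 5) K] MvPolynomial (Fin 5) K) :
    Prop where
  alt : ∀ z, br z z = 0
  plu : ∀ a b c, br a b • c + br b c • a + br c a • b = 0
  hom : ∀ g h, ∀ a ∈ 𝓜 g, ∀ b ∈ 𝓜 h, IsWeightedHomogeneous (om w) (br a b) (g + h - d)
  ne : ∃ g h, ∃ a ∈ 𝓜 g, ∃ b ∈ 𝓜 h, br a b ≠ 0

theorem exists_form0
    (hfree : PuncturedFree (K := K) (σ := Fin 5) M)
    (hrank : Module.finrank (MvPolynomial (Fin 5) K) M = 2) :
    ∃ (d : ℤ × ℤ)
      (br : M →ₗ[MvPolynomial (Fin 5) K] M →ₗ[MvPolynomial (Fin 5) K] MvPolynomial (Fin 5) K),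
      Form0 w 𝓜 d br := by
  obtain ⟨g1, g2, τ, m1, m2, D, φ, ψ, hm1, hm2, hD0, hDh, hind, hz, hφ, hψ⟩ :=
    exists_coord (w := w) (𝓜 := 𝓜) hfree hrank
  refine ⟨g1 + g2 - 2 • τ, LinearMap.mk₂ (MvPolynomial (Fin 5) K)
    (fun u v => φ u * ψ v - φ v * ψ u) ?_ ?_ ?_ ?_, ?_⟩
  · intro a b c
    simp only [map_add]
    ring
  · intro c a b
    simp only [map_smul, smul_eq_mul]
    ring
  · intro a b c
    simp only [map_add]
    ring
  · intro c a b
    simp only [map_smul, smul_eq_mul]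
    ring
  refine ⟨?_, ?_, ?_, ?_⟩
  · intro z
    simp only [LinearMap.mk₂_apply]
    ring
  · intro a b c
    simp only [LinearMap.mk₂_apply]
    refine (torsionfree_of_reflexive D _ ?_).resolve_left hD0
    have h1 : D • ((φ a * ψ b - φ b * ψ a) • c + (φ b * ψ c - φ c * ψ b) • a +
        (φ c * ψ a - φ a * ψ c) • b) =
        (φ a * ψ b - φ b * ψ a) • (D • c) + (φ b * ψ c - φ c * ψ b) • (D • a) +
        (φ c * ψ a - φ a * ψ c) • (D • b) := by
      rw [smul_add, smul_add, smul_comm D, smul_comm D, smul_comm D]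
    rw [h1, hz a, hz b, hz c]
    module
  · intro g h a ha b hb
    simp only [LinearMap.mk₂_apply]
    have e1 : g + h - (g1 + g2 - 2 • τ) = (g + τ - g1) + (h + τ - g2) := by
      rw [two_smul]; abel
    have e2 : g + h - (g1 + g2 - 2 • τ) = (h + τ - g1) + (g + τ - g2) := by
      rw [two_smul]; abel
    refine Submodule.sub_mem (weightedHomogeneousSubmodule K (om w) _) ?_ ?_
    · rw [e1]
      exact (hφ g a ha).mul (hψ h b hb)
    · rw [e2]
      exact (hφ h b hb).mul (hψ g a ha)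
  · refine ⟨g1, g2, m1, hm1, m2, hm2, ?_⟩
    simp only [LinearMap.mk₂_apply]
    have h1 := hz m1
    have h2 := hz m2
    have k1 := hind (φ m1 - D) (ψ m1) (by
      rw [sub_smul, h1]; abel)
    have k2 := hind (φ m2) (ψ m2 - D) (by
      rw [sub_smul, h2]; abel)
    have a1 : φ m1 = D := sub_eq_zero.1 k1.1
    have a2 : ψ m2 = D := sub_eq_zero.1 k2.2
    rw [a1, a2, k2.1, zero_mul, sub_zero]
    exact mul_ne_zero hD0 hD0

end

end Pool.Agent.Lib.MP_745d3a_ag.GM

end

section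

set_option autoImplicit false
set_option linter.unusedSectionVars false
set_option linter.unusedSimpArgs false
set_option linter.unusedVariables false

open MvPolynomial

namespace Pool.Agent.Lib.MP_745d3a_ag.GM

section

variable {K M : Type*} [Field K] [AddCommGroup M] [Module (MvPolynomial (Fin 5) K) M]
  [Module.IsReflexive (MvPolynomial (Fin 5) K) M] [Module.Finite (MvPolynomial (Fin 5) K) M]
  {w : Fin 5 → ℤ} {𝓜 : ℤ × ℤ → AddSubgroup M} [DirectSum.Decomposition 𝓜]
  [SetLike.GradedSMul (weightedHomogeneousSubmodule K (om w)) 𝓜]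

theorem Form0.div {d : ℤ × ℤ}
    {br : M →ₗ[MvPolynomial (Fin 5) K] M →ₗ[MvPolynomial (Fin 5) K] MvPolynomial (Fin 5) K}
    (F : Form0 w 𝓜 d br) {q : MvPolynomial (Fin 5) K} (hq0 : q ≠ 0) {τ : ℤ × ℤ}
    (hq : IsWeightedHomogeneous (om w) q τ) (hdvd : ∀ u v, q ∣ br u v) :
    ∃ br' : M →ₗ[MvPolynomial (Fin 5) K] M →ₗ[MvPolynomial (Fin 5) K] MvPolynomial (Fin 5) K,
      Form0 w 𝓜 (d + τ) br' ∧ ∀ u v, br u v = q * br' u v := by
  classical
  choose c hc using hdvd
  have hinj : ∀ {a b : MvPolynomial (Fin 5) K}, q * a = q * b → a = b :=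
    fun h => mul_left_cancel₀ hq0 h
  let br' : M →ₗ[MvPolynomial (Fin 5) K] M →ₗ[MvPolynomial (Fin 5) K] MvPolynomial (Fin 5) K :=
    LinearMap.mk₂ _ c
      (fun u u' v => hinj (by rw [← hc, mul_add, ← hc, ← hc, map_add, LinearMap.add_apply]))
      (fun s u v => hinj (by
        rw [← hc, map_smul, LinearMap.smul_apply, hc, smul_eq_mul, smul_eq_mul]; ring))
      (fun u v v' => hinj (by rw [← hc, mul_add, ← hc, ← hc, map_add]))
      (fun s u v => hinj (by rw [← hc, map_smul, hc, smul_eq_mul, smul_eq_mul]; ring))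
  have hbr : ∀ u v, br u v = q * br' u v := fun u v => hc u v
  refine ⟨br', ⟨?_, ?_, ?_, ?_⟩, hbr⟩
  · intro z
    apply hinj
    rw [← hbr, F.alt, mul_zero]
  · intro a b c'
    have h := F.plu a b c'
    rw [hbr, hbr, hbr, mul_smul, mul_smul, mul_smul, ← smul_add, ← smul_add] at h
    exact (torsionfree_of_reflexive _ _ h).resolve_left hq0
  · intro g h a ha b hb
    have h1 := F.hom g h a ha b hb
    have h2 := wHC_mul_right (F := br' a b) hq (g + h - (d + τ))
    have h3 : g + h - (d + τ) + τ = g + h - d := by abel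
    rw [h3, mul_comm (br' a b) q, ← hbr] at h2
    have h4 : weightedHomogeneousComponent (om w) (g + h - d) (br a b) = br a b := by
      rw [weightedHomogeneousComponent_of_mem (m := g + h - d) (n := g + h - d)
        ((mem_weightedHomogeneousSubmodule K (om w) _ _).mpr h1), if_pos rfl]
    rw [h4, hbr] at h2
    have h5 : br' a b = weightedHomogeneousComponent (om w) (g + h - (d + τ)) (br' a b) :=
      hinj (by rw [h2, mul_comm])
    rw [h5]
    exact weightedHomogeneousComponent_isWeightedHomogeneous _ _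
  · obtain ⟨g, h, a, ha, b, hb, hne⟩ := F.ne
    exact ⟨g, h, a, ha, b, hb, fun h0 => hne (by rw [hbr, h0, mul_zero])⟩

end

end Pool.Agent.Lib.MP_745d3a_ag.GM

end

section

set_option autoImplicit false
set_option linter.unusedSectionVars false
set_option linter.unusedSimpArgs false
set_option linter.unusedVariables false

open MvPolynomial

namespace Pool.Agent.Lib.MP_745d3a_ag.GM

private lemma E5_isUnit {K : Type*} [Field K] {p : MvPolynomial (Fin 5) K} (hp : p ≠ 0)
    (h : p.totalDegree = 0) : IsUnit p := by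
  rw [isUnit_iff_eq_C_of_isReduced]
  have h1 := totalDegree_eq_zero_iff_eq_C.mp h
  refine ⟨coeff 0 p, ?_, h1⟩
  rw [isUnit_iff_ne_zero]
  intro h2
  rw [h2, C_0] at h1
  exact hp h1

section

variable {K M : Type*} [Field K] [AddCommGroup M] [Module (MvPolynomial (Fin 5) K) M]
  [Module.IsReflexive (MvPolynomial (Fin 5) K) M] [Module.Finite (MvPolynomial (Fin 5) K) M]
  {w : Fin 5 → ℤ} {𝓜 : ℤ × ℤ → AddSubgroup M} [DirectSum.Decomposition 𝓜]
  [SetLike.GradedSMul (weightedHomogeneousSubmodule K (om w)) 𝓜]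

private lemma E5_dvd {d : ℤ × ℤ}
    {br : M →ₗ[MvPolynomial (Fin 5) K] M →ₗ[MvPolynomial (Fin 5) K] MvPolynomial (Fin 5) K}
    {q' : MvPolynomial (Fin 5) K}
    (h : ∀ g1 g2, ∀ u ∈ 𝓜 g1, ∀ v ∈ 𝓜 g2, q' ∣ br u v) (u v : M) : q' ∣ br u v := by
  obtain ⟨s, hs, -⟩ := eq_sum_comp 𝓜 u
  obtain ⟨t, ht, -⟩ := eq_sum_comp 𝓜 v
  rw [hs, map_sum, LinearMap.sum_apply]
  refine Finset.dvd_sum fun g1 _ => ?_
  rw [ht, map_sum]
  refine Finset.dvd_sum fun g2 _ => ?_
  exact h g1 g2 _ (comp_mem 𝓜 g1 u) _ (comp_mem 𝓜 g2 v)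

private lemma E5_key {g h : ℤ × ℤ} {a b : M} (ha : a ∈ 𝓜 g) (hb : b ∈ 𝓜 h) (n : ℕ) :
    ∀ (d : ℤ × ℤ)
      (br : M →ₗ[MvPolynomial (Fin 5) K] M →ₗ[MvPolynomial (Fin 5) K] MvPolynomial (Fin 5) K),
      Form0 w 𝓜 d br → br a b ≠ 0 → (br a b).totalDegree = n →
    ∃ (d : ℤ × ℤ)
      (br : M →ₗ[MvPolynomial (Fin 5) K] M →ₗ[MvPolynomial (Fin 5) K] MvPolynomial (Fin 5) K),
      Form0 w 𝓜 d br ∧ ∀ q, (∀ u v, q ∣ br u v) → IsUnit q := by
  induction n using Nat.strong_induction_on with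
  | _ n ih =>
    intro d br F hne hn
    by_cases hp : ∀ q, (∀ u v, q ∣ br u v) → IsUnit q
    · exact ⟨d, br, F, hp⟩
    push Not at hp
    obtain ⟨q, hdvd, hnu⟩ := hp
    have hq0 : q ≠ 0 := by
      rintro rfl
      exact hne (zero_dvd_iff.1 (hdvd a b))
    obtain ⟨q', hnu', hq0', ⟨τ, hτ⟩, hdiv⟩ := top_dvd w hnu hq0
    have hdvd' : ∀ u v, q' ∣ br u v := by
      apply E5_dvd (𝓜 := 𝓜) (d := d)
      intro g1 g2 u hu v hv
      exact hdiv _ _ (F.hom g1 g2 u hu v hv) (hdvd u v)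
    obtain ⟨br', F', heq⟩ := F.div hq0' hτ hdvd'
    have hne' : br' a b ≠ 0 := by
      intro h0
      apply hne
      rw [heq, h0, mul_zero]
    have hdeg : (br a b).totalDegree = q'.totalDegree + (br' a b).totalDegree := by
      rw [heq a b, totalDegree_mul_of_isDomain hq0' hne']
    have hpos : q'.totalDegree ≠ 0 := fun h0 => hnu' (E5_isUnit hq0' h0)
    exact ih (br' a b).totalDegree (by omega) _ br' F' hne' rfl

theorem exists_prim
    (hfree : PuncturedFree (K := K) (σ := Fin 5) M)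
    (hrank : Module.finrank (MvPolynomial (Fin 5) K) M = 2) :
    ∃ (d : ℤ × ℤ)
      (br : M →ₗ[MvPolynomial (Fin 5) K] M →ₗ[MvPolynomial (Fin 5) K] MvPolynomial (Fin 5) K),
      Form0 w 𝓜 d br ∧ ∀ q, (∀ u v, q ∣ br u v) → IsUnit q := by
  obtain ⟨d, br, F⟩ := exists_form0 (w := w) (𝓜 := 𝓜) hfree hrank
  obtain ⟨g, h, a, ha, b, hb, hne⟩ := F.ne
  exact E5_key ha hb _ d br F hne rfl

end

end Pool.Agent.Lib.MP_745d3a_ag.GM

end

section

set_option autoImplicit false
set_option linter.unusedSectionVars false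
set_option linter.unusedSimpArgs false
set_option linter.unusedVariables false

open MvPolynomial

namespace Pool.Agent.Lib.MP_745d3a_ag.GM

section

variable {K M : Type*} [Field K] [AddCommGroup M] [Module (MvPolynomial (Fin 5) K) M]
  [Module.IsReflexive (MvPolynomial (Fin 5) K) M] [Module.Finite (MvPolynomial (Fin 5) K) M]
  {w : Fin 5 → ℤ} {𝓜 : ℤ × ℤ → AddSubgroup M} [DirectSum.Decomposition 𝓜]
  [SetLike.GradedSMul (weightedHomogeneousSubmodule K (om w)) 𝓜]

theorem Form0.local_unit {d : ℤ × ℤ}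
    {br : M →ₗ[MvPolynomial (Fin 5) K] M →ₗ[MvPolynomial (Fin 5) K] MvPolynomial (Fin 5) K}
    (F : Form0 w 𝓜 d br) (prim : ∀ q, (∀ u v, q ∣ br u v) → IsUnit q)
    {p : Ideal (MvPolynomial (Fin 5) K)} [p.IsPrime] {m1 m2 : M} (H : LB p m1 m2) :
    br m1 m2 ∉ p := by
  have hskew : ∀ u v, br v u = - br u v := by
    intro u v
    have h := F.alt (u + v)
    simp only [map_add, LinearMap.add_apply, F.alt u, F.alt v] at h
    linear_combination h
  have hp1 : (1 : MvPolynomial (Fin 5) K) ∉ p := fun h =>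
    Ideal.IsPrime.ne_top inferInstance ((Ideal.eq_top_iff_one p).mpr h)
  have key : ∀ u v, ∃ D D' c : MvPolynomial (Fin 5) K, D ∉ p ∧ D' ∉ p ∧
      D * D' * br u v = c * br m1 m2 := by
    intro u v
    obtain ⟨D, a, b, hD, h⟩ := H.span u
    obtain ⟨D', a', b', hD', h'⟩ := H.span v
    refine ⟨D, D', a * b' - b * a', hD, hD', ?_⟩
    have h1 : br (D • u) (D' • v) = D * D' * br u v := by
      simp only [map_smul, LinearMap.smul_apply, smul_eq_mul]
      ring
    rw [← h1, h, h']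
    simp only [map_add, LinearMap.add_apply, map_smul, LinearMap.smul_apply, F.alt m1,
      F.alt m2, hskew m1 m2, smul_eq_mul]
    ring
  intro he
  have he0 : br m1 m2 ≠ 0 := by
    intro h0
    obtain ⟨g, h, a, ha, b, hb, hab⟩ := F.ne
    obtain ⟨D, D', c, hD, hD', hc⟩ := key a b
    rw [h0, mul_zero] at hc
    have hD0 : D ≠ 0 := fun h' => hD (h' ▸ p.zero_mem)
    have hD0' : D' ≠ 0 := fun h' => hD' (h' ▸ p.zero_mem)
    exact (mul_ne_zero (mul_ne_zero hD0 hD0') hab) hc
  obtain ⟨f, hf, hfe⟩ := WfDvdMonoid.exists_factors (br m1 m2) he0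
  have hprod : f.prod ∈ p := (Ideal.mem_of_dvd p hfe.symm.dvd he)
  obtain ⟨π, hπf, hπp⟩ :=
    (Ideal.IsPrime.multiset_prod_mem_iff_exists_mem inferInstance f).mp hprod
  have hπ : Prime π := UniqueFactorizationMonoid.irreducible_iff_prime.mp (hf π hπf)
  have hπe : π ∣ br m1 m2 := (Multiset.dvd_prod hπf).trans hfe.dvd
  have hall : ∀ u v, π ∣ br u v := by
    intro u v
    obtain ⟨D, D', c, hD, hD', hc⟩ := key u v
    have h1 : π ∣ D * D' * br u v := by
      rw [hc]
      exact hπe.mul_left c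
    rcases hπ.dvd_or_dvd h1 with h2 | h2
    · rcases hπ.dvd_or_dvd h2 with h3 | h3
      · exact absurd (Ideal.mem_of_dvd p h3 hπp) hD
      · exact absurd (Ideal.mem_of_dvd p h3 hπp) hD'
    · exact h2
  exact hπ.not_isUnit (prim π hall)

end

end Pool.Agent.Lib.MP_745d3a_ag.GM

end

section

set_option autoImplicit false
set_option linter.unusedSectionVars false
set_option linter.unusedSimpArgs false
set_option linter.unusedVariables false

open MvPolynomial

namespace Pool.Agent.Lib.MP_745d3a_ag.GM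

section

variable {K M : Type*} [Field K] [AddCommGroup M] [Module (MvPolynomial (Fin 5) K) M]
  [Module.IsReflexive (MvPolynomial (Fin 5) K) M] [Module.Finite (MvPolynomial (Fin 5) K) M]
  {w : Fin 5 → ℤ} {𝓜 : ℤ × ℤ → AddSubgroup M} [DirectSum.Decomposition 𝓜]
  [SetLike.GradedSMul (weightedHomogeneousSubmodule K (om w)) 𝓜]

theorem exists_pairing
    (hfree : PuncturedFree (K := K) (σ := Fin 5) M)
    (hrank : Module.finrank (MvPolynomial (Fin 5) K) M = 2) :
    ∃ (d : ℤ × ℤ)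
      (br : M →ₗ[MvPolynomial (Fin 5) K] M →ₗ[MvPolynomial (Fin 5) K] MvPolynomial (Fin 5) K),
      Pairing w 𝓜 d br := by
  obtain ⟨d, br, F, prim⟩ := exists_prim (w := w) (𝓜 := 𝓜) hfree hrank
  refine ⟨d, br, F.alt, F.plu, F.hom, fun c => ?_⟩
  by_contra hcon
  push Not at hcon
  have hdisj : Disjoint ((Ideal.span {p : MvPolynomial (Fin 5) K | ∃ a b, br a b = p} :
      Ideal (MvPolynomial (Fin 5) K)) : Set (MvPolynomial (Fin 5) K))
      ((Submonoid.powers (X c : MvPolynomial (Fin 5) K)) : Set (MvPolynomial (Fin 5) K)) := by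
    rw [Set.disjoint_left]
    rintro z hz ⟨N, rfl⟩
    exact hcon N hz
  obtain ⟨p, hp, hIp, hpd⟩ := Ideal.exists_le_prime_disjoint _ _ hdisj
  have hXc : (X c : MvPolynomial (Fin 5) K) ∉ p := fun h =>
    Set.disjoint_left.1 hpd h ⟨1, pow_one _⟩
  obtain ⟨m1, m2, H⟩ := exists_LB p (hfree p ⟨c, hXc⟩) hrank
  exact F.local_unit prim H (hIp (Ideal.subset_span ⟨m1, m2, rfl⟩))

end

end Pool.Agent.Lib.MP_745d3a_ag.GM

end
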