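import Pool.Agent.Lib.MP_745d3a_ag.GM.Law
import Pool.Agent.Lib.MP_745d3a_ag.GM.Cases
import Pool.Agent.Lib.MP_745d3a_ag.GM.Dbl
import Pool.Agent.Lib.MP_745d3a_ag.GM.Axis
import Pool.Agent.Lib.MP_745d3a_ag.GM.Fin
import Pool.Agent.Lib.MP_745d3a_ag.GM.Form
import Pool.Agent.Lib.MP_745d3a_ag.Geometry

/-!
The theorem for graded modules.
-/

section

set_option autoImplicit false
set_option linter.unusedSectionVars false
set_option linter.unusedSimpArgs false
set_option linter.unusedVariables false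

open MvPolynomial

namespace Pool.Agent.Lib.MP_745d3a_ag.GM

section

variable {M : Type*} [AddCommGroup M]
  [Module (MvPolynomial (Fin 5) ℂ) M]
  [Module.IsReflexive (MvPolynomial (Fin 5) ℂ) M] [Module.Finite (MvPolynomial (Fin 5) ℂ) M]
  {w : Fin 5 → ℤ} {𝓜 : ℤ × ℤ → AddSubgroup M} [DirectSum.Decomposition 𝓜]
  [SetLike.GradedSMul (weightedHomogeneousSubmodule ℂ (om w)) 𝓜]
  {d : ℤ × ℤ}
  {br : M →ₗ[MvPolynomial (Fin 5) ℂ] M →ₗ[MvPolynomial (Fin 5) ℂ] MvPolynomial (Fin 5) ℂ}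

private theorem Main_simple (P : Pairing w 𝓜 d br)
    (hfree : PuncturedFree (K := ℂ) (σ := Fin 5) M)
    (hrank : Module.finrank (MvPolynomial (Fin 5) ℂ) M = 2) {l : ℚ × ℚ} (L : Law w 𝓜 d br l)
    {s t : Fin 5} (hs : Ext w 1 s) (ht : Ext w (-1) t) (hst : s ≠ t) :
    Module.Free (MvPolynomial (Fin 5) ℂ) M := by
  rcases simple_reduce P L hs ht hst with h | ⟨l, ζ, σ, u, v, L', Gs, Gt, hu, hv, h1, h2⟩
  · exact h
  · obtain ⟨N, μs, μt, Δ, _, Q, hred, hhom⟩ := exists_pres' P hst Gs Gt 0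
    obtain ⟨p, q, n, V⟩ := exists_vdat P L' hfree hrank hs ht hst Gs Gt hu hv h1 h2 Q hred hhom
    exact (vdat_false V).elim

end

private theorem Main_three {M : Type*} [AddCommGroup M] [Module (MvPolynomial (Fin 5) ℂ) M]
    [Module.IsReflexive (MvPolynomial (Fin 5) ℂ) M] [Module.Finite (MvPolynomial (Fin 5) ℂ) M]
    {w : Fin 5 → ℤ} (𝓜 : ℤ × ℤ → AddSubgroup M) [DirectSum.Decomposition 𝓜]
    [SetLike.GradedSMul (weightedHomogeneousSubmodule ℂ (om w)) 𝓜]
    (hfree : PuncturedFree (K := ℂ) (σ := Fin 5) M)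
    (hrank : Module.finrank (MvPolynomial (Fin 5) ℂ) M = 2)
    {e : ℤ} {a b c z : Fin 5} (hab : a ≠ b) (hac : a ≠ c) (hbc : b ≠ c)
    (he : ∀ x, 0 ≤ e * (w x - w a)) (hb : w b = w a) (hc : w c = w a)
    (hz : e * (w z - w a) ≠ 0) :
    Module.Free (MvPolynomial (Fin 5) ℂ) M := by
  classical
  have hη : ∀ x, (e • (AddMonoidHom.snd ℤ ℤ - w a • AddMonoidHom.fst ℤ ℤ)) (om w x) =
      e * (w x - w a) := by
    intro x
    simp [om]
  refine free_of_three (K := ℂ) (ω := om w) (𝓜 := 𝓜) (δ := AddMonoidHom.fst ℤ ℤ)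
    (η := e • (AddMonoidHom.snd ℤ ℤ - w a • AddMonoidHom.fst ℤ ℤ)) ?_ ?_ hfree hrank
    hab hac hbc (z := z) ?_ ?_ ?_ ?_
  · intro x
    rw [hη]
    exact he x
  · intro x
    simp [om]
  · rw [hη]
    simp
  · rw [hη, hb]
    simp
  · rw [hη, hc]
    simp
  · rw [hη]
    exact hz

theorem gm_free (w : Fin 5 → ℤ) (hw : ∃ i j, w i ≠ w j)
    {M : Type*} [AddCommGroup M] [Module (MvPolynomial (Fin 5) ℂ) M]
    [Module.Finite (MvPolynomial (Fin 5) ℂ) M] [Module.IsReflexive (MvPolynomial (Fin 5) ℂ) M]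
    (hrank : Module.finrank (MvPolynomial (Fin 5) ℂ) M = 2)
    (hfree : PuncturedFree (K := ℂ) (σ := Fin 5) M)
    (𝓜 : ℤ × ℤ → AddSubgroup M) [DirectSum.Decomposition 𝓜]
    [SetLike.GradedSMul (weightedHomogeneousSubmodule ℂ (om w)) 𝓜] :
    Module.Free (MvPolynomial (Fin 5) ℂ) M := by
  classical
  let _ : Module ℂ M := Module.compHom M (algebraMap ℂ (MvPolynomial (Fin 5) ℂ))
  have _ : IsScalarTower ℂ (MvPolynomial (Fin 5) ℂ) M :=
    ⟨fun x y z => by rw [Algebra.smul_def, mul_smul]; rfl⟩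
  obtain ⟨s, hs⟩ := Finite.exists_min w
  obtain ⟨t, ht⟩ := Finite.exists_max w
  have hlt : w s < w t := by
    obtain ⟨i, j, hij⟩ := hw
    rcases lt_or_gt_of_ne hij with h | h
    · exact lt_of_le_of_lt (hs i) (lt_of_lt_of_le h (ht j))
    · exact lt_of_le_of_lt (hs j) (lt_of_lt_of_le h (ht i))
  have hst : s ≠ t := fun h => hlt.ne (by rw [h])
  by_cases hA : ∃ a b c, a ≠ b ∧ a ≠ c ∧ b ≠ c ∧ w a = w s ∧ w b = w s ∧ w c = w s
  · obtain ⟨a, b, c, hab, hac, hbc, ha, hb, hc⟩ := hA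
    refine Main_three 𝓜 hfree hrank (e := 1) (z := t) hab hac hbc ?_ (hb.trans ha.symm)
      (hc.trans ha.symm) ?_
    · intro x
      have := hs x
      rw [ha]
      linarith
    · rw [ha]
      intro h'
      have := hlt
      linarith
  by_cases hB : ∃ a b c, a ≠ b ∧ a ≠ c ∧ b ≠ c ∧ w a = w t ∧ w b = w t ∧ w c = w t
  · obtain ⟨a, b, c, hab, hac, hbc, ha, hb, hc⟩ := hB
    refine Main_three 𝓜 hfree hrank (e := -1) (z := s) hab hac hbc ?_ (hb.trans ha.symm)
      (hc.trans ha.symm) ?_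
    · intro x
      have := ht x
      rw [ha]
      linarith
    · rw [ha]
      intro h'
      have := hlt
      linarith
  have h3 : ∃ a b c, w a ≠ w b ∧ w b ≠ w c ∧ w a ≠ w c := by
    by_contra hcon
    push Not at hcon
    have hall : ∀ c, w c = w s ∨ w c = w t := by
      intro c
      by_contra h
      push Not at h
      exact h.1 (hcon s t c hlt.ne h.2.symm).symm
    have hcard := Finset.card_filter_add_card_filter_not (s := (Finset.univ : Finset (Fin 5)))
      (fun c => w c = w s)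
    rw [Finset.card_univ, Fintype.card_fin] at hcard
    rcases Nat.lt_or_ge 2 (Finset.univ.filter (fun c => w c = w s)).card with h | h
    · obtain ⟨a, b, c, ha, hb, hc, hab, hac, hbc⟩ := Finset.two_lt_card_iff.mp h
      rw [Finset.mem_filter] at ha hb hc
      exact hA ⟨a, b, c, hab, hac, hbc, ha.2, hb.2, hc.2⟩
    · have h' : 2 < (Finset.univ.filter (fun c => ¬ w c = w s)).card := by omega
      obtain ⟨a, b, c, ha, hb, hc, hab, hac, hbc⟩ := Finset.two_lt_card_iff.mp h'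
      rw [Finset.mem_filter] at ha hb hc
      exact hB ⟨a, b, c, hab, hac, hbc, (hall a).resolve_left ha.2, (hall b).resolve_left hb.2,
        (hall c).resolve_left hc.2⟩
  obtain ⟨d, br, P⟩ := exists_pairing (K := ℂ) (w := w) (𝓜 := 𝓜) hfree hrank
  obtain ⟨l, L⟩ := exists_law P h3
  by_cases hD : ∃ s', s ≠ s' ∧ w s = w s'
  · obtain ⟨s', hss, hws⟩ := hD
    refine double_case P hfree hrank L (e := 1) hss hws ?_
    intro a ha ha'
    have h1 := hs a
    have h2 : w s ≠ w a := fun h => hA ⟨s, s', a, hss, ha.symm, ha'.symm, rfl, hws.symm, h.symm⟩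
    have h3' : w s < w a := lt_of_le_of_ne h1 h2
    linarith
  by_cases hD' : ∃ t', t ≠ t' ∧ w t = w t'
  · obtain ⟨t', htt, hwt⟩ := hD'
    refine double_case P hfree hrank L (e := -1) htt hwt ?_
    intro a ha ha'
    have h1 := ht a
    have h2 : w a ≠ w t := fun h => hB ⟨t, t', a, htt, ha.symm, ha'.symm, rfl, hwt.symm, h⟩
    have h3' : w a < w t := lt_of_le_of_ne h1 h2
    linarith
  refine Main_simple P hfree hrank L (s := s) (t := t) ?_ ?_ hst
  · intro a ha
    have h1 := hs a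
    have h2 : w s ≠ w a := fun h => hD ⟨a, ha.symm, h⟩
    have h3' : w s < w a := lt_of_le_of_ne h1 h2
    linarith
  · intro a ha
    have h1 := ht a
    have h2 : w a ≠ w t := fun h => hD' ⟨a, ha.symm, h.symm⟩
    have h3' : w a < w t := lt_of_le_of_ne h1 h2
    linarith

end Pool.Agent.Lib.MP_745d3a_ag.GM

end
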