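import Pool.Agent.Lib.MP_745d3a_ag.GM.Defs

/-!
Iterated differences, Hilbert-Serre.
-/

section

namespace Pool.Agent.Lib.MP_745d3a_ag.GM

open Module

variable {K V W : Type*} [Field K] [AddCommGroup V] [Module K V] [AddCommGroup W] [Module K W]

lemma finrank_map_add (U : Submodule K V) [FiniteDimensional K U] (f : V →ₗ[K] W) :
    finrank K (U.map f) + finrank K (U ⊓ LinearMap.ker f : Submodule K V) = finrank K U := by
  have h1 := LinearMap.finrank_range_add_finrank_ker (f.domRestrict U)
  have h2 : LinearMap.range (f.domRestrict U) = U.map f := by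
    ext w
    simp
  have h3 : (LinearMap.ker (f.domRestrict U)).map U.subtype = U ⊓ LinearMap.ker f := by
    ext v
    simp only [Submodule.mem_map, LinearMap.mem_ker, Submodule.mem_inf, Submodule.subtype_apply]
    constructor
    · rintro ⟨y, hy, rfl⟩
      exact ⟨y.2, hy⟩
    · rintro ⟨hv, hf⟩
      exact ⟨⟨v, hv⟩, hf, rfl⟩
  rw [h2] at h1
  rw [← h3, Submodule.finrank_map_subtype_eq]
  exact h1

/-- The dimension formula for the operator `f` between `A / B` and `_ / B₁`. -/
lemma dim_key (A B₁ : Submodule K V) [FiniteDimensional K A] [FiniteDimensional K B₁]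
    (f : V →ₗ[K] V) :
    finrank K (B₁ ⊔ A.map f : Submodule K V) + finrank K (A ⊓ B₁.comap f : Submodule K V) =
      finrank K A + finrank K B₁ := by
  have h1 := finrank_map_add A (B₁.mkQ ∘ₗ f)
  have h2 := finrank_map_add (B₁ ⊔ A.map f) B₁.mkQ
  have h3 : LinearMap.ker (B₁.mkQ ∘ₗ f) = B₁.comap f := by
    rw [LinearMap.ker_comp, Submodule.ker_mkQ]
  have h4 : (B₁ ⊔ A.map f).map B₁.mkQ = A.map (B₁.mkQ ∘ₗ f) := by
    rw [Submodule.map_sup, Submodule.map_comp]
    have : B₁.map B₁.mkQ = ⊥ := by simp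
    rw [this, bot_sup_eq]
  have h5 : (B₁ ⊔ A.map f) ⊓ LinearMap.ker B₁.mkQ = B₁ := by
    rw [Submodule.ker_mkQ]
    exact inf_eq_right.mpr le_sup_left
  rw [h3] at h1
  rw [h4, h5] at h2
  omega

end Pool.Agent.Lib.MP_745d3a_ag.GM

end

section

set_option autoImplicit false
set_option linter.unusedSectionVars false
set_option linter.unusedSimpArgs false
set_option linter.unusedVariables false

open MvPolynomial

namespace Pool.Agent.Lib.MP_745d3a_ag.GM

lemma Nab_empty (w : Fin 5 → ℤ) (f : ℤ × ℤ → ℤ) : Nab w ∅ f = f := by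
  funext g
  simp [Nab, chi]

lemma Nab_insert (w : Fin 5 → ℤ) {a : Fin 5} {A : Finset (Fin 5)} (ha : a ∉ A)
    (f : ℤ × ℤ → ℤ) (g : ℤ × ℤ) :
    Nab w (insert a A) f g = Nab w A f g - Nab w A f (g - om w a) := by
  unfold Nab
  rw [Finset.sum_powerset_insert ha, sub_eq_add_neg, ← Finset.sum_neg_distrib]
  congr 1
  apply Finset.sum_congr rfl
  intro U hU
  have haU : a ∉ U := fun h => ha (Finset.mem_powerset.1 hU h)
  have h1 : chi w (insert a U) = om w a + chi w U := by
    unfold chi
    rw [Finset.sum_insert haU]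
  rw [h1, Finset.card_insert_of_notMem haU, pow_succ, ← sub_sub]
  ring

lemma Nab_sub (w : Fin 5 → ℤ) (A : Finset (Fin 5)) (f f' : ℤ × ℤ → ℤ) :
    Nab w A (fun g => f g - f' g) = fun g => Nab w A f g - Nab w A f' g := by
  funext g
  unfold Nab
  rw [← Finset.sum_sub_distrib]
  apply Finset.sum_congr rfl
  intro U _
  ring

lemma Nab_shift (w : Fin 5 → ℤ) (A : Finset (Fin 5)) (f : ℤ × ℤ → ℤ) (τ : ℤ × ℤ) :
    Nab w A (fun g => f (g - τ)) = fun g => Nab w A f (g - τ) := by
  funext g
  unfold Nab
  apply Finset.sum_congr rfl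
  intro U _
  rw [sub_right_comm]

lemma Nab_insert' (w : Fin 5 → ℤ) {a : Fin 5} {A : Finset (Fin 5)} (ha : a ∉ A)
    (f : ℤ × ℤ → ℤ) :
    Nab w (insert a A) f = Nab w A (fun g => f g - f (g - om w a)) := by
  rw [Nab_sub, Nab_shift]
  funext g
  exact Nab_insert w ha f g

lemma Nab_erase (w : Fin 5 → ℤ) {a : Fin 5} {A : Finset (Fin 5)} (ha : a ∈ A)
    (f : ℤ × ℤ → ℤ) (g : ℤ × ℤ) :
    Nab w A f g = Nab w (A.erase a) f g - Nab w (A.erase a) f (g - om w a) := by
  conv_lhs => rw [← Finset.insert_erase ha]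
  exact Nab_insert w (Finset.notMem_erase a A) f g

lemma Nab_add (w : Fin 5 → ℤ) (A : Finset (Fin 5)) (f f' : ℤ × ℤ → ℤ) :
    Nab w A (fun g => f g + f' g) = fun g => Nab w A f g + Nab w A f' g := by
  funext g
  unfold Nab
  rw [← Finset.sum_add_distrib]
  apply Finset.sum_congr rfl
  intro U _
  ring

end Pool.Agent.Lib.MP_745d3a_ag.GM

end

section

set_option autoImplicit false
set_option linter.unusedSectionVars false
set_option linter.unusedSimpArgs false
set_option linter.unusedVariables false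

open MvPolynomial

namespace Pool.Agent.Lib.MP_745d3a_ag.GM

section hs

variable {K V : Type*} [Field K] [AddCommGroup V] [Module K V]

/-- Stable families. -/
def StabG (w : Fin 5 → ℤ) (A : Finset (Fin 5)) (X : Fin 5 → V →ₗ[K] V)
    (C : ℤ × ℤ → Submodule K V) : Prop :=
  ∀ a ∈ A, ∀ g, ∀ v ∈ C g, X a v ∈ C (g + om w a)

/-- The ascending chain condition for stable families between `B` and `T`. -/
def AccG (w : Fin 5 → ℤ) (A : Finset (Fin 5)) (X : Fin 5 → V →ₗ[K] V)
    (B T : ℤ × ℤ → Submodule K V) : Prop :=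
  ∀ C : ℕ → ℤ × ℤ → Submodule K V, (∀ m g, C m g ≤ C (m + 1) g) →
    (∀ m, (∀ g, B g ≤ C m g) ∧ (∀ g, C m g ≤ T g) ∧ StabG w A X (C m)) →
    ∃ m, ∀ m', m ≤ m' → ∀ g, C m' g = C m g

lemma H2_mono {w : Fin 5 → ℤ} {A A' : Finset (Fin 5)} {X : Fin 5 → V →ₗ[K] V}
    {B T B' T' : ℤ × ℤ → Submodule K V} (h : AccG w A X B T) (hB : ∀ g, B g ≤ B' g)
    (hT : ∀ g, T' g ≤ T g)
    (hs : ∀ C : ℤ × ℤ → Submodule K V, (∀ g, B' g ≤ C g) → (∀ g, C g ≤ T' g) →
      StabG w A' X C → StabG w A X C) :
    AccG w A' X B' T' := by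
  intro C hC h1
  exact h C hC fun m => ⟨fun g => (hB g).trans ((h1 m).1 g), fun g => ((h1 m).2.1 g).trans (hT g),
    hs _ (h1 m).1 (h1 m).2.1 (h1 m).2.2⟩

lemma H2_base (w : Fin 5 → ℤ) (X : Fin 5 → V →ₗ[K] V)
    (B T : ℤ × ℤ → Submodule K V) (hBT : ∀ g, B g ≤ T g) (hacc : AccG w ∅ X B T) :
    (Function.support (fun g => (Module.finrank K (T g) : ℤ) -
      (Module.finrank K (B g) : ℤ))).Finite := by
  classical
  by_contra hinf
  have hinf' : (Function.support (fun g => (Module.finrank K (T g) : ℤ) -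
      (Module.finrank K (B g) : ℤ))).Infinite := hinf
  set γ := hinf'.natEmbedding with hγ
  have hinj : ∀ i j : ℕ, ((γ i : ℤ × ℤ)) = (γ j : ℤ × ℤ) → i = j := fun i j hij =>
    γ.injective (Subtype.ext hij)
  obtain ⟨m, hm⟩ := hacc (fun m g => if ∃ i < m, ((γ i : ℤ × ℤ)) = g then T g else B g) (by
    intro m g
    by_cases h : ∃ i < m, ((γ i : ℤ × ℤ)) = g
    · have h' : ∃ i < m + 1, ((γ i : ℤ × ℤ)) = g := by
        obtain ⟨i, hi, hg⟩ := h
        exact ⟨i, Nat.lt_succ_of_lt hi, hg⟩
      simp only [if_pos h, if_pos h']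
      exact le_rfl
    · simp only [if_neg h]
      split_ifs
      · exact hBT g
      · exact le_rfl) (by
    intro m
    refine ⟨fun g => ?_, fun g => ?_, fun a ha => absurd ha (Finset.notMem_empty a)⟩
    · show B g ≤ if ∃ i < m, ((γ i : ℤ × ℤ)) = g then T g else B g
      split_ifs
      · exact hBT g
      · exact le_rfl
    · show (if ∃ i < m, ((γ i : ℤ × ℤ)) = g then T g else B g) ≤ T g
      split_ifs
      · exact le_rfl
      · exact hBT g)
  have h1 := hm (m + 1) (Nat.le_succ m) (γ m : ℤ × ℤ)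
  have h2 : ∃ i < m + 1, ((γ i : ℤ × ℤ)) = (γ m : ℤ × ℤ) := ⟨m, Nat.lt_succ_self m, rfl⟩
  have h3 : ¬ ∃ i < m, ((γ i : ℤ × ℤ)) = (γ m : ℤ × ℤ) := by
    rintro ⟨i, hi, hg⟩
    exact absurd (hinj i m hg) (ne_of_lt hi)
  simp only [if_pos h2, if_neg h3] at h1
  have h4 := (γ m).2
  rw [Function.mem_support] at h4
  apply h4
  rw [h1, sub_self]

theorem hsG (w : Fin 5 → ℤ) (A : Finset (Fin 5)) (X : Fin 5 → V →ₗ[K] V)
    (hc : ∀ i j v, X i (X j v) = X j (X i v))
    (B T : ℤ × ℤ → Submodule K V) (hfin : ∀ g, FiniteDimensional K (T g)) (hBT : ∀ g, B g ≤ T g)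
    (hB : StabG w A X B) (hT : StabG w A X T) (hacc : AccG w A X B T) :
    (Function.support (Nab w A (fun g => (Module.finrank K (T g) : ℤ) -
      (Module.finrank K (B g) : ℤ)))).Finite := by
  induction A using Finset.induction_on generalizing B T with
  | empty =>
    rw [Nab_empty]
    exact H2_base w X B T hBT hacc
  | insert a A ha ih =>
    have hfB : ∀ g, FiniteDimensional K (B g) := fun g =>
      Submodule.finiteDimensional_of_le (hBT g)
    -- the kernel pair
    have k1 := ih B (fun g => T g ⊓ (B (g + om w a)).comap (X a))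
      (fun g => Submodule.finiteDimensional_of_le inf_le_left)
      (fun g => le_inf (hBT g) (fun v hv => hB a (Finset.mem_insert_self a A) g v hv))
      (fun b hb g v hv => hB b (Finset.mem_insert_of_mem hb) g v hv)
      (fun b hb g v hv => ⟨hT b (Finset.mem_insert_of_mem hb) g v hv.1, by
        show X a (X b v) ∈ B (g + om w b + om w a)
        rw [hc, add_right_comm]
        exact hB b (Finset.mem_insert_of_mem hb) _ _ hv.2⟩)
      (H2_mono hacc (fun g => le_rfl) (fun g => inf_le_left) (by
        intro C h1 h2 h3 b hb g v hv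
        rcases Finset.mem_insert.mp hb with rfl | hb
        · exact h1 _ (h2 g hv).2
        · exact h3 b hb g v hv))
    -- the cokernel pair
    have k2 := ih (fun g => B g ⊔ (T (g - om w a)).map (X a)) T hfin
      (fun g => sup_le (hBT g) (by
        rw [Submodule.map_le_iff_le_comap]
        intro v hv
        have := hT a (Finset.mem_insert_self a A) (g - om w a) v hv
        rwa [sub_add_cancel] at this))
      (by
        intro b hb g v hv
        obtain ⟨y, hy, z, hz, rfl⟩ := Submodule.mem_sup.mp hv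
        obtain ⟨u, hu, rfl⟩ := Submodule.mem_map.mp hz
        rw [map_add]
        refine Submodule.add_mem_sup (hB b (Finset.mem_insert_of_mem hb) g y hy) ?_
        rw [hc]
        refine Submodule.mem_map_of_mem ?_
        have := hT b (Finset.mem_insert_of_mem hb) (g - om w a) u hu
        rwa [sub_add_eq_add_sub] at this)
      (fun b hb g v hv => hT b (Finset.mem_insert_of_mem hb) g v hv)
      (H2_mono hacc (fun g => le_sup_left) (fun g => le_rfl) (by
        intro C h1 h2 h3 b hb g v hv
        rcases Finset.mem_insert.mp hb with rfl | hb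
        · refine h1 _ (Submodule.mem_sup_right ?_)
          rw [add_sub_cancel_right]
          exact Submodule.mem_map_of_mem (h2 g hv)
        · exact h3 b hb g v hv))
    have key : (fun g => (((Module.finrank K (T g) : ℤ) - (Module.finrank K (B g) : ℤ)) -
        ((Module.finrank K (T (g - om w a)) : ℤ) - (Module.finrank K (B (g - om w a)) : ℤ)))) =
        fun g => ((fun g => (Module.finrank K (T g) : ℤ) -
          (Module.finrank K (B g ⊔ (T (g - om w a)).map (X a) : Submodule K V) : ℤ)) g -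
          (fun g => (fun g => (Module.finrank K
            (T g ⊓ (B (g + om w a)).comap (X a) : Submodule K V) : ℤ) -
            (Module.finrank K (B g) : ℤ)) (g - om w a)) g) := by
      funext g
      have h3 := dim_key (T (g - om w a)) (B g) (X a)
      have h5 := congrArg (fun U : Submodule K V => (Module.finrank K U : ℤ))
        (show T (g - om w a) ⊓ (B (g - om w a + om w a)).comap (X a) =
          T (g - om w a) ⊓ (B g).comap (X a) by rw [sub_add_cancel])
      have h4 : ((Module.finrank K (B g ⊔ (T (g - om w a)).map (X a) : Submodule K V) : ℕ) : ℤ) +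
          (Module.finrank K (T (g - om w a) ⊓ (B g).comap (X a) : Submodule K V) : ℕ) =
          (Module.finrank K (T (g - om w a)) : ℕ) + (Module.finrank K (B g) : ℕ) := by
        exact_mod_cast h3
      simp only at h5 ⊢
      linarith
    rw [Nab_insert' w ha, key, Nab_sub, Nab_shift w A (fun g => (Module.finrank K
      (T g ⊓ (B (g + om w a)).comap (X a) : Submodule K V) : ℤ) -
      (Module.finrank K (B g) : ℤ)) (om w a)]
    refine (k2.union (k1.preimage (f := fun g : ℤ × ℤ => g - om w a)
      (fun x _ y _ hxy => sub_left_injective hxy))).subset ?_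
    intro g hg
    rw [Function.mem_support] at hg
    by_contra hcon
    rw [Set.mem_union, not_or] at hcon
    obtain ⟨c1, c2⟩ := hcon
    rw [Function.notMem_support] at c1
    rw [Set.mem_preimage, Function.notMem_support] at c2
    apply hg
    show Nab w A _ g - Nab w A _ (g - om w a) = 0
    rw [c1, c2, sub_self]

end hs

end Pool.Agent.Lib.MP_745d3a_ag.GM

end

section

set_option autoImplicit false
set_option linter.unusedSectionVars false
set_option linter.unusedSimpArgs false
set_option linter.unusedVariables false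

open MvPolynomial

namespace Pool.Agent.Lib.MP_745d3a_ag.GM

section

variable {K M : Type*} [Field K] [AddCommGroup M] [Module (MvPolynomial (Fin 5) K) M]

/-- `M / N` is a finite module over `K[x_a : a ∈ A]`: there are finitely many elements whose
combinations with coefficients in `K[x_a : a ∈ A]` exhaust `M` modulo `N`. -/
def FinOver (A : Finset (Fin 5)) (N : Submodule (MvPolynomial (Fin 5) K) M) : Prop :=
  ∃ (n : ℕ) (y : Fin n → M), ∀ z : M, ∃ p : Fin n → MvPolynomial (Fin 5) K,
    (∀ k, p k ∈ supported K (A : Set (Fin 5))) ∧ z - ∑ k, p k • y k ∈ N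

/-- Multiplication by a variable. -/
noncomputable def mX (K : Type*) {M : Type*} [Field K] [AddCommGroup M]
    [Module (MvPolynomial (Fin 5) K) M] [Module K M] [IsScalarTower K (MvPolynomial (Fin 5) K) M]
    (a : Fin 5) : M →ₗ[K] M where
  toFun z := (X a : MvPolynomial (Fin 5) K) • z
  map_add' := smul_add _
  map_smul' c z := by rw [RingHom.id_apply, smul_comm]

lemma mX_apply [Module K M] [IsScalarTower K (MvPolynomial (Fin 5) K) M] (a : Fin 5) (z : M) :
    mX K a z = (X a : MvPolynomial (Fin 5) K) • z := rfl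

/-- The Hilbert function of a homogeneous submodule. -/
noncomputable def hN [Module K M] [IsScalarTower K (MvPolynomial (Fin 5) K) M]
    (w : Fin 5 → ℤ) (𝓜 : ℤ × ℤ → AddSubgroup M) [DirectSum.Decomposition 𝓜]
    [SetLike.GradedSMul (weightedHomogeneousSubmodule K (om w)) 𝓜]
    (N : Submodule (MvPolynomial (Fin 5) K) M) (g : ℤ × ℤ) : ℤ :=
  (Module.finrank K (pc (K := K) w 𝓜 g ⊓ N.restrictScalars K : Submodule K M) : ℤ)

end

end Pool.Agent.Lib.MP_745d3a_ag.GM

end

section

set_option autoImplicit false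
set_option linter.unusedSectionVars false
set_option linter.unusedSimpArgs false
set_option linter.unusedVariables false

open MvPolynomial

namespace Pool.Agent.Lib.MP_745d3a_ag.GM

section

variable {K M : Type*} [Field K] [AddCommGroup M] [Module (MvPolynomial (Fin 5) K) M]
  [Module K M] [IsScalarTower K (MvPolynomial (Fin 5) K) M]
  {w : Fin 5 → ℤ} {𝓜 : ℤ × ℤ → AddSubgroup M} [DirectSum.Decomposition 𝓜]
  [SetLike.GradedSMul (weightedHomogeneousSubmodule K (om w)) 𝓜]

private lemma H3_smul_mem (A : Finset (Fin 5)) (S : Submodule K M)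
    (hS : ∀ a ∈ A, ∀ y ∈ S, (X a : MvPolynomial (Fin 5) K) • y ∈ S)
    (p : MvPolynomial (Fin 5) K) (hp : p ∈ supported K (A : Set (Fin 5))) :
    ∀ y ∈ S, p • y ∈ S := by
  unfold supported at hp
  induction hp using Algebra.adjoin_induction with
  | mem x hx =>
    obtain ⟨a, ha, rfl⟩ := hx
    exact hS a (by simpa using ha)
  | algebraMap r =>
    intro y hy
    rw [algebraMap_smul]
    exact S.smul_mem r hy
  | add x y _ _ hx hy =>
    intro z hz
    rw [add_smul]
    exact S.add_mem (hx z hz) (hy z hz)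
  | mul x y _ _ hx hy =>
    intro z hz
    rw [mul_smul]
    exact hx _ (hy z hz)

theorem acc_of_finOver (A : Finset (Fin 5)) (N : Submodule (MvPolynomial (Fin 5) K) M)
    (hN : ∀ z ∈ N, ∀ g, comp 𝓜 g z ∈ N) (hfin : FinOver A N) :
    AccG w A (mX K (M := M)) (fun g => pc (K := K) w 𝓜 g ⊓ N.restrictScalars K)
      (fun g => pc (K := K) w 𝓜 g) := by
  classical
  intro C hC1 hC2
  have hmono : ∀ m m', m ≤ m' → ∀ g, C m g ≤ C m' g := by
    intro m m' h g
    exact monotone_nat_of_le_succ (f := fun m => C m g) (fun m => hC1 m g) h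
  have hnr : IsNoetherianRing (supported K (A : Set (Fin 5))) :=
    isNoetherianRing_of_ringEquiv _
      (supportedEquivMvPolynomial (R := K) (A : Set (Fin 5))).symm.toRingEquiv
  have hfg : Module.Finite (supported K (A : Set (Fin 5))) (M ⧸ N) := by
    obtain ⟨n, y, hy⟩ := hfin
    refine ⟨⟨Finset.univ.image (fun k => (Submodule.Quotient.mk (y k) : M ⧸ N)), ?_⟩⟩
    rw [eq_top_iff]
    rintro z -
    obtain ⟨z, rfl⟩ := Submodule.Quotient.mk_surjective N z
    obtain ⟨p, hp, hpz⟩ := hy z
    have h1 : (Submodule.Quotient.mk z : M ⧸ N) =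
        ∑ k, (⟨p k, hp k⟩ : supported K (A : Set (Fin 5))) •
          (Submodule.Quotient.mk (y k) : M ⧸ N) := by
      have h2 : (Submodule.Quotient.mk z : M ⧸ N) =
        Submodule.Quotient.mk (∑ k, p k • y k) := (Submodule.Quotient.eq N).mpr hpz
      rw [h2]
      have h3 : (Submodule.Quotient.mk (∑ k, p k • y k) : M ⧸ N) =
          N.mkQ (∑ k, p k • y k) := rfl
      rw [h3, map_sum]
      rfl
    rw [h1]
    refine Submodule.sum_mem _ fun k _ => Submodule.smul_mem _ _ (Submodule.subset_span ?_)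
    simp
  have hnoeth : IsNoetherian (supported K (A : Set (Fin 5))) (M ⧸ N) :=
    isNoetherian_of_isNoetherianRing_of_finite _ _
  have hS : ∀ m, ∀ a ∈ A, ∀ y ∈ (⨆ g, C m g : Submodule K M),
      (X a : MvPolynomial (Fin 5) K) • y ∈ (⨆ g, C m g : Submodule K M) := by
    intro m a ha y hy
    induction hy using Submodule.iSup_induction' with
    | mem g v hv =>
      exact Submodule.mem_iSup_of_mem (g + om w a) ((hC2 m).2.2 a ha g v hv)
    | zero => rw [smul_zero]; exact Submodule.zero_mem _
    | add u v _ _ hu hv => rw [smul_add]; exact Submodule.add_mem _ hu hv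
  let L : ℕ → Submodule (supported K (A : Set (Fin 5))) (M ⧸ N) := fun m =>
    { carrier := {z | ∃ y ∈ (⨆ g, C m g : Submodule K M), (Submodule.Quotient.mk y : M ⧸ N) = z}
      add_mem' := by
        rintro _ _ ⟨y, hy, rfl⟩ ⟨y', hy', rfl⟩
        exact ⟨y + y', Submodule.add_mem _ hy hy', rfl⟩
      zero_mem' := ⟨0, Submodule.zero_mem _, rfl⟩
      smul_mem' := by
        rintro ⟨p, hp⟩ _ ⟨y, hy, rfl⟩
        exact ⟨p • y, H3_smul_mem A _ (hS m) p hp y hy, rfl⟩ }
  have hL : Monotone L := by
    intro m m' h z hz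
    obtain ⟨y, hy, rfl⟩ := hz
    exact ⟨y, (iSup_mono (hmono m m' h)) hy, rfl⟩
  obtain ⟨m, hm⟩ := monotone_stabilizes_iff_noetherian.mpr hnoeth ⟨L, hL⟩
  refine ⟨m, fun m' hm' g => le_antisymm ?_ (hmono m m' hm' g)⟩
  intro v hv
  have h1 : (Submodule.Quotient.mk v : M ⧸ N) ∈ L m' :=
    ⟨v, Submodule.mem_iSup_of_mem g hv, rfl⟩
  have h1' : (Submodule.Quotient.mk v : M ⧸ N) ∈ L m := by
    have := hm m' hm'
    change L m = L m' at this
    rw [this]; exact h1
  obtain ⟨y, hy, hyv⟩ := h1'
  have hz : v - y ∈ N := (Submodule.Quotient.eq N).mp hyv.symm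
  have hvg : v ∈ 𝓜 g := (hC2 m').2.1 g hv
  have h2 : v = comp 𝓜 g y + comp 𝓜 g (v - y) := by
    rw [← comp_add, add_sub_cancel, comp_same 𝓜 hvg]
  rw [h2]
  refine (C m g).add_mem ?_ ?_
  · clear h2 hz hyv
    induction hy using Submodule.iSup_induction' with
    | mem h u hu =>
      have huh : u ∈ 𝓜 h := (hC2 m).2.1 h hu
      by_cases hgh : h = g
      · subst hgh
        rw [comp_same 𝓜 huh]
        exact hu
      · rw [comp_ne 𝓜 huh hgh]
        exact Submodule.zero_mem _
    | zero => rw [comp_zero]; exact Submodule.zero_mem _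
    | add u u' _ _ hu hu' => rw [comp_add]; exact Submodule.add_mem _ hu hu'
  · exact (hC2 m).1 g ⟨comp_mem 𝓜 g _, hN _ hz g⟩

end

end Pool.Agent.Lib.MP_745d3a_ag.GM

end

section

set_option autoImplicit false
set_option linter.unusedSectionVars false
set_option linter.unusedSimpArgs false
set_option linter.unusedVariables false

open MvPolynomial

namespace Pool.Agent.Lib.MP_745d3a_ag.GM

section

variable {K M : Type*} [Field K] [AddCommGroup M] [Module (MvPolynomial (Fin 5) K) M]
  [Module K M] [IsScalarTower K (MvPolynomial (Fin 5) K) M]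
  {w : Fin 5 → ℤ} {𝓜 : ℤ × ℤ → AddSubgroup M} [DirectSum.Decomposition 𝓜]
  [SetLike.GradedSMul (weightedHomogeneousSubmodule K (om w)) 𝓜]

/-- first component of the weight = degree -/
theorem H4_weight (w : Fin 5 → ℤ) (d : Fin 5 →₀ ℕ) :
    (Finsupp.weight (om w) d).1 = (d.degree : ℤ) := by
  rw [Finsupp.weight_apply, Finsupp.sum_fintype (h := fun i => zero_smul ℕ (om w i)), Prod.fst_sum,
    Finsupp.degree_eq_sum]
  push_cast
  refine Finset.sum_congr rfl fun i _ => ?_
  simp [om]

theorem H4_finite (w : Fin 5 → ℤ) (g : ℤ × ℤ) :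
    {d : Fin 5 →₀ ℕ | Finsupp.weight (om w) d = g}.Finite := by
  refine (Finsupp.finite_of_degree_le (σ := Fin 5) g.1.toNat).subset ?_
  intro d hd
  have h1 := H4_weight w d
  rw [show Finsupp.weight (om w) d = g from hd] at h1
  change d.degree ≤ g.1.toNat
  omega

theorem H4_fin (K : Type*) [Field K] (w : Fin 5 → ℤ) (g : ℤ × ℤ) :
    FiniteDimensional K (weightedHomogeneousSubmodule K (om w) g) := by
  rw [weightedHomogeneousSubmodule_eq_finsupp_supported]
  have : Finite ↥{d : Fin 5 →₀ ℕ | Finsupp.weight (om w) d = g} := (H4_finite w g).to_subtype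
  exact Module.Finite.equiv (AddMonoidAlgebra.supportedEquivFinsupp
    {d : Fin 5 →₀ ℕ | Finsupp.weight (om w) d = g}).symm

/-- `a ↦ a • y`. -/
noncomputable def H4_mulBy (K : Type*) {M : Type*} [Field K] [AddCommGroup M]
    [Module (MvPolynomial (Fin 5) K) M] [Module K M] [IsScalarTower K (MvPolynomial (Fin 5) K) M]
    (y : M) : MvPolynomial (Fin 5) K →ₗ[K] M :=
  ((LinearMap.id : MvPolynomial (Fin 5) K →ₗ[MvPolynomial (Fin 5) K]
    MvPolynomial (Fin 5) K).smulRight y).restrictScalars K

theorem H4_comp_sum {ι : Type*} (s : Finset ι) (f : ι → M) (g : ℤ × ℤ) :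
    comp 𝓜 g (∑ i ∈ s, f i) = ∑ i ∈ s, comp 𝓜 g (f i) := by
  classical
  induction s using Finset.induction_on with
  | empty => simp [comp_zero]
  | insert i s hi ih => rw [Finset.sum_insert hi, Finset.sum_insert hi, comp_add, ih]

theorem finite_pc [Module.Finite (MvPolynomial (Fin 5) K) M] (g : ℤ × ℤ) :
    FiniteDimensional K (pc (K := K) w 𝓜 g) := by
  classical
  obtain ⟨G, hG⟩ := Module.Finite.fg_top (R := (MvPolynomial (Fin 5) K)) (M := M)
  choose T hT _ using eq_sum_comp 𝓜
  let W : Submodule K M := G.sup fun x => (T x).sup fun γ =>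
    (weightedHomogeneousSubmodule K (om w) (g - γ)).map (H4_mulBy K (comp 𝓜 γ x))
  have hW : FiniteDimensional K W := by
    have h1 : ∀ x γ, FiniteDimensional K ((weightedHomogeneousSubmodule K (om w) (g - γ)).map
        (H4_mulBy K (comp 𝓜 γ x)) : Submodule K M) := by
      intro x γ
      have := H4_fin K w (g - γ)
      infer_instance
    have h2 : ∀ x, FiniteDimensional K ((T x).sup fun γ =>
        (weightedHomogeneousSubmodule K (om w) (g - γ)).map (H4_mulBy K (comp 𝓜 γ x)) :
          Submodule K M) := fun x => by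
      have := h1 x
      exact Submodule.finiteDimensional_finset_sup _ _
    exact Submodule.finiteDimensional_finset_sup _ _
  have hle : pc (K := K) w 𝓜 g ≤ W := by
    intro m hm
    have h1 : comp 𝓜 g m = m := comp_same 𝓜 hm
    rw [← h1]
    have hm : m ∈ Submodule.span (MvPolynomial (Fin 5) K) (G : Set M) := by rw [hG]; trivial
    rw [Submodule.mem_span_finset'] at hm
    obtain ⟨f, hf⟩ := hm
    rw [← hf, H4_comp_sum]
    refine W.sum_mem fun x _ => ?_
    have h2 : f x • (x : M) = ∑ γ ∈ T x, f x • comp 𝓜 γ x := by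
      conv_lhs => rw [hT x, Finset.smul_sum]
    rw [h2, H4_comp_sum]
    refine W.sum_mem fun γ hγ => ?_
    rw [comp_smul (om w) 𝓜 (comp_mem 𝓜 γ _)]
    have h3 : ((weightedHomogeneousSubmodule K (om w) (g - γ)).map
        (H4_mulBy K (comp 𝓜 γ (x : M))) : Submodule K M) ≤ W :=
      (Finset.le_sup (f := fun γ => (weightedHomogeneousSubmodule K (om w) (g - γ)).map
        (H4_mulBy K (comp 𝓜 γ (x : M)))) hγ).trans (Finset.le_sup (f := fun x => (T x).sup fun γ =>
        (weightedHomogeneousSubmodule K (om w) (g - γ)).map (H4_mulBy K (comp 𝓜 γ x))) x.2)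
    refine h3 (Submodule.mem_map.mpr ⟨weightedHomogeneousComponent (om w) (g - γ) (f x), ?_, rfl⟩)
    exact weightedHomogeneousComponent_isWeightedHomogeneous _ _
  exact Submodule.finiteDimensional_of_le hle

end

end Pool.Agent.Lib.MP_745d3a_ag.GM

end

section

set_option autoImplicit false
set_option linter.unusedSectionVars false
set_option linter.unusedSimpArgs false
set_option linter.unusedVariables false

open MvPolynomial

namespace Pool.Agent.Lib.MP_745d3a_ag.GM

section

variable {K M : Type*} [Field K] [AddCommGroup M] [Module (MvPolynomial (Fin 5) K) M]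
  [Module K M] [IsScalarTower K (MvPolynomial (Fin 5) K) M]
  {w : Fin 5 → ℤ} {𝓜 : ℤ × ℤ → AddSubgroup M} [DirectSum.Decomposition 𝓜]
  [SetLike.GradedSMul (weightedHomogeneousSubmodule K (om w)) 𝓜]

theorem hs_graded [Module.Finite (MvPolynomial (Fin 5) K) M] (A : Finset (Fin 5))
    (N : Submodule (MvPolynomial (Fin 5) K) M)
    (hN' : ∀ z ∈ N, ∀ g, comp 𝓜 g z ∈ N) (hfin : FinOver A N) :
    (Function.support (Nab w A (fun g => hM K w 𝓜 g - hN w 𝓜 N g))).Finite := by
  have hX : ∀ (a : Fin 5) (g : ℤ × ℤ) (v : M), v ∈ pc (K := K) w 𝓜 g →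
      mX K a v ∈ pc (K := K) w 𝓜 (g + om w a) := by
    intro a g v hv
    rw [mem_pc] at hv ⊢
    rw [mX_apply, add_comm]
    exact smul_mem' (om w) 𝓜 (isWeightedHomogeneous_X K (om w) a) hv
  have h := hsG w A (mX K (M := M))
    (fun i j v => by
      rw [mX_apply, mX_apply, mX_apply, mX_apply, smul_comm])
    (fun g => pc (K := K) w 𝓜 g ⊓ N.restrictScalars K) (fun g => pc (K := K) w 𝓜 g)
    (fun g => finite_pc g) (fun g => inf_le_left)
    (fun a _ g v hv => ⟨hX a g v hv.1, N.smul_mem _ hv.2⟩)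
    (fun a _ g v hv => hX a g v hv)
    (acc_of_finOver A N hN' hfin)
  exact h

/-- The numerator of the Hilbert series has finite support. -/
theorem QM_finite [Module.Finite (MvPolynomial (Fin 5) K) M] :
    (Function.support (QM K w 𝓜)).Finite := by
  have hfin : FinOver (K := K) (Finset.univ : Finset (Fin 5))
      (⊥ : Submodule (MvPolynomial (Fin 5) K) M) := by
    obtain ⟨n, y, hy⟩ := Module.Finite.exists_fin (R := MvPolynomial (Fin 5) K) (M := M)
    refine ⟨n, y, ?_⟩
    intro z
    have hz : z ∈ Submodule.span (MvPolynomial (Fin 5) K) (Set.range y) := by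
      rw [hy]
      exact Submodule.mem_top
    obtain ⟨p, hp⟩ := (Submodule.mem_span_range_iff_exists_fun _).mp hz
    refine ⟨p, ?_, ?_⟩
    · intro k
      rw [Finset.coe_univ, supported_univ]
      exact Algebra.mem_top
    · rw [hp, sub_self]
      exact Submodule.zero_mem _
  have h := hs_graded (w := w) (𝓜 := 𝓜) (Finset.univ : Finset (Fin 5))
    (⊥ : Submodule (MvPolynomial (Fin 5) K) M)
    (by
      intro z hz g
      rw [Submodule.mem_bot] at hz ⊢
      rw [hz]
      exact comp_zero 𝓜 g) hfin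
  have he : (fun g => hM K w 𝓜 g - hN w 𝓜 (⊥ : Submodule (MvPolynomial (Fin 5) K) M) g) =
      hM K w 𝓜 := by
    funext g
    have h0 : hN w 𝓜 (⊥ : Submodule (MvPolynomial (Fin 5) K) M) g = 0 := by
      have hb : (pc (K := K) w 𝓜 g ⊓
          (⊥ : Submodule (MvPolynomial (Fin 5) K) M).restrictScalars K : Submodule K M) = ⊥ := by
        rw [Submodule.restrictScalars_bot, inf_bot_eq]
      unfold hN
      rw [hb, finrank_bot]
      rfl
    rw [h0, sub_zero]
  rw [he] at h
  exact h

end

end Pool.Agent.Lib.MP_745d3a_ag.GM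

end
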