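import Pool.Agent.Lib.MP_745d3a_ag.GM.Ser

/-!
Finiteness over fewer variables, Hilbert functions.
-/

section

set_option autoImplicit false
set_option linter.unusedSectionVars false
set_option linter.unusedSimpArgs false
set_option linter.unusedVariables false

open MvPolynomial

namespace Pool.Agent.Lib.MP_745d3a_ag.GM

section PWsec

variable {K M : Type*} [Field K] [AddCommGroup M] [Module (MvPolynomial (Fin 5) K) M]
variable {ι : Type*} [Fintype ι]

/-- `z` is, modulo `N`, a combination of the `g k` with coefficients in `supported K A`. -/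
def PW (A : Finset (Fin 5)) (N : Submodule (MvPolynomial (Fin 5) K) M) (g : ι → M) (z : M) :
    Prop :=
  ∃ p : ι → MvPolynomial (Fin 5) K,
    (∀ k, p k ∈ supported K (A : Set (Fin 5))) ∧ z - ∑ k, p k • g k ∈ N

lemma PW.of_mem {A : Finset (Fin 5)} {N : Submodule (MvPolynomial (Fin 5) K) M} {g : ι → M}
    {z : M} (hz : z ∈ N) : PW A N g z := by
  refine ⟨fun _ => 0, fun _ => Subalgebra.zero_mem _, ?_⟩
  simpa using hz

lemma PW.add {A : Finset (Fin 5)} {N : Submodule (MvPolynomial (Fin 5) K) M} {g : ι → M}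
    {z w : M} (hz : PW A N g z) (hw : PW A N g w) : PW A N g (z + w) := by
  obtain ⟨p, hp, h1⟩ := hz
  obtain ⟨q, hq, h2⟩ := hw
  refine ⟨fun k => p k + q k, fun k => Subalgebra.add_mem _ (hp k) (hq k), ?_⟩
  have h3 := N.add_mem h1 h2
  have h4 : z + w - ∑ k, (p k + q k) • g k = (z - ∑ k, p k • g k) + (w - ∑ k, q k • g k) := by
    simp only [add_smul, Finset.sum_add_distrib]
    abel
  rw [h4]
  exact h3

lemma PW.smul {A : Finset (Fin 5)} {N : Submodule (MvPolynomial (Fin 5) K) M} {g : ι → M}
    {z : M} (hz : PW A N g z) {r : MvPolynomial (Fin 5) K}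
    (hr : r ∈ supported K (A : Set (Fin 5))) : PW A N g (r • z) := by
  obtain ⟨p, hp, h1⟩ := hz
  refine ⟨fun k => r * p k, fun k => Subalgebra.mul_mem _ hr (hp k), ?_⟩
  have h3 := N.smul_mem r h1
  have h4 : r • z - ∑ k, (r * p k) • g k = r • (z - ∑ k, p k • g k) := by
    simp only [smul_sub, Finset.smul_sum, mul_smul]
  rw [h4]
  exact h3

lemma PW.sum {A : Finset (Fin 5)} {N : Submodule (MvPolynomial (Fin 5) K) M} {g : ι → M}
    {κ : Type*} (s : Finset κ) (z : κ → M) (hz : ∀ k ∈ s, PW A N g (z k)) :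
    PW A N g (∑ k ∈ s, z k) := by
  classical
  induction s using Finset.induction_on with
  | empty => simpa using PW.of_mem (g := g) (A := A) N.zero_mem
  | insert a s ha ih =>
    rw [Finset.sum_insert ha]
    exact PW.add (hz a (Finset.mem_insert_self a s))
      (ih (fun k hk => hz k (Finset.mem_insert_of_mem hk)))

lemma PW.self {A : Finset (Fin 5)} {N : Submodule (MvPolynomial (Fin 5) K) M} {g : ι → M}
    (k : ι) : PW A N g (g k) := by
  classical
  refine ⟨fun j => if j = k then 1 else 0, fun j => ?_, ?_⟩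
  · by_cases h : j = k
    · simp only [h, if_true]
      exact Subalgebra.one_mem _
    · simp only [h, if_false]
      exact Subalgebra.zero_mem _
  · have h4 : ∑ j, (if j = k then (1 : MvPolynomial (Fin 5) K) else 0) • g j = g k := by
      rw [Finset.sum_eq_single k]
      · simp
      · intro b _ hb
        simp [hb]
      · intro h
        exact absurd (Finset.mem_univ k) h
    rw [h4, sub_self]
    exact N.zero_mem

/-- If all of `M` is reached, then `FinOver`. -/
lemma PW.finOver {A : Finset (Fin 5)} {N : Submodule (MvPolynomial (Fin 5) K) M} {g : ι → M}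
    (h : ∀ z, PW A N g z) : FinOver A N := by
  refine ⟨Fintype.card ι, fun k => g ((Fintype.equivFin ι).symm k), fun z => ?_⟩
  obtain ⟨p, hp, hz⟩ := h z
  refine ⟨fun k => p ((Fintype.equivFin ι).symm k), fun k => hp _, ?_⟩
  have h1 : ∑ k, p ((Fintype.equivFin ι).symm k) • g ((Fintype.equivFin ι).symm k)
      = ∑ k, p k • g k :=
    Equiv.sum_comp (Fintype.equivFin ι).symm (fun k => p k • g k)
  rw [h1]
  exact hz

/-- `PW` passes from `z` to `z - w`. -/
lemma PW.of_add {A : Finset (Fin 5)} {N : Submodule (MvPolynomial (Fin 5) K) M} {g : ι → M}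
    {z w : M} (hz : z + w ∈ N) (hw : PW A N g w) : PW A N g z := by
  have h1 : PW A N g ((-1 : MvPolynomial (Fin 5) K) • w) :=
    PW.smul hw (Subalgebra.neg_mem _ (Subalgebra.one_mem _))
  have h2 := PW.add (PW.of_mem (g := g) (A := A) hz) h1
  have h3 : z + w + (-1 : MvPolynomial (Fin 5) K) • w = z := by
    rw [neg_smul, one_smul]
    abel
  rwa [h3] at h2

end PWsec

lemma deg_lt_axis {K : Type*} [Field K] {f : MvPolynomial (Fin 5) K} {k : ℕ} (c : Fin 5)
    (hf : f.IsHomogeneous k) {d : Fin 5 →₀ ℕ} (hd : d ∈ f.support)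
    (hne : d ≠ Finsupp.single c k) : d c < k := by
  have h1 : coeff d f ≠ 0 := mem_support_iff.mp hd
  have h2 : d.degree = k := by
    have := hf h1
    rw [← this, Finsupp.degree_eq_weight_one]
    rfl
  have h3 : d.degree = ∑ i, d i := by
    rw [Finsupp.degree_apply]
    exact Finset.sum_subset (Finset.subset_univ _)
      (fun i _ hi => Finsupp.notMem_support_iff.mp hi)
  have h4 : ∑ i, d i = d c + ∑ i ∈ Finset.univ.erase c, d i := by
    rw [← Finset.add_sum_erase Finset.univ d (Finset.mem_univ c)]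
  by_contra hlt
  apply hne
  have h5 : ∑ i ∈ Finset.univ.erase c, d i = 0 := by omega
  have h6 : ∀ i ∈ Finset.univ.erase c, d i = 0 := Finset.sum_eq_zero_iff.mp h5
  ext i
  by_cases hi : i = c
  · subst hi
    rw [Finsupp.single_eq_same]
    omega
  · rw [h6 i (Finset.mem_erase.mpr ⟨hi, Finset.mem_univ i⟩), Finsupp.single_eq_of_ne hi]

lemma monomial_split {K : Type*} [Field K] (c : Fin 5) (d : Fin 5 →₀ ℕ) (b : K) :
    monomial d b = monomial (d.erase c) b * X c ^ (d c) := by
  rw [X_pow_eq_monomial, monomial_mul, mul_one, Finsupp.erase_add_single]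

lemma monomial_erase_mem {K : Type*} [Field K] (c : Fin 5) (d : Fin 5 →₀ ℕ) (b : K) :
    monomial (d.erase c) b ∈ supported K (((Finset.univ.erase c : Finset (Fin 5))) : Set (Fin 5)) := by
  classical
  rw [mem_supported]
  intro i hi
  have hi' : i ∈ (monomial (d.erase c) b).vars := hi
  by_cases hb : b = 0
  · subst hb
    simp at hi'
  · rw [vars_monomial hb] at hi'
    rw [Finsupp.support_erase] at hi'
    have := Finset.mem_erase.mp hi'
    simp [this.1]

section

variable {K M : Type*} [Field K] [AddCommGroup M] [Module (MvPolynomial (Fin 5) K) M]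
  [Module K M] [IsScalarTower K (MvPolynomial (Fin 5) K) M]

theorem finOver_of_axis [Module.Finite (MvPolynomial (Fin 5) K) M]
    (N : Submodule (MvPolynomial (Fin 5) K) M) (c : Fin 5) {f : MvPolynomial (Fin 5) K} {k : ℕ}
    (hf : f.IsHomogeneous k) (hc : coeff (Finsupp.single c k) f ≠ 0) (hN : ∀ z, f • z ∈ N) :
    FinOver (Finset.univ.erase c) N := by
  classical
  obtain ⟨n, y, hy⟩ := Module.Finite.exists_fin (R := MvPolynomial (Fin 5) K) (M := M)
  have hC : ∀ b : K, (C b : MvPolynomial (Fin 5) K) ∈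
      supported K (((Finset.univ.erase c : Finset (Fin 5))) : Set (Fin 5)) := fun b =>
    Subalgebra.algebraMap_mem _ b
  have hX : ∀ a : Fin 5, a ≠ c → (X a : MvPolynomial (Fin 5) K) ∈
      supported K (((Finset.univ.erase c : Finset (Fin 5))) : Set (Fin 5)) := fun a ha => by
    apply X_mem_supported.mpr
    simp [ha]
  let g : Fin n × Fin k → M := fun q => (X c : MvPolynomial (Fin 5) K) ^ (q.2 : ℕ) • y q.1
  -- low powers
  have low : ∀ (i : Fin n) (j : ℕ), j < k →
      PW (Finset.univ.erase c) N g ((X c : MvPolynomial (Fin 5) K) ^ j • y i) := fun i j hj =>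
    PW.self (g := g) (i, ⟨j, hj⟩)
  -- the top power
  have top : ∀ i : Fin n,
      PW (Finset.univ.erase c) N g ((X c : MvPolynomial (Fin 5) K) ^ k • y i) := by
    intro i
    have hmem : Finsupp.single c k ∈ f.support := mem_support_iff.mpr hc
    have hsum : f = monomial (Finsupp.single c k) (coeff (Finsupp.single c k) f)
        + ∑ d ∈ f.support.erase (Finsupp.single c k), monomial d (coeff d f) := by
      rw [Finset.add_sum_erase _ (fun d => monomial d (coeff d f)) hmem]
      exact f.as_sum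
    have h1 : f • y i ∈ N := hN _
    rw [hsum, add_smul, Finset.sum_smul] at h1
    have h2 : PW (Finset.univ.erase c) N g
        (∑ d ∈ f.support.erase (Finsupp.single c k), monomial d (coeff d f) • y i) := by
      apply PW.sum
      intro d hd
      have hd' := Finset.mem_erase.mp hd
      rw [monomial_split c d, mul_smul]
      exact PW.smul (low i _ (deg_lt_axis c hf hd'.2 hd'.1)) (monomial_erase_mem c d _)
    have h3 := PW.of_add h1 h2
    have h4 := PW.smul h3 (hC (coeff (Finsupp.single c k) f)⁻¹)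
    have h5 : (C (coeff (Finsupp.single c k) f)⁻¹ : MvPolynomial (Fin 5) K) •
        (monomial (Finsupp.single c k) (coeff (Finsupp.single c k) f) • y i)
        = (X c : MvPolynomial (Fin 5) K) ^ k • y i := by
      rw [← mul_smul, C_mul_monomial, inv_mul_cancel₀ hc, ← X_pow_eq_monomial]
    rwa [h5] at h4
  -- closed under `X c`
  have hXc : ∀ z, PW (Finset.univ.erase c) N g z →
      PW (Finset.univ.erase c) N g ((X c : MvPolynomial (Fin 5) K) • z) := by
    rintro z ⟨p, hp, hz⟩
    have h1 : PW (Finset.univ.erase c) N g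
        ((X c : MvPolynomial (Fin 5) K) • (z - ∑ q, p q • g q)) :=
      PW.of_mem (N.smul_mem _ hz)
    have h2 : PW (Finset.univ.erase c) N g
        (∑ q, (X c : MvPolynomial (Fin 5) K) • (p q • g q)) := by
      apply PW.sum
      intro q _
      rw [smul_comm]
      apply PW.smul _ (hp q)
      have h3 : (X c : MvPolynomial (Fin 5) K) • g q
          = (X c : MvPolynomial (Fin 5) K) ^ ((q.2 : ℕ) + 1) • y q.1 := by
        rw [pow_succ', mul_smul]
      rw [h3]
      rcases Nat.lt_or_ge ((q.2 : ℕ) + 1) k with hlt | hge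
      · exact low _ _ hlt
      · have : (q.2 : ℕ) + 1 = k := by
          have := q.2.isLt
          omega
        rw [this]
        exact top _
    have h4 := PW.add h1 h2
    have h5 : (X c : MvPolynomial (Fin 5) K) • (z - ∑ q, p q • g q)
        + ∑ q, (X c : MvPolynomial (Fin 5) K) • (p q • g q)
        = (X c : MvPolynomial (Fin 5) K) • z := by
      rw [smul_sub, Finset.smul_sum, sub_add_cancel]
    rwa [h5] at h4
  -- closed under everything
  have hS : ∀ (s : MvPolynomial (Fin 5) K) (z : M), PW (Finset.univ.erase c) N g z →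
      PW (Finset.univ.erase c) N g (s • z) := by
    intro s
    induction s using MvPolynomial.induction_on with
    | C b => exact fun z hz => PW.smul hz (hC b)
    | add p q hp hq =>
      intro z hz
      rw [add_smul]
      exact PW.add (hp z hz) (hq z hz)
    | mul_X p a hp =>
      intro z hz
      rw [mul_smul]
      apply hp
      by_cases ha : a = c
      · subst ha
        exact hXc z hz
      · exact PW.smul hz (hX a ha)
  -- the generators
  have hgen : ∀ i, PW (Finset.univ.erase c) N g (y i) := by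
    intro i
    rcases Nat.eq_zero_or_pos k with hk | hk
    · have h1 := top i
      have h2 : (X c : MvPolynomial (Fin 5) K) ^ k • y i = y i := by
        rw [hk, pow_zero, one_smul]
      rwa [h2] at h1
    · have := low i 0 hk
      rwa [pow_zero, one_smul] at this
  apply PW.finOver (g := g)
  intro z
  have hz : z ∈ Submodule.span (MvPolynomial (Fin 5) K) (Set.range y) := by
    rw [hy]
    trivial
  induction hz using Submodule.span_induction with
  | mem x hx =>
    obtain ⟨i, rfl⟩ := hx
    exact hgen i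
  | zero => exact PW.of_mem N.zero_mem
  | add x w _ _ hx hw => exact PW.add hx hw
  | smul s x _ hx => exact hS s x hx

end

end Pool.Agent.Lib.MP_745d3a_ag.GM

end

section

set_option autoImplicit false
set_option linter.unusedSectionVars false
set_option linter.unusedSimpArgs false
set_option linter.unusedVariables false

open MvPolynomial

namespace Pool.Agent.Lib.MP_745d3a_ag.GM

section

variable {K M : Type*} [Field K] [AddCommGroup M] [Module (MvPolynomial (Fin 5) K) M]
  [Module K M] [IsScalarTower K (MvPolynomial (Fin 5) K) M]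

/-- `M / N` is spanned over `K[x_a : a ∈ A]` by a finite set -/
def H7_FO (A : Finset (Fin 5)) (N : Submodule (MvPolynomial (Fin 5) K) M) : Prop :=
  ∃ (J : Type) (_ : Fintype J) (y : J → M), ∀ z : M, ∃ p : J → MvPolynomial (Fin 5) K,
    (∀ k, p k ∈ supported K (A : Set (Fin 5))) ∧ z - ∑ k, p k • y k ∈ N

theorem H7_of (A : Finset (Fin 5)) (N : Submodule (MvPolynomial (Fin 5) K) M) (h : H7_FO A N) :
    FinOver A N := by
  obtain ⟨J, _, y, hy⟩ := h
  refine ⟨Fintype.card J, fun i => y ((Fintype.equivFin J).symm i), fun z => ?_⟩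
  obtain ⟨p, hp, hz⟩ := hy z
  refine ⟨fun i => p ((Fintype.equivFin J).symm i), fun i => hp _, ?_⟩
  rw [Equiv.sum_comp (Fintype.equivFin J).symm (fun j => p j • y j)]
  exact hz

/-- removing one variable -/
theorem H7_step (A : Finset (Fin 5)) (N : Submodule (MvPolynomial (Fin 5) K) M) (s : Fin 5)
    {k : ℕ} (hs : ∀ z, (X s : MvPolynomial (Fin 5) K) ^ k • z ∈ N) (h : H7_FO A N) :
    H7_FO (A.erase s) N := by
  classical
  obtain ⟨J, _, y, hy⟩ := h
  refine ⟨J × Fin k, inferInstance, fun q => (X s : MvPolynomial (Fin 5) K) ^ (q.2 : ℕ) • y q.1,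
    ?_⟩
  -- the set of the good elements
  let P : M → Prop := fun z => ∃ p : J × Fin k → MvPolynomial (Fin 5) K,
    (∀ q, p q ∈ supported K ((A.erase s : Finset (Fin 5)) : Set (Fin 5))) ∧
      z - ∑ q, p q • (X s : MvPolynomial (Fin 5) K) ^ (q.2 : ℕ) • y q.1 ∈ N
  have hP0 : ∀ z ∈ N, P z := by
    intro z hz
    refine ⟨fun _ => 0, fun _ => Subalgebra.zero_mem _, ?_⟩
    simpa using hz
  have hPadd : ∀ z z', P z → P z' → P (z + z') := by
    rintro z z' ⟨p, hp, hz⟩ ⟨p', hp', hz'⟩
    refine ⟨fun q => p q + p' q, fun q => Subalgebra.add_mem _ (hp q) (hp' q), ?_⟩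
    have h1 := N.add_mem hz hz'
    have h2 : z + z' - ∑ q : J × Fin k, (p q + p' q) • (X s : MvPolynomial (Fin 5) K) ^
        (q.2 : ℕ) • y q.1 = (z - ∑ q, p q • (X s : MvPolynomial (Fin 5) K) ^ (q.2 : ℕ) • y q.1) +
        (z' - ∑ q, p' q • (X s : MvPolynomial (Fin 5) K) ^ (q.2 : ℕ) • y q.1) := by
      simp only [add_smul, Finset.sum_add_distrib]
      abel
    rw [h2]
    exact h1
  have hPsum : ∀ {ι : Type} (S : Finset ι) (f : ι → M), (∀ j ∈ S, P (f j)) →
      P (∑ j ∈ S, f j) := by
    intro ι S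
    induction S using Finset.induction_on with
    | empty => intro f _; rw [Finset.sum_empty]; exact hP0 0 N.zero_mem
    | insert j S hj ih =>
      intro f hf
      rw [Finset.sum_insert hj]
      exact hPadd _ _ (hf j (Finset.mem_insert_self j S))
        (ih f fun i hi => hf i (Finset.mem_insert_of_mem hi))
  -- `p • y j` is good for `p` in the variables of `A`
  have hmon : ∀ (p : MvPolynomial (Fin 5) K), p ∈ supported K ((A : Finset (Fin 5)) : Set (Fin 5)) →
      ∀ j, P (p • y j) := by
    intro p hp j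
    rw [mem_supported] at hp
    have hsum : p • y j = ∑ e ∈ p.support, monomial e (coeff e p) • y j := by
      conv_lhs => rw [p.as_sum]
      rw [Finset.sum_smul]
    rw [hsum]
    have key : ∀ e ∈ p.support, P (monomial e (coeff e p) • y j) := by
      intro e he
      have hvars : ∀ i, e i ≠ 0 → i ∈ A := by
        intro i hi
        have : i ∈ p.vars :=
          (mem_vars_iff_mem_support i).2 ⟨e, he, Finsupp.mem_support_iff.2 hi⟩
        exact_mod_cast hp this
      have hdec : (monomial e (coeff e p) : MvPolynomial (Fin 5) K) =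
          monomial (e.erase s) (coeff e p) * X s ^ (e s) := by
        rw [X_pow_eq_monomial, monomial_mul, mul_one, Finsupp.erase_add_single]
      by_cases hk : e s < k
      · refine ⟨fun q => if q = (j, ⟨e s, hk⟩) then monomial (e.erase s) (coeff e p) else 0,
          fun q => ?_, ?_⟩
        · dsimp only
          split_ifs with hq
          · rw [mem_supported]
            intro i hi
            rw [Finset.mem_coe, vars_monomial (mem_support_iff.1 he), Finsupp.mem_support_iff,
              Finsupp.erase_apply] at hi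
            rw [Finset.mem_coe, Finset.mem_erase]
            by_cases his : i = s
            · rw [if_pos his] at hi
              exact absurd rfl hi
            · rw [if_neg his] at hi
              exact ⟨his, hvars i hi⟩
          · exact Subalgebra.zero_mem _
        · have hone : ∑ q : J × Fin k, (if q = (j, (⟨e s, hk⟩ : Fin k)) then
              (monomial (e.erase s) (coeff e p) : MvPolynomial (Fin 5) K) else 0) •
              (X s : MvPolynomial (Fin 5) K) ^ (q.2 : ℕ) • y q.1 =
              monomial (e.erase s) (coeff e p) • (X s : MvPolynomial (Fin 5) K) ^ (e s) • y j := by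
            rw [Finset.sum_eq_single (j, (⟨e s, hk⟩ : Fin k))]
            · rw [if_pos rfl]
            · intro q _ hq
              rw [if_neg hq, zero_smul]
            · intro h
              exact absurd (Finset.mem_univ _) h
          rw [hone, hdec, mul_smul, sub_self]
          exact N.zero_mem
      · refine hP0 _ ?_
        have h1 : e s = k + (e s - k) := by omega
        rw [hdec, h1, pow_add, mul_smul, mul_smul]
        exact N.smul_mem _ (hs _)
    exact hPsum _ _ key
  intro z
  obtain ⟨p, hp, hz⟩ := hy z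
  have h1 : P (∑ j, p j • y j) := hPsum Finset.univ _ fun j _ => hmon _ (hp j) j
  have h2 : P ((z - ∑ j, p j • y j) + ∑ j, p j • y j) := hPadd _ _ (hP0 _ hz) h1
  rw [sub_add_cancel] at h2
  exact h2

theorem H7_start [Module.Finite (MvPolynomial (Fin 5) K) M]
    (N : Submodule (MvPolynomial (Fin 5) K) M) : H7_FO Finset.univ N := by
  obtain ⟨n, y, hy⟩ := Module.Finite.exists_fin (R := MvPolynomial (Fin 5) K) (M := M)
  refine ⟨Fin n, inferInstance, y, fun z => ?_⟩
  have hz : z ∈ Submodule.span (MvPolynomial (Fin 5) K) (Set.range y) := by rw [hy]; trivial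
  obtain ⟨c, hc⟩ := (Submodule.mem_span_range_iff_exists_fun _).1 hz
  refine ⟨c, fun k => ?_, ?_⟩
  · rw [Finset.coe_univ, supported_univ]
    trivial
  · rw [hc, sub_self]
    exact N.zero_mem

theorem finOver_of_two [Module.Finite (MvPolynomial (Fin 5) K) M]
    (N : Submodule (MvPolynomial (Fin 5) K) M) (s t : Fin 5) (hst : s ≠ t) {k k' : ℕ}
    (hs : ∀ z, (X s : MvPolynomial (Fin 5) K) ^ k • z ∈ N)
    (ht : ∀ z, (X t : MvPolynomial (Fin 5) K) ^ k' • z ∈ N) :
    FinOver ((Finset.univ.erase s).erase t) N :=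
  H7_of _ _ (H7_step _ N t ht (H7_step _ N s hs (H7_start N)))

theorem finOver_of_one [Module.Finite (MvPolynomial (Fin 5) K) M]
    (N : Submodule (MvPolynomial (Fin 5) K) M) (s : Fin 5) {k : ℕ}
    (hs : ∀ z, (X s : MvPolynomial (Fin 5) K) ^ k • z ∈ N) :
    FinOver (Finset.univ.erase s) N :=
  H7_of _ _ (H7_step _ N s hs (H7_start N))

end

end Pool.Agent.Lib.MP_745d3a_ag.GM

end

section

set_option autoImplicit false
set_option linter.unusedSectionVars false
set_option linter.unusedSimpArgs false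
set_option linter.unusedVariables false

open MvPolynomial

namespace Pool.Agent.Lib.MP_745d3a_ag.GM

/-- The grading of the polynomial ring. -/
noncomputable def gS (K : Type*) [Field K] (w : Fin 5 → ℤ) (g : ℤ × ℤ) :
    AddSubgroup (MvPolynomial (Fin 5) K) :=
  (weightedHomogeneousSubmodule K (om w) g).toAddSubgroup

section

variable {K : Type*} [Field K] {w : Fin 5 → ℤ}

lemma mem_gS {g : ℤ × ℤ} {p : MvPolynomial (Fin 5) K} :
    p ∈ gS K w g ↔ IsWeightedHomogeneous (om w) p g := Iff.rfl

noncomputable instance : DirectSum.Decomposition (gS K w) where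
  decompose' := (weightedDecomposition K (om w)).decompose'
  left_inv := (weightedDecomposition K (om w)).left_inv
  right_inv := (weightedDecomposition K (om w)).right_inv

instance : SetLike.GradedSMul (weightedHomogeneousSubmodule K (om w)) (gS K w) where
  smul_mem := by
    intro i j a b ha hb
    exact IsWeightedHomogeneous.mul ha hb

lemma comp_gS (g : ℤ × ℤ) (p : MvPolynomial (Fin 5) K) :
    comp (gS K w) g p = weightedHomogeneousComponent (om w) g p :=
  weightedDecomposition.decompose'_apply K (om w) p g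

/-- The Hilbert function of the polynomial ring vanishes outside the cone. -/
theorem hS_ne_zero {g : ℤ × ℤ} (h : hM K w (gS K w) g ≠ 0) :
    ∃ e : Fin 5 →₀ ℕ, Finsupp.weight (om w) e = g := by
  by_contra hcon
  push Not at hcon
  apply h
  have hbot : pc (K := K) w (gS K w) g = ⊥ := by
    rw [Submodule.eq_bot_iff]
    intro p hp
    have hp' : IsWeightedHomogeneous (om w) p g := hp
    ext e
    rw [coeff_zero]
    by_contra he
    exact hcon e (hp' he)
  unfold hM
  rw [hbot, finrank_bot]
  rfl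

end

end Pool.Agent.Lib.MP_745d3a_ag.GM

end

section

set_option autoImplicit false
set_option linter.unusedSectionVars false
set_option linter.unusedSimpArgs false
set_option linter.unusedVariables false

open MvPolynomial

namespace Pool.Agent.Lib.MP_745d3a_ag.GM

/-- exponents with support in `A` and weight `g` -/
def S2_cs (w : Fin 5 → ℤ) (A : Finset (Fin 5)) (g : ℤ × ℤ) : Set (Fin 5 →₀ ℕ) :=
  {e | (∀ a, a ∉ A → e a = 0) ∧ Finsupp.weight (om w) e = g}

/-- their number -/
noncomputable def S2_c (w : Fin 5 → ℤ) (A : Finset (Fin 5)) (g : ℤ × ℤ) : ℤ :=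
  ((S2_cs w A g).ncard : ℤ)

lemma S2_weight (w : Fin 5 → ℤ) (e : Fin 5 →₀ ℕ) :
    Finsupp.weight (om w) e = ∑ a, e a • om w a := by
  rw [Finsupp.weight_apply, Finsupp.sum_fintype]
  intro i
  exact zero_smul _ _

lemma S2_fst (w : Fin 5 → ℤ) (e : Fin 5 →₀ ℕ) :
    (Finsupp.weight (om w) e).1 = ∑ a, (e a : ℤ) := by
  rw [S2_weight, Prod.fst_sum]
  refine Finset.sum_congr rfl fun a _ => ?_
  simp [om]

lemma S2_fin (w : Fin 5 → ℤ) (A : Finset (Fin 5)) (g : ℤ × ℤ) : (S2_cs w A g).Finite := by
  refine (Set.finite_Iic (Finsupp.equivFunOnFinite.symm (fun _ : Fin 5 => g.1.toNat))).subset ?_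
  rintro e ⟨_, he⟩
  intro a
  have h1 := S2_fst w e
  rw [he] at h1
  have h2 : (e a : ℤ) ≤ ∑ a, (e a : ℤ) :=
    Finset.single_le_sum (f := fun a => (e a : ℤ)) (fun i _ => Int.natCast_nonneg _)
      (Finset.mem_univ a)
  simp only [Finsupp.equivFunOnFinite_symm_apply_apply]
  omega

lemma S2_rec (w : Fin 5 → ℤ) {a : Fin 5} {A : Finset (Fin 5)} (ha : a ∉ A) (g : ℤ × ℤ) :
    S2_c w (insert a A) g - S2_c w (insert a A) (g - om w a) = S2_c w A g := by
  have hw : ∀ e : Fin 5 →₀ ℕ, Finsupp.weight (om w) (e + Finsupp.single a 1) =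
      Finsupp.weight (om w) e + om w a := by
    intro e
    rw [map_add, Finsupp.weight_single, one_smul]
  have hU : S2_cs w (insert a A) g = S2_cs w A g ∪
      (fun e => e + Finsupp.single a 1) '' S2_cs w (insert a A) (g - om w a) := by
    ext e
    constructor
    · rintro ⟨h1, h2⟩
      by_cases h0 : e a = 0
      · left
        refine ⟨fun b hb => ?_, h2⟩
        by_cases hba : b = a
        · rw [hba]; exact h0
        · exact h1 b (by simp [hba, hb])
      · right
        have hle : Finsupp.single a 1 ≤ e := by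
          rw [Finsupp.single_le_iff]
          omega
        have he : (e - Finsupp.single a 1) + Finsupp.single a 1 = e := tsub_add_cancel_of_le hle
        refine ⟨e - Finsupp.single a 1, ⟨fun b hb => ?_, ?_⟩, he⟩
        · have := h1 b hb
          rw [Finsupp.tsub_apply, this, zero_tsub]
        · have h3 := hw (e - Finsupp.single a 1)
          rw [he, h2] at h3
          rw [h3, add_sub_cancel_right]
    · rintro (⟨h1, h2⟩ | ⟨e', ⟨h1, h2⟩, rfl⟩)
      · exact ⟨fun b hb => h1 b (fun h => hb (Finset.mem_insert_of_mem h)), h2⟩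
      · refine ⟨fun b hb => ?_, ?_⟩
        · have hba : b ≠ a := fun h => hb (by rw [h]; exact Finset.mem_insert_self _ _)
          simp only [Finsupp.add_apply, h1 b hb, Finsupp.single_apply, zero_add]
          rw [if_neg (Ne.symm hba)]
        · simp only [hw, h2, sub_add_cancel]
  have hd : Disjoint (S2_cs w A g)
      ((fun e => e + Finsupp.single a 1) '' S2_cs w (insert a A) (g - om w a)) := by
    rw [Set.disjoint_left]
    rintro e ⟨h1, _⟩ ⟨e', _, rfl⟩
    have := h1 a ha
    simp at this
  have hinj : Function.Injective (fun e : Fin 5 →₀ ℕ => e + Finsupp.single a 1) :=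
    add_left_injective _
  have h3 := Set.ncard_union_eq hd (S2_fin w A g) ((S2_fin w (insert a A) (g - om w a)).image _)
  rw [← hU, Set.ncard_image_of_injective _ hinj] at h3
  unfold S2_c
  rw [h3]
  push_cast
  ring

lemma S2_Nab (w : Fin 5 → ℤ) (A : Finset (Fin 5)) : Nab w A (S2_c w A) = S2_c w ∅ := by
  induction A using Finset.induction_on with
  | empty => exact Nab_empty w _
  | insert a A ha ih =>
    rw [Nab_insert' w ha]
    have : (fun g => S2_c w (insert a A) g - S2_c w (insert a A) (g - om w a)) = S2_c w A :=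
      funext fun g => S2_rec w ha g
    rw [this, ih]

lemma S2_empty (w : Fin 5 → ℤ) (g : ℤ × ℤ) : S2_c w ∅ g = if g = 0 then 1 else 0 := by
  have h0 : ∀ e : Fin 5 →₀ ℕ, (∀ a, a ∉ (∅ : Finset (Fin 5)) → e a = 0) ↔ e = 0 := by
    intro e
    constructor
    · intro h
      ext a
      exact h a (Finset.notMem_empty a)
    · rintro rfl a _
      rfl
  unfold S2_c
  split_ifs with h
  · have : S2_cs w ∅ g = {0} := by
      ext e
      simp only [S2_cs, Set.mem_ofPred_eq, h0, Set.mem_singleton_iff]
      constructor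
      · exact fun h => h.1
      · rintro rfl
        exact ⟨rfl, by rw [map_zero, h]⟩
    rw [this, Set.ncard_singleton]
    rfl
  · have : S2_cs w ∅ g = ∅ := by
      ext e
      simp only [S2_cs, Set.mem_ofPred_eq, h0, Set.mem_empty_iff_false, iff_false]
      rintro ⟨rfl, h2⟩
      rw [map_zero] at h2
      exact h h2.symm
    rw [this, Set.ncard_empty]
    rfl

lemma S2_finrank {K : Type*} [Field K] (s : Set (Fin 5 →₀ ℕ)) :
    Module.finrank K (restrictSupport K s) = s.ncard := by
  rw [Module.finrank_eq_nat_card_basis (basisRestrictSupport K s)]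
  rfl

lemma S2_hM {K : Type*} [Field K] {w : Fin 5 → ℤ} (g : ℤ × ℤ) :
    hM K w (gS K w) g = S2_c w Finset.univ g := by
  have h1 : pc (K := K) w (gS K w) g = weightedHomogeneousSubmodule K (om w) g := by
    ext p
    rfl
  have h2 : weightedHomogeneousSubmodule K (om w) g =
      restrictSupport K {d | Finsupp.weight (om w) d = g} :=
    weightedHomogeneousSubmodule_eq_finsupp_supported K (om w) g
  have h3 : S2_cs w Finset.univ g = {d | Finsupp.weight (om w) d = g} := by
    ext e
    simp [S2_cs]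
  unfold hM S2_c
  rw [h1, h2, S2_finrank, h3]

/-- the number of exponents with support in `A` and weight `g` -/
noncomputable def cnt (w : Fin 5 → ℤ) (A : Finset (Fin 5)) (g : ℤ × ℤ) : ℤ :=
  (Set.ncard {e : Fin 5 →₀ ℕ | e.support ⊆ A ∧ Finsupp.weight (om w) e = g} : ℤ)

lemma S2_c_eq_cnt (w : Fin 5 → ℤ) (A : Finset (Fin 5)) (g : ℤ × ℤ) : S2_c w A g = cnt w A g := by
  have h : S2_cs w A g = {e : Fin 5 →₀ ℕ | e.support ⊆ A ∧ Finsupp.weight (om w) e = g} := by
    ext e
    have h1 : (∀ a, a ∉ A → e a = 0) ↔ e.support ⊆ A := by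
      constructor
      · intro h a ha
        by_contra hA
        exact (Finsupp.mem_support_iff.mp ha) (h a hA)
      · intro h a ha
        by_contra h0
        exact ha (h (Finsupp.mem_support_iff.mpr h0))
    simp only [S2_cs, Set.mem_ofPred_eq, h1]
  unfold S2_c cnt
  rw [h]

theorem Nab_cnt (w : Fin 5 → ℤ) (A : Finset (Fin 5)) (g : ℤ × ℤ) :
    Nab w A (cnt w A) g = if g = 0 then 1 else 0 := by
  have h : cnt w A = S2_c w A := funext fun g => (S2_c_eq_cnt w A g).symm
  rw [h, S2_Nab, S2_empty]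

theorem hM_gS {K : Type*} [Field K] {w : Fin 5 → ℤ} (g : ℤ × ℤ) :
    hM K w (gS K w) g = cnt w Finset.univ g := by
  rw [S2_hM, S2_c_eq_cnt]

theorem Nab_hS {K : Type*} [Field K] {w : Fin 5 → ℤ} (g : ℤ × ℤ) :
    Nab w Finset.univ (hM K w (gS K w)) g = if g = 0 then 1 else 0 := by
  have h : hM K w (gS K w) = S2_c w Finset.univ := funext fun g => S2_hM g
  rw [h, S2_Nab, S2_empty]

end Pool.Agent.Lib.MP_745d3a_ag.GM

end

section

set_option autoImplicit false
set_option linter.unusedSectionVars false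
set_option linter.unusedSimpArgs false
set_option linter.unusedVariables false

open MvPolynomial

namespace Pool.Agent.Lib.MP_745d3a_ag.GM

section

variable {K M : Type*} [Field K] [AddCommGroup M] [Module (MvPolynomial (Fin 5) K) M]
  [Module K M] [IsScalarTower K (MvPolynomial (Fin 5) K) M]
  {w : Fin 5 → ℤ} {𝓜 : ℤ × ℤ → AddSubgroup M} [DirectSum.Decomposition 𝓜]
  [SetLike.GradedSMul (weightedHomogeneousSubmodule K (om w)) 𝓜]

include w in
theorem comp_span_pair {α β : ℤ × ℤ} {m n : M} (hm : m ∈ 𝓜 α) (hn : n ∈ 𝓜 β) :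
    ∀ z ∈ Submodule.span (MvPolynomial (Fin 5) K) ({m, n} : Set M), ∀ g,
      comp 𝓜 g z ∈ Submodule.span (MvPolynomial (Fin 5) K) ({m, n} : Set M) := by
  intro z hz g
  obtain ⟨a, b, rfl⟩ := Submodule.mem_span_pair.1 hz
  rw [comp_add, comp_smul (om w) 𝓜 hm, comp_smul (om w) 𝓜 hn]
  exact Submodule.mem_span_pair.2 ⟨_, _, rfl⟩

lemma S3_comp_map {τ : ℤ × ℤ} (π : M →ₗ[MvPolynomial (Fin 5) K] MvPolynomial (Fin 5) K)
    (hπ : ∀ g, ∀ z ∈ 𝓜 g, IsWeightedHomogeneous (om w) (π z) (g + τ)) (g : ℤ × ℤ) (z : M) :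
    comp (gS K w) g (π z) = π (comp 𝓜 (g - τ) z) := by
  refine hom_induction 𝓜 (P := fun z => comp (gS K w) g (π z) = π (comp 𝓜 (g - τ) z)) ?_ ?_ ?_ z
  · rw [map_zero, comp_zero, comp_zero, map_zero]
  · intro h m hm
    have h1 : π m ∈ gS K w (h + τ) := mem_gS.2 (hπ h m hm)
    by_cases hh : h = g - τ
    · rw [hh, sub_add_cancel] at h1
      rw [hh] at hm
      rw [comp_same _ h1, comp_same _ hm]
    · rw [comp_ne 𝓜 hm hh, map_zero]
      refine comp_ne _ h1 ?_
      intro h2
      apply hh
      rw [← h2, add_sub_cancel_right]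
  · intro m n hm hn
    rw [map_add, comp_add, hm, hn, comp_add, map_add]

theorem comp_range {τ : ℤ × ℤ} (π : M →ₗ[MvPolynomial (Fin 5) K] MvPolynomial (Fin 5) K)
    (hπ : ∀ g, ∀ z ∈ 𝓜 g, IsWeightedHomogeneous (om w) (π z) (g + τ)) :
    ∀ p ∈ LinearMap.range π, ∀ g, comp (gS K w) g p ∈ LinearMap.range π := by
  rintro p ⟨z, rfl⟩ g
  exact ⟨comp 𝓜 (g - τ) z, (S3_comp_map π hπ g z).symm⟩

end

end Pool.Agent.Lib.MP_745d3a_ag.GM

end

section

set_option autoImplicit false
set_option linter.unusedSectionVars false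
set_option linter.unusedSimpArgs false
set_option linter.unusedVariables false

open MvPolynomial

namespace Pool.Agent.Lib.MP_745d3a_ag.GM

section

variable {K M : Type*} [Field K] [AddCommGroup M] [Module (MvPolynomial (Fin 5) K) M]
  [Module K M] [IsScalarTower K (MvPolynomial (Fin 5) K) M]
  {w : Fin 5 → ℤ} {𝓜 : ℤ × ℤ → AddSubgroup M} [DirectSum.Decomposition 𝓜]
  [SetLike.GradedSMul (weightedHomogeneousSubmodule K (om w)) 𝓜]

theorem hN_span_pair {α β : ℤ × ℤ} {m n : M} (hm : m ∈ 𝓜 α) (hn : n ∈ 𝓜 β)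
    (hind : ∀ a b : MvPolynomial (Fin 5) K, a • m + b • n = 0 → a = 0 ∧ b = 0) (g : ℤ × ℤ) :
    hN w 𝓜 (Submodule.span (MvPolynomial (Fin 5) K) ({m, n} : Set M)) g =
      hM K w (gS K w) (g - α) + hM K w (gS K w) (g - β) := by
  let A : Submodule K (MvPolynomial (Fin 5) K) := pc (K := K) w (gS K w) (g - α)
  let B : Submodule K (MvPolynomial (Fin 5) K) := pc (K := K) w (gS K w) (g - β)
  have hAfin : FiniteDimensional K A := finite_pc (K := K) (w := w) (𝓜 := gS K w) (g - α)
  have hBfin : FiniteDimensional K B := finite_pc (K := K) (w := w) (𝓜 := gS K w) (g - β)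
  let T : (MvPolynomial (Fin 5) K × MvPolynomial (Fin 5) K) →ₗ[K] M :=
    ((LinearMap.toSpanSingleton (MvPolynomial (Fin 5) K) M m).restrictScalars K).coprod
      ((LinearMap.toSpanSingleton (MvPolynomial (Fin 5) K) M n).restrictScalars K)
  have hT : ∀ a b, T (a, b) = a • m + b • n := fun a b => rfl
  have hmem : ∀ x : A × B, T ((x.1 : MvPolynomial (Fin 5) K), (x.2 : MvPolynomial (Fin 5) K)) ∈
      (pc (K := K) w 𝓜 g ⊓ (Submodule.span (MvPolynomial (Fin 5) K)
        ({m, n} : Set M)).restrictScalars K : Submodule K M) := by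
    rintro ⟨⟨a, ha⟩, ⟨b, hb⟩⟩
    have ha' : IsWeightedHomogeneous (om w) a (g - α) := ha
    have hb' : IsWeightedHomogeneous (om w) b (g - β) := hb
    rw [hT]
    refine Submodule.mem_inf.2 ⟨?_, ?_⟩
    · rw [mem_pc]
      have h1 := smul_mem' (om w) 𝓜 ha' hm
      have h2 := smul_mem' (om w) 𝓜 hb' hn
      rw [sub_add_cancel] at h1 h2
      exact (𝓜 g).add_mem h1 h2
    · exact Submodule.mem_span_pair.2 ⟨a, b, rfl⟩
  let f : (A × B) →ₗ[K] (pc (K := K) w 𝓜 g ⊓ (Submodule.span (MvPolynomial (Fin 5) K)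
        ({m, n} : Set M)).restrictScalars K : Submodule K M) :=
    LinearMap.codRestrict _ (T.comp (A.subtype.prodMap B.subtype)) hmem
  have hinj : Function.Injective f := by
    rw [injective_iff_map_eq_zero]
    rintro ⟨⟨a, ha⟩, ⟨b, hb⟩⟩ h
    have h1 : a • m + b • n = 0 := congrArg Subtype.val h
    obtain ⟨h2, h3⟩ := hind a b h1
    subst h2
    subst h3
    rfl
  have hsurj : Function.Surjective f := by
    rintro ⟨z, hz⟩
    obtain ⟨hz1, hz2⟩ := Submodule.mem_inf.1 hz
    obtain ⟨a, b, hab⟩ := Submodule.mem_span_pair.1 hz2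
    have hz3 : a • m + b • n ∈ 𝓜 g := by
      rw [hab]; exact hz1
    obtain ⟨ha, hb⟩ := hom_of_pair (om w) 𝓜 hm hn hind hz3
    refine ⟨(⟨a, ha⟩, ⟨b, hb⟩), Subtype.ext ?_⟩
    exact hab
  have hfr := (LinearEquiv.ofBijective f ⟨hinj, hsurj⟩).finrank_eq
  rw [Module.finrank_prod] at hfr
  unfold hN hM
  rw [← hfr]
  push_cast
  rfl

end

end Pool.Agent.Lib.MP_745d3a_ag.GM

end

section

set_option autoImplicit false
set_option linter.unusedSectionVars false
set_option linter.unusedSimpArgs false
set_option linter.unusedVariables false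

open MvPolynomial

namespace Pool.Agent.Lib.MP_745d3a_ag.GM

section

variable {K M : Type*} [Field K] [AddCommGroup M] [Module (MvPolynomial (Fin 5) K) M]
  [Module K M] [IsScalarTower K (MvPolynomial (Fin 5) K) M]
  {w : Fin 5 → ℤ} {𝓜 : ℤ × ℤ → AddSubgroup M} [DirectSum.Decomposition 𝓜]
  [SetLike.GradedSMul (weightedHomogeneousSubmodule K (om w)) 𝓜]

lemma S5_comp_map {τ : ℤ × ℤ} (π : M →ₗ[MvPolynomial (Fin 5) K] MvPolynomial (Fin 5) K)
    (hπ : ∀ g, ∀ z ∈ 𝓜 g, IsWeightedHomogeneous (om w) (π z) (g + τ)) (g : ℤ × ℤ) (z : M) :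
    comp (gS K w) (g + τ) (π z) = π (comp 𝓜 g z) := by
  refine hom_induction 𝓜 (P := fun z => comp (gS K w) (g + τ) (π z) = π (comp 𝓜 g z))
    ?_ ?_ ?_ z
  · rw [map_zero, comp_zero, comp_zero, map_zero]
  · intro h m hm
    have h1 : π m ∈ gS K w (h + τ) := hπ h m hm
    by_cases hg : h = g
    · subst hg
      rw [comp_same _ h1, comp_same _ hm]
    · rw [comp_ne 𝓜 hm hg, map_zero]
      refine comp_ne _ h1 ?_
      intro h2
      exact hg (add_right_cancel h2)
  · intro m n hm hn
    rw [map_add, comp_add, hm, hn, comp_add, map_add]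

theorem hM_exact [Module.Finite (MvPolynomial (Fin 5) K) M] {τ ζ : ℤ × ℤ} {σ : M} (hσ : σ ∈ 𝓜 ζ)
    (hσ0 : ∀ a : MvPolynomial (Fin 5) K, a • σ = 0 → a = 0)
    (π : M →ₗ[MvPolynomial (Fin 5) K] MvPolynomial (Fin 5) K)
    (hπ : ∀ g, ∀ z ∈ 𝓜 g, IsWeightedHomogeneous (om w) (π z) (g + τ))
    (hker : ∀ z, π z = 0 ↔ ∃ a : MvPolynomial (Fin 5) K, z = a • σ) (g : ℤ × ℤ) :
    hM K w 𝓜 g = hM K w (gS K w) (g - ζ) + hN w (gS K w) (LinearMap.range π) (g + τ) := by
  have hfd : FiniteDimensional K (pc (K := K) w 𝓜 g) := finite_pc g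
  let f : pc (K := K) w 𝓜 g →ₗ[K] MvPolynomial (Fin 5) K :=
    (π.restrictScalars K).comp (pc (K := K) w 𝓜 g).subtype
  have h1 := LinearMap.finrank_range_add_finrank_ker f
  have hrange : LinearMap.range f =
      pc (K := K) w (gS K w) (g + τ) ⊓ (LinearMap.range π).restrictScalars K := by
    ext p
    constructor
    · rintro ⟨⟨z, hz⟩, rfl⟩
      exact ⟨hπ g z hz, ⟨z, rfl⟩⟩
    · rintro ⟨hp, ⟨z, hz⟩⟩
      refine ⟨⟨comp 𝓜 g z, comp_mem 𝓜 g z⟩, ?_⟩
      show π (comp 𝓜 g z) = p
      rw [← S5_comp_map π hπ g z, hz]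
      exact comp_same _ hp
  let φ : pc (K := K) w (gS K w) (g - ζ) →ₗ[K] pc (K := K) w 𝓜 g :=
    { toFun := fun a => ⟨(a : MvPolynomial (Fin 5) K) • σ, by
        have h2 := smul_mem' (om w) 𝓜 (mem_gS.mp a.2) hσ
        rwa [sub_add_cancel] at h2⟩
      map_add' := fun a b => Subtype.ext (add_smul _ _ _)
      map_smul' := fun c a => Subtype.ext (smul_assoc c (a : MvPolynomial (Fin 5) K) σ) }
  have hφ : Function.Injective φ := by
    rw [injective_iff_map_eq_zero]
    intro a ha
    have h2 : (a : MvPolynomial (Fin 5) K) • σ = 0 := congrArg Subtype.val ha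
    exact Subtype.ext (hσ0 _ h2)
  have hφr : LinearMap.range φ = LinearMap.ker f := by
    ext z
    constructor
    · rintro ⟨a, rfl⟩
      rw [LinearMap.mem_ker]
      show π ((a : MvPolynomial (Fin 5) K) • σ) = 0
      exact (hker _).mpr ⟨a, rfl⟩
    · intro hz
      have hz0 : π (z : M) = 0 := hz
      obtain ⟨a, ha⟩ := (hker _).mp hz0
      refine ⟨⟨weightedHomogeneousComponent (om w) (g - ζ) a,
        weightedHomogeneousComponent_isWeightedHomogeneous _ _⟩, ?_⟩
      apply Subtype.ext
      show weightedHomogeneousComponent (om w) (g - ζ) a • σ = (z : M)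
      rw [← comp_smul (om w) 𝓜 hσ a g, ← ha]
      exact comp_same 𝓜 z.2
  have h2 := LinearMap.finrank_range_of_inj hφ
  rw [hφr] at h2
  rw [hrange, h2] at h1
  unfold hM hN
  rw [← h1]
  push_cast
  ring

end

end Pool.Agent.Lib.MP_745d3a_ag.GM

end
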