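import Pool.Agent.Lib.MP_745d3a_ag.GM.Mom
import Pool.Agent.Lib.MP_745d3a_ag.GM.SerB
import Pool.Agent.Lib.MP_745d3a_ag.GM.Good
import Pool.Agent.Lib.MP_745d3a_ag.GM.Ser

/-!
Congruences from axis pairs and good sections.
-/

section

set_option autoImplicit false
set_option linter.unusedSectionVars false
set_option linter.unusedSimpArgs false
set_option linter.unusedVariables false

open MvPolynomial

namespace Pool.Agent.Lib.MP_745d3a_ag.GM

theorem nab_rank (w : Fin 5 → ℤ) (A : Finset (Fin 5)) {h : ℤ × ℤ → ℤ}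
    (h1 : ∀ g, cnt w A g ≤ h g) (hB : ∃ B : ℤ, ∀ g : ℤ × ℤ, g.1 < B → h g = 0)
    (hfin : (Function.support (Nab w A h)).Finite) : 1 ≤ ∑ᶠ g, Nab w A h g := by
  classical
  have hξd : ∀ g : ℤ × ℤ, AddMonoidHom.fst ℤ ℤ g = g.1 := fun g => rfl
  have hξ1 : ∀ a, AddMonoidHom.fst ℤ ℤ (om w a) = 1 := fun a => rfl
  have hξ : ∀ a ∈ A, 0 < AddMonoidHom.fst ℤ ℤ (om w a) := by
    intro a _
    rw [hξ1]
    exact one_pos
  have hcB : ∃ B : ℤ, ∀ g, AddMonoidHom.fst ℤ ℤ g < B → cnt w A g = 0 := by
    refine ⟨0, fun g hg => ?_⟩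
    have h3 : {e : Fin 5 →₀ ℕ | e.support ⊆ A ∧ Finsupp.weight (om w) e = g} = ∅ := by
      ext e
      simp only [Set.mem_ofPred_eq, Set.mem_empty_iff_false, iff_false, not_and]
      intro _ he
      have h2 : (0:ℤ) ≤ (Finsupp.weight (om w) e).1 := by
        rw [Finsupp.weight_apply, Finsupp.sum, Prod.fst_sum]
        refine Finset.sum_nonneg fun a _ => ?_
        simp [om]
      rw [he] at h2
      rw [hξd] at hg
      omega
    unfold cnt
    rw [h3]
    simp
  have hcfin : (Function.support (Nab w A (cnt w A))).Finite := by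
    refine (Set.finite_singleton (0 : ℤ × ℤ)).subset fun g hg => ?_
    by_contra h0
    apply hg
    rw [Nab_cnt]
    exact if_neg h0
  obtain ⟨B, hB⟩ := hB
  have hB' : ∃ B : ℤ, ∀ g, AddMonoidHom.fst ℤ ℤ g < B → h g = 0 := ⟨B, fun g hg => hB g hg⟩
  have key : ∀ u : ℝ, 0 < u → u < 1 →
      1 ≤ ∑ g ∈ hfin.toFinset, (Nab w A h g : ℝ) * u ^ g.1 := by
    intro u hu hu1
    obtain ⟨s1, e1⟩ := nab_series w A hξ hB' hfin hu hu1
    obtain ⟨s2, e2⟩ := nab_series w A hξ hcB hcfin hu hu1
    have hP : 0 ≤ ∏ a ∈ A, (1 - u ^ AddMonoidHom.fst ℤ ℤ (om w a)) := by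
      refine Finset.prod_nonneg fun a _ => ?_
      rw [hξ1, zpow_one]
      linarith
    have t1 : Summable fun g : ℤ × ℤ => (h g : ℝ) * u ^ AddMonoidHom.fst ℤ ℤ g :=
      s1.of_norm_bounded fun g => by
        rw [norm_mul, Real.norm_eq_abs, Real.norm_of_nonneg (zpow_nonneg hu.le _)]
    have t2 : Summable fun g : ℤ × ℤ => (cnt w A g : ℝ) * u ^ AddMonoidHom.fst ℤ ℤ g :=
      s2.of_norm_bounded fun g => by
        rw [norm_mul, Real.norm_eq_abs, Real.norm_of_nonneg (zpow_nonneg hu.le _)]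
    have hle := t2.tsum_le_tsum (fun g => mul_le_mul_of_nonneg_right (Int.cast_le.2 (h1 g))
      (zpow_nonneg hu.le _)) t1
    have hc1 : ∑ᶠ g, (Nab w A (cnt w A) g : ℝ) * u ^ AddMonoidHom.fst ℤ ℤ g = 1 := by
      rw [finsum_eq_single _ (0 : ℤ × ℤ)]
      · rw [Nab_cnt]
        simp
      · intro g hg
        rw [Nab_cnt, if_neg hg]
        simp
    have hh1 : ∑ᶠ g, (Nab w A h g : ℝ) * u ^ AddMonoidHom.fst ℤ ℤ g =
        ∑ g ∈ hfin.toFinset, (Nab w A h g : ℝ) * u ^ g.1 := by
      refine finsum_eq_sum_of_support_subset _ ?_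
      intro g hg
      rw [Set.Finite.coe_toFinset]
      intro h0
      apply hg
      show (Nab w A h g : ℝ) * _ = 0
      rw [h0]
      simp
    have hfin1 := mul_le_mul_of_nonneg_right hle hP
    rw [e1, e2, hc1, hh1] at hfin1
    exact hfin1
  have hlim : Filter.Tendsto (fun u : ℝ => ∑ g ∈ hfin.toFinset, (Nab w A h g : ℝ) * u ^ g.1)
      (nhdsWithin 1 (Set.Iio 1))
      (nhds (∑ g ∈ hfin.toFinset, (Nab w A h g : ℝ) * (1 : ℝ) ^ g.1)) := by
    refine tendsto_finsetSum _ fun g _ => ?_
    refine Filter.Tendsto.const_mul _ ?_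
    exact ((continuousAt_zpow₀ (1:ℝ) g.1 (Or.inl one_ne_zero)).tendsto).mono_left
      nhdsWithin_le_nhds
  have hge := ge_of_tendsto hlim (b := (1 : ℝ)) (by
    filter_upwards [Ioo_mem_nhdsLT (zero_lt_one' ℝ)] with u hu using key u hu.1 hu.2)
  simp only [one_zpow, mul_one] at hge
  rw [finsum_eq_sum_of_support_subset (Nab w A h) (s := hfin.toFinset) (by simp)]
  exact_mod_cast hge

end Pool.Agent.Lib.MP_745d3a_ag.GM

end

section

set_option autoImplicit false
set_option linter.unusedSectionVars false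
set_option linter.unusedSimpArgs false
set_option linter.unusedVariables false

open MvPolynomial

namespace Pool.Agent.Lib.MP_745d3a_ag.GM

section

variable {K M : Type*} [Field K] [CharZero K] [AddCommGroup M]
  [Module (MvPolynomial (Fin 5) K) M]
  [Module.IsReflexive (MvPolynomial (Fin 5) K) M] [Module.Finite (MvPolynomial (Fin 5) K) M]
  {w : Fin 5 → ℤ} {𝓜 : ℤ × ℤ → AddSubgroup M} [DirectSum.Decomposition 𝓜]
  [SetLike.GradedSMul (weightedHomogeneousSubmodule K (om w)) 𝓜]
  [Module K M] [IsScalarTower K (MvPolynomial (Fin 5) K) M]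
  {d : ℤ × ℤ}
  {br : M →ₗ[MvPolynomial (Fin 5) K] M →ₗ[MvPolynomial (Fin 5) K] MvPolynomial (Fin 5) K}

lemma G2_comp (w : Fin 5 → ℤ) (𝓜 : ℤ × ℤ → AddSubgroup M) [DirectSum.Decomposition 𝓜]
    [SetLike.GradedSMul (weightedHomogeneousSubmodule K (om w)) 𝓜] {α β : ℤ × ℤ} {m n : M}
    (hm : m ∈ 𝓜 α) (hn : n ∈ 𝓜 β) :
    ∀ z ∈ Submodule.span (MvPolynomial (Fin 5) K) ({m, n} : Set M), ∀ g,
      comp 𝓜 g z ∈ Submodule.span (MvPolynomial (Fin 5) K) ({m, n} : Set M) := by
  intro z hz g
  obtain ⟨a, b, rfl⟩ := Submodule.mem_span_pair.1 hz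
  rw [comp_add, comp_smul (om w) 𝓜 hm a g, comp_smul (om w) 𝓜 hn b g]
  exact Submodule.mem_span_pair.2 ⟨_, _, rfl⟩

theorem axis_cong (P : Pairing w 𝓜 d br) {c : Fin 5} {α β : ℤ × ℤ} {m n : M} {k : ℕ}
    (A : AxisPair w 𝓜 br c α β m n k) :
    ∃ M' : ℤ × ℤ → ℤ, (Function.support M').Finite ∧ ∀ g, QM K w 𝓜 g =
      (if g = α then 1 else 0) + (if g = β then 1 else 0) + (M' g - M' (g - om w c)) := by
  classical
  have hf0 : br m n ≠ 0 := by
    intro h
    exact A.coeff (by rw [h]; simp)
  have hind : ∀ a b : MvPolynomial (Fin 5) K, a • m + b • n = 0 → a = 0 ∧ b = 0 := by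
    intro a b h
    have h1 : br (a • m + b • n) n = 0 := by rw [h]; simp
    have h2 : br m (a • m + b • n) = 0 := by rw [h]; simp
    simp only [map_add, map_smul, LinearMap.add_apply, LinearMap.smul_apply, P.alt, smul_zero,
      add_zero, zero_add, smul_eq_mul, mul_zero] at h1 h2
    exact ⟨(mul_eq_zero.1 h1).resolve_right hf0, (mul_eq_zero.1 h2).resolve_right hf0⟩
  have hcomp := G2_comp (K := K) w 𝓜 A.hm A.hn
  have hNz : ∀ z, br m n • z ∈ Submodule.span (MvPolynomial (Fin 5) K) ({m, n} : Set M) := by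
    intro z
    rw [P.plu2]
    exact Submodule.sub_mem _ (Submodule.smul_mem _ _ (Submodule.subset_span (by simp)))
      (Submodule.smul_mem _ _ (Submodule.subset_span (by simp)))
  have hhom : (br m n).IsHomogeneous k := by
    intro e he
    have h1 := (A.weight P).2 he
    have h2 := congrArg Prod.fst h1
    rw [Finsupp.weight_apply, Finsupp.sum_fintype _ _ (by simp)] at h2
    rw [Finsupp.weight_apply, Finsupp.sum_fintype _ _ (by simp)]
    simp only [Prod.fst_sum, om, Prod.smul_mk, nsmul_eq_mul, mul_one] at h2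
    simp only [Pi.one_apply, smul_eq_mul, mul_one]
    exact_mod_cast h2
  have hfin := finOver_of_axis (Submodule.span (MvPolynomial (Fin 5) K) ({m, n} : Set M)) c hhom
    A.coeff hNz
  refine ⟨Nab w (Finset.univ.erase c) (fun g => hM K w 𝓜 g -
    hN w 𝓜 (Submodule.span (MvPolynomial (Fin 5) K) ({m, n} : Set M)) g),
    hs_graded _ _ hcomp hfin, ?_⟩
  intro g
  rw [← Nab_erase w (Finset.mem_univ c)]
  have e1 : (hM K w 𝓜) = fun g => (hM K w 𝓜 g -
      hN w 𝓜 (Submodule.span (MvPolynomial (Fin 5) K) ({m, n} : Set M)) g) +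
      hN w 𝓜 (Submodule.span (MvPolynomial (Fin 5) K) ({m, n} : Set M)) g := by
    funext g
    ring
  have e2 : (fun g => hN w 𝓜 (Submodule.span (MvPolynomial (Fin 5) K) ({m, n} : Set M)) g) =
      fun g => hM K w (gS K w) (g - α) + hM K w (gS K w) (g - β) := by
    funext g
    exact hN_span_pair A.hm A.hn hind g
  have e3 : Nab w Finset.univ
      (fun g => hN w 𝓜 (Submodule.span (MvPolynomial (Fin 5) K) ({m, n} : Set M)) g) g =
      (if g = α then 1 else 0) + (if g = β then 1 else 0) := by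
    rw [e2, Nab_add]
    have h1 := congrFun (Nab_shift w Finset.univ (hM K w (gS K w)) α) g
    have h2 := congrFun (Nab_shift w Finset.univ (hM K w (gS K w)) β) g
    show Nab w Finset.univ (fun g => hM K w (gS K w) (g - α)) g +
      Nab w Finset.univ (fun g => hM K w (gS K w) (g - β)) g = _
    rw [h1, h2]
    show Nab w Finset.univ (hM K w (gS K w)) (g - α) +
      Nab w Finset.univ (hM K w (gS K w)) (g - β) = _
    rw [Nab_hS, Nab_hS]
    simp only [sub_eq_zero]
  have e4 : QM K w 𝓜 g = Nab w Finset.univ (fun g => hM K w 𝓜 g -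
      hN w 𝓜 (Submodule.span (MvPolynomial (Fin 5) K) ({m, n} : Set M)) g) g +
      Nab w Finset.univ
      (fun g => hN w 𝓜 (Submodule.span (MvPolynomial (Fin 5) K) ({m, n} : Set M)) g) g := by
    have h := congrFun (Nab_add w Finset.univ (fun g => hM K w 𝓜 g -
      hN w 𝓜 (Submodule.span (MvPolynomial (Fin 5) K) ({m, n} : Set M)) g)
      (fun g => hN w 𝓜 (Submodule.span (MvPolynomial (Fin 5) K) ({m, n} : Set M)) g)) g
    rw [← h]
    unfold QM
    rw [← e1]
  rw [e4, e3]
  ring

end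

end Pool.Agent.Lib.MP_745d3a_ag.GM

end

section

set_option autoImplicit false
set_option linter.unusedSectionVars false
set_option linter.unusedSimpArgs false
set_option linter.unusedVariables false

open MvPolynomial

namespace Pool.Agent.Lib.MP_745d3a_ag.GM

/-- The Hilbert function of `S / <sigma, M>`. -/
noncomputable def hT {K M : Type*} [Field K] [AddCommGroup M]
    [Module (MvPolynomial (Fin 5) K) M] (w : Fin 5 → ℤ)
    (br : M →ₗ[MvPolynomial (Fin 5) K] M →ₗ[MvPolynomial (Fin 5) K] MvPolynomial (Fin 5) K)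
    (σ : M) (g : ℤ × ℤ) : ℤ :=
  hM K w (gS K w) g - hN w (gS K w) (LinearMap.range (br σ)) g

section

variable {K M : Type*} [Field K] [CharZero K] [AddCommGroup M]
  [Module (MvPolynomial (Fin 5) K) M]
  [Module.IsReflexive (MvPolynomial (Fin 5) K) M] [Module.Finite (MvPolynomial (Fin 5) K) M]
  {w : Fin 5 → ℤ} {𝓜 : ℤ × ℤ → AddSubgroup M} [DirectSum.Decomposition 𝓜]
  [SetLike.GradedSMul (weightedHomogeneousSubmodule K (om w)) 𝓜]
  [Module K M] [IsScalarTower K (MvPolynomial (Fin 5) K) M]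
  {d : ℤ × ℤ}
  {br : M →ₗ[MvPolynomial (Fin 5) K] M →ₗ[MvPolynomial (Fin 5) K] MvPolynomial (Fin 5) K}

theorem good_cong' (P : Pairing w 𝓜 d br) {s : Fin 5} {ζ : ℤ × ℤ} {σ : M}
    (G : Good 𝓜 br s ζ σ) :
    (∀ g, 0 ≤ hT w br σ g) ∧
      (∃ k : ℕ, ∀ g, hT w br σ g ≠ 0 →
        ∃ e : Fin 5 →₀ ℕ, e s < k ∧ Finsupp.weight (om w) e = g) ∧
      (Function.support (Nab w (Finset.univ.erase s) (hT w br σ))).Finite ∧
      (∀ t, (∃ (k : ℕ) (y : M), br σ y = (X t : MvPolynomial (Fin 5) K) ^ k) →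
        (Function.support (Nab w ((Finset.univ.erase s).erase t) (hT w br σ))).Finite) ∧
      ∀ g, QM K w 𝓜 g = (if g = ζ then 1 else 0) + (if g = d - ζ then 1 else 0) -
        Nab w Finset.univ (hT w br σ) (g + ζ - d) := by
  classical
  have hhT : hT w br σ = fun g => hM K w (gS K w) g -
      hN w (gS K w) (LinearMap.range (br σ)) g := rfl
  rw [hhT]
  set I : Submodule (MvPolynomial (Fin 5) K) (MvPolynomial (Fin 5) K) :=
    LinearMap.range (br σ) with hI
  have hπ : ∀ g, ∀ z ∈ 𝓜 g, IsWeightedHomogeneous (om w) (br σ z) (g + (ζ - d)) := by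
    intro g z hz
    have h1 := P.hom ζ g σ G.mem z hz
    rwa [show ζ + g - d = g + (ζ - d) by abel] at h1
  have hker : ∀ z, br σ z = 0 ↔ ∃ a : MvPolynomial (Fin 5) K, z = a • σ := by
    intro z
    constructor
    · intro h
      exact G.ker P h
    · rintro ⟨a, rfl⟩
      rw [map_smul, P.alt, smul_zero]
  have hpow : ∀ (t : Fin 5) (k : ℕ) (y : M), br σ y = (X t : MvPolynomial (Fin 5) K) ^ k →
      ∀ z : MvPolynomial (Fin 5) K, (X t : MvPolynomial (Fin 5) K) ^ k • z ∈ I := by
    intro t k y hy z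
    refine ⟨z • y, ?_⟩
    rw [map_smul, hy, smul_eq_mul, smul_eq_mul, mul_comm]
  have hcomp : ∀ z ∈ I, ∀ g, comp (gS K w) g z ∈ I := comp_range (br σ) hπ
  obtain ⟨k, y, hy⟩ := G.val
  refine ⟨?_, ⟨k, ?_⟩, ?_, ?_, ?_⟩
  · intro g
    have hfd : FiniteDimensional K (pc (K := K) w (gS K w) g) := finite_pc g
    have h1 : Module.finrank K (pc (K := K) w (gS K w) g ⊓ I.restrictScalars K :
        Submodule K (MvPolynomial (Fin 5) K)) ≤ Module.finrank K (pc (K := K) w (gS K w) g) :=
      Submodule.finrank_mono inf_le_left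
    have h2 : hN w (gS K w) I g ≤ hM K w (gS K w) g := by
      unfold hN hM
      exact_mod_cast h1
    show 0 ≤ hM K w (gS K w) g - hN w (gS K w) I g
    linarith
  · intro g hg
    by_contra hcon
    push Not at hcon
    apply hg
    have h1 : pc (K := K) w (gS K w) g ⊓ I.restrictScalars K = pc (K := K) w (gS K w) g := by
      rw [inf_eq_left]
      intro p hp
      have hp' : IsWeightedHomogeneous (om w) p g := hp
      show p ∈ I
      rw [p.as_sum]
      refine Submodule.sum_mem _ ?_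
      intro e he
      have he1 : Finsupp.weight (om w) e = g := hp' (mem_support_iff.mp he)
      have he2 : k ≤ e s := by
        by_contra hlt
        exact hcon e (not_le.mp hlt) he1
      have he3 : e - Finsupp.single s k + Finsupp.single s k = e := by
        ext a
        rw [Finsupp.add_apply, Finsupp.tsub_apply]
        by_cases ha : s = a
        · subst ha
          rw [Finsupp.single_eq_same]
          omega
        · rw [Finsupp.single_apply, if_neg ha]
          omega
      have he4 : monomial e (coeff e p) = (X s : MvPolynomial (Fin 5) K) ^ k •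
          monomial (e - Finsupp.single s k) (coeff e p) := by
        rw [smul_eq_mul, X_pow_eq_monomial, monomial_mul, one_mul, add_comm, he3]
      rw [he4]
      exact hpow s k y hy _
    show hM K w (gS K w) g - hN w (gS K w) I g = 0
    unfold hM hN
    rw [h1, sub_self]
  · exact hs_graded (w := w) (𝓜 := gS K w) (Finset.univ.erase s) I hcomp
      (finOver_of_one I s (hpow s k y hy))
  · rintro t ⟨k', y', hy'⟩
    by_cases hts : s = t
    · subst hts
      have h1 : (Finset.univ.erase s).erase s = (Finset.univ.erase s : Finset (Fin 5)) :=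
        Finset.erase_idem
      rw [h1]
      exact hs_graded (w := w) (𝓜 := gS K w) (Finset.univ.erase s) I hcomp
        (finOver_of_one I s (hpow s k y hy))
    · exact hs_graded (w := w) (𝓜 := gS K w) ((Finset.univ.erase s).erase t) I hcomp
        (finOver_of_two I s t hts (hpow s k y hy) (hpow t k' y' hy'))
  · intro g
    have h1 : hM K w 𝓜 = fun g => (fun g => hM K w (gS K w) (g - ζ)) g +
        (fun g => (fun g => hM K w (gS K w) (g - (d - ζ))) g -
          (fun g => (fun g => hM K w (gS K w) g - hN w (gS K w) I g) (g - (d - ζ))) g) g := by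
      funext g
      have h2 := hM_exact G.mem (fun a ha => G.tf ha) (br σ) hπ hker g
      rw [h2]
      have h3 : g + (ζ - d) = g - (d - ζ) := by abel
      rw [h3]
      show _ = hM K w (gS K w) (g - ζ) + (hM K w (gS K w) (g - (d - ζ)) -
        (hM K w (gS K w) (g - (d - ζ)) - hN w (gS K w) I (g - (d - ζ))))
      ring
    show Nab w Finset.univ (hM K w 𝓜) g = _
    have e1 := congrFun (Nab_shift w Finset.univ (hM K w (gS K w)) ζ) g
    have e2 := congrFun (Nab_shift w Finset.univ (hM K w (gS K w)) (d - ζ)) g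
    have e3 := congrFun (Nab_shift w Finset.univ
      (fun g => hM K w (gS K w) g - hN w (gS K w) I g) (d - ζ)) g
    rw [h1, Nab_add, Nab_sub]
    show Nab w Finset.univ (fun g => hM K w (gS K w) (g - ζ)) g +
      (Nab w Finset.univ (fun g => hM K w (gS K w) (g - (d - ζ))) g -
        Nab w Finset.univ (fun g => (fun g => hM K w (gS K w) g - hN w (gS K w) I g)
          (g - (d - ζ))) g) = _
    rw [e1, e2, e3, Nab_hS, Nab_hS, show g + ζ - d = g - (d - ζ) by abel]
    simp only [sub_eq_zero]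
    ring

theorem good_cong (P : Pairing w 𝓜 d br) {s : Fin 5} {ζ : ℤ × ℤ} {σ : M}
    (G : Good 𝓜 br s ζ σ) :
    ∃ h : ℤ × ℤ → ℤ, (∀ g, 0 ≤ h g) ∧
      (∃ k : ℕ, ∀ g, h g ≠ 0 → ∃ e : Fin 5 →₀ ℕ, e s < k ∧ Finsupp.weight (om w) e = g) ∧
      (Function.support (Nab w (Finset.univ.erase s) h)).Finite ∧
      (∀ t, (∃ (k : ℕ) (y : M), br σ y = (X t : MvPolynomial (Fin 5) K) ^ k) →
        (Function.support (Nab w ((Finset.univ.erase s).erase t) h)).Finite) ∧
      ∀ g, QM K w 𝓜 g = (if g = ζ then 1 else 0) + (if g = d - ζ then 1 else 0) -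
        Nab w Finset.univ h (g + ζ - d) :=
  ⟨hT w br σ, good_cong' P G⟩

end

end Pool.Agent.Lib.MP_745d3a_ag.GM

end

section

set_option autoImplicit false
set_option linter.unusedSectionVars false
set_option linter.unusedSimpArgs false
set_option linter.unusedVariables false

open MvPolynomial

namespace Pool.Agent.Lib.MP_745d3a_ag.GM

section

variable {K M : Type*} [Field K] [CharZero K] [AddCommGroup M]
  [Module (MvPolynomial (Fin 5) K) M]
  [Module.IsReflexive (MvPolynomial (Fin 5) K) M] [Module.Finite (MvPolynomial (Fin 5) K) M]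
  {w : Fin 5 → ℤ} {𝓜 : ℤ × ℤ → AddSubgroup M} [DirectSum.Decomposition 𝓜]
  [SetLike.GradedSMul (weightedHomogeneousSubmodule K (om w)) 𝓜]
  [Module K M] [IsScalarTower K (MvPolynomial (Fin 5) K) M]
  {d : ℤ × ℤ}
  {br : M →ₗ[MvPolynomial (Fin 5) K] M →ₗ[MvPolynomial (Fin 5) K] MvPolynomial (Fin 5) K}


theorem hT_ge {s t : Fin 5} {σ : M}
    (h : ∀ (y : M) (e : Fin 5 →₀ ℕ), e s = 0 → e t = 0 → coeff e (br σ y) = 0) (g : ℤ × ℤ) :
    cnt w ((Finset.univ.erase s).erase t) g ≤ hT w br σ g := by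
  classical
  set A : Finset (Fin 5) := (Finset.univ.erase s).erase t with hA
  set W : Submodule K (MvPolynomial (Fin 5) K) :=
    restrictSupport K {e | e.support ⊆ A ∧ Finsupp.weight (om w) e = g} with hW
  set V : Submodule K (MvPolynomial (Fin 5) K) := pc (K := K) w (gS K w) g with hV
  set I : Submodule K (MvPolynomial (Fin 5) K) :=
    (LinearMap.range (br σ)).restrictScalars K with hI
  have hWfin : Module.finrank K W =
      Set.ncard {e : Fin 5 →₀ ℕ | e.support ⊆ A ∧ Finsupp.weight (om w) e = g} := by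
    rw [hW, Module.finrank_eq_nat_card_basis (basisRestrictSupport K _)]
    rfl
  have hWV : W ≤ V := by
    intro p hp
    rw [hW, mem_restrictSupport_iff] at hp
    rw [hV, mem_pc, mem_gS]
    intro e he
    have := hp (Finset.mem_coe.mpr (mem_support_iff.mpr he))
    exact this.2
  have hdis : Disjoint W (V ⊓ I) := by
    rw [Submodule.disjoint_def]
    rintro p hp ⟨_, hpI⟩
    obtain ⟨y, hy⟩ : ∃ y, br σ y = p := hpI
    rw [hW, mem_restrictSupport_iff] at hp
    ext e
    rw [coeff_zero]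
    by_contra hne
    have h1 := hp (Finset.mem_coe.mpr (mem_support_iff.mpr hne))
    have h2 : e.support ⊆ A := h1.1
    have hs : e s = 0 := by
      by_contra h0
      have := h2 (Finsupp.mem_support_iff.mpr h0)
      rw [hA] at this
      simp at this
    have ht : e t = 0 := by
      by_contra h0
      have := h2 (Finsupp.mem_support_iff.mpr h0)
      rw [hA] at this
      simp at this
    exact hne (by rw [← hy]; exact h y e hs ht)
  have hVf : FiniteDimensional K V := finite_pc g
  have : FiniteDimensional K W := Submodule.finiteDimensional_of_le hWV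
  have : FiniteDimensional K (V ⊓ I : Submodule K (MvPolynomial (Fin 5) K)) :=
    Submodule.finiteDimensional_of_le inf_le_left
  have h1 := Submodule.finrank_sup_add_finrank_inf_eq W (V ⊓ I)
  rw [hdis.eq_bot, finrank_bot, add_zero] at h1
  have h2 : Module.finrank K (W ⊔ (V ⊓ I) : Submodule K (MvPolynomial (Fin 5) K)) ≤
      Module.finrank K V := Submodule.finrank_mono (sup_le hWV inf_le_left)
  have h3 : hT w br σ g = (Module.finrank K V : ℤ) -
      (Module.finrank K (V ⊓ I : Submodule K (MvPolynomial (Fin 5) K)) : ℤ) := rfl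
  have h4 : cnt w A g = (Module.finrank K W : ℤ) := by
    rw [hWfin]
    rfl
  rw [h3, h4]
  omega

end

end Pool.Agent.Lib.MP_745d3a_ag.GM

end
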