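import Pool.Agent.Lib.MP_745d3a_ag.MainTwo

/-!
Rank two modules graded by total degree and one weight: definitions.
-/

section

set_option autoImplicit false
set_option linter.unusedSectionVars false

open MvPolynomial

namespace Pool.Agent.Lib.MP_745d3a_ag.GM

/-- The weights of the variables: total degree one and weight `w a`. -/
def om (w : Fin 5 → ℤ) : Fin 5 → ℤ × ℤ := fun a => (1, w a)

/-- The weight of a set of variables. -/
def chi (w : Fin 5 → ℤ) (U : Finset (Fin 5)) : ℤ × ℤ := ∑ a ∈ U, om w a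

/-- Iterated backward difference in the directions `om w a`, `a ∈ A`. -/
def Nab (w : Fin 5 → ℤ) (A : Finset (Fin 5)) (f : ℤ × ℤ → ℤ) (g : ℤ × ℤ) : ℤ :=
  ∑ U ∈ A.powerset, (-1) ^ U.card * f (g - chi w U)

section graded

variable {K M : Type*} [Field K] [AddCommGroup M] [Module (MvPolynomial (Fin 5) K) M]
  [Module K M] [IsScalarTower K (MvPolynomial (Fin 5) K) M]
  (w : Fin 5 → ℤ) (𝓜 : ℤ × ℤ → AddSubgroup M) [DirectSum.Decomposition 𝓜]
  [SetLike.GradedSMul (weightedHomogeneousSubmodule K (om w)) 𝓜]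

/-- The graded piece as a `K`-subspace. -/
def pc (g : ℤ × ℤ) : Submodule K M where
  carrier := 𝓜 g
  add_mem' := (𝓜 g).add_mem
  zero_mem' := (𝓜 g).zero_mem
  smul_mem' := by
    intro c m hm
    have h1 : IsWeightedHomogeneous (om w) (C c : MvPolynomial (Fin 5) K) 0 :=
      isWeightedHomogeneous_C _ _
    have h2 := smul_mem' (om w) 𝓜 h1 hm
    rw [zero_add] at h2
    have h3 : (C c : MvPolynomial (Fin 5) K) • m = c • m := by
      rw [← MvPolynomial.algebraMap_eq, algebraMap_smul]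
    rw [← h3]
    exact h2

lemma mem_pc {g : ℤ × ℤ} {m : M} : m ∈ pc (K := K) w 𝓜 g ↔ m ∈ 𝓜 g := Iff.rfl

/-- The Hilbert function. -/
noncomputable def hM (K : Type*) {M : Type*} [Field K] [AddCommGroup M]
    [Module (MvPolynomial (Fin 5) K) M] [Module K M] [IsScalarTower K (MvPolynomial (Fin 5) K) M]
    (w : Fin 5 → ℤ) (𝓜 : ℤ × ℤ → AddSubgroup M) [DirectSum.Decomposition 𝓜]
    [SetLike.GradedSMul (weightedHomogeneousSubmodule K (om w)) 𝓜] (g : ℤ × ℤ) : ℤ :=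
  (Module.finrank K (pc (K := K) w 𝓜 g) : ℤ)

/-- The numerator of the Hilbert series. -/
noncomputable def QM (K : Type*) {M : Type*} [Field K] [AddCommGroup M]
    [Module (MvPolynomial (Fin 5) K) M] [Module K M] [IsScalarTower K (MvPolynomial (Fin 5) K) M]
    (w : Fin 5 → ℤ) (𝓜 : ℤ × ℤ → AddSubgroup M) [DirectSum.Decomposition 𝓜]
    [SetLike.GradedSMul (weightedHomogeneousSubmodule K (om w)) 𝓜] : ℤ × ℤ → ℤ :=
  Nab w Finset.univ (hM K w 𝓜)

/-- A `K`-linear map of degree `τ`. -/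
def Deg (𝓜 : ℤ × ℤ → AddSubgroup M) (A : M →ₗ[K] M) (τ : ℤ × ℤ) : Prop :=
  ∀ g, ∀ z ∈ 𝓜 g, A z ∈ 𝓜 (g + τ)

/-- An alternating pairing with values in the polynomial ring, of degree `-d`, satisfying the
Plücker relation, whose values generate an ideal containing a power of each variable. -/
structure Pairing (d : ℤ × ℤ)
    (br : M →ₗ[MvPolynomial (Fin 5) K] M →ₗ[MvPolynomial (Fin 5) K] MvPolynomial (Fin 5) K) :
    Prop where
  alt : ∀ z, br z z = 0
  plu : ∀ a b c, br a b • c + br b c • a + br c a • b = 0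
  hom : ∀ g h, ∀ a ∈ 𝓜 g, ∀ b ∈ 𝓜 h, IsWeightedHomogeneous (om w) (br a b) (g + h - d)
  full : ∀ c : Fin 5, ∃ N : ℕ, (X c : MvPolynomial (Fin 5) K) ^ N ∈
    Ideal.span {p : MvPolynomial (Fin 5) K | ∃ a b, br a b = p}

/-- A homogeneous expansion of `x_c ^ N` in terms of values of the pairing. -/
structure Expn (d : ℤ × ℤ)
    (br : M →ₗ[MvPolynomial (Fin 5) K] M →ₗ[MvPolynomial (Fin 5) K] MvPolynomial (Fin 5) K)
    (c : Fin 5) (N n : ℕ) (s : Fin n → MvPolynomial (Fin 5) K) (g h : Fin n → ℤ × ℤ)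
    (u v : Fin n → M) : Prop where
  hu : ∀ k, u k ∈ 𝓜 (g k)
  hv : ∀ k, v k ∈ 𝓜 (h k)
  hs : ∀ k, IsWeightedHomogeneous (om w) (s k) (N • om w c - (g k + h k - d))
  sum : (X c : MvPolynomial (Fin 5) K) ^ N = ∑ k, s k * br (u k) (v k)

/-- A metric connection with denominator `Xp` of weight `ν`. -/
structure Conn
    (br : M →ₗ[MvPolynomial (Fin 5) K] M →ₗ[MvPolynomial (Fin 5) K] MvPolynomial (Fin 5) K)
    (Xp : MvPolynomial (Fin 5) K) (ν : ℤ × ℤ) (P : Fin 5 → M →ₗ[K] M) : Prop where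
  leib : ∀ a (s : MvPolynomial (Fin 5) K) (z : M),
    P a (s • z) = s • P a z + (Xp * pderiv a s) • z
  metric : ∀ a u v, br (P a u) v + br u (P a v) = Xp * pderiv a (br u v)
  hom : ∀ a, Deg 𝓜 (P a) (ν - om w a)

/-- The degree operator. -/
def IsDegOp (𝓜 : ℤ × ℤ → AddSubgroup M) (Lv : M →ₗ[K] M) : Prop :=
  ∀ g, ∀ z ∈ 𝓜 g, Lv z = (g.1 : K) • z

end graded

end Pool.Agent.Lib.MP_745d3a_ag.GM

end
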