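import Pool.Agent.Lib.MP_745d3a_ag.GM.OpC
import Pool.Agent.Lib.MP_745d3a_ag.GM.Defs

/-!
The trace identity.
-/

section

open Module MvPolynomial

set_option linter.unusedSectionVars false
set_option linter.unusedVariables false

namespace Pool.Agent.Lib.MP_745d3a_ag.Gm

variable {K : Type*} [Field K] {G : Type*} [AddCommGroup G] [DecidableEq G]
  {M : Type*} [AddCommGroup M] [Module K M] [Module (MvPolynomial (Fin 5) K) M]
  [IsScalarTower K (MvPolynomial (Fin 5) K) M]

/-- The weight of a set of variables. -/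
def om (ω : Fin 5 → G) (I : Finset (Fin 5)) : G := ∑ a ∈ I, ω a

lemma tsum_eq (ω : Fin 5 → G) (ξ : G →+ K) (I : Finset (Fin 5)) :
    tsum ω ξ I = ξ (om ω I) := by rw [tsum, om, map_sum]

/-- The numerator of the Hilbert series. -/
noncomputable def kap (V : G → Submodule K M) (ω : Fin 5 → G) (ζ : G) : ℤ :=
  ∑ I : Finset (Fin 5), (-1) ^ I.card * (finrank K (V (ζ - om ω I)) : ℤ)

/-- Alternating sums over pairs `I`, `I ∪ {a}` cancel. -/
lemma sum_erase_zero {N : Type*} [CommRing N] (a : Fin 5) (τ : Finset (Fin 5) → N) :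
    ∑ I : Finset (Fin 5), (-1) ^ I.card * τ (I.erase a) = 0 := by
  classical
  refine Finset.sum_involution (fun I _ => if a ∈ I then I.erase a else insert a I) ?_ ?_ ?_ ?_
  · intro I _
    by_cases ha : a ∈ I
    · have h1 : I.card = (I.erase a).card + 1 := by
        rw [Finset.card_erase_of_mem ha]
        have := Finset.card_pos.mpr ⟨a, ha⟩
        omega
      rw [if_pos ha, Finset.erase_idem, h1, pow_succ]; ring
    · rw [if_neg ha, Finset.card_insert_of_notMem ha, Finset.erase_insert ha,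
        Finset.erase_eq_of_notMem ha, pow_succ]; ring
  · intro I _ _
    by_cases ha : a ∈ I
    · rw [if_pos ha]; intro h
      rw [← h] at ha; exact Finset.notMem_erase a I ha
    · rw [if_neg ha]; intro h
      apply ha; rw [← h]; exact Finset.mem_insert_self a I
  · intro I _; exact Finset.mem_univ _
  · intro I _
    by_cases ha : a ∈ I
    · simp only [if_pos ha, Finset.notMem_erase, if_false]
      exact Finset.insert_erase ha
    · simp only [if_neg ha, Finset.mem_insert_self, if_true]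
      exact Finset.erase_insert ha

variable {ω : Fin 5 → G} {V : G → Submodule K M} [DirectSum.Decomposition V]
  {P : Pairing ω V} [CharZero K] [∀ g, FiniteDimensional K (V g)] {i j : Fin 5} {n : ℕ}

/-- The local traces. -/
noncomputable def Chart.θ (c : Chart P i j n) (a b : Fin 5) (g : G) : K :=
  gtr V g (c.d a b ∘ₗ c.C a b)

/-- The trace identity in each degree. -/
theorem trace_identity (c : Chart P i j n) {ξ : G →+ K} {c2 : K} (κ : c.Con ξ c2) (ζ : G) :
    (kap V ω ζ : K) * (ξ ζ ^ 2 - ξ P.δ * ξ ζ + c2) =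
      2⁻¹ * ∑ I : Finset (Fin 5), (-1) ^ I.card *
        ∑ a ∈ Iᶜ, ∑ b ∈ Iᶜ, (ξ (ω a) * ξ (ω b)) * c.θ a b (ζ - om ω I) := by
  classical
  -- the trace of the homotopy identity
  have h1 : ∀ I : Finset (Fin 5),
      ∑ a, ξ (ω a) * gtr V (ζ - om ω (I.erase a)) (mulX a ∘ₗ c.Z κ a (I.erase a)) =
      (ξ ζ ^ 2 - ξ P.δ * ξ ζ + c2) * (finrank K (V (ζ - om ω I)) : K) -
      2⁻¹ * ∑ a ∈ Iᶜ, ∑ b ∈ Iᶜ, (ξ (ω a) * ξ (ω b)) * c.θ a b (ζ - om ω I) := by
    intro I
    set g := ζ - om ω I with hg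
    have h2 : gtr V g (∑ a, ξ (ω a) • (if a ∈ I then c.Z κ a (I.erase a) ∘ₗ mulX a
        else mulX a ∘ₗ c.Z κ a I)) =
        gtr V g ((ξ ζ ^ 2 - ξ P.δ * ξ ζ + c2) • LinearMap.id -
          (2⁻¹ : K) • ∑ a ∈ Iᶜ, ∑ b ∈ Iᶜ, (ξ (ω a) * ξ (ω b)) • (c.d a b ∘ₗ c.C a b)) := by
      apply gtr_congr
      intro z hz
      have h3 := c.homotopy κ I z
      have h4 : wt V ξ z + tsum ω ξ I • z = ξ ζ • z := by
        rw [wt_mem V ξ hz, tsum_eq, hg, map_sub]; module
      rw [h4] at h3
      have h5 : wt V ξ (ξ ζ • z) + tsum ω ξ I • ξ ζ • z = (ξ ζ * ξ ζ) • z := by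
        rw [map_smul, wt_mem V ξ hz, tsum_eq, hg, map_sub]; module
      rw [h5] at h3
      have h6 : (∑ a, ξ (ω a) • (if a ∈ I then c.Z κ a (I.erase a) ∘ₗ mulX a
        else mulX a ∘ₗ c.Z κ a I)) z = ∑ a, ξ (ω a) • (if a ∈ I then c.Z κ a (I.erase a)
          ((X a : MvPolynomial (Fin 5) K) • z)
        else (X a : MvPolynomial (Fin 5) K) • c.Z κ a I z) := by
        rw [LinearMap.sum_apply]
        refine Finset.sum_congr rfl (fun a _ => ?_)
        rw [LinearMap.smul_apply]
        split_ifs <;> rfl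
      rw [h6, h3]
      simp only [LinearMap.sub_apply, LinearMap.smul_apply, LinearMap.sum_apply,
        LinearMap.id_apply, LinearMap.comp_apply]
      module
    rw [map_sub, map_smul, gtr_id, map_smul] at h2
    simp only [map_sum, map_smul, smul_eq_mul] at h2
    have h7 : ∀ a, gtr V g (if a ∈ I then c.Z κ a (I.erase a) ∘ₗ mulX a
        else mulX a ∘ₗ c.Z κ a I) =
        gtr V (ζ - om ω (I.erase a)) (mulX a ∘ₗ c.Z κ a (I.erase a)) := by
      intro a
      have hX : HasDeg V (mulX a : M →ₗ[K] M) (ω a) := fun g z hz =>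
        P.smul_mem _ _ (isWeightedHomogeneous_X K ω a) g z hz
      by_cases ha : a ∈ I
      · rw [if_pos ha, gtr_cyc V hX (c.Z_deg κ a (I.erase a)) (add_neg_cancel _) g]
        have e1 : g + ω a = ζ - om ω (I.erase a) := by
          rw [hg, om, om, ← Finset.sum_erase_add _ _ ha]; abel
        rw [e1]
      · rw [if_neg ha, Finset.erase_eq_of_notMem ha]
    simp only [h7] at h2
    rw [h2]
    rfl
  -- summation over `I`
  have h2 : ∑ I : Finset (Fin 5), (-1 : K) ^ I.card *
      ∑ a, ξ (ω a) * gtr V (ζ - om ω (I.erase a)) (mulX a ∘ₗ c.Z κ a (I.erase a)) = 0 := by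
    simp only [Finset.mul_sum]
    rw [Finset.sum_comm]
    refine Finset.sum_eq_zero (fun a _ => ?_)
    have h3 := sum_erase_zero a (fun J => ξ (ω a) *
      gtr V (ζ - om ω J) (mulX a ∘ₗ c.Z κ a J))
    exact h3
  simp only [h1, mul_sub] at h2
  rw [Finset.sum_sub_distrib, sub_eq_zero] at h2
  rw [kap, Int.cast_sum, Finset.sum_mul, Finset.mul_sum]
  have h3 : ∑ I : Finset (Fin 5), (((-1) ^ I.card * (finrank K (V (ζ - om ω I)) : ℤ) : ℤ) : K) *
      (ξ ζ ^ 2 - ξ P.δ * ξ ζ + c2) = ∑ I : Finset (Fin 5), (-1 : K) ^ I.card *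
      ((ξ ζ ^ 2 - ξ P.δ * ξ ζ + c2) * (finrank K (V (ζ - om ω I)) : K)) := by
    refine Finset.sum_congr rfl (fun I _ => ?_)
    push_cast
    ring
  rw [h3, h2]
  refine Finset.sum_congr rfl (fun I _ => ?_)
  ring

/-- The alternating sums of a function over subsets. -/
lemma sum_powerset_insert_diff {N : Type*} [CommRing N] (ω : Fin 5 → G) {J : Finset (Fin 5)}
    {e : Fin 5} (he : e ∉ J) (ψ : G → N) (g : G) :
    ∑ I ∈ (insert e J).powerset, (-1) ^ I.card * ψ (g + om ω I) =
    ∑ I ∈ J.powerset, (-1) ^ I.card * (ψ (g + om ω I) - ψ (g + ω e + om ω I)) := by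
  classical
  rw [Finset.sum_powerset_insert he, ← Finset.sum_add_distrib]
  refine Finset.sum_congr rfl (fun I hI => ?_)
  have h1 : e ∉ I := fun h => he (Finset.mem_powerset.mp hI h)
  rw [Finset.card_insert_of_notMem h1, om, om, Finset.sum_insert h1, add_assoc g (ω e), pow_succ]
  ring

/-- Third differences vanish. -/
def Third (φ : G → K) : Prop := ∀ u v w g : G,
  φ g - φ (g + u) - (φ (g + v) - φ (g + v + u)) -
    (φ (g + w) - φ (g + w + u) - (φ (g + w + v) - φ (g + w + v + u))) = 0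

lemma third_sum {φ : G → K} (hφ : Third φ) {a b : Fin 5} (hab : a ≠ b) (g : G) :
    ∑ I : Finset (Fin 5), (if a ∉ I ∧ b ∉ I then (-1) ^ I.card * φ (g + om ω I) else 0) = 0 := by
  classical
  obtain ⟨u, v, w, hu, hv, hw⟩ : ∃ u v w : Fin 5, u ∉ (∅ : Finset (Fin 5)) ∧
      v ∉ (insert u ∅ : Finset (Fin 5)) ∧ w ∉ (insert v (insert u ∅) : Finset (Fin 5)) ∧
      ({a, b} : Finset (Fin 5))ᶜ = insert w (insert v (insert u ∅)) := by
    have h1 : ({a, b} : Finset (Fin 5))ᶜ.card = 3 := by
      rw [Finset.card_compl, Finset.card_pair hab]; rfl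
    obtain ⟨w, v, u, h2, h3, h4, h5⟩ := Finset.card_eq_three.mp h1
    refine ⟨u, v, w, by simp, ?_, ?_, ?_⟩
    · simpa using h4
    · simp only [Finset.mem_insert, Finset.notMem_empty, or_false, not_or]
      exact ⟨h2, h3⟩
    · rw [h5]; rfl
  obtain ⟨hw, hJ⟩ := hw
  have h1 : ∑ I : Finset (Fin 5), (if a ∉ I ∧ b ∉ I then (-1) ^ I.card * φ (g + om ω I)
      else 0) = ∑ I ∈ ((({a, b} : Finset (Fin 5))ᶜ).powerset), (-1) ^ I.card *
        φ (g + om ω I) := by
    rw [← Finset.sum_filter]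
    refine Finset.sum_congr ?_ (fun _ _ => rfl)
    ext I
    simp only [Finset.mem_filter, Finset.mem_univ, true_and, Finset.mem_powerset]
    constructor
    · rintro ⟨h1, h2⟩ x hx
      rw [Finset.mem_compl, Finset.mem_insert, Finset.mem_singleton, not_or]
      exact ⟨fun h => h1 (h ▸ hx), fun h => h2 (h ▸ hx)⟩
    · intro h
      constructor
      · intro ha
        have := h ha
        simp at this
      · intro hb
        have := h hb
        simp at this
  rw [h1, hJ, sum_powerset_insert_diff ω hw φ g]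
  have h2 : ∀ ψ : G → K, ∑ I ∈ (insert v (insert u ∅) : Finset (Fin 5)).powerset,
      (-1) ^ I.card * (ψ (g + om ω I) - ψ (g + ω w + om ω I)) =
      ψ g - ψ (g + ω w) - (ψ (g + ω u) - ψ (g + ω w + ω u)) -
      ((ψ (g + ω v) - ψ (g + ω w + ω v)) - (ψ (g + ω v + ω u) - ψ (g + ω w + ω v + ω u))) := by
    intro ψ
    have k1 := sum_powerset_insert_diff ω hv (fun x => ψ x - ψ (x + ω w)) g
    have e1 : ∀ x y : G, x + ω w + y = x + y + ω w := fun x y => by abel
    simp only [e1] at k1 ⊢
    rw [k1]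
    have k2 := sum_powerset_insert_diff ω hu (fun x => ψ x - ψ (x + ω w) -
      (ψ (x + ω v) - ψ (x + ω v + ω w))) g
    have e2 : ∀ x y : G, x + ω v + y = x + y + ω v := fun x y => by abel
    simp only [e2] at k2 ⊢
    rw [k2]
    simp only [Finset.powerset_empty, Finset.sum_singleton, Finset.card_empty, pow_zero, one_mul,
      om, Finset.sum_empty, add_zero]
    have e3 : g + ω u + ω v = g + ω v + ω u := by abel
    rw [e3]
    ring
  rw [h2]
  have h3 := hφ (ω u) (ω v) (ω w) g
  have e1 : g + ω w + ω v + ω u = g + ω w + ω v + ω u := rfl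
  linear_combination h3

/-- Shifting finite sums. -/
lemma sum_shift {S T : Finset G} {θ φ : G → K} (hθ : ∀ g, g ∉ S → θ g = 0) (u : G)
    (hT : ∀ g ∈ S, g + u ∈ T) :
    ∑ ζ ∈ T, θ (ζ - u) * φ ζ = ∑ η ∈ S, θ η * φ (η + u) := by
  classical
  have h1 : ∑ η ∈ S, θ η * φ (η + u) = ∑ ζ ∈ S.image (fun η => η + u), θ (ζ - u) * φ ζ := by
    rw [Finset.sum_image (fun x _ y _ h => add_right_cancel h)]
    refine Finset.sum_congr rfl (fun η _ => ?_)
    rw [add_sub_cancel_right]
  rw [h1]
  symm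
  apply Finset.sum_subset
  · intro ζ hζ
    obtain ⟨η, hη, rfl⟩ := Finset.mem_image.mp hζ
    exact hT η hη
  · intro ζ _ hζ
    rw [hθ, zero_mul]
    intro h
    exact hζ (Finset.mem_image.mpr ⟨_, h, sub_add_cancel ζ u⟩)

/-- **The supertrace identity.** -/
theorem Chart.star (c : Chart P i j n) {S : Finset G}
    (hS : ∀ a b g, g ∉ S → ∀ z ∈ V g, c.C a b z = 0) :
    ∃ T : Finset G, ∀ (ξ : G →+ K) (c2 : K), Nonempty (c.Con ξ c2) →
      (∀ ζ, ζ ∉ T → (kap V ω ζ : K) * (ξ ζ ^ 2 - ξ P.δ * ξ ζ + c2) = 0) ∧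
      ∀ φ : G → K, Third φ →
        ∑ ζ ∈ T, (kap V ω ζ : K) * (ξ ζ ^ 2 - ξ P.δ * ξ ζ + c2) * φ ζ = 0 := by
  classical
  have hθ : ∀ a b g, g ∉ S → c.θ a b g = 0 := by
    intro a b g hg
    rw [Chart.θ, gtr_congr V g (U := 0), map_zero]
    intro z hz
    rw [LinearMap.comp_apply, hS a b g hg z hz, map_zero, LinearMap.zero_apply]
  have hθaa : ∀ a g, c.θ a a g = 0 := by
    intro a g
    rw [Chart.θ, gtr_congr V g (U := 0), map_zero]
    intro z hz
    have h1 : c.C a a z = 0 := by
      apply two_smul_zero (K := K)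
      nth_rewrite 1 [c.C_skew]
      exact neg_add_cancel _
    rw [LinearMap.comp_apply, h1, map_zero, LinearMap.zero_apply]
  refine ⟨(Finset.univ : Finset (Finset (Fin 5))).biUnion
    (fun I => S.image (fun g => g + om ω I)), ?_⟩
  set T := (Finset.univ : Finset (Finset (Fin 5))).biUnion
    (fun I => S.image (fun g => g + om ω I)) with hT
  rintro ξ c2 ⟨κ⟩
  constructor
  · intro ζ hζ
    rw [trace_identity c κ ζ]
    have h1 : ∀ I a b, c.θ a b (ζ - om ω I) = 0 := by
      intro I a b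
      apply hθ
      intro h
      apply hζ
      rw [hT, Finset.mem_biUnion]
      exact ⟨I, Finset.mem_univ _, Finset.mem_image.mpr ⟨_, h, sub_add_cancel _ _⟩⟩
    simp only [h1, mul_zero, Finset.sum_const_zero]
  · intro φ hφ
    have h1 : ∀ ζ, (kap V ω ζ : K) * (ξ ζ ^ 2 - ξ P.δ * ξ ζ + c2) * φ ζ =
        2⁻¹ * ∑ a, ∑ b, (ξ (ω a) * ξ (ω b)) * ∑ I : Finset (Fin 5),
          (if a ∉ I ∧ b ∉ I then (-1) ^ I.card * (c.θ a b (ζ - om ω I) * φ ζ) else 0) := by
      intro ζ
      rw [trace_identity c κ ζ, mul_assoc]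
      congr 1
      rw [Finset.sum_mul]
      have h2 : ∀ I : Finset (Fin 5), (-1 : K) ^ I.card *
          (∑ a ∈ Iᶜ, ∑ b ∈ Iᶜ, (ξ (ω a) * ξ (ω b)) * c.θ a b (ζ - om ω I)) * φ ζ =
          ∑ a, ∑ b, (ξ (ω a) * ξ (ω b)) * (if a ∉ I ∧ b ∉ I then
            (-1) ^ I.card * (c.θ a b (ζ - om ω I) * φ ζ) else 0) := by
        intro I
        have e1 : ∀ f : Fin 5 → K, ∑ a ∈ Iᶜ, f a = ∑ a, (if a ∉ I then f a else 0) := by
          intro f
          rw [← Finset.sum_filter]
          refine Finset.sum_congr ?_ (fun _ _ => rfl)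
          ext a; simp
        rw [e1, Finset.mul_sum, Finset.sum_mul]
        refine Finset.sum_congr rfl (fun a _ => ?_)
        by_cases ha : a ∈ I
        · simp [ha]
        · rw [if_pos ha, e1, Finset.mul_sum, Finset.sum_mul]
          refine Finset.sum_congr rfl (fun b _ => ?_)
          by_cases hb : b ∈ I
          · simp [hb]
          · rw [if_pos hb, if_pos ⟨ha, hb⟩]; ring
      rw [Finset.sum_congr rfl (fun I _ => h2 I), Finset.sum_comm]
      refine Finset.sum_congr rfl (fun a _ => ?_)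
      rw [Finset.sum_comm]
      refine Finset.sum_congr rfl (fun b _ => ?_)
      rw [Finset.mul_sum]
    simp only [h1]
    rw [← Finset.mul_sum, Finset.sum_comm]
    have h3 : ∀ a, ∑ ζ ∈ T, ∑ b, (ξ (ω a) * ξ (ω b)) * ∑ I : Finset (Fin 5),
          (if a ∉ I ∧ b ∉ I then (-1) ^ I.card * (c.θ a b (ζ - om ω I) * φ ζ) else 0) = 0 := by
      intro a
      rw [Finset.sum_comm]
      refine Finset.sum_eq_zero (fun b _ => ?_)
      rw [← Finset.mul_sum]
      by_cases hab : a = b
      · subst hab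
        simp only [hθaa, zero_mul, mul_zero, ite_self, Finset.sum_const_zero]
      rw [Finset.sum_comm]
      have h4 : ∀ I : Finset (Fin 5), ∑ ζ ∈ T, (if a ∉ I ∧ b ∉ I then
          (-1) ^ I.card * (c.θ a b (ζ - om ω I) * φ ζ) else 0) =
          ∑ η ∈ S, c.θ a b η * (if a ∉ I ∧ b ∉ I then (-1) ^ I.card * φ (η + om ω I) else 0) := by
        intro I
        by_cases hI : a ∉ I ∧ b ∉ I
        · simp only [if_pos hI]
          rw [← Finset.mul_sum, sum_shift (hθ a b) (om ω I) (fun g hg => by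
            rw [hT, Finset.mem_biUnion]
            exact ⟨I, Finset.mem_univ _, Finset.mem_image.mpr ⟨_, hg, rfl⟩⟩), Finset.mul_sum]
          refine Finset.sum_congr rfl (fun η _ => ?_)
          ring
        · simp only [if_neg hI, Finset.sum_const_zero, mul_zero]
      rw [Finset.sum_congr rfl (fun I _ => h4 I), Finset.sum_comm]
      have h5 : ∀ η ∈ S, ∑ I : Finset (Fin 5), c.θ a b η *
          (if a ∉ I ∧ b ∉ I then (-1) ^ I.card * φ (η + om ω I) else 0) = 0 := by
        intro η _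
        rw [← Finset.mul_sum, third_sum hφ hab, mul_zero]
      rw [Finset.sum_congr rfl h5, Finset.sum_const_zero, mul_zero]
    rw [Finset.sum_congr rfl (fun a _ => h3 a), Finset.sum_const_zero, mul_zero]

end Pool.Agent.Lib.MP_745d3a_ag.Gm

end

section

open Module MvPolynomial

set_option linter.unusedSectionVars false
set_option linter.unusedVariables false

namespace Pool.Agent.Lib.MP_745d3a_ag.Gm

variable {K : Type*} [Field K] {G : Type*} [AddCommGroup G] [DecidableEq G]
  {M : Type*} [AddCommGroup M] [Module K M] [Module (MvPolynomial (Fin 5) K) M]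
  [IsScalarTower K (MvPolynomial (Fin 5) K) M]
  {ω : Fin 5 → G} {V : G → Submodule K M} [DirectSum.Decomposition V]

/-- Homogeneous generators. -/
lemma exists_hom_gen [Module.Finite (MvPolynomial (Fin 5) K) M] :
    ∃ (k : ℕ) (u : Fin k → M) (e : Fin k → G), (∀ r, u r ∈ V (e r)) ∧
      Submodule.span (MvPolynomial (Fin 5) K) (Set.range u) = ⊤ := by
  classical
  obtain ⟨T, hT⟩ := (Module.Finite.fg_top : (⊤ : Submodule (MvPolynomial (Fin 5) K) M).FG)
  let H : Finset (G × M) := T.biUnion (fun t =>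
    (DirectSum.decompose V t).support.image (fun h => (h, ((DirectSum.decompose V t) h : M))))
  let ι := H
  have e := (Fintype.equivFin H).symm
  refine ⟨Fintype.card H, fun r => (e r).1.2, fun r => (e r).1.1, ?_, ?_⟩
  · intro r
    have h1 := (e r).2
    simp only [H, Finset.mem_biUnion, Finset.mem_image] at h1
    obtain ⟨t, _, h, _, h2⟩ := h1
    have h3 : ((e r).1.2 : M) = ((DirectSum.decompose V t) h : M) := by rw [← h2]
    have h4 : ((e r).1.1 : G) = h := by rw [← h2]
    change ((e r).1.2 : M) ∈ V ((e r).1.1)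
    rw [h3, h4]
    exact Subtype.mem _
  · rw [eq_top_iff, ← hT, Submodule.span_le]
    intro t ht
    have h1 := DirectSum.sum_support_decompose V t
    rw [SetLike.mem_coe, ← h1]
    refine Submodule.sum_mem _ (fun h hh => Submodule.subset_span ?_)
    have h2 : (h, ((DirectSum.decompose V t) h : M)) ∈ H := by
      simp only [H, Finset.mem_biUnion, Finset.mem_image]
      exact ⟨t, ht, h, hh, rfl⟩
    exact ⟨e.symm ⟨_, h2⟩, by simp⟩

/-- The graded pieces are finite dimensional. -/
lemma fin_dim (P : Pairing ω V) [Module.Finite (MvPolynomial (Fin 5) K) M]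
    (hpos : ∃ φ : G →+ ℤ, ∀ a, 0 < φ (ω a)) (g : G) : FiniteDimensional K (V g) := by
  classical
  obtain ⟨φ, hφ⟩ := hpos
  obtain ⟨k, u, e, hu, hspan⟩ := exists_hom_gen (K := K) (V := V) (M := M)
  obtain ⟨N, hN⟩ : ∃ N : ℕ, ∀ r, φ g - φ (e r) ≤ N := by
    refine ⟨∑ r, (φ g - φ (e r)).toNat, fun r => ?_⟩
    have h1 : (φ g - φ (e r)).toNat ≤ ∑ r, (φ g - φ (e r)).toNat :=
      Finset.single_le_sum (f := fun r => (φ g - φ (e r)).toNat) (fun _ _ => Nat.zero_le _)
        (Finset.mem_univ r)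
    have h2 := Int.self_le_toNat (φ g - φ (e r))
    have h3 : (((φ g - φ (e r)).toNat : ℕ) : ℤ) ≤ ((∑ r, (φ g - φ (e r)).toNat : ℕ) : ℤ) := by
      exact_mod_cast h1
    linarith
  let B : Finset M := (Finset.univ : Finset ((Fin 5 → Fin (N + 1)) × Fin k)).image
    (fun p => (monomial (Finsupp.equivFunOnFinite.symm (fun a => (p.1 a : ℕ))) (1 : K) :
      MvPolynomial (Fin 5) K) • u p.2)
  have key : ∀ z : M, (pr V g z : M) ∈ Submodule.span K (B : Set M) := by
    intro z
    have hz : z ∈ Submodule.span (MvPolynomial (Fin 5) K) (Set.range u) := by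
      rw [hspan]; trivial
    have h1 : ∀ q : MvPolynomial (Fin 5) K, (pr V g (q • z) : M) ∈
        Submodule.span K (B : Set M) := by
      induction hz using Submodule.span_induction with
      | mem x hx =>
        obtain ⟨r, rfl⟩ := hx
        intro q
        induction q using MvPolynomial.induction_on' with
        | monomial m c =>
          have h2 := P.smul_mem _ _ (isWeightedHomogeneous_monomial ω m c rfl) _ _ (hu r)
          by_cases hg : e r + Finsupp.weight ω m = g
          · rw [hg] at h2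
            rw [pr_mem V h2]
            have h3 : (monomial m c : MvPolynomial (Fin 5) K) = c • monomial m 1 := by
              rw [smul_monomial, smul_eq_mul, mul_one]
            rw [h3, smul_assoc]
            refine Submodule.smul_mem _ _ (Submodule.subset_span ?_)
            have h4 : ∀ a, m a ≤ N := by
              intro a
              have h5 : φ g - φ (e r) = ∑ b, (m b : ℤ) * φ (ω b) := by
                rw [← hg, map_add, Finsupp.weight_apply,
                  Finsupp.sum_fintype _ _ (by intro κ; simp), map_sum]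
                simp only [map_nsmul, nsmul_eq_mul]
                ring
              have h6 : (m a : ℤ) ≤ ∑ b, (m b : ℤ) * φ (ω b) := by
                have h7 : (m a : ℤ) * φ (ω a) ≤ ∑ b, (m b : ℤ) * φ (ω b) :=
                  Finset.single_le_sum (f := fun b => (m b : ℤ) * φ (ω b))
                    (fun b _ => mul_nonneg (by positivity) (hφ b).le) (Finset.mem_univ a)
                have h8 : (m a : ℤ) ≤ (m a : ℤ) * φ (ω a) :=
                  le_mul_of_one_le_right (by positivity) (hφ a)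
                linarith
              have := hN r
              omega
            rw [Finset.mem_coe, Finset.mem_image]
            refine ⟨(fun a => ⟨m a, Nat.lt_succ_of_le (h4 a)⟩, r), Finset.mem_univ _, ?_⟩
            have : (Finsupp.equivFunOnFinite.symm fun a => m a) = m := by ext a; rfl
            simp only [this]
          · rw [pr_ne V h2 hg]; exact Submodule.zero_mem _
        | add a b ha hb =>
          rw [add_smul, map_add, Submodule.coe_add]; exact Submodule.add_mem _ ha hb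
      | zero => intro q; rw [smul_zero, map_zero]; exact Submodule.zero_mem _
      | add x y _ _ hx hy =>
        intro q; rw [smul_add, map_add, Submodule.coe_add]
        exact Submodule.add_mem _ (hx q) (hy q)
      | smul a x _ hx => intro q; rw [smul_smul]; exact hx _
    have := h1 1
    rwa [one_smul] at this
  have hle : V g ≤ Submodule.span K (B : Set M) := by
    intro z hz
    have := key z
    rwa [pr_mem V hz] at this
  have : FiniteDimensional K (Submodule.span K (B : Set M)) :=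
    FiniteDimensional.span_finset K B
  exact Submodule.finiteDimensional_of_le hle

/-- **The supertrace identity.** -/
theorem star_main [CharZero K] (P : Pairing ω V) [Module.Finite (MvPolynomial (Fin 5) K) M]
    (hpos : ∃ φ : G →+ ℤ, ∀ a, 0 < φ (ω a)) {i j : Fin 5} (hij : i ≠ j)
    (hreg : ∀ (n : ℕ) (u v : M), (X j : MvPolynomial (Fin 5) K) ^ n • u =
      (X i : MvPolynomial (Fin 5) K) ^ n • v →
      ∃ w : M, u = (X i : MvPolynomial (Fin 5) K) ^ n • w) :
    ∃ T : Finset G, ∀ ξ : G →+ K, ∃ c2 : K,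
      (∀ ζ, ζ ∉ T → (kap V ω ζ : K) * (ξ ζ ^ 2 - ξ P.δ * ξ ζ + c2) = 0) ∧
      ∀ φ : G → K, Third φ →
        ∑ ζ ∈ T, (kap V ω ζ : K) * (ξ ζ ^ 2 - ξ P.δ * ξ ζ + c2) * φ ζ = 0 := by
  have : ∀ g, FiniteDimensional K (V g) := fin_dim P hpos
  obtain ⟨C⟩ := exists_fam P
  obtain ⟨ε, h1, h2, h3⟩ := exists_eps C i j hij
  let E : Eps C i j := ⟨ε, h1, h2, h3⟩
  obtain ⟨c, hc⟩ := exists_chart E hij (hreg (2 * P.N))
  obtain ⟨S, hS⟩ := C_finite c (fun a b z e => by rw [hc]; exact E.tor_all a b z e)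
  obtain ⟨T, hT⟩ := c.star hS
  refine ⟨T, fun ξ => ?_⟩
  obtain ⟨c2, hc2⟩ := exists_con hpos E c hc ξ
  exact ⟨c2, hT ξ c2 hc2⟩

end Pool.Agent.Lib.MP_745d3a_ag.Gm

end

section

set_option autoImplicit false
set_option linter.unusedSectionVars false
set_option linter.unusedVariables false

open MvPolynomial

namespace Pool.Agent.Lib.MP_745d3a_ag.GM

section

variable {K M : Type*} [Field K] [AddCommGroup M]
  [Module (MvPolynomial (Fin 5) K) M]
  [Module K M] [IsScalarTower K (MvPolynomial (Fin 5) K) M]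
  (w : Fin 5 → ℤ) (𝓜 : ℤ × ℤ → AddSubgroup M) [DirectSum.Decomposition 𝓜]
  [SetLike.GradedSMul (weightedHomogeneousSubmodule K (om w)) 𝓜]

/-- The inclusion of the graded piece. -/
def toPc (g : ℤ × ℤ) : 𝓜 g →+ pc (K := K) w 𝓜 g where
  toFun x := ⟨x.1, x.2⟩
  map_zero' := rfl
  map_add' _ _ := rfl

/-- The decomposition into `K`-subspaces. -/
noncomputable instance pcDecomposition : DirectSum.Decomposition (pc (K := K) w 𝓜) where
  decompose' m := DirectSum.map (toPc (K := K) w 𝓜) (DirectSum.decompose 𝓜 m)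
  left_inv m := by
    have h : ∀ x : DirectSum (ℤ × ℤ) (fun g => 𝓜 g),
        DirectSum.coeAddMonoidHom (pc (K := K) w 𝓜) (DirectSum.map (toPc (K := K) w 𝓜) x) =
        DirectSum.coeAddMonoidHom 𝓜 x := by
      intro x
      induction x using DirectSum.induction_on with
      | zero => rw [map_zero, map_zero, map_zero]
      | of i x =>
        rw [DirectSum.map_of, DirectSum.coeAddMonoidHom_of, DirectSum.coeAddMonoidHom_of]
        rfl
      | add x y hx hy => rw [map_add, map_add, map_add, hx, hy]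
    exact (h _).trans (DirectSum.Decomposition.left_inv m)
  right_inv x := by
    change DirectSum.map (toPc (K := K) w 𝓜) (DirectSum.decompose 𝓜
      (DirectSum.coeAddMonoidHom (pc (K := K) w 𝓜) x)) = x
    induction x using DirectSum.induction_on with
    | zero => rw [map_zero, DirectSum.decompose_zero, map_zero]
    | of i x =>
      rw [DirectSum.coeAddMonoidHom_of]
      have h1 : DirectSum.decompose 𝓜 (x : M) = DirectSum.of (fun g => 𝓜 g) i ⟨x, x.2⟩ :=
        DirectSum.decompose_of_mem 𝓜 x.2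
      rw [h1, DirectSum.map_of]
      rfl
    | add x y hx hy => rw [map_add, DirectSum.decompose_add, map_add, hx, hy]

end

section

variable {K M : Type*} [Field K] [CharZero K] [AddCommGroup M]
  [Module (MvPolynomial (Fin 5) K) M]
  [Module K M] [IsScalarTower K (MvPolynomial (Fin 5) K) M]
  [Module.IsReflexive (MvPolynomial (Fin 5) K) M] [Module.Finite (MvPolynomial (Fin 5) K) M]
  {w : Fin 5 → ℤ} {𝓜 : ℤ × ℤ → AddSubgroup M} [DirectSum.Decomposition 𝓜]
  [SetLike.GradedSMul (weightedHomogeneousSubmodule K (om w)) 𝓜]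

/-- The pairing in the sense of `Gm`. -/
lemma exists_gm {d : ℤ × ℤ}
    {br : M →ₗ[MvPolynomial (Fin 5) K] M →ₗ[MvPolynomial (Fin 5) K] MvPolynomial (Fin 5) K}
    (P : Pairing w 𝓜 d br) : ∃ Q : Gm.Pairing (om w) (pc (K := K) w 𝓜), Q.B = br ∧ Q.δ = d := by
  have hskew : ∀ u v, br u v = - br v u := by
    intro u v
    have h := P.alt (u + v)
    simp only [map_add, LinearMap.add_apply, P.alt, zero_add, add_zero] at h
    linear_combination h
  choose N hN using P.full
  refine ⟨{ B := br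
            δ := d
            N := ∑ c, N c
            alt := P.alt
            rank2 := ?_
            hom := P.hom
            van := ?_
            smul_mem := ?_
            tf := fun a z h => torsionfree_of_reflexive a z h }, rfl, rfl⟩
  · intro u v z
    have h := P.plu u v z
    rw [hskew v z, neg_smul] at h
    linear_combination (norm := module) h
  · intro c
    have h1 : N c ≤ ∑ c, N c :=
      Finset.single_le_sum (fun _ _ => Nat.zero_le _) (Finset.mem_univ c)
    have h2 : (X c : MvPolynomial (Fin 5) K) ^ (∑ c, N c) =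
        X c ^ (∑ c, N c - N c) * X c ^ N c := by
      rw [← pow_add, Nat.sub_add_cancel h1]
    rw [h2]
    refine Ideal.mul_mem_left _ _ ?_
    have h3 : {p : MvPolynomial (Fin 5) K | ∃ a b, br a b = p} =
        Set.range (fun p : M × M => br p.1 p.2) := by
      ext p
      simp only [Set.mem_ofPred_eq, Set.mem_range, Prod.exists]
    rw [← h3]
    exact hN c
  · intro f e hf g z hz
    have := smul_mem' (om w) 𝓜 hf hz
    rwa [add_comm] at this

/-- **The supertrace identity** for all directions. -/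
theorem TI_all {d : ℤ × ℤ}
    {br : M →ₗ[MvPolynomial (Fin 5) K] M →ₗ[MvPolynomial (Fin 5) K] MvPolynomial (Fin 5) K}
    (P : Pairing w 𝓜 d br) :
    ∃ T : Finset (ℤ × ℤ), ∀ ξ : ℤ × ℤ →+ K, ∃ c2 : K,
      (∀ ζ, ζ ∉ T → (QM K w 𝓜 ζ : K) * (ξ ζ ^ 2 - ξ d * ξ ζ + c2) = 0) ∧
      ∀ φ : ℤ × ℤ → K, Gm.Third φ →
        ∑ ζ ∈ T, (QM K w 𝓜 ζ : K) * (ξ ζ ^ 2 - ξ d * ξ ζ + c2) * φ ζ = 0 := by
  obtain ⟨Q, hQ1, hQ2⟩ := exists_gm P
  have h1 : ∀ ζ, Gm.kap (pc (K := K) w 𝓜) (om w) ζ = QM K w 𝓜 ζ := by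
    intro ζ
    rw [Gm.kap, QM, Nab]
    have : (Finset.univ : Finset (Fin 5)).powerset = Finset.univ := by
      ext I; simp
    rw [this]
    rfl
  have h2 := Gm.star_main Q ⟨AddMonoidHom.fst ℤ ℤ, fun a => by simp [om]⟩
    (i := 0) (j := 1) (by decide) (by
    intro n u v huv
    have hp : Prime (X 0 : MvPolynomial (Fin 5) K) := MvPolynomial.X_prime
    obtain ⟨m, hm, _⟩ := hartogs (M := M) (a := (X 0 : MvPolynomial (Fin 5) K) ^ n)
      (b := X 1 ^ n) (pow_ne_zero _ (X_ne_zero _)) (by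
      intro h hd
      refine hp.pow_dvd_of_dvd_mul_left n ?_ hd
      intro hd
      have h6 := hp.dvd_of_dvd_pow hd
      rw [MvPolynomial.X_dvd_X] at h6
      simp at h6) huv
    exact ⟨m, hm⟩)
  simp only [h1, hQ2] at h2
  exact h2

/-- **The supertrace identity.** -/
theorem TI {d : ℤ × ℤ}
    {br : M →ₗ[MvPolynomial (Fin 5) K] M →ₗ[MvPolynomial (Fin 5) K] MvPolynomial (Fin 5) K}
    (P : Pairing w 𝓜 d br) (hQ : (Function.support (QM K w 𝓜)).Finite) :
    ∃ c2 : K, ∀ (f g : ℤ × ℤ →+ K) (a b : K),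
      ∑ᶠ ζ : ℤ × ℤ, (QM K w 𝓜 ζ : K) * ((ζ.1 : K) ^ 2 - (d.1 : K) * (ζ.1 : K) + c2) *
        ((f ζ + a) * (g ζ + b)) = 0 := by
  obtain ⟨T, hT⟩ := TI_all P
  let ξ : ℤ × ℤ →+ K := (Int.castAddHom K).comp (AddMonoidHom.fst ℤ ℤ)
  have hξ : ∀ ζ, ξ ζ = (ζ.1 : K) := fun ζ => rfl
  obtain ⟨c2, h1, h2⟩ := hT ξ
  refine ⟨c2, fun f g a b => ?_⟩
  have h3 := h2 (fun ζ => (f ζ + a) * (g ζ + b)) (by
    intro u v w' x
    simp only [map_add]
    ring)
  rw [finsum_eq_sum_of_support_subset (s := T)]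
  · simpa only [hξ] using h3
  · intro ζ hζ
    by_contra hcon
    apply hζ
    have h4 := h1 ζ (by simpa using hcon)
    rw [hξ, hξ] at h4
    change (QM K w 𝓜 ζ : K) * ((ζ.1 : K) ^ 2 - (d.1 : K) * (ζ.1 : K) + c2) *
      ((f ζ + a) * (g ζ + b)) = 0
    rw [h4, zero_mul]

end

end Pool.Agent.Lib.MP_745d3a_ag.GM

end
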