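import Pool.Agent.Lib.MP_745d3a_ag.GM.Mom
import Pool.Agent.Lib.MP_745d3a_ag.GM.Good
import Pool.Agent.Lib.MP_745d3a_ag.GM.OpD
import Pool.Agent.Lib.MP_745d3a_ag.GM.Cong
import Pool.Agent.Lib.MP_745d3a_ag.GM.Cases

/-!
The law of the module.
-/

section

set_option autoImplicit false
set_option linter.unusedSectionVars false
set_option linter.unusedSimpArgs false
set_option linter.unusedVariables false

open MvPolynomial

namespace Pool.Agent.Lib.MP_745d3a_ag.GM

section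

variable {K M : Type*} [Field K] [CharZero K] [AddCommGroup M]
  [Module (MvPolynomial (Fin 5) K) M]
  [Module.IsReflexive (MvPolynomial (Fin 5) K) M] [Module.Finite (MvPolynomial (Fin 5) K) M]
  {w : Fin 5 → ℤ} {𝓜 : ℤ × ℤ → AddSubgroup M} [DirectSum.Decomposition 𝓜]
  [SetLike.GradedSMul (weightedHomogeneousSubmodule K (om w)) 𝓜]
  [Module K M] [IsScalarTower K (MvPolynomial (Fin 5) K) M]
  {d : ℤ × ℤ}
  {br : M →ₗ[MvPolynomial (Fin 5) K] M →ₗ[MvPolynomial (Fin 5) K] MvPolynomial (Fin 5) K}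

omit [Module.IsReflexive (MvPolynomial (Fin 5) K) M] [Module.Finite (MvPolynomial (Fin 5) K) M] in
private lemma N1_cast (hQ : (Function.support (QM K w 𝓜)).Finite) (f : ℤ × ℤ → ℚ) :
    ((mom (QM K w 𝓜) f : ℚ) : K) = ∑ ζ ∈ hQ.toFinset, (QM K w 𝓜 ζ : K) * ((f ζ : ℚ) : K) := by
  have h : mom (QM K w 𝓜) f = ∑ ζ ∈ hQ.toFinset, (QM K w 𝓜 ζ : ℚ) * f ζ := by
    unfold mom
    apply finsum_eq_sum_of_support_subset
    intro ζ hζ
    simp only [Function.mem_support, ne_eq, mul_eq_zero, not_or, Int.cast_eq_zero] at hζ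
    simpa using hζ.1
  rw [h]
  push_cast
  rfl

/-- The additive map `ζ ↦ u ζ.1 + v ζ.2`. -/
private def N1_lin (u v : K) : ℤ × ℤ →+ K where
  toFun ζ := u * (ζ.1 : K) + v * (ζ.2 : K)
  map_zero' := by simp
  map_add' ζ η := by
    simp only [Prod.fst_add, Prod.snd_add, Int.cast_add]
    ring

theorem ti_rat (P : Pairing w 𝓜 d br) (hQ : (Function.support (QM K w 𝓜)).Finite)
    (h1 : mom (QM K w 𝓜) (fun _ => 1) = 2) (x y x' y' : ℚ) :
    2 * mom (QM K w 𝓜) (fun g => (tw d g).1 ^ 2 * (ev (tw d g) x y * ev (tw d g) x' y')) =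
      mom (QM K w 𝓜) (fun g => (tw d g).1 ^ 2) *
        mom (QM K w 𝓜) (fun g => ev (tw d g) x y * ev (tw d g) x' y') := by
  obtain ⟨c2, hc⟩ := TI P hQ
  have hc' : ∀ (f g : ℤ × ℤ →+ K) (a b : K),
      ∑ ζ ∈ hQ.toFinset, (QM K w 𝓜 ζ : K) * ((ζ.1 : K) ^ 2 - (d.1 : K) * (ζ.1 : K) + c2) *
        ((f ζ + a) * (g ζ + b)) = 0 := by
    intro f g a b
    rw [← hc f g a b]
    symm
    apply finsum_eq_sum_of_support_subset
    intro ζ hζ
    simp only [Function.mem_support, ne_eq, mul_eq_zero, not_or, Int.cast_eq_zero] at hζ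
    simpa using hζ.1.1
  have key : ((mom (QM K w 𝓜)
      (fun g => (tw d g).1 ^ 2 * (ev (tw d g) x y * ev (tw d g) x' y')) : ℚ) : K) =
      ((d.1 : K) ^ 2 - 4 * c2) *
        ((mom (QM K w 𝓜) (fun g => ev (tw d g) x y * ev (tw d g) x' y') : ℚ) : K) := by
    have h := hc' (N1_lin (2 * (x : K)) (2 * (y : K))) (N1_lin (2 * (x' : K)) (2 * (y' : K)))
      (-((d.1 : K) * x + (d.2 : K) * y)) (-((d.1 : K) * x' + (d.2 : K) * y'))
    rw [N1_cast hQ, N1_cast hQ, Finset.mul_sum, ← sub_eq_zero, ← Finset.sum_sub_distrib]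
    have h4 := congrArg (fun z : K => 4 * z) h
    simp only [mul_zero] at h4
    rw [Finset.mul_sum] at h4
    rw [← h4]
    apply Finset.sum_congr rfl
    intro ζ _
    simp only [N1_lin, AddMonoidHom.coe_mk, ZeroHom.coe_mk, ev, tw]
    push_cast
    ring
  have key1 : ((mom (QM K w 𝓜) (fun g => (tw d g).1 ^ 2) : ℚ) : K) =
      ((d.1 : K) ^ 2 - 4 * c2) * ((mom (QM K w 𝓜) (fun _ => 1) : ℚ) : K) := by
    have h := hc' 0 0 1 1
    rw [N1_cast hQ, N1_cast hQ, Finset.mul_sum, ← sub_eq_zero, ← Finset.sum_sub_distrib]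
    have h4 := congrArg (fun z : K => 4 * z) h
    simp only [mul_zero] at h4
    rw [Finset.mul_sum] at h4
    rw [← h4]
    apply Finset.sum_congr rfl
    intro ζ _
    simp only [AddMonoidHom.zero_apply, tw]
    push_cast
    ring
  rw [h1] at key1
  apply Rat.cast_injective (α := K)
  push_cast
  rw [key, key1]
  push_cast
  ring

end

end Pool.Agent.Lib.MP_745d3a_ag.GM

end

section

set_option autoImplicit false
set_option linter.unusedSectionVars false
set_option linter.unusedSimpArgs false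
set_option linter.unusedVariables false

open MvPolynomial

namespace Pool.Agent.Lib.MP_745d3a_ag.GM

section

variable {K M : Type*} [Field K] [CharZero K] [AddCommGroup M]
  [Module (MvPolynomial (Fin 5) K) M]
  [Module.IsReflexive (MvPolynomial (Fin 5) K) M] [Module.Finite (MvPolynomial (Fin 5) K) M]
  {w : Fin 5 → ℤ} {𝓜 : ℤ × ℤ → AddSubgroup M} [DirectSum.Decomposition 𝓜]
  [SetLike.GradedSMul (weightedHomogeneousSubmodule K (om w)) 𝓜]
  [Module K M] [IsScalarTower K (MvPolynomial (Fin 5) K) M]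
  {d : ℤ × ℤ}
  {br : M →ₗ[MvPolynomial (Fin 5) K] M →ₗ[MvPolynomial (Fin 5) K] MvPolynomial (Fin 5) K}

theorem axis_data (P : Pairing w 𝓜 d br) (c : Fin 5) :
    ∃ s : ℚ, ∀ F : ℚ → ℚ,
      mom (QM K w 𝓜) (fun g => F (ev (tw d g) (-(w c : ℚ)) 1)) = F s + F (-s) := by
  obtain ⟨α, β, m, n, k, A⟩ := P.axis c
  obtain ⟨M', hM', hQ⟩ := axis_cong P A
  have hw := (A.weight P).1
  refine ⟨ev (tw d α) (-(w c : ℚ)) 1, fun F => ?_⟩
  rw [mom_axis hM' hQ F]
  have h1 : α.1 + β.1 - d.1 = k := by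
    have := congrArg Prod.fst hw
    simpa [om] using this
  have h2 : α.2 + β.2 - d.2 = k * w c := by
    have := congrArg Prod.snd hw
    simpa [om] using this
  have h1' : (α.1 : ℚ) + β.1 - d.1 = k := by exact_mod_cast h1
  have h2' : (α.2 : ℚ) + β.2 - d.2 = k * w c := by exact_mod_cast h2
  have h3 : ev (tw d β) (-(w c : ℚ)) 1 = -ev (tw d α) (-(w c : ℚ)) 1 := by
    simp only [ev, tw]
    linear_combination (-2 * (w c : ℚ)) * h1' + 2 * h2'
  rw [h3]

theorem mom_law (P : Pairing w 𝓜 d br) (h3 : ∃ a b c, w a ≠ w b ∧ w b ≠ w c ∧ w a ≠ w c) :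
    ∃ l : ℚ × ℚ, MomLaw (QM K w 𝓜) d l := by
  have hQ : (Function.support (QM K w 𝓜)).Finite := QM_finite
  have h1 : mom (QM K w 𝓜) (fun _ => 1) = 2 := by
    obtain ⟨s, hs⟩ := axis_data P 0
    have h2 := hs (fun _ => 1)
    rw [h2]
    norm_num
  exact law_num hQ (ti_rat P hQ h1) (axis_data P) h3

end

end Pool.Agent.Lib.MP_745d3a_ag.GM

end

section

set_option autoImplicit false
set_option linter.unusedSectionVars false
set_option linter.unusedSimpArgs false
set_option linter.unusedVariables false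

open MvPolynomial

namespace Pool.Agent.Lib.MP_745d3a_ag.GM

section

variable {K M : Type*} [Field K] [CharZero K] [AddCommGroup M]
  [Module (MvPolynomial (Fin 5) K) M]
  [Module.IsReflexive (MvPolynomial (Fin 5) K) M] [Module.Finite (MvPolynomial (Fin 5) K) M]
  {w : Fin 5 → ℤ} {𝓜 : ℤ × ℤ → AddSubgroup M} [DirectSum.Decomposition 𝓜]
  [SetLike.GradedSMul (weightedHomogeneousSubmodule K (om w)) 𝓜]
  [Module K M] [IsScalarTower K (MvPolynomial (Fin 5) K) M]
  {d : ℤ × ℤ}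
  {br : M →ₗ[MvPolynomial (Fin 5) K] M →ₗ[MvPolynomial (Fin 5) K] MvPolynomial (Fin 5) K}

theorem law_axis (P : Pairing w 𝓜 d br) {l : ℚ × ℚ} (L : MomLaw (QM K w 𝓜) d l)
    {c : Fin 5} {α β : ℤ × ℤ} {m n : M} {k : ℕ} (A : AxisPair w 𝓜 br c α β m n k) :
    (ev (tw d α) (-(w c : ℚ)) 1) ^ 2 = (ev l (-(w c : ℚ)) 1) ^ 2 := by
  obtain ⟨M', hM', hQ⟩ := axis_cong P A
  have h1 := mom_axis (d := d) hM' hQ (fun x => x ^ 2)
  have h2 := L.snd (-(w c : ℚ)) 1
  have h3 := (AxisPair.weight P A).1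
  have h4 : α.1 + β.1 - d.1 = (k : ℤ) := by
    have := congrArg Prod.fst h3
    simpa [om] using this
  have h5 : α.2 + β.2 - d.2 = (k : ℤ) * w c := by
    have := congrArg Prod.snd h3
    simpa [om] using this
  have h4' : (α.1 : ℚ) + β.1 - d.1 = k := by exact_mod_cast h4
  have h5' : (α.2 : ℚ) + β.2 - d.2 = k * w c := by exact_mod_cast h5
  have h6 : ev (tw d β) (-(w c : ℚ)) 1 = - ev (tw d α) (-(w c : ℚ)) 1 := by
    simp only [ev, tw]
    linear_combination (-2 * (w c : ℚ)) * h4' + 2 * h5'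
  rw [h6] at h1
  rw [h2] at h1
  linear_combination (-(1 : ℚ) / 2) * h1

end

end Pool.Agent.Lib.MP_745d3a_ag.GM

end

section

set_option autoImplicit false
set_option linter.unusedSectionVars false
set_option linter.unusedSimpArgs false
set_option linter.unusedVariables false

open MvPolynomial

namespace Pool.Agent.Lib.MP_745d3a_ag.GM

section

variable {K M : Type*} [Field K] [CharZero K] [AddCommGroup M]
  [Module (MvPolynomial (Fin 5) K) M]
  [Module.IsReflexive (MvPolynomial (Fin 5) K) M] [Module.Finite (MvPolynomial (Fin 5) K) M]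
  {w : Fin 5 → ℤ} {𝓜 : ℤ × ℤ → AddSubgroup M} [DirectSum.Decomposition 𝓜]
  [SetLike.GradedSMul (weightedHomogeneousSubmodule K (om w)) 𝓜]
  [Module K M] [IsScalarTower K (MvPolynomial (Fin 5) K) M]
  {d : ℤ × ℤ}
  {br : M →ₗ[MvPolynomial (Fin 5) K] M →ₗ[MvPolynomial (Fin 5) K] MvPolynomial (Fin 5) K}

lemma W2_gen (P : Pairing w 𝓜 d br) {s : Fin 5} {ζ : ℤ × ℤ} {σ : M} (G : Good 𝓜 br s ζ σ)
    (f : ℤ × ℤ → ℚ) :
    mom (QM K w 𝓜) f = f ζ + f (d - ζ) -
      mom (Nab w (Finset.univ.erase s) (hT w br σ))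
        (fun g => f (g + (d - ζ)) - f (g + om w s + (d - ζ))) := by
  obtain ⟨h0, hk, hfin, -, hQ⟩ := good_cong' P G
  set M' := Nab w (Finset.univ.erase s) (hT w br σ) with hM'
  have e1 : QM K w 𝓜 = fun g => (fun g => (if g = ζ then (1 : ℤ) else 0) +
      (if g = d - ζ then (1 : ℤ) else 0)) g - (fun g => (fun g => M' g - M' (g - om w s))
        (g - (d - ζ))) g := by
    funext g
    rw [hQ g, Nab_erase w (Finset.mem_univ s)]
    have h1 : g + ζ - d = g - (d - ζ) := by abel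
    simp only [h1, ← hM']
  have f1 : (Function.support (fun g : ℤ × ℤ => (if g = ζ then (1 : ℤ) else 0))).Finite :=
    (Set.finite_singleton ζ).subset (by
      intro g hg
      by_contra hne
      exact hg (if_neg hne))
  have f2 : (Function.support (fun g : ℤ × ℤ => (if g = d - ζ then (1 : ℤ) else 0))).Finite :=
    (Set.finite_singleton (d - ζ)).subset (by
      intro g hg
      by_contra hne
      exact hg (if_neg hne))
  have f12 : (Function.support (fun g : ℤ × ℤ => (if g = ζ then (1 : ℤ) else 0) +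
      (if g = d - ζ then (1 : ℤ) else 0))).Finite :=
    (f1.union f2).subset (Function.support_add _ _)
  have f3 : (Function.support (fun g => M' g - M' (g - om w s))).Finite := by
    have f4 : (Function.support (fun g => M' (g - om w s))).Finite :=
      hfin.preimage (f := fun g : ℤ × ℤ => g - om w s) (fun x _ y _ hxy => sub_left_injective hxy)
    exact (hfin.union f4).subset (Function.support_sub _ _)
  have f5 : (Function.support (fun g => (fun g => M' g - M' (g - om w s)) (g - (d - ζ)))).Finite :=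
    f3.preimage (f := fun g : ℤ × ℤ => g - (d - ζ)) (fun x _ y _ hxy => sub_left_injective hxy)
  rw [e1, mom_subQ f12 f5, mom_addQ f1 f2, mom_delta, mom_delta,
    mom_shift (fun g => M' g - M' (g - om w s)) (d - ζ), mom_diff hfin (om w s)]

theorem law_zero (P : Pairing w 𝓜 d br) {l : ℚ × ℚ} (L : MomLaw (QM K w 𝓜) d l)
    {s : Fin 5} {ζ : ℤ × ℤ} {σ : M} (G : Good 𝓜 br s ζ σ) :
    ∑ᶠ g, Nab w (Finset.univ.erase s) (hT w br σ) g = 0 := by
  have h1 := W2_gen P G (fun g => ev (tw d g) 1 0)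
  rw [L.fst 1 0] at h1
  have h2 : mom (Nab w (Finset.univ.erase s) (hT w br σ))
      (fun g => (fun g => ev (tw d g) 1 0) (g + (d - ζ)) -
        (fun g => ev (tw d g) 1 0) (g + om w s + (d - ζ))) =
      (-2) * mom (Nab w (Finset.univ.erase s) (hT w br σ)) (fun _ => 1) := by
    rw [← mom_smul]
    refine mom_congr fun g => ?_
    simp only [ev, tw, om, Prod.fst_add, Prod.fst_sub]
    push_cast
    ring
  rw [h2, mom_one] at h1
  have h3 : (fun g => ev (tw d g) 1 0) ζ + (fun g => ev (tw d g) 1 0) (d - ζ) = 0 := by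
    simp only [ev, tw, Prod.fst_sub]
    push_cast
    ring
  rw [h3] at h1
  have h4 : (((∑ᶠ g, Nab w (Finset.univ.erase s) (hT w br σ) g : ℤ)) : ℚ) = 0 := by linarith
  exact_mod_cast h4

lemma W2_fin (P : Pairing w 𝓜 d br) {s : Fin 5} {ζ : ℤ × ℤ} {σ : M} (G : Good 𝓜 br s ζ σ) :
    (Function.support (Nab w (Finset.univ.erase s) (hT w br σ))).Finite :=
  (good_cong' P G).2.2.1

theorem law_mom (P : Pairing w 𝓜 d br) {l : ℚ × ℚ} (L : MomLaw (QM K w 𝓜) d l)
    {s : Fin 5} {ζ : ℤ × ℤ} {σ : M} (G : Good 𝓜 br s ζ σ) (x y : ℚ) :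
    (ev (tw d ζ) x y) ^ 2 - (ev l x y) ^ 2 = 4 * ev (ch w s) x y *
      (- mom (Nab w (Finset.univ.erase s) (hT w br σ)) (fun g => (g.1 : ℚ) * x + (g.2 : ℚ) * y)) := by
  have h1 := W2_gen P G (fun g => (ev (tw d g) x y) ^ 2)
  rw [L.snd x y] at h1
  have hf := W2_fin P G
  have h0 : mom (Nab w (Finset.univ.erase s) (hT w br σ)) (fun _ => (1 : ℚ)) = 0 := by
    rw [mom_one, law_zero P L G, Int.cast_zero]
  have h2 : mom (Nab w (Finset.univ.erase s) (hT w br σ))
      (fun g => (fun g => (ev (tw d g) x y) ^ 2) (g + (d - ζ)) -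
        (fun g => (ev (tw d g) x y) ^ 2) (g + om w s + (d - ζ))) =
      (-8 * ev (ch w s) x y) * mom (Nab w (Finset.univ.erase s) (hT w br σ))
        (fun g => (g.1 : ℚ) * x + (g.2 : ℚ) * y) +
      (4 * ev (ch w s) x y * ev (tw d ζ) x y - 4 * ev (ch w s) x y ^ 2) *
        mom (Nab w (Finset.univ.erase s) (hT w br σ)) (fun _ => 1) := by
    rw [← mom_smul, ← mom_smul, ← mom_add hf]
    refine mom_congr fun g => ?_
    simp only [ev, tw, om, ch, Prod.fst_add, Prod.fst_sub, Prod.snd_add, Prod.snd_sub]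
    push_cast
    ring
  rw [h2, h0] at h1
  have h3 : (fun g => (ev (tw d g) x y) ^ 2) ζ + (fun g => (ev (tw d g) x y) ^ 2) (d - ζ) =
      2 * (ev (tw d ζ) x y) ^ 2 := by
    simp only [ev, tw, Prod.fst_sub, Prod.snd_sub]
    push_cast
    ring
  rw [h3] at h1
  linear_combination (-1 / 2 : ℚ) * h1

/-- The additive form `g ↦ g.1 x + g.2 y`. -/
def W2_xi (x y : ℤ) : ℤ × ℤ →+ ℤ where
  toFun g := g.1 * x + g.2 * y
  map_zero' := by simp
  map_add' g h := by simp only [Prod.fst_add, Prod.snd_add]; ring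

lemma W2_xi_apply (x y : ℤ) (g : ℤ × ℤ) : W2_xi x y g = g.1 * x + g.2 * y := rfl

lemma W2_bound (x y : ℤ) {s : Fin 5} (hp : ∀ a, a ≠ s → 0 < x + w a * y) {k : ℕ}
    {e : Fin 5 →₀ ℕ} (he : e s < k) :
    -((k : ℤ) * |W2_xi x y (om w s)|) ≤ W2_xi x y (Finsupp.weight (om w) e) := by
  have h1 : Finsupp.weight (om w) e = ∑ a, e a • om w a := by
    rw [Finsupp.weight_apply, Finsupp.sum_fintype]
    intro i
    exact zero_smul ℕ _
  rw [h1, map_sum, ← Finset.add_sum_erase _ _ (Finset.mem_univ s)]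
  have h2 : 0 ≤ ∑ a ∈ Finset.univ.erase s, W2_xi x y (e a • om w a) := by
    refine Finset.sum_nonneg fun a ha => ?_
    rw [map_nsmul, W2_xi_apply]
    refine nsmul_nonneg (le_of_lt ?_) _
    have := hp a (Finset.ne_of_mem_erase ha)
    simpa [om] using this
  have h3 : -((k : ℤ) * |W2_xi x y (om w s)|) ≤ W2_xi x y (e s • om w s) := by
    rw [map_nsmul, nsmul_eq_mul]
    have h4 : ((e s : ℕ) : ℤ) * |W2_xi x y (om w s)| ≤ (k : ℤ) * |W2_xi x y (om w s)| := by
      refine mul_le_mul_of_nonneg_right ?_ (abs_nonneg _)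
      exact_mod_cast he.le
    have h5 : -(((e s : ℕ) : ℤ) * |W2_xi x y (om w s)|) ≤ ((e s : ℕ) : ℤ) * W2_xi x y (om w s) := by
      rw [← mul_neg]
      exact mul_le_mul_of_nonneg_left (neg_abs_le _) (by positivity)
    exact le_trans (neg_le_neg h4) h5
  linarith

theorem law_pos (P : Pairing w 𝓜 d br) {l : ℚ × ℚ} (L : MomLaw (QM K w 𝓜) d l)
    {s : Fin 5} {ζ : ℤ × ℤ} {σ : M} (G : Good 𝓜 br s ζ σ) : ∃ m : ℚ × ℚ,
    (∀ x y : ℚ, (ev (tw d ζ) x y) ^ 2 - (ev l x y) ^ 2 = 4 * ev (ch w s) x y * ev m x y) ∧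
    ∀ x y : ℤ, (∀ a, a ≠ s → 0 < x + w a * y) → 0 ≤ ev m x y := by
  have hf := W2_fin P G
  have key : ∀ x y : ℚ, ev (-(mom (Nab w (Finset.univ.erase s) (hT w br σ)) (fun g => (g.1 : ℚ))),
      -(mom (Nab w (Finset.univ.erase s) (hT w br σ)) (fun g => (g.2 : ℚ)))) x y =
      - mom (Nab w (Finset.univ.erase s) (hT w br σ)) (fun g => (g.1 : ℚ) * x + (g.2 : ℚ) * y) := by
    intro x y
    rw [mom_add hf]
    have e1 : mom (Nab w (Finset.univ.erase s) (hT w br σ)) (fun g => (g.1 : ℚ) * x) =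
        x * mom (Nab w (Finset.univ.erase s) (hT w br σ)) (fun g => (g.1 : ℚ)) := by
      rw [← mom_smul]
      exact mom_congr fun g => mul_comm _ _
    have e2 : mom (Nab w (Finset.univ.erase s) (hT w br σ)) (fun g => (g.2 : ℚ) * y) =
        y * mom (Nab w (Finset.univ.erase s) (hT w br σ)) (fun g => (g.2 : ℚ)) := by
      rw [← mom_smul]
      exact mom_congr fun g => mul_comm _ _
    rw [e1, e2]
    simp only [ev]
    ring
  refine ⟨(-(mom (Nab w (Finset.univ.erase s) (hT w br σ)) (fun g => (g.1 : ℚ))),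
      -(mom (Nab w (Finset.univ.erase s) (hT w br σ)) (fun g => (g.2 : ℚ)))),
    fun x y => ?_, fun x y hp => ?_⟩
  · rw [key, law_mom P L G x y]
  · rw [key]
    obtain ⟨h0, ⟨k, hk⟩, hfin, -, -⟩ := good_cong' P G
    have h1 := nab_pos w (Finset.univ.erase s) h0 (ξ := W2_xi x y)
      (fun a ha => by
        have := hp a (Finset.ne_of_mem_erase ha)
        rw [W2_xi_apply]
        simpa [om] using this)
      ⟨-((k : ℤ) * |W2_xi x y (om w s)|), fun g hg => by
        by_contra hne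
        obtain ⟨e, he, heg⟩ := hk g hne
        have := W2_bound (w := w) x y hp he
        rw [heg] at this
        exact absurd hg (not_lt.mpr this)⟩ hfin (law_zero P L G)
    have h2 : mom (Nab w (Finset.univ.erase s) (hT w br σ))
        (fun g => (g.1 : ℚ) * (x : ℚ) + (g.2 : ℚ) * (y : ℚ)) =
        ((∑ᶠ g, Nab w (Finset.univ.erase s) (hT w br σ) g * W2_xi x y g : ℤ) : ℚ) := by
      have h3 := (Int.castAddHom ℚ).map_finsum (f := fun g =>
        Nab w (Finset.univ.erase s) (hT w br σ) g * W2_xi x y g)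
        (hfin.subset (Function.support_mul_subset_left _ _))
      have h3' : ((∑ᶠ g, Nab w (Finset.univ.erase s) (hT w br σ) g * W2_xi x y g : ℤ) : ℚ) =
          ∑ᶠ g, ((Nab w (Finset.univ.erase s) (hT w br σ) g * W2_xi x y g : ℤ) : ℚ) := h3
      rw [h3']
      unfold mom
      refine finsum_congr fun g => ?_
      rw [W2_xi_apply]
      push_cast
      ring
    rw [h2]
    have h4 : ((∑ᶠ g, Nab w (Finset.univ.erase s) (hT w br σ) g * W2_xi x y g : ℤ) : ℚ) ≤ 0 := by
      exact_mod_cast h1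
    linarith

end

end Pool.Agent.Lib.MP_745d3a_ag.GM

end

section

set_option autoImplicit false
set_option linter.unusedSectionVars false
set_option linter.unusedSimpArgs false
set_option linter.unusedVariables false

open MvPolynomial

namespace Pool.Agent.Lib.MP_745d3a_ag.GM

section

variable {K M : Type*} [Field K] [CharZero K] [AddCommGroup M]
  [Module (MvPolynomial (Fin 5) K) M]
  [Module.IsReflexive (MvPolynomial (Fin 5) K) M] [Module.Finite (MvPolynomial (Fin 5) K) M]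
  {w : Fin 5 → ℤ} {𝓜 : ℤ × ℤ → AddSubgroup M} [DirectSum.Decomposition 𝓜]
  [SetLike.GradedSMul (weightedHomogeneousSubmodule K (om w)) 𝓜]
  [Module K M] [IsScalarTower K (MvPolynomial (Fin 5) K) M]
  {d : ℤ × ℤ}
  {br : M →ₗ[MvPolynomial (Fin 5) K] M →ₗ[MvPolynomial (Fin 5) K] MvPolynomial (Fin 5) K}

private lemma W3_fst_nonneg (w : Fin 5 → ℤ) (e : Fin 5 →₀ ℕ) :
    0 ≤ (Finsupp.weight (om w) e).1 := by
  rw [Finsupp.weight_apply, Finsupp.sum, Prod.fst_sum]
  refine Finset.sum_nonneg (fun a _ => ?_)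
  rw [Prod.smul_fst]
  simp [om]

private lemma W3_mom_const (Q : ℤ × ℤ → ℤ) (c : ℚ) :
    mom Q (fun _ => c) = c * ((∑ᶠ g, Q g : ℤ) : ℚ) := by
  have h1 : mom Q (fun _ => c) = c * mom Q (fun _ => 1) := by
    rw [← mom_smul]
    exact mom_congr (fun g => by ring)
  rw [h1, mom_one]

theorem law_planar (P : Pairing w 𝓜 d br) {l : ℚ × ℚ} (L : MomLaw (QM K w 𝓜) d l)
    {s t : Fin 5} {ζ : ℤ × ℤ} {σ : M} (hst : s ≠ t) (G : Good 𝓜 br s ζ σ)
    (ht : ∃ (k : ℕ) (y : M), br σ y = (X t : MvPolynomial (Fin 5) K) ^ k) : ∃ l' : ℚ,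
      (∀ x y : ℚ, (ev (tw d ζ) x y) ^ 2 - (ev l x y) ^ 2 =
        4 * l' * ev (ch w s) x y * ev (ch w t) x y) ∧
      ((∃ (y : M) (e : Fin 5 →₀ ℕ), e s = 0 ∧ e t = 0 ∧ coeff e (br σ y) ≠ 0) ∨ 1 ≤ l') := by
  classical
  obtain ⟨hnn, ⟨k, hk⟩, hf1, hf2, hQ⟩ := good_cong' P G
  have hf := hf2 t ht
  set h := hT w br σ with hh
  set A : Finset (Fin 5) := (Finset.univ.erase s).erase t with hA
  have hmem : t ∈ Finset.univ.erase s := Finset.mem_erase.mpr ⟨hst.symm, Finset.mem_univ t⟩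
  have hN : Nab w (Finset.univ.erase s) h = fun g => Nab w A h g - Nab w A h (g - om w t) := by
    funext g
    exact Nab_erase w hmem h g
  refine ⟨((∑ᶠ g, Nab w A h g : ℤ) : ℚ), ?_, ?_⟩
  · intro x y
    rw [law_mom P L G x y, ← hh, hN, mom_diff hf]
    have h2 : mom (Nab w A h) (fun g => ((g.1 : ℚ) * x + (g.2 : ℚ) * y) -
        (((g + om w t).1 : ℚ) * x + ((g + om w t).2 : ℚ) * y)) =
        (- ev (ch w t) x y) * ((∑ᶠ g, Nab w A h g : ℤ) : ℚ) := by
      rw [← W3_mom_const]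
      refine mom_congr (fun g => ?_)
      simp only [om, Prod.fst_add, Prod.snd_add, ev, ch]
      push_cast
      ring
    rw [h2]
    ring
  · by_cases hc : ∃ (y : M) (e : Fin 5 →₀ ℕ), e s = 0 ∧ e t = 0 ∧ coeff e (br σ y) ≠ 0
    · exact Or.inl hc
    · right
      have h3 : ∀ (y : M) (e : Fin 5 →₀ ℕ), e s = 0 → e t = 0 → coeff e (br σ y) = 0 := by
        intro y e h4 h5
        by_contra h6
        exact hc ⟨y, e, h4, h5, h6⟩
      have h7 : 1 ≤ ∑ᶠ g, Nab w A h g := by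
        refine nab_rank w A (h := h) (fun g => hT_ge h3 g) ⟨0, fun g hg => ?_⟩ hf
        by_contra h8
        obtain ⟨e, _, he⟩ := hk g h8
        have h9 := W3_fst_nonneg w e
        rw [he] at h9
        omega
      exact_mod_cast h7

end

end Pool.Agent.Lib.MP_745d3a_ag.GM

end

section

set_option autoImplicit false
set_option linter.unusedSectionVars false
set_option linter.unusedSimpArgs false
set_option linter.unusedVariables false

open MvPolynomial

namespace Pool.Agent.Lib.MP_745d3a_ag.GM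

section

variable {K M : Type*} [Field K] [CharZero K] [AddCommGroup M]
  [Module (MvPolynomial (Fin 5) K) M]
  [Module.IsReflexive (MvPolynomial (Fin 5) K) M] [Module.Finite (MvPolynomial (Fin 5) K) M]
  {w : Fin 5 → ℤ} {𝓜 : ℤ × ℤ → AddSubgroup M} [DirectSum.Decomposition 𝓜]
  [SetLike.GradedSMul (weightedHomogeneousSubmodule K (om w)) 𝓜]
  [Module K M] [IsScalarTower K (MvPolynomial (Fin 5) K) M]
  {d : ℤ × ℤ}
  {br : M →ₗ[MvPolynomial (Fin 5) K] M →ₗ[MvPolynomial (Fin 5) K] MvPolynomial (Fin 5) K}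

theorem exists_law (P : Pairing w 𝓜 d br)
    (h3 : ∃ a b c, w a ≠ w b ∧ w b ≠ w c ∧ w a ≠ w c) : ∃ l : ℚ × ℚ, Law w 𝓜 d br l := by
  obtain ⟨l, L⟩ := mom_law P h3
  exact ⟨l, fun A => law_axis P L A, fun G => law_pos P L G, fun hst G ht =>
    law_planar P L hst G ht⟩

end

end Pool.Agent.Lib.MP_745d3a_ag.GM

end
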