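import Mathlib

/-!
The trace identity: graded operators, polynomial connections.
-/

section

open Module

set_option linter.unusedSectionVars false
set_option linter.unusedVariables false

namespace Pool.Agent.Lib.MP_745d3a_ag.Gm

variable {K : Type*} [Field K] {G : Type*} [AddCommGroup G] [DecidableEq G]
  {M : Type*} [AddCommGroup M] [Module K M] (V : G → Submodule K M)

/-- `T` is homogeneous of degree `d`. -/
def HasDeg (T : M →ₗ[K] M) (d : G) : Prop := ∀ g, ∀ z ∈ V g, T z ∈ V (g + d)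

variable {V}

lemma HasDeg.zero (d : G) : HasDeg V (0 : M →ₗ[K] M) d := fun g z _ => by
  rw [LinearMap.zero_apply]; exact Submodule.zero_mem _

lemma HasDeg.add {T U : M →ₗ[K] M} {d : G} (hT : HasDeg V T d) (hU : HasDeg V U d) :
    HasDeg V (T + U) d := fun g z hz => Submodule.add_mem _ (hT g z hz) (hU g z hz)

lemma HasDeg.sub {T U : M →ₗ[K] M} {d : G} (hT : HasDeg V T d) (hU : HasDeg V U d) :
    HasDeg V (T - U) d := fun g z hz => Submodule.sub_mem _ (hT g z hz) (hU g z hz)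

lemma HasDeg.neg {T : M →ₗ[K] M} {d : G} (hT : HasDeg V T d) :
    HasDeg V (-T) d := fun g z hz => Submodule.neg_mem _ (hT g z hz)

lemma HasDeg.smul {T : M →ₗ[K] M} {d : G} (c : K) (hT : HasDeg V T d) :
    HasDeg V (c • T) d := fun g z hz => Submodule.smul_mem _ c (hT g z hz)

lemma HasDeg.comp {T U : M →ₗ[K] M} {d e : G} (hT : HasDeg V T d) (hU : HasDeg V U e) :
    HasDeg V (T ∘ₗ U) (e + d) := fun g z hz => by
  rw [← add_assoc]; exact hT _ _ (hU g z hz)

lemma HasDeg.congr {T : M →ₗ[K] M} {d e : G} (hT : HasDeg V T d) (h : d = e) :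
    HasDeg V T e := h ▸ hT

lemma HasDeg.sum {ι : Type*} (s : Finset ι) {T : ι → M →ₗ[K] M} {d : G}
    (hT : ∀ i ∈ s, HasDeg V (T i) d) : HasDeg V (∑ i ∈ s, T i) d := fun g z hz => by
  rw [LinearMap.sum_apply]
  exact Submodule.sum_mem _ (fun i hi => hT i hi g z hz)

variable (V) [DirectSum.Decomposition V]

/-- The projection onto the graded piece `V g`. -/
noncomputable def pr (g : G) : M →ₗ[K] V g :=
  (DirectSum.component K G (fun g => V g) g) ∘ₗ
    (DirectSum.decomposeLinearEquiv V).toLinearMap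

lemma pr_mem {g : G} {z : M} (hz : z ∈ V g) : (pr V g z : M) = z := by
  exact DirectSum.decompose_of_mem_same V hz

lemma pr_ne {g h : G} {z : M} (hz : z ∈ V g) (hne : g ≠ h) : (pr V h z : M) = 0 := by
  exact DirectSum.decompose_of_mem_ne V hz hne

/-- Induction on homogeneous elements. -/
lemma hom_ind {P : M → Prop} (h0 : P 0) (hh : ∀ g, ∀ m ∈ V g, P m)
    (hadd : ∀ m n, P m → P n → P (m + n)) (m : M) : P m := by
  induction m using DirectSum.Decomposition.inductionOn V with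
  | zero => exact h0
  | homogeneous m => exact hh _ _ m.2
  | add m n hm hn => exact hadd m n hm hn

/-- Two linear maps that agree on homogeneous elements are equal. -/
lemma lin_ext {N : Type*} [AddCommGroup N] [Module K N] {T U : M →ₗ[K] N}
    (h : ∀ g, ∀ z ∈ V g, T z = U z) : T = U := by
  ext z
  refine hom_ind V (P := fun z => T z = U z) (by simp) h ?_ z
  intro m n hm hn
  rw [map_add, map_add, hm, hn]

/-- The operator with given restrictions to the graded pieces. -/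
noncomputable def glue {N : Type*} [AddCommGroup N] [Module K N] (T : ∀ g, V g →ₗ[K] N) :
    M →ₗ[K] N :=
  (DirectSum.toModule K G N T) ∘ₗ (DirectSum.decomposeLinearEquiv V).toLinearMap

lemma glue_mem {N : Type*} [AddCommGroup N] [Module K N] (T : ∀ g, V g →ₗ[K] N) {g : G}
    {z : M} (hz : z ∈ V g) : glue V T z = T g ⟨z, hz⟩ := by
  have h1 : DirectSum.decompose V z = DirectSum.lof K G (fun g => V g) g ⟨z, hz⟩ :=
    DirectSum.decompose_of_mem V hz
  simp only [glue, LinearMap.comp_apply, LinearEquiv.coe_coe]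
  erw [h1]
  exact DirectSum.toModule_lof K g _

/-- The weight operator attached to `ξ : G → K`. -/
noncomputable def wt (ξ : G →+ K) : M →ₗ[K] M := glue V (fun g => ξ g • (V g).subtype)

lemma wt_mem (ξ : G →+ K) {g : G} {z : M} (hz : z ∈ V g) : wt V ξ z = ξ g • z := by
  rw [wt, glue_mem V _ hz]; rfl

lemma wt_deg (ξ : G →+ K) : HasDeg V (wt V ξ) 0 := fun g z hz => by
  rw [wt_mem V ξ hz, add_zero]; exact Submodule.smul_mem _ _ hz

/-- Commutation of the weight operator with an operator of degree `d`. -/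
lemma wt_comm (ξ : G →+ K) {T : M →ₗ[K] M} {d : G} (hT : HasDeg V T d) (z : M) :
    wt V ξ (T z) = T (wt V ξ z) + ξ d • T z := by
  refine hom_ind V (P := fun z => wt V ξ (T z) = T (wt V ξ z) + ξ d • T z) (by simp) ?_ ?_ z
  · intro g z hz
    rw [wt_mem V ξ (hT g z hz), wt_mem V ξ hz, map_smul, map_add, add_smul]
  · intro m n hm hn
    rw [map_add, map_add, hm, hn, map_add, map_add, smul_add]
    abel

/-- The trace of the compression of `T` to the graded piece `V g`. -/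
noncomputable def gtr (g : G) : (M →ₗ[K] M) →ₗ[K] K :=
  (LinearMap.trace K (V g)) ∘ₗ (LinearMap.lcomp K (V g) (V g).subtype) ∘ₗ
    (LinearMap.llcomp K M M (V g) (pr V g))

lemma gtr_apply (g : G) (T : M →ₗ[K] M) :
    gtr V g T = LinearMap.trace K (V g) ((pr V g ∘ₗ T) ∘ₗ (V g).subtype) := rfl

/-- Cyclicity of the trace. -/
lemma gtr_cyc [∀ g, FiniteDimensional K (V g)] {A B : M →ₗ[K] M} {a b : G}
    (hA : HasDeg V A a) (hB : HasDeg V B b) (hab : a + b = 0) (g : G) :
    gtr V g (B ∘ₗ A) = gtr V (g + a) (A ∘ₗ B) := by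
  rw [gtr_apply, gtr_apply]
  have e1 : (pr V g ∘ₗ (B ∘ₗ A)) ∘ₗ (V g).subtype =
      ((pr V g ∘ₗ B) ∘ₗ (V (g + a)).subtype) ∘ₗ ((pr V (g + a) ∘ₗ A) ∘ₗ (V g).subtype) := by
    ext z
    simp only [LinearMap.comp_apply, Submodule.subtype_apply]
    rw [pr_mem V (hA g z z.2)]
  have e2 : (pr V (g + a) ∘ₗ (A ∘ₗ B)) ∘ₗ (V (g + a)).subtype =
      ((pr V (g + a) ∘ₗ A) ∘ₗ (V g).subtype) ∘ₗ ((pr V g ∘ₗ B) ∘ₗ (V (g + a)).subtype) := by
    ext z
    simp only [LinearMap.comp_apply, Submodule.subtype_apply]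
    have h1 : B z ∈ V g := by
      have := hB (g + a) z z.2
      rwa [add_assoc, hab, add_zero] at this
    rw [pr_mem V h1]
  rw [e1, e2]
  exact LinearMap.trace_comp_comm' _ _

/-- The trace of the identity is the dimension. -/
lemma gtr_id [∀ g, FiniteDimensional K (V g)] (g : G) :
    gtr V g LinearMap.id = (finrank K (V g) : K) := by
  rw [gtr_apply]
  have e : (pr V g ∘ₗ (LinearMap.id : M →ₗ[K] M)) ∘ₗ (V g).subtype = LinearMap.id := by
    ext z
    simp only [LinearMap.comp_apply, Submodule.subtype_apply, LinearMap.id_apply]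
    rw [pr_mem V z.2]
  rw [e, LinearMap.trace_id]

/-- The trace only depends on the restriction to `V g`. -/
lemma gtr_congr (g : G) {T U : M →ₗ[K] M} (h : ∀ z ∈ V g, T z = U z) :
    gtr V g T = gtr V g U := by
  rw [gtr_apply, gtr_apply]
  congr 1
  ext z
  simp only [LinearMap.comp_apply, Submodule.subtype_apply]
  rw [h z z.2]

/-- Graded division with remainder. -/
lemma exists_division {A₀ A₁ : M →ₗ[K] M} {a₀ a₁ : G} (h₀ : HasDeg V A₀ a₀)
    (h₁ : HasDeg V A₁ a₁) :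
    ∃ ρ R₀ R₁ : M →ₗ[K] M, HasDeg V ρ 0 ∧ HasDeg V R₀ (-a₀) ∧ HasDeg V R₁ (-a₁) ∧
      (∀ z, z = ρ z + A₀ (R₀ z) - A₁ (R₁ z)) ∧ (∀ u, ρ (A₀ u) = 0) ∧ (∀ u, ρ (A₁ u) = 0) := by
  classical
  -- piecewise
  have key : ∀ g, ∃ (ρ : V g →ₗ[K] M) (r₀ r₁ : V g →ₗ[K] M),
      (∀ z, ρ z ∈ V g) ∧ (∀ z, r₀ z ∈ V (g - a₀)) ∧ (∀ z, r₁ z ∈ V (g - a₁)) ∧
      (∀ z : V g, (z : M) = ρ z + A₀ (r₀ z) - A₁ (r₁ z)) ∧
      (∀ z : V g, ∀ u ∈ V (g - a₀), ∀ v ∈ V (g - a₁), (z : M) = A₀ u - A₁ v → ρ z = 0) := by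
    intro g
    let Φ : (V (g - a₀) × V (g - a₁)) →ₗ[K] V g :=
      LinearMap.codRestrict (V g)
        ((A₀ ∘ₗ (V (g - a₀)).subtype ∘ₗ LinearMap.fst K _ _) -
          (A₁ ∘ₗ (V (g - a₁)).subtype ∘ₗ LinearMap.snd K _ _)) (by
        intro p
        have h1 := h₀ (g - a₀) p.1 p.1.2
        have h2 := h₁ (g - a₁) p.2 p.2.2
        rw [sub_add_cancel] at h1 h2
        exact Submodule.sub_mem _ h1 h2)
    have hΦ : ∀ p, (Φ p : M) = A₀ p.1 - A₁ p.2 := fun p => rfl
    obtain ⟨s, hs⟩ := Φ.rangeRestrict.exists_rightInverse_of_surjective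
      (LinearMap.range_rangeRestrict Φ)
    obtain ⟨C, hC⟩ := Submodule.exists_isCompl (LinearMap.range Φ)
    let q : V g →ₗ[K] LinearMap.range Φ := Submodule.projectionOnto _ _ hC
    have hq : ∀ x : LinearMap.range Φ, q x = x := fun x =>
      Submodule.projectionOnto_apply_left hC x
    have hs' : ∀ x : LinearMap.range Φ, Φ (s x) = x := by
      intro x
      have := LinearMap.congr_fun hs x
      simpa using congrArg Subtype.val this
    refine ⟨(V g).subtype - (V g).subtype ∘ₗ (LinearMap.range Φ).subtype ∘ₗ q,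
      (V (g - a₀)).subtype ∘ₗ LinearMap.fst K _ _ ∘ₗ s ∘ₗ q,
      (V (g - a₁)).subtype ∘ₗ LinearMap.snd K _ _ ∘ₗ s ∘ₗ q, ?_, ?_, ?_, ?_, ?_⟩
    · intro z
      exact Submodule.sub_mem _ z.2 (Subtype.mem _)
    · intro z; exact Subtype.mem _
    · intro z; exact Subtype.mem _
    · intro z
      have h1 := hs' (q z)
      have h2 := congrArg Subtype.val h1
      rw [hΦ] at h2
      simp only [LinearMap.sub_apply, LinearMap.comp_apply, Submodule.subtype_apply,
        LinearMap.fst_apply, LinearMap.snd_apply]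
      rw [add_sub_assoc, h2]
      abel
    · intro z u hu v hv huv
      have h1 : z = Φ (⟨u, hu⟩, ⟨v, hv⟩) := Subtype.ext (by rw [hΦ]; exact huv)
      have h2 : q z = ⟨z, h1 ▸ LinearMap.mem_range_self _ _⟩ :=
        hq ⟨z, h1 ▸ LinearMap.mem_range_self _ _⟩
      simp only [LinearMap.sub_apply, LinearMap.comp_apply, Submodule.subtype_apply]
      rw [h2]
      exact sub_self _
  choose ρ r₀ r₁ k1 k2 k3 k4 k5 using key
  refine ⟨glue V ρ, glue V r₀, glue V r₁, ?_, ?_, ?_, ?_, ?_, ?_⟩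
  · intro g z hz
    rw [glue_mem V ρ hz, add_zero]
    exact k1 g _
  · intro g z hz
    rw [glue_mem V r₀ hz, ← sub_eq_add_neg]
    exact k2 g _
  · intro g z hz
    rw [glue_mem V r₁ hz, ← sub_eq_add_neg]
    exact k3 g _
  · intro z
    refine hom_ind V (P := fun z => z = glue V ρ z + A₀ (glue V r₀ z) - A₁ (glue V r₁ z))
      (by simp) ?_ ?_ z
    · intro g z hz
      rw [glue_mem V ρ hz, glue_mem V r₀ hz, glue_mem V r₁ hz]
      exact k4 g ⟨z, hz⟩
    · intro m n hm hn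
      simp only [map_add]
      nth_rewrite 1 [hm]
      nth_rewrite 1 [hn]
      abel
  · intro u
    refine hom_ind V (P := fun u => glue V ρ (A₀ u) = 0) (by simp) ?_ ?_ u
    · intro g u hu
      have h1 := h₀ g u hu
      rw [glue_mem V ρ h1]
      refine k5 (g + a₀) ⟨A₀ u, h1⟩ u (by rwa [add_sub_cancel_right]) 0
        (Submodule.zero_mem _) (by simp)
    · intro m n hm hn
      rw [map_add, map_add, hm, hn, add_zero]
  · intro u
    refine hom_ind V (P := fun u => glue V ρ (A₁ u) = 0) (by simp) ?_ ?_ u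
    · intro g u hu
      have h1 := h₁ g u hu
      rw [glue_mem V ρ h1]
      refine k5 (g + a₁) ⟨A₁ u, h1⟩ 0 (Submodule.zero_mem _) (-u)
        (Submodule.neg_mem _ (by rwa [add_sub_cancel_right])) (by simp)
    · intro m n hm hn
      rw [map_add, map_add, hm, hn, add_zero]

end Pool.Agent.Lib.MP_745d3a_ag.Gm

end

section

open Module MvPolynomial

set_option linter.unusedSectionVars false
set_option linter.unusedVariables false

namespace Pool.Agent.Lib.MP_745d3a_ag.Gm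

variable {K : Type*} [Field K] {G : Type*} [AddCommGroup G] [DecidableEq G]
  {M : Type*} [AddCommGroup M] [Module K M] [Module (MvPolynomial (Fin 5) K) M]
  [IsScalarTower K (MvPolynomial (Fin 5) K) M]

/-- An alternating pairing on a graded module of rank two, nondegenerate outside the origin. -/
structure Pairing (ω : Fin 5 → G) (V : G → Submodule K M) where
  /-- the pairing -/
  B : M →ₗ[MvPolynomial (Fin 5) K] M →ₗ[MvPolynomial (Fin 5) K] MvPolynomial (Fin 5) K
  /-- its degree -/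
  δ : G
  /-- the exponent -/
  N : ℕ
  alt : ∀ z, B z z = 0
  rank2 : ∀ u v z, B u v • z = B z v • u - B z u • v
  hom : ∀ g h, ∀ u ∈ V g, ∀ v ∈ V h, IsWeightedHomogeneous ω (B u v) (g + h - δ)
  van : ∀ i, (X i : MvPolynomial (Fin 5) K) ^ N ∈
    Ideal.span (Set.range (fun p : M × M => B p.1 p.2))
  smul_mem : ∀ (f : MvPolynomial (Fin 5) K) d, IsWeightedHomogeneous ω f d → ∀ g, ∀ z ∈ V g, f • z ∈ V (g + d)
  tf : ∀ (a : MvPolynomial (Fin 5) K) (z : M), a • z = 0 → a = 0 ∨ z = 0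

/-- A connection over the open set `f ≠ 0`, multiplied with `f`, compatible with the pairing. -/
structure Conn {ω : Fin 5 → G} {V : G → Submodule K M} (P : Pairing ω V)
    (f : MvPolynomial (Fin 5) K) (d : G) where
  hf : IsWeightedHomogeneous ω f d
  /-- the operators `f ∇_a` -/
  D : Fin 5 → M →ₗ[K] M
  leib : ∀ a (h : MvPolynomial (Fin 5) K) z, D a (h • z) = h • D a z + (pderiv a h * f) • z
  compat : ∀ a z z', P.B (D a z) z' + P.B z (D a z') = f * pderiv a (P.B z z')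
  deg : ∀ a, HasDeg V (D a) (d - ω a)


section basics

variable {ω : Fin 5 → G} {V : G → Submodule K M}

/-- The Euler derivation of the polynomial ring. -/
noncomputable def eul (ω : Fin 5 → G) (ξ : G →+ K) (f : MvPolynomial (Fin 5) K) :
    MvPolynomial (Fin 5) K := ∑ a, ξ (ω a) • (X a * pderiv a f)

lemma eul_add (ξ : G →+ K) (f g : MvPolynomial (Fin 5) K) :
    eul ω ξ (f + g) = eul ω ξ f + eul ω ξ g := by
  simp only [eul, map_add, mul_add, smul_add, Finset.sum_add_distrib]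

lemma eul_monomial (ξ : G →+ K) (e : Fin 5 →₀ ℕ) (c : K) :
    eul ω ξ (monomial e c) = ξ (Finsupp.weight ω e) • monomial e c := by
  simp only [eul, X_mul_pderiv_monomial]
  rw [Finsupp.weight_apply, Finsupp.sum_fintype _ _ (by intro κ; simp), map_sum, Finset.sum_smul]
  refine Finset.sum_congr rfl (fun a _ => ?_)
  rw [map_nsmul, smul_assoc, smul_comm]

lemma eul_hom (ξ : G →+ K) {f : MvPolynomial (Fin 5) K} {d : G}
    (hf : IsWeightedHomogeneous ω f d) : eul ω ξ f = ξ d • f := by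
  classical
  have h1 : ∀ s : Finset (Fin 5 →₀ ℕ), eul ω ξ (∑ e ∈ s, monomial e (coeff e f)) =
      ∑ e ∈ s, eul ω ξ (monomial e (coeff e f)) := by
    intro s
    induction s using Finset.induction_on with
    | empty => simp [eul]
    | insert e s he ih => rw [Finset.sum_insert he, Finset.sum_insert he, eul_add, ih]
  conv_lhs => rw [f.as_sum, h1]
  conv_rhs => rw [f.as_sum, Finset.smul_sum]
  refine Finset.sum_congr rfl (fun e he => ?_)
  rw [eul_monomial, hf (mem_support_iff.mp he)]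

variable [DirectSum.Decomposition V] (P : Pairing ω V)

include P

/-- Components of a multiple of a homogeneous element. -/
lemma Pairing.pr_smul {g : G} {z : M} (hz : z ∈ V g) (q : MvPolynomial (Fin 5) K) (d : G) :
    (pr V (g + d) (q • z) : M) = weightedHomogeneousComponent ω d q • z := by
  induction q using MvPolynomial.induction_on' with
  | monomial e c =>
    have h1 : IsWeightedHomogeneous ω (monomial e c) (Finsupp.weight ω e) :=
      isWeightedHomogeneous_monomial ω e c rfl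
    have h2 := P.smul_mem _ _ h1 g z hz
    by_cases hh : Finsupp.weight ω e = d
    · rw [← hh, pr_mem V h2, weightedHomogeneousComponent_eq_self h1]
    · rw [pr_ne V h2 (fun h => hh (add_left_cancel h)),
        h1.weightedHomogeneousComponent_ne _ (Ne.symm hh), zero_smul]
  | add a b ha hb => rw [add_smul, map_add, Submodule.coe_add, ha, hb, map_add, add_smul]

lemma Pairing.skew (u v : M) : P.B u v = - P.B v u := by
  have h := P.alt (u + v)
  simp only [map_add, LinearMap.add_apply, P.alt, zero_add, add_zero] at h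
  linear_combination h

lemma Pairing.nondeg {z : M} (h : ∀ z', P.B z z' = 0) : z = 0 := by
  have h1 : ∀ f ∈ Ideal.span (Set.range (fun p : M × M => P.B p.1 p.2)), f • z = 0 := by
    intro f hf
    induction hf using Submodule.span_induction with
    | mem x hx =>
      obtain ⟨p, rfl⟩ := hx
      simp only
      rw [P.rank2, h, h, zero_smul, zero_smul, sub_zero]
    | zero => exact zero_smul _ _
    | add x y _ _ hx hy => rw [add_smul, hx, hy, add_zero]
    | smul a x _ hx => rw [smul_eq_mul, mul_smul, hx, smul_zero]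
  exact (P.tf _ _ (h1 _ (P.van 0))).resolve_left (pow_ne_zero _ (X_ne_zero _))

/-- A self-adjoint linear endomorphism is a scalar. -/
lemma Pairing.scalar (φ : M →ₗ[MvPolynomial (Fin 5) K] M) (h : ∀ z, P.B (φ z) z = 0) :
    ∃ q : MvPolynomial (Fin 5) K, ∀ z, φ z = q • z := by
  have hsa : ∀ u v, P.B (φ u) v = P.B u (φ v) := by
    intro u v
    have h1 := h (u + v)
    simp only [map_add, LinearMap.add_apply, h, zero_add, add_zero] at h1
    rw [P.skew u (φ v)]
    linear_combination h1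
  -- pairs
  have h2 : ∀ u v z, P.B u v • φ z = P.B (φ u) v • z := by
    intro u v z
    by_cases huv : P.B u v = 0
    · rw [huv, zero_smul]
      by_cases hv : v = 0
      · rw [hv, map_zero, zero_smul]
      · obtain ⟨w, hw⟩ : ∃ w, P.B v w ≠ 0 := by
          by_contra hcon
          push Not at hcon
          exact hv (P.nondeg hcon)
        have h3 := P.rank2 u v w
        rw [huv, zero_smul] at h3
        have h4 : P.B w v • φ u = P.B w u • φ v := by
          rw [← map_smul, ← map_smul, ← sub_eq_zero.mp h3.symm]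
        have h5 : P.B w v * P.B (φ u) v = 0 := by
          have := congrArg (fun t => P.B t v) h4
          simpa [h] using this
        have h6 : P.B w v ≠ 0 := by rw [P.skew]; exact neg_ne_zero.mpr hw
        rw [(mul_eq_zero.mp h5).resolve_left h6, zero_smul]
    · have h3 : P.B u v • φ u = P.B (φ u) v • u := by
        rw [P.rank2 u v (φ u), h, zero_smul, sub_zero]
      have h4 : P.B u v • φ v = P.B (φ u) v • v := by
        have := P.rank2 u v (φ v)
        rw [h, zero_smul, zero_sub] at this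
        rw [this, ← neg_smul, hsa u v, P.skew (φ v) u, neg_neg]
      have h5 : P.B u v • (P.B u v • φ z - P.B (φ u) v • z) = 0 := by
        rw [smul_sub, ← map_smul, P.rank2 u v z, map_sub, map_smul, map_smul, smul_sub,
          smul_comm _ (P.B z v), h3, smul_comm _ (P.B z u), h4, smul_comm (P.B u v) (P.B (φ u) v) z,
          P.rank2 u v z, smul_sub, smul_comm (P.B z v), smul_comm (P.B z u), sub_self]
      exact sub_eq_zero.mp ((P.tf _ _ h5).resolve_left huv)
  have h3 : ∀ f ∈ Ideal.span (Set.range (fun p : M × M => P.B p.1 p.2)),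
      ∃ g : MvPolynomial (Fin 5) K, ∀ z, f • φ z = g • z := by
    intro f hf
    induction hf using Submodule.span_induction with
    | mem x hx =>
      obtain ⟨p, rfl⟩ := hx
      exact ⟨P.B (φ p.1) p.2, fun z => h2 _ _ _⟩
    | zero => exact ⟨0, fun z => by rw [zero_smul, zero_smul]⟩
    | add x y _ _ hx hy =>
      obtain ⟨g, hg⟩ := hx
      obtain ⟨g', hg'⟩ := hy
      exact ⟨g + g', fun z => by rw [add_smul, add_smul, hg, hg']⟩
    | smul a x _ hx =>
      obtain ⟨g, hg⟩ := hx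
      exact ⟨a * g, fun z => by rw [smul_eq_mul, mul_smul, mul_smul, hg]⟩
  obtain ⟨g0, hg0⟩ := h3 _ (P.van 0)
  obtain ⟨g1, hg1⟩ := h3 _ (P.van 1)
  by_cases hM : ∀ z : M, z = 0
  · exact ⟨0, fun z => by rw [hM (φ z), zero_smul]⟩
  push Not at hM
  obtain ⟨z0, hz0⟩ := hM
  have h4 : (X 1 : MvPolynomial (Fin 5) K) ^ P.N * g0 = X 0 ^ P.N * g1 := by
    have h5 : ((X 1 : MvPolynomial (Fin 5) K) ^ P.N * g0 - X 0 ^ P.N * g1) • z0 = 0 := by
      rw [sub_smul, mul_smul, mul_smul, ← hg0, ← hg1, smul_comm, sub_self]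
    exact sub_eq_zero.mp ((P.tf _ _ h5).resolve_right hz0)
  have h5 : (X 0 : MvPolynomial (Fin 5) K) ^ P.N ∣ g0 := by
    have hp : Prime (X 0 : MvPolynomial (Fin 5) K) := MvPolynomial.X_prime
    refine hp.pow_dvd_of_dvd_mul_left P.N ?_ ⟨g1, h4⟩
    intro hd
    have h6 := hp.dvd_of_dvd_pow hd
    rw [MvPolynomial.X_dvd_X] at h6
    simp at h6
  obtain ⟨q, hq⟩ := h5
  refine ⟨q, fun z => ?_⟩
  have h6 : (X 0 : MvPolynomial (Fin 5) K) ^ P.N • (φ z - q • z) = 0 := by
    rw [smul_sub, hg0, hq, mul_smul, sub_self]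
  exact sub_eq_zero.mp ((P.tf _ _ h6).resolve_left (pow_ne_zero _ (X_ne_zero _)))

lemma Pairing.scalar_hom (φ : M →ₗ[MvPolynomial (Fin 5) K] M) (h : ∀ z, P.B (φ z) z = 0)
    {d : G} (hd : ∀ g, ∀ z ∈ V g, φ z ∈ V (g + d)) :
    ∃ q : MvPolynomial (Fin 5) K, IsWeightedHomogeneous ω q d ∧ ∀ z, φ z = q • z := by
  obtain ⟨q, hq⟩ := P.scalar φ h
  refine ⟨weightedHomogeneousComponent ω d q,
    weightedHomogeneousComponent_isWeightedHomogeneous _ _, ?_⟩
  intro z
  refine hom_ind V (P := fun z => φ z = weightedHomogeneousComponent ω d q • z)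
    (by simp) ?_ ?_ z
  · intro g z hz
    rw [← P.pr_smul hz, ← hq, pr_mem V (hd g z hz)]
  · intro m n hm hn
    rw [map_add, hm, hn, smul_add]

/-- The weight operator is a derivation. -/
lemma Pairing.wt_smul (ξ : G →+ K) (f : MvPolynomial (Fin 5) K) (z : M) :
    wt V ξ (f • z) = f • wt V ξ z + eul ω ξ f • z := by
  refine hom_ind V (P := fun z => wt V ξ (f • z) = f • wt V ξ z + eul ω ξ f • z)
    (by simp) ?_ ?_ z
  · intro g z hz
    induction f using MvPolynomial.induction_on' with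
    | monomial e c =>
      have h1 : IsWeightedHomogeneous ω (monomial e c) (Finsupp.weight ω e) :=
        isWeightedHomogeneous_monomial ω e c rfl
      rw [wt_mem V ξ (P.smul_mem _ _ h1 g z hz), wt_mem V ξ hz, eul_monomial, map_add, add_smul,
        smul_assoc, smul_comm]
    | add a b ha hb => rw [add_smul, map_add, ha, hb, eul_add, add_smul, add_smul]; abel
  · intro m n hm hn
    rw [smul_add, map_add, hm, hn, map_add, smul_add, smul_add]; abel

/-- The weight operator and the pairing. -/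
lemma Pairing.wt_B (ξ : G →+ K) (u v : M) :
    P.B (wt V ξ u) v + P.B u (wt V ξ v) = eul ω ξ (P.B u v) + ξ P.δ • P.B u v := by
  refine hom_ind V (P := fun u => P.B (wt V ξ u) v + P.B u (wt V ξ v) =
    eul ω ξ (P.B u v) + ξ P.δ • P.B u v) (by simp [eul]) ?_ ?_ u
  · intro g u hu
    refine hom_ind V (P := fun v => P.B (wt V ξ u) v + P.B u (wt V ξ v) =
      eul ω ξ (P.B u v) + ξ P.δ • P.B u v) (by simp [eul]) ?_ ?_ v
    · intro h v hv
      rw [wt_mem V ξ hu, wt_mem V ξ hv, eul_hom ξ (P.hom g h u hu v hv)]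
      rw [← algebraMap_smul (MvPolynomial (Fin 5) K) (ξ g) u,
        ← algebraMap_smul (MvPolynomial (Fin 5) K) (ξ h) v]
      simp only [map_smul, LinearMap.smul_apply, map_add, map_sub, smul_eq_mul,
        MvPolynomial.algebraMap_eq, MvPolynomial.smul_eq_C_mul]
      ring
    · intro m n hm hn
      simp only [map_add, eul_add, smul_add]
      linear_combination hm + hn
  · intro m n hm hn
    simp only [map_add, eul_add, smul_add, LinearMap.add_apply]
    linear_combination hm + hn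

end basics

section conn

variable {ω : Fin 5 → G} {V : G → Submodule K M} [DirectSum.Decomposition V]
  {P : Pairing ω V}

/-- The moment of a connection, a linear endomorphism. -/
noncomputable def Conn.mu {f : MvPolynomial (Fin 5) K} {d : G} (C : Conn P f d) (ξ : G →+ K) :
    M →ₗ[MvPolynomial (Fin 5) K] M where
  toFun z := f • wt V ξ z - ∑ a, ξ (ω a) • (X a : MvPolynomial (Fin 5) K) • C.D a z
  map_add' z z' := by
    simp only [map_add, smul_add, Finset.sum_add_distrib]; abel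
  map_smul' h z := by
    simp only [P.wt_smul, C.leib, RingHom.id_apply, smul_add, Finset.sum_add_distrib, smul_sub,
      Finset.smul_sum]
    have e1 : ∑ a, ξ (ω a) • (X a : MvPolynomial (Fin 5) K) • (pderiv a h * f) • z =
        f • eul ω ξ h • z := by
      rw [eul, Finset.sum_smul, Finset.smul_sum]
      refine Finset.sum_congr rfl (fun a _ => ?_)
      rw [← mul_smul, smul_assoc, smul_comm f, ← mul_smul]
      congr 2; ring
    have e2 : ∑ a, ξ (ω a) • (X a : MvPolynomial (Fin 5) K) • h • C.D a z =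
        ∑ a, h • ξ (ω a) • (X a : MvPolynomial (Fin 5) K) • C.D a z := by
      refine Finset.sum_congr rfl (fun a _ => ?_)
      rw [smul_comm h (ξ (ω a)), smul_comm h (X a : MvPolynomial (Fin 5) K)]
    rw [e1, e2, smul_comm f h]
    abel

lemma Conn.mu_apply {f : MvPolynomial (Fin 5) K} {d : G} (C : Conn P f d) (ξ : G →+ K)
    (z : M) : C.mu ξ z =
      f • wt V ξ z - ∑ a, ξ (ω a) • (X a : MvPolynomial (Fin 5) K) • C.D a z := rfl

end conn

end Pool.Agent.Lib.MP_745d3a_ag.Gm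

end

section

open Module MvPolynomial

set_option linter.unusedSectionVars false
set_option linter.unusedVariables false

namespace Pool.Agent.Lib.MP_745d3a_ag.Gm

variable {K : Type*} [Field K] {G : Type*} [AddCommGroup G] [DecidableEq G]
  {M : Type*} [AddCommGroup M] [Module K M] [Module (MvPolynomial (Fin 5) K) M]
  [IsScalarTower K (MvPolynomial (Fin 5) K) M]

variable {ω : Fin 5 → G} {V : G → Submodule K M} [DirectSum.Decomposition V]
  {P : Pairing ω V} {f f₀ f₁ f₂ : MvPolynomial (Fin 5) K} {d d₀ d₁ d₂ : G}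

lemma Conn.mu_deg (C : Conn P f d) (ξ : G →+ K) :
    ∀ g, ∀ z ∈ V g, C.mu ξ z ∈ V (g + d) := by
  intro g z hz
  rw [C.mu_apply, wt_mem V ξ hz]
  refine Submodule.sub_mem _ (P.smul_mem _ _ C.hf _ _ (Submodule.smul_mem _ _ hz)) ?_
  refine Submodule.sum_mem _ (fun a _ => Submodule.smul_mem _ _ ?_)
  have h1 := P.smul_mem _ _ (isWeightedHomogeneous_X K ω a) _ _ (C.deg a g z hz)
  have h2 : g + (d - ω a) + ω a = g + d := by abel
  rwa [h2] at h1

lemma Conn.mu_adj (C : Conn P f d) (ξ : G →+ K) (z z' : M) :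
    P.B (C.mu ξ z) z' + P.B z (C.mu ξ z') = ξ P.δ • (f * P.B z z') := by
  have h1 := P.wt_B ξ z z'
  have h2 : ∀ w : M, ∀ a, ξ (ω a) • (X a : MvPolynomial (Fin 5) K) • w =
      (MvPolynomial.C (ξ (ω a)) * X a : MvPolynomial (Fin 5) K) • w := by
    intro w a
    rw [mul_smul, ← MvPolynomial.algebraMap_eq, algebraMap_smul]
  rw [C.mu_apply, C.mu_apply]
  simp only [h2, map_sub, map_smul, map_sum, LinearMap.sub_apply, LinearMap.smul_apply,
    LinearMap.sum_apply, smul_eq_mul]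
  have h3 : ∑ a, (MvPolynomial.C (ξ (ω a)) * X a : MvPolynomial (Fin 5) K) * P.B (C.D a z) z' +
      ∑ a, (MvPolynomial.C (ξ (ω a)) * X a : MvPolynomial (Fin 5) K) * P.B z (C.D a z') =
      f * eul ω ξ (P.B z z') := by
    rw [← Finset.sum_add_distrib, eul, Finset.mul_sum]
    refine Finset.sum_congr rfl (fun a _ => ?_)
    rw [← mul_add, C.compat, MvPolynomial.smul_eq_C_mul]
    ring
  rw [MvPolynomial.smul_eq_C_mul] at h1 ⊢
  linear_combination f * h1 - h3

/-- The difference of two connections, a linear endomorphism. -/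
noncomputable def cdiff (C₀ : Conn P f₀ d₀) (C₁ : Conn P f₁ d₁) (a : Fin 5) :
    M →ₗ[MvPolynomial (Fin 5) K] M where
  toFun z := f₁ • C₀.D a z - f₀ • C₁.D a z
  map_add' z z' := by simp only [map_add, smul_add]; abel
  map_smul' h z := by
    simp only [C₀.leib, C₁.leib, RingHom.id_apply]
    module

lemma cdiff_apply (C₀ : Conn P f₀ d₀) (C₁ : Conn P f₁ d₁) (a : Fin 5) (z : M) :
    cdiff C₀ C₁ a z = f₁ • C₀.D a z - f₀ • C₁.D a z := rfl

lemma cdiff_adj (C₀ : Conn P f₀ d₀) (C₁ : Conn P f₁ d₁) (a : Fin 5) (z z' : M) :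
    P.B (cdiff C₀ C₁ a z) z' + P.B z (cdiff C₀ C₁ a z') = 0 := by
  have h0 := C₀.compat a z z'
  have h1 := C₁.compat a z z'
  rw [cdiff_apply, cdiff_apply]
  simp only [map_sub, map_smul, LinearMap.sub_apply, LinearMap.smul_apply, smul_eq_mul]
  linear_combination f₁ * h0 - f₀ * h1

lemma cdiff_deg (C₀ : Conn P f₀ d₀) (C₁ : Conn P f₁ d₁) (a : Fin 5) :
    ∀ g, ∀ z ∈ V g, cdiff C₀ C₁ a z ∈ V (g + (d₀ + d₁ - ω a)) := by
  intro g z hz
  rw [cdiff_apply]
  have h1 := P.smul_mem _ _ C₁.hf _ _ (C₀.deg a g z hz)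
  have h2 := P.smul_mem _ _ C₀.hf _ _ (C₁.deg a g z hz)
  have e1 : g + (d₀ - ω a) + d₁ = g + (d₀ + d₁ - ω a) := by abel
  have e2 : g + (d₁ - ω a) + d₀ = g + (d₀ + d₁ - ω a) := by abel
  rw [e1] at h1
  rw [e2] at h2
  exact Submodule.sub_mem _ h1 h2

/-- The operator `F`. -/
noncomputable def Fop (C₀ : Conn P f₀ d₀) (C₁ : Conn P f₁ d₁) (a b : Fin 5) : M →ₗ[K] M where
  toFun z := f₀ • (cdiff C₀ C₁ a (C₁.D b z) - cdiff C₀ C₁ b (C₁.D a z)) +
    (2⁻¹ : K) • (cdiff C₀ C₁ a (cdiff C₀ C₁ b z) - cdiff C₀ C₁ b (cdiff C₀ C₁ a z))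
  map_add' z z' := by simp only [map_add]; module
  map_smul' h z := by
    have h1 : ∀ (φ : M →ₗ[MvPolynomial (Fin 5) K] M) (w : M), φ (h • w) = h • φ w := by
      intro φ w
      rw [← algebraMap_smul (MvPolynomial (Fin 5) K) h w, map_smul, algebraMap_smul]
    simp only [map_smul, h1, RingHom.id_apply]
    module

lemma Fop_apply (C₀ : Conn P f₀ d₀) (C₁ : Conn P f₁ d₁) (a b : Fin 5) (z : M) :
    Fop C₀ C₁ a b z = f₀ • (cdiff C₀ C₁ a (C₁.D b z) - cdiff C₀ C₁ b (C₁.D a z)) +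
    (2⁻¹ : K) • (cdiff C₀ C₁ a (cdiff C₀ C₁ b z) - cdiff C₀ C₁ b (cdiff C₀ C₁ a z)) := rfl

lemma Fop_skew (C₀ : Conn P f₀ d₀) (C₁ : Conn P f₁ d₁) (a b : Fin 5) (z : M) :
    Fop C₀ C₁ a b z = - Fop C₀ C₁ b a z := by
  rw [Fop_apply, Fop_apply]; module

lemma Fop_deg (C₀ : Conn P f₀ d₀) (C₁ : Conn P f₁ d₁) (a b : Fin 5) :
    HasDeg V (Fop C₀ C₁ a b) (2 • d₀ + 2 • d₁ - ω a - ω b) := by
  intro g z hz
  rw [Fop_apply]
  have h1 := P.smul_mem _ _ C₀.hf _ _ (cdiff_deg C₀ C₁ a _ _ (C₁.deg b g z hz))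
  have h2 := P.smul_mem _ _ C₀.hf _ _ (cdiff_deg C₀ C₁ b _ _ (C₁.deg a g z hz))
  have h3 := cdiff_deg C₀ C₁ a _ _ (cdiff_deg C₀ C₁ b g z hz)
  have h4 := cdiff_deg C₀ C₁ b _ _ (cdiff_deg C₀ C₁ a g z hz)
  have e1 : g + (d₁ - ω b) + (d₀ + d₁ - ω a) + d₀ = g + (2 • d₀ + 2 • d₁ - ω a - ω b) := by
    rw [two_smul, two_smul]; abel
  have e2 : g + (d₁ - ω a) + (d₀ + d₁ - ω b) + d₀ = g + (2 • d₀ + 2 • d₁ - ω a - ω b) := by
    rw [two_smul, two_smul]; abel
  have e3 : g + (d₀ + d₁ - ω b) + (d₀ + d₁ - ω a) = g + (2 • d₀ + 2 • d₁ - ω a - ω b) := by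
    rw [two_smul, two_smul]; abel
  have e4 : g + (d₀ + d₁ - ω a) + (d₀ + d₁ - ω b) = g + (2 • d₀ + 2 • d₁ - ω a - ω b) := by
    rw [two_smul, two_smul]; abel
  rw [e1] at h1
  rw [e2] at h2
  rw [e3] at h3
  rw [e4] at h4
  refine Submodule.add_mem _ ?_ (Submodule.smul_mem _ _ (Submodule.sub_mem _ h3 h4))
  rw [smul_sub]
  exact Submodule.sub_mem _ h1 h2

/-- The multiplication by a variable. -/
noncomputable def mulX (b : Fin 5) : M →ₗ[K] M :=
  ((LinearMap.lsmul (MvPolynomial (Fin 5) K) M) (X b)).restrictScalars K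

lemma mulX_apply (b : Fin 5) (z : M) :
    (mulX b : M →ₗ[K] M) z = (X b : MvPolynomial (Fin 5) K) • z := rfl

/-- `x_b T` or `T x_b`. -/
noncomputable def lam (I : Finset (Fin 5)) (b : Fin 5) (T : M →ₗ[K] M) : M →ₗ[K] M :=
  if b ∈ I then T ∘ₗ mulX b else mulX b ∘ₗ T

/-- The total weight of a set of variables. -/
def tsum (ω : Fin 5 → G) (ξ : G →+ K) (I : Finset (Fin 5)) : K := ∑ a ∈ I, ξ (ω a)

/-- The operator `P'`. -/
noncomputable def Pp (C : Conn P f d) (ξ : G →+ K) (a : Fin 5) (I : Finset (Fin 5)) (z : M) :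
    M :=
  f • C.D a (wt V ξ z + tsum ω ξ I • z) - (ξ P.δ • f • C.D a z - C.mu ξ (C.D a z))

/-- The scalar operator in the identity (K0). -/
noncomputable def Aop (C₀ : Conn P f₀ d₀) (C₁ : Conn P f₁ d₁) (ξ : G →+ K) (a : Fin 5) (z : M) :
    M :=
  (2⁻¹ : K) • (f₀ • C₁.mu ξ (cdiff C₀ C₁ a z) + f₁ • C₀.mu ξ (cdiff C₀ C₁ a z) +
    f₀ • cdiff C₀ C₁ a (C₁.mu ξ z) + f₁ • cdiff C₀ C₁ a (C₀.mu ξ z)) -
    ξ P.δ • (f₀ * f₁) • cdiff C₀ C₁ a z

theorem K0 [CharZero K] (C₀ : Conn P f₀ d₀) (C₁ : Conn P f₁ d₁) (ξ : G →+ K) (a : Fin 5)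
    (I : Finset (Fin 5)) (ha : a ∉ I) (z : M) :
    f₁ ^ 2 • Pp C₀ ξ a I z - f₀ ^ 2 • Pp C₁ ξ a I z +
      ∑ b, ξ (ω b) • lam I b (Fop C₀ C₁ b a) z = Aop C₀ C₁ ξ a z := by
  classical
  -- each term
  have h1 : ∀ b, lam I b (Fop C₀ C₁ b a) z = (X b : MvPolynomial (Fin 5) K) • Fop C₀ C₁ b a z -
      (if b ∈ I then (f₀ * f₁) • cdiff C₀ C₁ a z else 0) := by
    intro b
    by_cases hb : b ∈ I
    · have hab : b ≠ a := fun h => ha (h ▸ hb)
      rw [lam, if_pos hb, if_pos hb, LinearMap.comp_apply, mulX_apply, Fop_apply, Fop_apply,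
        C₁.leib, C₁.leib, pderiv_X_self, pderiv_X_of_ne hab]
      simp only [map_smul, map_add, zero_mul, zero_smul, add_zero]
      module
    · rw [lam, if_neg hb, if_neg hb, sub_zero]; rfl
  have h2 : ∀ w, ∑ b, ξ (ω b) • (X b : MvPolynomial (Fin 5) K) • C₀.D b w =
      f₀ • wt V ξ w - C₀.mu ξ w := by
    intro w; rw [C₀.mu_apply]; abel
  have h3 : ∀ w, ∑ b, ξ (ω b) • (X b : MvPolynomial (Fin 5) K) • C₁.D b w =
      f₁ • wt V ξ w - C₁.mu ξ w := by
    intro w; rw [C₁.mu_apply]; abel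
  have h4 : ∀ w, ∑ b, ξ (ω b) • (X b : MvPolynomial (Fin 5) K) • cdiff C₀ C₁ b w =
      f₀ • C₁.mu ξ w - f₁ • C₀.mu ξ w := by
    intro w
    have : ∀ b, ξ (ω b) • (X b : MvPolynomial (Fin 5) K) • cdiff C₀ C₁ b w =
        f₁ • (ξ (ω b) • (X b : MvPolynomial (Fin 5) K) • C₀.D b w) -
        f₀ • (ξ (ω b) • (X b : MvPolynomial (Fin 5) K) • C₁.D b w) := by
      intro b; rw [cdiff_apply]; module
    rw [Finset.sum_congr rfl (fun b _ => this b), Finset.sum_sub_distrib, ← Finset.smul_sum,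
      ← Finset.smul_sum, h2, h3]
    module
  have hs : ∀ (φ : M →ₗ[MvPolynomial (Fin 5) K] M) (c : K) (w : M), φ (c • w) = c • φ w := by
    intro φ c w
    rw [← algebraMap_smul (MvPolynomial (Fin 5) K) c w, map_smul, algebraMap_smul]
  have h5 : ∑ b, ξ (ω b) • (X b : MvPolynomial (Fin 5) K) • Fop C₀ C₁ b a z =
      f₀ • ((f₀ • C₁.mu ξ (C₁.D a z) - f₁ • C₀.mu ξ (C₁.D a z)) -
        cdiff C₀ C₁ a (f₁ • wt V ξ z - C₁.mu ξ z)) +
      (2⁻¹ : K) • ((f₀ • C₁.mu ξ (cdiff C₀ C₁ a z) - f₁ • C₀.mu ξ (cdiff C₀ C₁ a z)) -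
        cdiff C₀ C₁ a (f₀ • C₁.mu ξ z - f₁ • C₀.mu ξ z)) := by
    rw [← h4 (C₁.D a z), ← h3 z, ← h4 (cdiff C₀ C₁ a z), ← h4 z]
    simp only [map_sum, map_smul, hs]
    rw [← Finset.sum_sub_distrib, ← Finset.sum_sub_distrib, Finset.smul_sum, Finset.smul_sum,
      ← Finset.sum_add_distrib]
    refine Finset.sum_congr rfl (fun b _ => ?_)
    rw [Fop_apply]
    module
  have h6 : ∑ b, ξ (ω b) • (if b ∈ I then (f₀ * f₁) • cdiff C₀ C₁ a z else 0) =
      tsum ω ξ I • (f₀ * f₁) • cdiff C₀ C₁ a z := by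
    simp only [smul_ite, smul_zero, Finset.sum_ite_mem, Finset.univ_inter]
    rw [tsum, Finset.sum_smul]
  have h7 : ∑ b, ξ (ω b) • lam I b (Fop C₀ C₁ b a) z =
      ∑ b, ξ (ω b) • (X b : MvPolynomial (Fin 5) K) • Fop C₀ C₁ b a z -
      tsum ω ξ I • (f₀ * f₁) • cdiff C₀ C₁ a z := by
    rw [← h6, ← Finset.sum_sub_distrib]
    refine Finset.sum_congr rfl (fun b _ => ?_)
    rw [h1, smul_sub]
  rw [h7, h5]
  have hB : ∀ w, f₁ • C₀.D a w = cdiff C₀ C₁ a w + f₀ • C₁.D a w := by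
    intro w; rw [cdiff_apply]; abel
  have hm : f₁ • C₀.mu ξ (C₀.D a z) = C₀.mu ξ (cdiff C₀ C₁ a z) + f₀ • C₀.mu ξ (C₁.D a z) := by
    rw [← map_smul, hB, map_add, map_smul]
  have hBz := hB z
  have hBE := hB (wt V ξ z)
  simp only [Pp, Aop, map_add, map_sub, map_smul]
  have e2 : (algebraMap K (MvPolynomial (Fin 5) K)) 2⁻¹ * 2 = 1 := by
    rw [← map_ofNat (algebraMap K (MvPolynomial (Fin 5) K)) 2, ← map_mul,
      inv_mul_cancel₀ two_ne_zero, map_one]
  linear_combination (norm := skip) (f₁ * f₀) • hBE + (tsum ω ξ I) • (f₁ * f₀) • hBz -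
    (ξ P.δ) • (f₁ * f₀) • hBz + f₁ • hm
  match_scalars
  all_goals first | ring1 | linear_combination (-f₀) * e2 | linear_combination (-f₁) * e2

end Pool.Agent.Lib.MP_745d3a_ag.Gm

end
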