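import Pool.Agent.Lib.MP_745d3a_ag.GM.OpA

/-!
The trace identity: scalars and corrections.
-/

section

open Module MvPolynomial

set_option linter.unusedSectionVars false
set_option linter.unusedVariables false

namespace Pool.Agent.Lib.MP_745d3a_ag.Gm

variable {K : Type*} [Field K] {G : Type*} [AddCommGroup G] [DecidableEq G]
  {M : Type*} [AddCommGroup M] [Module K M] [Module (MvPolynomial (Fin 5) K) M]
  [IsScalarTower K (MvPolynomial (Fin 5) K) M]

variable {ω : Fin 5 → G} {V : G → Submodule K M} [DirectSum.Decomposition V]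
  {P : Pairing ω V} {f f₀ f₁ f₂ : MvPolynomial (Fin 5) K} {d d₀ d₁ d₂ : G}

lemma lin_smul (φ : M →ₗ[MvPolynomial (Fin 5) K] M) (c : K) (w : M) : φ (c • w) = c • φ w := by
  rw [← algebraMap_smul (MvPolynomial (Fin 5) K) c w, map_smul, algebraMap_smul]

lemma half_two [CharZero K] : (algebraMap K (MvPolynomial (Fin 5) K)) 2⁻¹ * 2 = 1 := by
  rw [← map_ofNat (algebraMap K (MvPolynomial (Fin 5) K)) 2, ← map_mul,
    inv_mul_cancel₀ two_ne_zero, map_one]

/-- `Aop` is a scalar. -/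
lemma exists_alpha [CharZero K] (C₀ : Conn P f₀ d₀) (C₁ : Conn P f₁ d₁) (ξ : G →+ K)
    (a : Fin 5) : ∃ α : MvPolynomial (Fin 5) K,
      IsWeightedHomogeneous ω α (2 • d₀ + 2 • d₁ - ω a) ∧ ∀ z, Aop C₀ C₁ ξ a z = α • z := by
  let φ : M →ₗ[MvPolynomial (Fin 5) K] M :=
    { toFun := Aop C₀ C₁ ξ a
      map_add' := by
        intro z z'
        simp only [Aop, map_add]
        module
      map_smul' := by
        intro h z
        simp only [Aop, map_smul, RingHom.id_apply]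
        module }
  have hφ : ∀ z, φ z = Aop C₀ C₁ ξ a z := fun z => rfl
  obtain ⟨q, hq1, hq2⟩ := P.scalar_hom φ (by
    intro z
    have h1 := C₁.mu_adj ξ (cdiff C₀ C₁ a z) z
    have h2 := C₀.mu_adj ξ (cdiff C₀ C₁ a z) z
    have h3 := cdiff_adj C₀ C₁ a (C₁.mu ξ z) z
    have h4 := cdiff_adj C₀ C₁ a (C₀.mu ξ z) z
    have h5 := P.skew (C₁.mu ξ z) (cdiff C₀ C₁ a z)
    have h6 := P.skew (C₀.mu ξ z) (cdiff C₀ C₁ a z)
    rw [hφ, Aop]
    rw [← algebraMap_smul (MvPolynomial (Fin 5) K) (2⁻¹ : K),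
      ← algebraMap_smul (MvPolynomial (Fin 5) K) (ξ P.δ)]
    simp only [map_sub, map_add, map_smul, LinearMap.sub_apply, LinearMap.add_apply,
      LinearMap.smul_apply, smul_eq_mul, MvPolynomial.smul_eq_C_mul] at h1 h2 h3 h4 h5 h6 ⊢
    have e2 := half_two (K := K)
    simp only [MvPolynomial.algebraMap_eq] at e2 ⊢
    linear_combination (MvPolynomial.C 2⁻¹ * f₀) * h1 + (MvPolynomial.C 2⁻¹ * f₁) * h2 +
      (MvPolynomial.C 2⁻¹ * f₀) * h3 + (MvPolynomial.C 2⁻¹ * f₁) * h4 -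
      (MvPolynomial.C 2⁻¹ * f₀) * h5 - (MvPolynomial.C 2⁻¹ * f₁) * h6 +
      (MvPolynomial.C (ξ P.δ) * f₀ * f₁ * P.B (cdiff C₀ C₁ a z) z) * e2)
    (d := 2 • d₀ + 2 • d₁ - ω a) (by
    intro g z hz
    rw [hφ, Aop]
    have e : ∀ g', g' = g + (2 • d₀ + 2 • d₁ - ω a) → ∀ w ∈ V g',
        w ∈ V (g + (2 • d₀ + 2 • d₁ - ω a)) := by
      intro g' hg' w hw; rwa [← hg']
    have hb := cdiff_deg C₀ C₁ a g z hz
    refine Submodule.sub_mem _ (Submodule.smul_mem _ _ (Submodule.add_mem _ (Submodule.add_mem _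
      (Submodule.add_mem _ ?_ ?_) ?_) ?_)) (Submodule.smul_mem _ _ ?_)
    · refine e _ ?_ _ (P.smul_mem _ _ C₀.hf _ _ (C₁.mu_deg ξ _ _ hb))
      rw [two_smul, two_smul]; abel
    · refine e _ ?_ _ (P.smul_mem _ _ C₁.hf _ _ (C₀.mu_deg ξ _ _ hb))
      rw [two_smul, two_smul]; abel
    · refine e _ ?_ _ (P.smul_mem _ _ C₀.hf _ _ (cdiff_deg C₀ C₁ a _ _ (C₁.mu_deg ξ _ _ hz)))
      rw [two_smul, two_smul]; abel
    · refine e _ ?_ _ (P.smul_mem _ _ C₁.hf _ _ (cdiff_deg C₀ C₁ a _ _ (C₀.mu_deg ξ _ _ hz)))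
      rw [two_smul, two_smul]; abel
    · refine e _ ?_ _ (P.smul_mem _ _ (C₀.hf.mul C₁.hf) _ _ hb)
      rw [two_smul, two_smul]; abel)
  exact ⟨q, hq1, fun z => by rw [← hφ, hq2]⟩

/-- The cocycle identity: the alternating sum of the `F` is a scalar. -/
lemma exists_cocycle [CharZero K] (C₀ : Conn P f₀ d₀) (C₁ : Conn P f₁ d₁) (C₂ : Conn P f₂ d₂)
    (a b : Fin 5) : ∃ s : MvPolynomial (Fin 5) K,
      IsWeightedHomogeneous ω s (2 • d₀ + 2 • d₁ + 2 • d₂ - ω a - ω b) ∧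
      ∀ z, f₂ ^ 2 • Fop C₀ C₁ a b z - f₁ ^ 2 • Fop C₀ C₂ a b z + f₀ ^ 2 • Fop C₁ C₂ a b z =
        s • z := by
  let φ : M →ₗ[MvPolynomial (Fin 5) K] M := (f₀ * f₂) • (MvPolynomial.C 2⁻¹ : MvPolynomial (Fin 5) K) •
    (cdiff C₀ C₁ a ∘ₗ cdiff C₁ C₂ b - cdiff C₀ C₁ b ∘ₗ cdiff C₁ C₂ a +
      cdiff C₁ C₂ b ∘ₗ cdiff C₀ C₁ a - cdiff C₁ C₂ a ∘ₗ cdiff C₀ C₁ b)
  have hφ : ∀ z, φ z = (f₀ * f₂) • (MvPolynomial.C 2⁻¹ : MvPolynomial (Fin 5) K) •
    (cdiff C₀ C₁ a (cdiff C₁ C₂ b z) - cdiff C₀ C₁ b (cdiff C₁ C₂ a z) +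
      cdiff C₁ C₂ b (cdiff C₀ C₁ a z) - cdiff C₁ C₂ a (cdiff C₀ C₁ b z)) := fun z => rfl
  have hmain : ∀ z, f₂ ^ 2 • Fop C₀ C₁ a b z - f₁ ^ 2 • Fop C₀ C₂ a b z +
      f₀ ^ 2 • Fop C₁ C₂ a b z = φ z := by
    intro z
    have hc : ∀ (c : Fin 5) (w : M), f₁ • cdiff C₀ C₂ c w =
        f₂ • cdiff C₀ C₁ c w + f₀ • cdiff C₁ C₂ c w := by
      intro c w
      rw [cdiff_apply, cdiff_apply, cdiff_apply]
      module
    have hd : ∀ (c : Fin 5) (w : M), f₂ • C₁.D c w = cdiff C₁ C₂ c w + f₁ • C₂.D c w := by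
      intro c w
      rw [cdiff_apply]; module
    have k1 := hc a (C₂.D b z)
    have k2 := hc b (C₂.D a z)
    have k3 : f₁ • cdiff C₀ C₂ a (f₁ • cdiff C₀ C₂ b z) =
        f₂ • cdiff C₀ C₁ a (f₂ • cdiff C₀ C₁ b z + f₀ • cdiff C₁ C₂ b z) +
        f₀ • cdiff C₁ C₂ a (f₂ • cdiff C₀ C₁ b z + f₀ • cdiff C₁ C₂ b z) := by
      rw [hc b z, hc a]
    have k4 : f₁ • cdiff C₀ C₂ b (f₁ • cdiff C₀ C₂ a z) =
        f₂ • cdiff C₀ C₁ b (f₂ • cdiff C₀ C₁ a z + f₀ • cdiff C₁ C₂ a z) +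
        f₀ • cdiff C₁ C₂ b (f₂ • cdiff C₀ C₁ a z + f₀ • cdiff C₁ C₂ a z) := by
      rw [hc a z, hc b]
    have k5 : f₂ • cdiff C₀ C₁ a (C₁.D b z) =
        cdiff C₀ C₁ a (cdiff C₁ C₂ b z + f₁ • C₂.D b z) := by rw [← hd, map_smul]
    have k6 : f₂ • cdiff C₀ C₁ b (C₁.D a z) =
        cdiff C₀ C₁ b (cdiff C₁ C₂ a z + f₁ • C₂.D a z) := by rw [← hd, map_smul]
    rw [hφ, Fop_apply, Fop_apply, Fop_apply]
    simp only [map_add, map_smul] at k3 k4 k5 k6
    have e2 := half_two (K := K)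
    have e3 : ∀ w : M, (2⁻¹ : K) • w = (MvPolynomial.C 2⁻¹ : MvPolynomial (Fin 5) K) • w := by
      intro w
      rw [← MvPolynomial.algebraMap_eq, algebraMap_smul]
    simp only [e3]
    simp only [MvPolynomial.algebraMap_eq] at e2
    generalize (MvPolynomial.C 2⁻¹ : MvPolynomial (Fin 5) K) = c at e2 ⊢
    linear_combination (norm := skip) (-(f₁ * f₀)) • k1 + (f₁ * f₀) • k2 -
      c • k3 + c • k4 + (f₂ * f₀) • k5 - (f₂ * f₀) • k6
    match_scalars
    all_goals first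
      | ring1
      | linear_combination (f₀ * f₂) * e2
      | linear_combination (-f₀ * f₂) * e2
  obtain ⟨q, hq1, hq2⟩ := P.scalar_hom φ (by
    intro z
    have h1 := cdiff_adj C₀ C₁ a (cdiff C₁ C₂ b z) z
    have h2 := cdiff_adj C₀ C₁ b (cdiff C₁ C₂ a z) z
    have h3 := cdiff_adj C₁ C₂ b (cdiff C₀ C₁ a z) z
    have h4 := cdiff_adj C₁ C₂ a (cdiff C₀ C₁ b z) z
    have h5 := P.skew (cdiff C₀ C₁ a z) (cdiff C₁ C₂ b z)
    have h6 := P.skew (cdiff C₀ C₁ b z) (cdiff C₁ C₂ a z)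
    rw [hφ]
    simp only [map_sub, map_add, map_smul, LinearMap.sub_apply, LinearMap.add_apply,
      LinearMap.smul_apply, smul_eq_mul]
    linear_combination (f₀ * f₂ * MvPolynomial.C 2⁻¹) * (h1 - h2 + h3 - h4 - h5 + h6))
    (d := 2 • d₀ + 2 • d₁ + 2 • d₂ - ω a - ω b) (by
    intro g z hz
    rw [← hmain]
    have e : ∀ g', g' = g + (2 • d₀ + 2 • d₁ + 2 • d₂ - ω a - ω b) → ∀ w ∈ V g',
        w ∈ V (g + (2 • d₀ + 2 • d₁ + 2 • d₂ - ω a - ω b)) := by
      intro g' hg' w hw; rwa [← hg']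
    refine Submodule.add_mem _ (Submodule.sub_mem _ ?_ ?_) ?_
    · refine e _ ?_ _ (P.smul_mem _ _ (C₂.hf.pow 2) _ _ (Fop_deg C₀ C₁ a b g z hz))
      abel
    · refine e _ ?_ _ (P.smul_mem _ _ (C₁.hf.pow 2) _ _ (Fop_deg C₀ C₂ a b g z hz))
      abel
    · refine e _ ?_ _ (P.smul_mem _ _ (C₀.hf.pow 2) _ _ (Fop_deg C₁ C₂ a b g z hz))
      abel)
  exact ⟨q, hq1, fun z => by rw [hmain, hq2]⟩

end Pool.Agent.Lib.MP_745d3a_ag.Gm

end

section

open Module MvPolynomial

set_option linter.unusedSectionVars false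
set_option linter.unusedVariables false

namespace Pool.Agent.Lib.MP_745d3a_ag.Gm

section ideals

variable {K : Type*} [Field K] {G : Type*} [AddCommGroup G] [DecidableEq G]

/-- A monomial ideal. -/
noncomputable def MI (K : Type*) [Field K] (T : Set (Fin 5 →₀ ℕ)) : Ideal (MvPolynomial (Fin 5) K) :=
  Ideal.span ((fun s => monomial s (1 : K)) '' T)

lemma mem_MI {T : Set (Fin 5 →₀ ℕ)} {f : MvPolynomial (Fin 5) K} :
    f ∈ MI K T ↔ ∀ m ∈ f.support, ∃ t ∈ T, t ≤ m := mem_ideal_span_monomial_image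

lemma MI_nzd {T : Set (Fin 5 →₀ ℕ)} {e : Fin 5} (hT : ∀ t ∈ T, t e = 0) {m : ℕ}
    {f : MvPolynomial (Fin 5) K} (h : X e ^ m * f ∈ MI K T) : f ∈ MI K T := by
  rw [mem_MI] at h ⊢
  intro u hu
  have h1 : u + Finsupp.single e m ∈ (X e ^ m * f).support := by
    rw [MvPolynomial.mem_support_iff, X_pow_eq_monomial, add_comm, coeff_monomial_mul, one_mul]
    exact MvPolynomial.mem_support_iff.mp hu
  obtain ⟨t, ht, htu⟩ := h _ h1
  refine ⟨t, ht, ?_⟩
  intro i
  by_cases hi : i = e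
  · rw [hi, hT t ht]; exact Nat.zero_le _
  · have := htu i
    rw [Finsupp.add_apply, Finsupp.single_eq_of_ne hi, add_zero] at this
    exact this

/-- The ideal `(x_i ^ n, x_j ^ n)`. -/
noncomputable def I2 (K : Type*) [Field K] (i j : Fin 5) (n : ℕ) : Ideal (MvPolynomial (Fin 5) K) :=
  MI K {Finsupp.single i n, Finsupp.single j n}

lemma mem_I2 {i j : Fin 5} {n : ℕ} {f : MvPolynomial (Fin 5) K} :
    f ∈ I2 K i j n ↔ ∃ u v, f = X i ^ n * u + X j ^ n * v := by
  rw [I2, MI, Set.image_pair, Ideal.mem_span_pair]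
  constructor
  · rintro ⟨a, b, h⟩
    refine ⟨a, b, ?_⟩
    rw [← h, X_pow_eq_monomial, X_pow_eq_monomial]; ring
  · rintro ⟨a, b, h⟩
    refine ⟨a, b, ?_⟩
    rw [h, X_pow_eq_monomial, X_pow_eq_monomial]; ring

lemma I2_nzd {i j e : Fin 5} (hi : e ≠ i) (hj : e ≠ j) {n m : ℕ} {f : MvPolynomial (Fin 5) K}
    (h : X e ^ m * f ∈ I2 K i j n) : f ∈ I2 K i j n := by
  refine MI_nzd (e := e) ?_ h
  rintro t (rfl | rfl)
  · exact Finsupp.single_eq_of_ne hi
  · exact Finsupp.single_eq_of_ne hj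

/-- The ideal `(x_i ^ n, x_j ^ n, x_c ^ m)` and its gluing property. -/
lemma I2_glue {i j c e : Fin 5} (hei : e ≠ i) (hej : e ≠ j) (hec : e ≠ c) {n k m : ℕ}
    {f g : MvPolynomial (Fin 5) K} (h : X e ^ m * f - X c ^ k * g ∈ I2 K i j n) :
    ∃ g', f - X c ^ k * g' ∈ I2 K i j n := by
  have h1 : ∀ q : MvPolynomial (Fin 5) K,
      q ∈ MI K {Finsupp.single i n, Finsupp.single j n, Finsupp.single c k} ↔
      ∃ g', q - X c ^ k * g' ∈ I2 K i j n := by
    intro q
    have e1 : MI K {Finsupp.single i n, Finsupp.single j n, Finsupp.single c k} =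
        I2 K i j n ⊔ Ideal.span {(X c : MvPolynomial (Fin 5) K) ^ k} := by
      rw [I2, MI, MI, ← Ideal.span_union, X_pow_eq_monomial]
      congr 1
      rw [← Set.image_singleton (f := fun s => monomial s (1 : K)), ← Set.image_union]
      congr 1
      ext t
      simp only [Set.mem_insert_iff, Set.mem_singleton_iff, Set.mem_union]
      tauto
    rw [e1, Submodule.mem_sup]
    constructor
    · rintro ⟨y, hy, z, hz, hyz⟩
      obtain ⟨g', hg'⟩ := Ideal.mem_span_singleton'.mp hz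
      refine ⟨g', ?_⟩
      have : q - X c ^ k * g' = y := by rw [← hyz, ← hg']; ring
      rw [this]; exact hy
    · rintro ⟨g', hg'⟩
      refine ⟨_, hg', X c ^ k * g', ?_, by ring⟩
      exact Ideal.mul_mem_right _ _ (Ideal.mem_span_singleton_self _)
  rw [← h1]
  refine MI_nzd (e := e) (m := m) ?_ ((h1 _).mpr ⟨g, h⟩)
  rintro t (rfl | rfl | rfl)
  · exact Finsupp.single_eq_of_ne hei
  · exact Finsupp.single_eq_of_ne hej
  · exact Finsupp.single_eq_of_ne hec

variable {ω : Fin 5 → G}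

/-- Components of a product with a homogeneous factor. -/
lemma whc_mul {p : MvPolynomial (Fin 5) K} {e : G} (hp : IsWeightedHomogeneous ω p e)
    (q : MvPolynomial (Fin 5) K) (d : G) :
    weightedHomogeneousComponent ω (e + d) (p * q) =
      p * weightedHomogeneousComponent ω d q := by
  induction q using MvPolynomial.induction_on' with
  | monomial m c =>
    have h1 : IsWeightedHomogeneous ω (monomial m c) (Finsupp.weight ω m) :=
      isWeightedHomogeneous_monomial ω m c rfl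
    by_cases hh : Finsupp.weight ω m = d
    · rw [hh] at h1
      rw [weightedHomogeneousComponent_eq_self h1,
        weightedHomogeneousComponent_eq_self (hp.mul h1)]
    · rw [h1.weightedHomogeneousComponent_ne _ (Ne.symm hh), mul_zero,
        (hp.mul h1).weightedHomogeneousComponent_ne _
          (fun h => hh (add_left_cancel h).symm)]
  | add a b ha hb => rw [mul_add, map_add, ha, hb, map_add, mul_add]

end ideals

variable {K : Type*} [Field K] {G : Type*} [AddCommGroup G] [DecidableEq G]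
  {M : Type*} [AddCommGroup M] [Module K M] [Module (MvPolynomial (Fin 5) K) M]
  [IsScalarTower K (MvPolynomial (Fin 5) K) M]

variable {ω : Fin 5 → G} {V : G → Submodule K M} [DirectSum.Decomposition V]
  {P : Pairing ω V}

/-- Membership in `(x_i ^ n, x_j ^ n) M`. -/
def InJ (K : Type*) [Field K] {M : Type*} [AddCommGroup M] [Module (MvPolynomial (Fin 5) K) M]
    (i j : Fin 5) (n : ℕ) : Submodule (MvPolynomial (Fin 5) K) M where
  carrier := {w | ∃ u v : M, w = (X i : MvPolynomial (Fin 5) K) ^ n • u +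
    (X j : MvPolynomial (Fin 5) K) ^ n • v}
  add_mem' := by
    rintro _ _ ⟨u, v, rfl⟩ ⟨u', v', rfl⟩
    exact ⟨u + u', v + v', by rw [smul_add, smul_add]; abel⟩
  zero_mem' := ⟨0, 0, by rw [smul_zero, smul_zero, add_zero]⟩
  smul_mem' := by
    rintro c _ ⟨u, v, rfl⟩
    exact ⟨c • u, c • v, by rw [smul_add, smul_comm c, smul_comm c]⟩

lemma mem_InJ {i j : Fin 5} {n : ℕ} {w : M} : w ∈ InJ K i j n ↔
    ∃ u v : M, w = (X i : MvPolynomial (Fin 5) K) ^ n • u +
    (X j : MvPolynomial (Fin 5) K) ^ n • v := Iff.rfl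

lemma InJ_left (i j : Fin 5) (n : ℕ) (u : M) :
    (X i : MvPolynomial (Fin 5) K) ^ n • u ∈ InJ K i j n := ⟨u, 0, by rw [smul_zero, add_zero]⟩

lemma InJ_right (i j : Fin 5) (n : ℕ) (u : M) :
    (X j : MvPolynomial (Fin 5) K) ^ n • u ∈ InJ K i j n := ⟨0, u, by rw [smul_zero, zero_add]⟩

lemma InJ_of_I2 {i j : Fin 5} {n : ℕ} {q : MvPolynomial (Fin 5) K} (hq : q ∈ I2 K i j n)
    (z : M) : q • z ∈ InJ K i j n := by
  obtain ⟨u, v, rfl⟩ := mem_I2.mp hq
  exact ⟨u • z, v • z, by rw [add_smul, mul_smul, mul_smul]⟩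

/-- A scalar that maps `M` to `(x_i ^ n, x_j ^ n) M` lies in the ideal. -/
lemma I2_of_InJ (P : Pairing ω V) {i j e : Fin 5} (hi : e ≠ i) (hj : e ≠ j) {n : ℕ}
    {q : MvPolynomial (Fin 5) K} (h : ∀ z : M, q • z ∈ InJ K i j n) : q ∈ I2 K i j n := by
  refine I2_nzd (e := e) (m := P.N) hi hj ?_
  have h1 : ∀ f ∈ Ideal.span (Set.range (fun p : M × M => P.B p.1 p.2)), f * q ∈ I2 K i j n := by
    intro f hf
    induction hf using Submodule.span_induction with
    | mem x hx =>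
      obtain ⟨p, rfl⟩ := hx
      obtain ⟨u, v, huv⟩ := h p.1
      rw [mem_I2]
      refine ⟨P.B u p.2, P.B v p.2, ?_⟩
      have := congrArg (fun t => P.B t p.2) huv
      simp only [map_smul, map_add, LinearMap.add_apply, LinearMap.smul_apply,
        smul_eq_mul] at this
      simp only
      rw [mul_comm, this]
    | zero => rw [zero_mul]; exact Ideal.zero_mem _
    | add x y _ _ hx hy => rw [add_mul]; exact Ideal.add_mem _ hx hy
    | smul a x _ hx => rw [smul_eq_mul, mul_assoc]; exact Ideal.mul_mem_left _ _ hx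
  exact h1 _ (P.van e)

/-- A family of connections over the sets `x_i ≠ 0`. -/
abbrev Fam (P : Pairing ω V) := ∀ i : Fin 5, Conn P (X i ^ P.N) (P.N • ω i)

section eps

variable [CharZero K] (C : Fam P) (i j : Fin 5)

/-- The operator `F` for the pair of variables `i`, `j`. -/
noncomputable def FF (a b : Fin 5) : M →ₗ[K] M := Fop (C i) (C j) a b

/-- The degree of the operator `F`. -/
def dF (P : Pairing ω V) (i j a b : Fin 5) : G :=
  2 • (P.N • ω i) + 2 • (P.N • ω j) - ω a - ω b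

lemma exists_eps0 (hij : i ≠ j) (a b : Fin 5) : ∃ ε : MvPolynomial (Fin 5) K,
    IsWeightedHomogeneous ω ε (dF P i j a b) ∧
    ∀ e, e ≠ i → e ≠ j → ∀ z, (X e : MvPolynomial (Fin 5) K) ^ (2 * P.N) •
      (FF C i j a b z - ε • z) ∈ InJ K i j (2 * P.N) := by
  classical
  have pw : ∀ e : Fin 5, ((X e : MvPolynomial (Fin 5) K) ^ P.N) ^ 2 = X e ^ (2 * P.N) := by
    intro e; rw [← pow_mul, mul_comm]
  -- the scalars
  have h1 : ∀ e, ∃ s : MvPolynomial (Fin 5) K,
      IsWeightedHomogeneous ω s (2 • (P.N • ω i) + 2 • (P.N • ω j) + 2 • (P.N • ω e) - ω a - ω b) ∧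
      ∀ z, (X e : MvPolynomial (Fin 5) K) ^ (2 * P.N) • FF C i j a b z - s • z ∈
        InJ K i j (2 * P.N) := by
    intro e
    obtain ⟨s, hs1, hs2⟩ := exists_cocycle (C i) (C j) (C e) a b
    refine ⟨s, hs1, fun z => ?_⟩
    have h2 := hs2 z
    simp only [pw] at h2
    have h3 : (X e : MvPolynomial (Fin 5) K) ^ (2 * P.N) • FF C i j a b z - s • z =
        (X j : MvPolynomial (Fin 5) K) ^ (2 * P.N) • Fop (C i) (C e) a b z -
        (X i : MvPolynomial (Fin 5) K) ^ (2 * P.N) • Fop (C j) (C e) a b z := by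
      rw [← h2, FF]; abel
    rw [h3]
    exact Submodule.sub_mem _ (InJ_right _ _ _ _) (InJ_left _ _ _ _)
  choose s hs1 hs2 using h1
  -- consistency
  obtain ⟨c, hci, hcj⟩ : ∃ c : Fin 5, c ≠ i ∧ c ≠ j := by
    have : ∃ c ∈ (Finset.univ : Finset (Fin 5)), c ∉ ({i, j} : Finset (Fin 5)) := by
      apply Finset.exists_mem_notMem_of_card_lt_card
      exact lt_of_le_of_lt (Finset.card_le_two) (by simp)
    obtain ⟨c, _, hc⟩ := this
    simp only [Finset.mem_insert, Finset.mem_singleton, not_or] at hc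
    exact ⟨c, hc.1, hc.2⟩
  have h2 : ∀ e e', X e' ^ (2 * P.N) * s e - X e ^ (2 * P.N) * s e' ∈ I2 K i j (2 * P.N) := by
    intro e e'
    refine I2_of_InJ P hci hcj (fun z => ?_)
    have h3 := Submodule.smul_mem _ ((X e' : MvPolynomial (Fin 5) K) ^ (2 * P.N)) (hs2 e z)
    have h4 := Submodule.smul_mem _ ((X e : MvPolynomial (Fin 5) K) ^ (2 * P.N)) (hs2 e' z)
    have h5 := Submodule.sub_mem _ h4 h3
    have h6 : (X e : MvPolynomial (Fin 5) K) ^ (2 * P.N) •
        ((X e' : MvPolynomial (Fin 5) K) ^ (2 * P.N) • FF C i j a b z - s e' • z) -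
        (X e' : MvPolynomial (Fin 5) K) ^ (2 * P.N) •
        ((X e : MvPolynomial (Fin 5) K) ^ (2 * P.N) • FF C i j a b z - s e • z) =
        (X e' ^ (2 * P.N) * s e - X e ^ (2 * P.N) * s e') • z := by module
    rwa [h6] at h5
  obtain ⟨c', hci', hcj', hcc'⟩ : ∃ c' : Fin 5, c' ≠ i ∧ c' ≠ j ∧ c' ≠ c := by
    have : ∃ c' ∈ (Finset.univ : Finset (Fin 5)), c' ∉ ({i, j, c} : Finset (Fin 5)) := by
      apply Finset.exists_mem_notMem_of_card_lt_card
      exact lt_of_le_of_lt (Finset.card_le_three) (by simp)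
    obtain ⟨c', _, hc'⟩ := this
    simp only [Finset.mem_insert, Finset.mem_singleton, not_or] at hc'
    exact ⟨c', hc'.1, hc'.2.1, hc'.2.2⟩
  obtain ⟨ε0, hε0⟩ := I2_glue hci' hcj' hcc' (h2 c c')
  -- homogeneous component
  set ε := weightedHomogeneousComponent ω (dF P i j a b) ε0 with hε
  have hXw : ∀ e : Fin 5, IsWeightedHomogeneous ω
      ((X e : MvPolynomial (Fin 5) K) ^ (2 * P.N)) (2 • (P.N • ω e)) := by
    intro e
    rw [smul_smul]
    exact (isWeightedHomogeneous_X K ω e).pow _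
  have h3 : s c - X c ^ (2 * P.N) * ε ∈ I2 K i j (2 * P.N) := by
    obtain ⟨u, v, huv⟩ := mem_I2.mp hε0
    rw [mem_I2]
    have h4 := congrArg (weightedHomogeneousComponent ω (2 • (P.N • ω c) + dF P i j a b)) huv
    rw [map_sub, whc_mul (hXw c), map_add] at h4
    have e1 : 2 • (P.N • ω c) + dF P i j a b = 2 • (P.N • ω i) +
        (2 • (P.N • ω c) + dF P i j a b - 2 • (P.N • ω i)) := by abel
    have e2 : 2 • (P.N • ω c) + dF P i j a b = 2 • (P.N • ω j) +
        (2 • (P.N • ω c) + dF P i j a b - 2 • (P.N • ω j)) := by abel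
    have h5 : weightedHomogeneousComponent ω (2 • (P.N • ω c) + dF P i j a b)
        (X i ^ (2 * P.N) * u) = X i ^ (2 * P.N) * weightedHomogeneousComponent ω
          (2 • (P.N • ω c) + dF P i j a b - 2 • (P.N • ω i)) u := by
      conv_lhs => rw [e1]
      exact whc_mul (hXw i) _ _
    have h6 : weightedHomogeneousComponent ω (2 • (P.N • ω c) + dF P i j a b)
        (X j ^ (2 * P.N) * v) = X j ^ (2 * P.N) * weightedHomogeneousComponent ω
          (2 • (P.N • ω c) + dF P i j a b - 2 • (P.N • ω j)) v := by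
      conv_lhs => rw [e2]
      exact whc_mul (hXw j) _ _
    rw [h5, h6] at h4
    have h7 : weightedHomogeneousComponent ω (2 • (P.N • ω c) + dF P i j a b) (s c) = s c := by
      apply weightedHomogeneousComponent_eq_self
      have e3 : 2 • (P.N • ω c) + dF P i j a b =
          2 • (P.N • ω i) + 2 • (P.N • ω j) + 2 • (P.N • ω c) - ω a - ω b := by
        rw [dF]; abel
      rw [e3]; exact hs1 c
    rw [h7] at h4
    exact ⟨_, _, h4⟩
  have h4 : ∀ e, s e - X e ^ (2 * P.N) * ε ∈ I2 K i j (2 * P.N) := by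
    intro e
    refine I2_nzd (e := c) (m := 2 * P.N) hci hcj ?_
    have h5 := h2 c e
    have h6 := Ideal.mul_mem_left _ (X e ^ (2 * P.N)) h3
    have h7 := Ideal.sub_mem _ h6 h5
    have h8 : X e ^ (2 * P.N) * (s c - X c ^ (2 * P.N) * ε) -
        (X e ^ (2 * P.N) * s c - X c ^ (2 * P.N) * s e) =
        X c ^ (2 * P.N) * (s e - X e ^ (2 * P.N) * ε) := by ring
    rwa [h8] at h7
  refine ⟨ε, weightedHomogeneousComponent_isWeightedHomogeneous _ _, ?_⟩
  intro e hei hej z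
  have h5 := Submodule.add_mem _ (hs2 e z) (InJ_of_I2 (h4 e) z)
  have h6 : (X e : MvPolynomial (Fin 5) K) ^ (2 * P.N) • FF C i j a b z - s e • z +
      (s e - X e ^ (2 * P.N) * ε) • z =
      (X e : MvPolynomial (Fin 5) K) ^ (2 * P.N) • (FF C i j a b z - ε • z) := by module
  rwa [h6] at h5

lemma exists_eps (hij : i ≠ j) : ∃ ε : Fin 5 → Fin 5 → MvPolynomial (Fin 5) K,
    (∀ a b, IsWeightedHomogeneous ω (ε a b) (dF P i j a b)) ∧ (∀ a b, ε a b = - ε b a) ∧
    ∀ a b e, e ≠ i → e ≠ j → ∀ z, (X e : MvPolynomial (Fin 5) K) ^ (2 * P.N) •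
      (FF C i j a b z - ε a b • z) ∈ InJ K i j (2 * P.N) := by
  choose ε h1 h2 using exists_eps0 C i j hij
  have hh : (MvPolynomial.C 2⁻¹ : MvPolynomial (Fin 5) K) * 2 = 1 := by
    have := half_two (K := K)
    rwa [MvPolynomial.algebraMap_eq] at this
  refine ⟨fun a b => MvPolynomial.C 2⁻¹ * (ε a b - ε b a), ?_, ?_, ?_⟩
  · intro a b
    refine ((h1 a b).sub ?_).C_mul _
    have : dF P i j a b = dF P i j b a := by rw [dF, dF]; abel
    rw [this]; exact h1 b a
  · intro a b; ring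
  · intro a b e hei hej z
    have h3 := h2 a b e hei hej z
    have h4 := h2 b a e hei hej z
    have h5 := Submodule.smul_mem _ (MvPolynomial.C 2⁻¹ : MvPolynomial (Fin 5) K)
      (Submodule.sub_mem _ h3 h4)
    have h6 : (MvPolynomial.C 2⁻¹ : MvPolynomial (Fin 5) K) •
        ((X e : MvPolynomial (Fin 5) K) ^ (2 * P.N) • (FF C i j a b z - ε a b • z) -
        (X e : MvPolynomial (Fin 5) K) ^ (2 * P.N) • (FF C i j b a z - ε b a • z)) =
        (X e : MvPolynomial (Fin 5) K) ^ (2 * P.N) •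
        (FF C i j a b z - (MvPolynomial.C 2⁻¹ * (ε a b - ε b a)) • z) := by
      have h7 : FF C i j b a z = - FF C i j a b z := by rw [FF, FF]; exact Fop_skew _ _ _ _ _
      rw [h7]
      generalize (MvPolynomial.C 2⁻¹ : MvPolynomial (Fin 5) K) = c at hh ⊢
      match_scalars
      · linear_combination (X e ^ (2 * P.N)) * hh
      · ring1
    rwa [h6] at h5

end eps

end Pool.Agent.Lib.MP_745d3a_ag.Gm

end

section

open Module MvPolynomial

set_option linter.unusedSectionVars false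
set_option linter.unusedVariables false

namespace Pool.Agent.Lib.MP_745d3a_ag.Gm

variable {K : Type*} [Field K] {G : Type*} [AddCommGroup G] [DecidableEq G]
  {M : Type*} [AddCommGroup M] [Module K M] [Module (MvPolynomial (Fin 5) K) M]
  [IsScalarTower K (MvPolynomial (Fin 5) K) M]

variable {ω : Fin 5 → G} {V : G → Submodule K M} [DirectSum.Decomposition V]
  {P : Pairing ω V} [CharZero K]

/-- Multiplication by a polynomial as a `K`-linear map. -/
noncomputable def smulK (q : MvPolynomial (Fin 5) K) : M →ₗ[K] M :=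
  ((LinearMap.lsmul (MvPolynomial (Fin 5) K) M) q).restrictScalars K

lemma smulK_apply (q : MvPolynomial (Fin 5) K) (z : M) : smulK q z = q • z := rfl

/-- The scalar corrections. -/
structure Eps (C : Fam P) (i j : Fin 5) where
  /-- the scalars -/
  ε : Fin 5 → Fin 5 → MvPolynomial (Fin 5) K
  hom : ∀ a b, IsWeightedHomogeneous ω (ε a b) (dF P i j a b)
  skew : ∀ a b, ε a b = - ε b a
  tor : ∀ a b e, e ≠ i → e ≠ j → ∀ z, (X e : MvPolynomial (Fin 5) K) ^ (2 * P.N) •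
      (FF C i j a b z - ε a b • z) ∈ InJ K i j (2 * P.N)

variable {C : Fam P} {i j : Fin 5} (E : Eps C i j)

/-- The corrected operator `F - ε`. -/
noncomputable def Eps.Fe (a b : Fin 5) : M →ₗ[K] M := FF C i j a b - smulK (E.ε a b)

lemma Eps.Fe_apply (a b : Fin 5) (z : M) : E.Fe a b z = FF C i j a b z - E.ε a b • z := rfl

lemma Eps.Fe_skew (a b : Fin 5) (z : M) : E.Fe a b z = - E.Fe b a z := by
  rw [E.Fe_apply, E.Fe_apply, E.skew a b, FF, FF, Fop_skew]; module

lemma Eps.Fe_deg (a b : Fin 5) : HasDeg V (E.Fe a b) (dF P i j a b) := by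
  intro g z hz
  rw [E.Fe_apply]
  exact Submodule.sub_mem _ (Fop_deg _ _ a b g z hz) (P.smul_mem _ _ (E.hom a b) g z hz)

/-- The scalar `∑ t_a x_a γ_a`. -/
noncomputable def iot (ω : Fin 5 → G) (ξ : G →+ K) (γ : Fin 5 → MvPolynomial (Fin 5) K) :
    MvPolynomial (Fin 5) K := ∑ a, MvPolynomial.C (ξ (ω a)) * X a * γ a

lemma iot_smul (ξ : G →+ K) (γ : Fin 5 → MvPolynomial (Fin 5) K) (z : M) :
    iot ω ξ γ • z = ∑ a, ξ (ω a) • (X a : MvPolynomial (Fin 5) K) • γ a • z := by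
  rw [iot, Finset.sum_smul]
  refine Finset.sum_congr rfl (fun a _ => ?_)
  rw [mul_assoc, mul_smul, mul_smul, ← MvPolynomial.algebraMap_eq, algebraMap_smul]

lemma lam_smulK (I : Finset (Fin 5)) (b : Fin 5) (q : MvPolynomial (Fin 5) K) (z : M) :
    lam I b (smulK q) z = (X b : MvPolynomial (Fin 5) K) • q • z := by
  rw [lam]
  split_ifs
  · rw [LinearMap.comp_apply, smulK_apply, mulX_apply, smul_comm]
  · rw [LinearMap.comp_apply, smulK_apply, mulX_apply]

lemma lam_sub (I : Finset (Fin 5)) (b : Fin 5) (T U : M →ₗ[K] M) (z : M) :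
    lam I b (T - U) z = lam I b T z - lam I b U z := by
  rw [lam, lam, lam]
  split_ifs
  · rfl
  · simp only [LinearMap.comp_apply, LinearMap.sub_apply, map_sub]

/-- (K1), (K2): the corrections `γ`. -/
lemma exists_gamma (hij : i ≠ j) (ξ : G →+ K) :
    ∃ γi γj : Fin 5 → MvPolynomial (Fin 5) K,
      (∀ a, IsWeightedHomogeneous ω (γi a) (2 • (P.N • ω i) - ω a)) ∧
      (∀ a, IsWeightedHomogeneous ω (γj a) (2 • (P.N • ω j) - ω a)) ∧
      ∀ a I, a ∉ I → ∀ z,
        (X j : MvPolynomial (Fin 5) K) ^ (2 * P.N) • (Pp (C i) ξ a I z + γi a • z) -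
        (X i : MvPolynomial (Fin 5) K) ^ (2 * P.N) • (Pp (C j) ξ a I z + γj a • z) =
        - ∑ b, ξ (ω b) • lam I b (E.Fe b a) z := by
  classical
  have pw : ∀ e : Fin 5, ((X e : MvPolynomial (Fin 5) K) ^ P.N) ^ 2 = X e ^ (2 * P.N) := by
    intro e; rw [← pow_mul, mul_comm]
  choose α hα1 hα2 using fun a => exists_alpha (C i) (C j) ξ a
  -- (K0)
  have k0 : ∀ a I, a ∉ I → ∀ z,
      (X j : MvPolynomial (Fin 5) K) ^ (2 * P.N) • Pp (C i) ξ a I z -
      (X i : MvPolynomial (Fin 5) K) ^ (2 * P.N) • Pp (C j) ξ a I z +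
      ∑ b, ξ (ω b) • lam I b (FF C i j b a) z = α a • z := by
    intro a I ha z
    have := K0 (C i) (C j) ξ a I ha z
    rw [pw, pw, hα2] at this
    exact this
  -- (K1)
  have k1 : ∀ a, iot ω ξ (fun b => E.ε b a) - α a ∈ I2 K i j (2 * P.N) := by
    intro a
    obtain ⟨c, hci, hcj⟩ : ∃ c : Fin 5, c ≠ i ∧ c ≠ j := by
      have : ∃ c ∈ (Finset.univ : Finset (Fin 5)), c ∉ ({i, j} : Finset (Fin 5)) := by
        apply Finset.exists_mem_notMem_of_card_lt_card
        exact lt_of_le_of_lt (Finset.card_le_two) (by simp)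
      obtain ⟨c, _, hc⟩ := this
      simp only [Finset.mem_insert, Finset.mem_singleton, not_or] at hc
      exact ⟨c, hc.1, hc.2⟩
    refine I2_nzd (e := c) (m := 2 * P.N) hci hcj ?_
    refine I2_of_InJ P hci hcj (fun z => ?_)
    have h1 := k0 a ∅ (Finset.notMem_empty a) z
    have h2 : ∀ b, lam ∅ b (FF C i j b a) z =
        (X b : MvPolynomial (Fin 5) K) • FF C i j b a z := by
      intro b; rw [lam, if_neg (Finset.notMem_empty b)]; rfl
    simp only [h2] at h1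
    have h3 : ∑ b, ξ (ω b) • (X b : MvPolynomial (Fin 5) K) • FF C i j b a z - α a • z ∈
        InJ K i j (2 * P.N) := by
      have : ∑ b, ξ (ω b) • (X b : MvPolynomial (Fin 5) K) • FF C i j b a z - α a • z =
        (X i : MvPolynomial (Fin 5) K) ^ (2 * P.N) • Pp (C j) ξ a ∅ z -
        (X j : MvPolynomial (Fin 5) K) ^ (2 * P.N) • Pp (C i) ξ a ∅ z := by
        rw [← h1]; abel
      rw [this]
      exact Submodule.sub_mem _ (InJ_left _ _ _ _) (InJ_right _ _ _ _)
    have h4 := Submodule.smul_mem _ ((X c : MvPolynomial (Fin 5) K) ^ (2 * P.N)) h3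
    have h5 : ∑ b, ξ (ω b) • (X b : MvPolynomial (Fin 5) K) •
        ((X c : MvPolynomial (Fin 5) K) ^ (2 * P.N) • (FF C i j b a z - E.ε b a • z)) ∈
        InJ K i j (2 * P.N) := by
      refine Submodule.sum_mem _ (fun b _ => ?_)
      rw [← algebraMap_smul (MvPolynomial (Fin 5) K) (ξ (ω b))]
      exact Submodule.smul_mem _ _ (Submodule.smul_mem _ _ (E.tor b a c hci hcj z))
    have h6 := Submodule.sub_mem _ h4 h5
    have h7 : (X c : MvPolynomial (Fin 5) K) ^ (2 * P.N) •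
        (∑ b, ξ (ω b) • (X b : MvPolynomial (Fin 5) K) • FF C i j b a z - α a • z) -
        ∑ b, ξ (ω b) • (X b : MvPolynomial (Fin 5) K) •
        ((X c : MvPolynomial (Fin 5) K) ^ (2 * P.N) • (FF C i j b a z - E.ε b a • z)) =
        (X c ^ (2 * P.N) * (iot ω ξ (fun b => E.ε b a) - α a)) • z := by
      have h8 : ∀ b, ξ (ω b) • (X b : MvPolynomial (Fin 5) K) •
          ((X c : MvPolynomial (Fin 5) K) ^ (2 * P.N) • (FF C i j b a z - E.ε b a • z)) =
          (X c : MvPolynomial (Fin 5) K) ^ (2 * P.N) •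
            (ξ (ω b) • (X b : MvPolynomial (Fin 5) K) • FF C i j b a z) -
          (X c : MvPolynomial (Fin 5) K) ^ (2 * P.N) •
            (ξ (ω b) • (X b : MvPolynomial (Fin 5) K) • E.ε b a • z) := by
        intro b; module
      rw [Finset.sum_congr rfl (fun b _ => h8 b), Finset.sum_sub_distrib, ← Finset.smul_sum,
        ← Finset.smul_sum, mul_smul, sub_smul, iot_smul]
      module
    rwa [h7] at h6
  -- homogeneous components
  have k2 : ∀ a, ∃ γi γj : MvPolynomial (Fin 5) K,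
      IsWeightedHomogeneous ω γi (2 • (P.N • ω i) - ω a) ∧
      IsWeightedHomogeneous ω γj (2 • (P.N • ω j) - ω a) ∧
      iot ω ξ (fun b => E.ε b a) - α a = X j ^ (2 * P.N) * γi - X i ^ (2 * P.N) * γj := by
    intro a
    obtain ⟨u, v, huv⟩ := mem_I2.mp (k1 a)
    have hXw : ∀ e : Fin 5, IsWeightedHomogeneous ω
        ((X e : MvPolynomial (Fin 5) K) ^ (2 * P.N)) (2 • (P.N • ω e)) := by
      intro e
      rw [smul_smul]
      exact (isWeightedHomogeneous_X K ω e).pow _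
    have h4 := congrArg (weightedHomogeneousComponent ω
      (2 • (P.N • ω i) + 2 • (P.N • ω j) - ω a)) huv
    rw [map_add] at h4
    have h5 : weightedHomogeneousComponent ω (2 • (P.N • ω i) + 2 • (P.N • ω j) - ω a)
        (X i ^ (2 * P.N) * u) = X i ^ (2 * P.N) *
          weightedHomogeneousComponent ω (2 • (P.N • ω j) - ω a) u := by
      have e1 : 2 • (P.N • ω i) + 2 • (P.N • ω j) - ω a = 2 • (P.N • ω i) +
        (2 • (P.N • ω j) - ω a) := by abel
      rw [e1]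
      exact whc_mul (hXw i) _ _
    have h6 : weightedHomogeneousComponent ω (2 • (P.N • ω i) + 2 • (P.N • ω j) - ω a)
        (X j ^ (2 * P.N) * v) = X j ^ (2 * P.N) *
          weightedHomogeneousComponent ω (2 • (P.N • ω i) - ω a) v := by
      have e1 : 2 • (P.N • ω i) + 2 • (P.N • ω j) - ω a = 2 • (P.N • ω j) +
        (2 • (P.N • ω i) - ω a) := by abel
      rw [e1]
      exact whc_mul (hXw j) _ _
    have h7 : IsWeightedHomogeneous ω (iot ω ξ (fun b => E.ε b a) - α a)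
        (2 • (P.N • ω i) + 2 • (P.N • ω j) - ω a) := by
      refine IsWeightedHomogeneous.sub ?_ (hα1 a)
      rw [iot]
      refine IsWeightedHomogeneous.sum _ _ _ (fun b _ => ?_)
      rw [mul_assoc]
      refine IsWeightedHomogeneous.C_mul ?_ _
      have h8 := (isWeightedHomogeneous_X K ω b).mul (E.hom b a)
      have e1 : ω b + dF P i j b a = 2 • (P.N • ω i) + 2 • (P.N • ω j) - ω a := by
        rw [dF]; abel
      rwa [e1] at h8
    rw [weightedHomogeneousComponent_eq_self h7, h5, h6] at h4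
    refine ⟨weightedHomogeneousComponent ω (2 • (P.N • ω i) - ω a) v,
      - weightedHomogeneousComponent ω (2 • (P.N • ω j) - ω a) u,
      weightedHomogeneousComponent_isWeightedHomogeneous _ _,
      (weightedHomogeneousComponent_isWeightedHomogeneous _ _).neg, ?_⟩
    rw [h4]; ring
  choose γi γj hγi hγj hγ using k2
  refine ⟨γi, γj, hγi, hγj, ?_⟩
  intro a I ha z
  have h1 := k0 a I ha z
  have h2 : ∑ b, ξ (ω b) • lam I b (E.Fe b a) z =
      ∑ b, ξ (ω b) • lam I b (FF C i j b a) z - iot ω ξ (fun b => E.ε b a) • z := by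
    rw [iot_smul, ← Finset.sum_sub_distrib]
    refine Finset.sum_congr rfl (fun b _ => ?_)
    rw [Eps.Fe, lam_sub, lam_smulK, smul_sub]
  have h3 : iot ω ξ (fun b => E.ε b a) • z = α a • z +
      (X j ^ (2 * P.N) * γi a - X i ^ (2 * P.N) * γj a) • z := by
    rw [← hγ a, sub_smul]; abel
  rw [h2, h3, ← h1]
  module

/-- The sum of the operators `P'`. -/
lemma Pp_sum {f : MvPolynomial (Fin 5) K} {d : G} (C : Conn P f d) (ξ : G →+ K)
    (I : Finset (Fin 5)) (z : M) :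
    ∑ a, ξ (ω a) • (if a ∈ I then Pp C ξ a (I.erase a) ((X a : MvPolynomial (Fin 5) K) • z)
      else (X a : MvPolynomial (Fin 5) K) • Pp C ξ a I z) =
    f ^ 2 • (wt V ξ (wt V ξ z + tsum ω ξ I • z) + tsum ω ξ I • (wt V ξ z + tsum ω ξ I • z)) -
      f ^ 2 • ξ P.δ • (wt V ξ z + tsum ω ξ I • z) +
      (ξ P.δ • f • C.mu ξ z - C.mu ξ (C.mu ξ z)) := by
  classical
  -- each term
  have hwt : ∀ a, wt V ξ ((X a : MvPolynomial (Fin 5) K) • z) =
      (X a : MvPolynomial (Fin 5) K) • (wt V ξ z + ξ (ω a) • z) := by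
    intro a
    rw [P.wt_smul, eul_hom ξ (isWeightedHomogeneous_X K ω a), smul_assoc, smul_add,
      smul_comm (ξ (ω a))]
  have h1 : ∀ a, (if a ∈ I then Pp C ξ a (I.erase a) ((X a : MvPolynomial (Fin 5) K) • z)
      else (X a : MvPolynomial (Fin 5) K) • Pp C ξ a I z) =
      (X a : MvPolynomial (Fin 5) K) • Pp C ξ a I z +
      (if a ∈ I then f ^ 2 • (wt V ξ z + tsum ω ξ I • z) -
        (ξ P.δ • f ^ 2 • z - f • C.mu ξ z) else 0) := by
    intro a
    by_cases ha : a ∈ I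
    · rw [if_pos ha, if_pos ha]
      have e1 : tsum ω ξ I = tsum ω ξ (I.erase a) + ξ (ω a) := by
        rw [tsum, tsum, Finset.sum_erase_add _ _ ha]
      have e2 : wt V ξ ((X a : MvPolynomial (Fin 5) K) • z) +
          tsum ω ξ (I.erase a) • (X a : MvPolynomial (Fin 5) K) • z =
          (X a : MvPolynomial (Fin 5) K) • (wt V ξ z + tsum ω ξ I • z) := by
        rw [hwt, e1]; module
      rw [Pp, Pp, e2, C.leib, C.leib, pderiv_X_self, one_mul]
      simp only [map_add, map_smul]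
      module
    · rw [if_neg ha, if_neg ha, add_zero]
  have h2 : ∀ w, ∑ b, ξ (ω b) • (X b : MvPolynomial (Fin 5) K) • C.D b w =
      f • wt V ξ w - C.mu ξ w := by
    intro w; rw [C.mu_apply]; abel
  have h3 : ∑ a, ξ (ω a) • (if a ∈ I then f ^ 2 • (wt V ξ z + tsum ω ξ I • z) -
        (ξ P.δ • f ^ 2 • z - f • C.mu ξ z) else 0) =
      tsum ω ξ I • (f ^ 2 • (wt V ξ z + tsum ω ξ I • z) -
        (ξ P.δ • f ^ 2 • z - f • C.mu ξ z)) := by
    simp only [smul_ite, smul_zero, Finset.sum_ite_mem, Finset.univ_inter]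
    exact (Finset.sum_smul).symm
  have h4 : ∑ a, ξ (ω a) • (X a : MvPolynomial (Fin 5) K) • Pp C ξ a I z =
      f • (∑ a, ξ (ω a) • (X a : MvPolynomial (Fin 5) K) •
        C.D a (wt V ξ z + tsum ω ξ I • z)) -
      (ξ P.δ • f • (∑ a, ξ (ω a) • (X a : MvPolynomial (Fin 5) K) • C.D a z) -
        C.mu ξ (∑ a, ξ (ω a) • (X a : MvPolynomial (Fin 5) K) • C.D a z)) := by
    simp only [map_sum, lin_smul, map_smul, Finset.smul_sum]
    rw [← Finset.sum_sub_distrib, ← Finset.sum_sub_distrib]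
    refine Finset.sum_congr rfl (fun a _ => ?_)
    rw [Pp]
    module
  have h5 : ∑ a, ξ (ω a) • (if a ∈ I then Pp C ξ a (I.erase a) ((X a : MvPolynomial (Fin 5) K) • z)
      else (X a : MvPolynomial (Fin 5) K) • Pp C ξ a I z) =
      ∑ a, ξ (ω a) • (X a : MvPolynomial (Fin 5) K) • Pp C ξ a I z +
      tsum ω ξ I • (f ^ 2 • (wt V ξ z + tsum ω ξ I • z) -
        (ξ P.δ • f ^ 2 • z - f • C.mu ξ z)) := by
    rw [← h3, ← Finset.sum_add_distrib]
    refine Finset.sum_congr rfl (fun a _ => ?_)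
    rw [h1, smul_add]
  rw [h5, h4, h2, h2]
  simp only [map_add, map_sub, map_smul, lin_smul]
  module

end Pool.Agent.Lib.MP_745d3a_ag.Gm

end
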