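import Pool.Agent.Lib.MP_745d3a_ag.GM.OpB

/-!
The trace identity: the homotopy, connections.
-/

section

open Module MvPolynomial

set_option linter.unusedSectionVars false
set_option linter.unusedVariables false

namespace Pool.Agent.Lib.MP_745d3a_ag.Gm

variable {K : Type*} [Field K] {G : Type*} [AddCommGroup G] [DecidableEq G]
  {M : Type*} [AddCommGroup M] [Module K M] [Module (MvPolynomial (Fin 5) K) M]
  [IsScalarTower K (MvPolynomial (Fin 5) K) M]

variable {ω : Fin 5 → G} {V : G → Submodule K M} [DirectSum.Decomposition V]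
  (P : Pairing ω V)

include P in
/-- Division by a homogeneous polynomial preserves homogeneity. -/
lemma Pairing.mem_of_smul {q : MvPolynomial (Fin 5) K} {e : G}
    (hq : IsWeightedHomogeneous ω q e) (hq0 : q ≠ 0) {z : M} {g : G} (h : q • z ∈ V (g + e)) :
    z ∈ V g := by
  have h1 : ∀ (g' : G) (w : M), (pr V (g' + e) (q • w) : M) = q • (pr V g' w : M) := by
    intro g' w
    refine hom_ind V (P := fun w => (pr V (g' + e) (q • w) : M) = q • (pr V g' w : M))
      (by simp) ?_ ?_ w
    · intro k w hw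
      have h2 := P.smul_mem _ _ hq _ _ hw
      by_cases hk : k = g'
      · subst hk
        rw [pr_mem V h2, pr_mem V hw]
      · rw [pr_ne V h2 (fun h => hk (add_right_cancel h)), pr_ne V hw hk, smul_zero]
    · intro m n hm hn
      rw [smul_add, map_add, map_add, Submodule.coe_add, Submodule.coe_add, hm, hn, smul_add]
  have h2 : q • (z - (pr V g z : M)) = 0 := by
    rw [smul_sub, ← h1, pr_mem V h, sub_self]
  have h3 := (P.tf _ _ h2).resolve_left hq0
  rw [sub_eq_zero.mp h3]
  exact (pr V g z).2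

/-- Two charts: division of compatible pairs of operators. -/
lemma Pairing.divide (P : Pairing ω V) {i j : Fin 5} (hij : i ≠ j) {n : ℕ}
    (hreg : ∀ u v : M, (X j : MvPolynomial (Fin 5) K) ^ n • u =
      (X i : MvPolynomial (Fin 5) K) ^ n • v →
      ∃ w : M, u = (X i : MvPolynomial (Fin 5) K) ^ n • w)
    {U₀ U₁ : M →ₗ[K] M} (h : ∀ z, (X j : MvPolynomial (Fin 5) K) ^ n • U₀ z =
      (X i : MvPolynomial (Fin 5) K) ^ n • U₁ z) {D : G} (hU : HasDeg V U₀ D) :
    ∃ Z : M →ₗ[K] M, HasDeg V Z (D - n • ω i) ∧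
      ∀ z, U₀ z = (X i : MvPolynomial (Fin 5) K) ^ n • Z z := by
  choose Z hZ using fun z => hreg _ _ (h z)
  have hX : (X i : MvPolynomial (Fin 5) K) ^ n ≠ 0 := pow_ne_zero _ (X_ne_zero _)
  have hinj : ∀ u v : M, (X i : MvPolynomial (Fin 5) K) ^ n • u =
      (X i : MvPolynomial (Fin 5) K) ^ n • v → u = v := by
    intro u v huv
    have : (X i : MvPolynomial (Fin 5) K) ^ n • (u - v) = 0 := by
      rw [smul_sub, huv, sub_self]
    exact sub_eq_zero.mp ((P.tf _ _ this).resolve_left hX)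
  refine ⟨{ toFun := Z, map_add' := ?_, map_smul' := ?_ }, ?_, hZ⟩
  · intro u v
    apply hinj
    rw [smul_add, ← hZ, ← hZ, ← hZ, map_add]
  · intro c u
    apply hinj
    rw [RingHom.id_apply, smul_comm, ← hZ, ← hZ, map_smul]
  · intro g z hz
    have h1 := hU g z hz
    rw [hZ z] at h1
    have e1 : g + D = g + (D - n • ω i) + n • ω i := by abel
    rw [e1] at h1
    exact P.mem_of_smul ((isWeightedHomogeneous_X K ω i).pow n) hX h1

/-- A double sum of an antisymmetric function vanishes. -/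
lemma sum_antisymm {N : Type*} [AddCommGroup N] (htwo : ∀ x : N, x + x = 0 → x = 0)
    (s : Finset (Fin 5)) (f : Fin 5 → Fin 5 → N) (h : ∀ a b, f a b = - f b a) :
    ∑ a ∈ s, ∑ b ∈ s, f a b = 0 := by
  apply htwo
  nth_rewrite 2 [Finset.sum_comm]
  rw [← Finset.sum_add_distrib]
  refine Finset.sum_eq_zero (fun a _ => ?_)
  rw [← Finset.sum_add_distrib]
  refine Finset.sum_eq_zero (fun b _ => ?_)
  rw [h a b]; abel

lemma two_smul_zero [CharZero K] (x : M) (h : x + x = 0) : x = 0 := by
  have h1 : (2 : K) • x = 0 := by rw [two_smul, h]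
  exact (smul_eq_zero.mp h1).resolve_left two_ne_zero

lemma lam_deg (P : Pairing ω V) (I : Finset (Fin 5)) (b : Fin 5) {T : M →ₗ[K] M} {D : G}
    (hT : HasDeg V T D) : HasDeg V (lam I b T) (D + ω b) := by
  have hX : HasDeg V (mulX b : M →ₗ[K] M) (ω b) := fun g z hz =>
    P.smul_mem _ _ (isWeightedHomogeneous_X K ω b) g z hz
  rw [lam]
  split_ifs
  · exact (hT.comp hX).congr (add_comm _ _)
  · exact (hX.comp hT)

/-- The data on the two charts, with the graded division with remainder. -/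
structure Chart (P : Pairing ω V) (i j : Fin 5) (n : ℕ) where
  hij : i ≠ j
  hreg : ∀ u v : M, (X j : MvPolynomial (Fin 5) K) ^ n • u =
      (X i : MvPolynomial (Fin 5) K) ^ n • v →
      ∃ w : M, u = (X i : MvPolynomial (Fin 5) K) ^ n • w
  /-- the operators `F - ε` -/
  F : Fin 5 → Fin 5 → M →ₗ[K] M
  skew : ∀ a b z, F a b z = - F b a z
  Fdeg : ∀ a b, HasDeg V (F a b) (n • ω i + n • ω j - ω a - ω b)
  /-- the remainder -/
  ρ : M →ₗ[K] M
  /-- the quotients -/
  R₀ : M →ₗ[K] M
  /-- the quotients -/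
  R₁ : M →ₗ[K] M
  ρdeg : HasDeg V ρ 0
  R₀deg : HasDeg V R₀ (-(n • ω j))
  R₁deg : HasDeg V R₁ (-(n • ω i))
  div : ∀ z, z = ρ z + (X j : MvPolynomial (Fin 5) K) ^ n • R₀ z -
    (X i : MvPolynomial (Fin 5) K) ^ n • R₁ z
  ρj : ∀ z, ρ ((X j : MvPolynomial (Fin 5) K) ^ n • z) = 0
  ρi : ∀ z, ρ ((X i : MvPolynomial (Fin 5) K) ^ n • z) = 0

variable {P} {i j : Fin 5} {n : ℕ} (c : Chart P i j n)

/-- The operator `C`. -/
noncomputable def Chart.C (a b : Fin 5) : M →ₗ[K] M := c.ρ ∘ₗ c.F a b

lemma Chart.ρX (b : Fin 5) (z : M) :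
    c.ρ ((X b : MvPolynomial (Fin 5) K) • c.ρ z) = c.ρ ((X b : MvPolynomial (Fin 5) K) • z) := by
  conv_rhs => rw [c.div z]
  rw [smul_sub, smul_add, map_sub, map_add, smul_comm (X b : MvPolynomial (Fin 5) K) (X j ^ n),
    smul_comm (X b : MvPolynomial (Fin 5) K) (X i ^ n), c.ρj, c.ρi, add_zero, sub_zero]

lemma Chart.C_skew (a b : Fin 5) (z : M) : c.C a b z = - c.C b a z := by
  rw [Chart.C, Chart.C, LinearMap.comp_apply, LinearMap.comp_apply, c.skew, map_neg]

lemma Chart.C_deg (a b : Fin 5) :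
    HasDeg V (c.C a b) (n • ω i + n • ω j - ω a - ω b) :=
  (c.ρdeg.comp (c.Fdeg a b)).congr (add_zero _)

/-- The operator `x_i ^ n d_ab`. -/
noncomputable def Chart.dd (R : M →ₗ[K] M) (a b : Fin 5) : M →ₗ[K] M :=
  mulX a ∘ₗ R ∘ₗ mulX b - R ∘ₗ mulX b ∘ₗ c.ρ ∘ₗ mulX a -
    (mulX b ∘ₗ R ∘ₗ mulX a - R ∘ₗ mulX a ∘ₗ c.ρ ∘ₗ mulX b)

lemma Chart.dd_apply (R : M →ₗ[K] M) (a b : Fin 5) (z : M) : c.dd R a b z =
    (X a : MvPolynomial (Fin 5) K) • R ((X b : MvPolynomial (Fin 5) K) • z) -
    R ((X b : MvPolynomial (Fin 5) K) • c.ρ ((X a : MvPolynomial (Fin 5) K) • z)) -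
    ((X b : MvPolynomial (Fin 5) K) • R ((X a : MvPolynomial (Fin 5) K) • z) -
    R ((X a : MvPolynomial (Fin 5) K) • c.ρ ((X b : MvPolynomial (Fin 5) K) • z))) := rfl

lemma Chart.exists_d (a b : Fin 5) : ∃ d : M →ₗ[K] M,
    HasDeg V d (ω a + ω b - (n • ω i + n • ω j)) ∧
    ∀ z, c.dd c.R₀ a b z = (X i : MvPolynomial (Fin 5) K) ^ n • d z := by
  have hX : ∀ b, HasDeg V (mulX b : M →ₗ[K] M) (ω b) := fun b g z hz =>
    P.smul_mem _ _ (isWeightedHomogeneous_X K ω b) g z hz
  have h1 : ∀ z, (X j : MvPolynomial (Fin 5) K) ^ n • c.dd c.R₀ a b z =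
      (X i : MvPolynomial (Fin 5) K) ^ n • c.dd c.R₁ a b z := by
    intro z
    have k : ∀ w, (X j : MvPolynomial (Fin 5) K) ^ n • c.R₀ w = w - c.ρ w +
        (X i : MvPolynomial (Fin 5) K) ^ n • c.R₁ w := by
      intro w
      nth_rewrite 2 [c.div w]
      abel
    have k1 := k ((X b : MvPolynomial (Fin 5) K) • z)
    have k2 := k ((X b : MvPolynomial (Fin 5) K) • c.ρ ((X a : MvPolynomial (Fin 5) K) • z))
    have k3 := k ((X a : MvPolynomial (Fin 5) K) • z)
    have k4 := k ((X a : MvPolynomial (Fin 5) K) • c.ρ ((X b : MvPolynomial (Fin 5) K) • z))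
    rw [c.ρX] at k2 k4
    have k5 : c.ρ ((X b : MvPolynomial (Fin 5) K) • (X a : MvPolynomial (Fin 5) K) • z) =
        c.ρ ((X a : MvPolynomial (Fin 5) K) • (X b : MvPolynomial (Fin 5) K) • z) := by
      rw [smul_comm]
    rw [c.dd_apply, c.dd_apply]
    linear_combination (norm := module) (X a : MvPolynomial (Fin 5) K) • k1 - k2 -
      (X b : MvPolynomial (Fin 5) K) • k3 + k4 + k5
  have h2 : HasDeg V (c.dd c.R₀ a b) (ω a + ω b - n • ω j) := by
    refine HasDeg.sub (HasDeg.sub ?_ ?_) (HasDeg.sub ?_ ?_)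
    · exact (((hX a).comp (c.R₀deg.comp (hX b)))).congr (by abel)
    · exact (c.R₀deg.comp ((hX b).comp (c.ρdeg.comp (hX a)))).congr (by abel)
    · exact (((hX b).comp (c.R₀deg.comp (hX a)))).congr (by abel)
    · exact (c.R₀deg.comp ((hX a).comp (c.ρdeg.comp (hX b)))).congr (by abel)
  obtain ⟨d, hd1, hd2⟩ := P.divide c.hij c.hreg h1 h2
  exact ⟨d, hd1.congr (by abel), hd2⟩

/-- The operator `d`. -/
noncomputable def Chart.d (a b : Fin 5) : M →ₗ[K] M := (c.exists_d a b).choose

lemma Chart.d_deg (a b : Fin 5) : HasDeg V (c.d a b) (ω a + ω b - (n • ω i + n • ω j)) :=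
  (c.exists_d a b).choose_spec.1

lemma Chart.d_eq (a b : Fin 5) (z : M) :
    c.dd c.R₀ a b z = (X i : MvPolynomial (Fin 5) K) ^ n • c.d a b z :=
  (c.exists_d a b).choose_spec.2 z

/-- The operators `P + γ` on the two charts for a given `ξ`. -/
structure Chart.Con (c : Chart P i j n) (ξ : G →+ K) (c2 : K) where
  /-- chart `x_i ≠ 0` -/
  Q₀ : Fin 5 → Finset (Fin 5) → M →ₗ[K] M
  /-- chart `x_j ≠ 0` -/
  Q₁ : Fin 5 → Finset (Fin 5) → M →ₗ[K] M
  deg₀ : ∀ a I, HasDeg V (Q₀ a I) (n • ω i - ω a)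
  rel : ∀ a I, a ∉ I → ∀ z,
        (X j : MvPolynomial (Fin 5) K) ^ n • Q₀ a I z -
        (X i : MvPolynomial (Fin 5) K) ^ n • Q₁ a I z =
        - ∑ b, ξ (ω b) • lam I b (c.F b a) z
  tot : ∀ I z, ∑ a, ξ (ω a) • (if a ∈ I then Q₀ a (I.erase a) ((X a : MvPolynomial (Fin 5) K) • z)
      else (X a : MvPolynomial (Fin 5) K) • Q₀ a I z) =
      (X i : MvPolynomial (Fin 5) K) ^ n •
      (wt V ξ (wt V ξ z + tsum ω ξ I • z) + tsum ω ξ I • (wt V ξ z + tsum ω ξ I • z) -
        ξ P.δ • (wt V ξ z + tsum ω ξ I • z) + c2 • z)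

variable {ξ : G →+ K} {c2 : K} (κ : c.Con ξ c2)

/-- The operator `x_i ^ n Z`. -/
noncomputable def Chart.U (R : M →ₗ[K] M) (Q : M →ₗ[K] M) (ξ : G →+ K) (a : Fin 5)
    (I : Finset (Fin 5)) : M →ₗ[K] M :=
  Q + ∑ b, ξ (ω b) • lam I b (R ∘ₗ c.F b a) +
    ∑ b ∈ Iᶜ, ξ (ω b) • (R ∘ₗ mulX b ∘ₗ c.C b a)

lemma Chart.U_apply (R : M →ₗ[K] M) (Q : M →ₗ[K] M) (ξ : G →+ K) (a : Fin 5)
    (I : Finset (Fin 5)) (z : M) : c.U R Q ξ a I z =
    Q z + ∑ b, ξ (ω b) • lam I b (R ∘ₗ c.F b a) z +
    ∑ b ∈ Iᶜ, ξ (ω b) • R ((X b : MvPolynomial (Fin 5) K) • c.C b a z) := by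
  rw [Chart.U]
  simp only [LinearMap.add_apply, LinearMap.sum_apply, LinearMap.smul_apply,
    LinearMap.comp_apply, mulX_apply]

include κ in
/-- (W0): the contraction of `C` vanishes. -/
lemma Chart.W0 (a : Fin 5) (I : Finset (Fin 5)) (ha : a ∉ I) (z : M) :
    c.ρ (∑ b, ξ (ω b) • lam I b (c.F b a) z) = 0 := by
  have h1 := κ.rel a I ha z
  have h2 : ∑ b, ξ (ω b) • lam I b (c.F b a) z =
      (X i : MvPolynomial (Fin 5) K) ^ n • κ.Q₁ a I z -
      (X j : MvPolynomial (Fin 5) K) ^ n • κ.Q₀ a I z := by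
    rw [← neg_neg (∑ b, ξ (ω b) • lam I b (c.F b a) z), ← h1]; abel
  rw [h2, map_sub, c.ρi, c.ρj, sub_zero]

lemma Chart.exists_Z (a : Fin 5) (I : Finset (Fin 5)) (ha : a ∉ I) : ∃ Z : M →ₗ[K] M,
    HasDeg V Z (-ω a) ∧
    ∀ z, c.U c.R₀ (κ.Q₀ a I) ξ a I z = (X i : MvPolynomial (Fin 5) K) ^ n • Z z := by
  classical
  have hX : ∀ b, HasDeg V (mulX b : M →ₗ[K] M) (ω b) := fun b g z hz =>
    P.smul_mem _ _ (isWeightedHomogeneous_X K ω b) g z hz
  have k : ∀ w, (X j : MvPolynomial (Fin 5) K) ^ n • c.R₀ w -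
      (X i : MvPolynomial (Fin 5) K) ^ n • c.R₁ w = w - c.ρ w := by
    intro w
    nth_rewrite 3 [c.div w]
    abel
  have h1 : ∀ z, (X j : MvPolynomial (Fin 5) K) ^ n • c.U c.R₀ (κ.Q₀ a I) ξ a I z =
      (X i : MvPolynomial (Fin 5) K) ^ n • c.U c.R₁ (κ.Q₁ a I) ξ a I z := by
    intro z
    rw [← sub_eq_zero]
    -- the three parts
    have p1 := κ.rel a I ha z
    have p2 : ∀ b, (X j : MvPolynomial (Fin 5) K) ^ n • lam I b (c.R₀ ∘ₗ c.F b a) z -
        (X i : MvPolynomial (Fin 5) K) ^ n • lam I b (c.R₁ ∘ₗ c.F b a) z =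
        lam I b (c.F b a) z - lam I b (c.C b a) z := by
      intro b
      rw [lam, lam, lam, lam]
      split_ifs
      · simp only [LinearMap.comp_apply, mulX_apply, Chart.C]
        exact k _
      · simp only [LinearMap.comp_apply, mulX_apply, Chart.C]
        rw [← smul_sub, ← k]; module
    have p3 : ∀ b ∈ Iᶜ, (X j : MvPolynomial (Fin 5) K) ^ n •
        c.R₀ ((X b : MvPolynomial (Fin 5) K) • c.C b a z) -
        (X i : MvPolynomial (Fin 5) K) ^ n •
        c.R₁ ((X b : MvPolynomial (Fin 5) K) • c.C b a z) =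
        lam I b (c.C b a) z - c.ρ (lam I b (c.F b a) z) := by
      intro b hb
      rw [k, lam, lam, if_neg (Finset.mem_compl.mp hb), if_neg (Finset.mem_compl.mp hb)]
      simp only [LinearMap.comp_apply, mulX_apply, Chart.C]
      rw [c.ρX]
    have p4 : ∀ b ∈ I, lam I b (c.C b a) z = c.ρ (lam I b (c.F b a) z) := by
      intro b hb
      rw [lam, lam, if_pos hb, if_pos hb]
      rfl
    have p5 := c.W0 κ a I ha z
    have s2 : (X j : MvPolynomial (Fin 5) K) ^ n •
          (∑ b, ξ (ω b) • lam I b (c.R₀ ∘ₗ c.F b a) z) -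
        (X i : MvPolynomial (Fin 5) K) ^ n • (∑ b, ξ (ω b) • lam I b (c.R₁ ∘ₗ c.F b a) z) =
        ∑ b, ξ (ω b) • lam I b (c.F b a) z - ∑ b, ξ (ω b) • lam I b (c.C b a) z := by
      rw [Finset.smul_sum, Finset.smul_sum, ← Finset.sum_sub_distrib, ← Finset.sum_sub_distrib]
      refine Finset.sum_congr rfl (fun b _ => ?_)
      rw [smul_comm _ (ξ (ω b)), smul_comm _ (ξ (ω b)), ← smul_sub, p2, smul_sub]
    have s3 : (X j : MvPolynomial (Fin 5) K) ^ n • (∑ b ∈ Iᶜ, ξ (ω b) •
          c.R₀ ((X b : MvPolynomial (Fin 5) K) • c.C b a z)) -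
        (X i : MvPolynomial (Fin 5) K) ^ n • (∑ b ∈ Iᶜ, ξ (ω b) •
          c.R₁ ((X b : MvPolynomial (Fin 5) K) • c.C b a z)) =
        ∑ b ∈ Iᶜ, ξ (ω b) • lam I b (c.C b a) z -
          ∑ b ∈ Iᶜ, ξ (ω b) • c.ρ (lam I b (c.F b a) z) := by
      rw [Finset.smul_sum, Finset.smul_sum, ← Finset.sum_sub_distrib, ← Finset.sum_sub_distrib]
      refine Finset.sum_congr rfl (fun b hb => ?_)
      rw [smul_comm _ (ξ (ω b)), smul_comm _ (ξ (ω b)), ← smul_sub, p3 b hb, smul_sub]
    have s4 : ∑ b, ξ (ω b) • lam I b (c.C b a) z = ∑ b ∈ I, ξ (ω b) • lam I b (c.C b a) z +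
        ∑ b ∈ Iᶜ, ξ (ω b) • lam I b (c.C b a) z := (Finset.sum_add_sum_compl _ _).symm
    have s5 : ∑ b ∈ I, ξ (ω b) • lam I b (c.C b a) z =
        ∑ b ∈ I, ξ (ω b) • c.ρ (lam I b (c.F b a) z) :=
      Finset.sum_congr rfl (fun b hb => by rw [p4 b hb])
    have s6 : ∑ b ∈ I, ξ (ω b) • c.ρ (lam I b (c.F b a) z) +
        ∑ b ∈ Iᶜ, ξ (ω b) • c.ρ (lam I b (c.F b a) z) = 0 := by
      rw [Finset.sum_add_sum_compl, ← p5, map_sum]
      refine Finset.sum_congr rfl (fun b _ => ?_)
      rw [map_smul]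
    rw [c.U_apply, c.U_apply]
    linear_combination (norm := module) p1 + s2 + s3 - s4 - s5 - s6
  have h2 : HasDeg V (c.U c.R₀ (κ.Q₀ a I) ξ a I) (n • ω i - ω a) := by
    rw [Chart.U]
    refine HasDeg.add (HasDeg.add (κ.deg₀ a I) ?_) ?_
    · refine HasDeg.sum _ (fun b _ => HasDeg.smul _ ?_)
      exact (lam_deg P I b (c.R₀deg.comp (c.Fdeg b a))).congr (by abel)
    · refine HasDeg.sum _ (fun b _ => HasDeg.smul _ ?_)
      exact (c.R₀deg.comp ((hX b).comp (c.C_deg b a))).congr (by abel)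
  obtain ⟨Z, hZ1, hZ2⟩ := P.divide c.hij c.hreg h1 h2
  exact ⟨Z, hZ1.congr (by abel), hZ2⟩

/-- The operator `Z`. -/
noncomputable def Chart.Z (a : Fin 5) (I : Finset (Fin 5)) : M →ₗ[K] M :=
  open Classical in if ha : a ∉ I then (c.exists_Z κ a I ha).choose else 0

lemma Chart.Z_deg (a : Fin 5) (I : Finset (Fin 5)) : HasDeg V (c.Z κ a I) (-ω a) := by
  by_cases ha : a ∉ I
  · rw [Chart.Z, dif_pos ha]
    exact (c.exists_Z κ a I ha).choose_spec.1
  · rw [Chart.Z, dif_neg ha]
    exact HasDeg.zero _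

lemma Chart.Z_eq (a : Fin 5) (I : Finset (Fin 5)) (ha : a ∉ I) (z : M) :
    c.U c.R₀ (κ.Q₀ a I) ξ a I z = (X i : MvPolynomial (Fin 5) K) ^ n • c.Z κ a I z := by
  rw [Chart.Z, dif_pos ha]
  exact (c.exists_Z κ a I ha).choose_spec.2 z

/-- **The homotopy identity.** -/
theorem Chart.homotopy [CharZero K] (I : Finset (Fin 5)) (z : M) :
    ∑ a, ξ (ω a) • (if a ∈ I then c.Z κ a (I.erase a) ((X a : MvPolynomial (Fin 5) K) • z)
      else (X a : MvPolynomial (Fin 5) K) • c.Z κ a I z) =
      (wt V ξ (wt V ξ z + tsum ω ξ I • z) + tsum ω ξ I • (wt V ξ z + tsum ω ξ I • z) -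
        ξ P.δ • (wt V ξ z + tsum ω ξ I • z) + c2 • z) -
      (2⁻¹ : K) • ∑ a ∈ Iᶜ, ∑ b ∈ Iᶜ, (ξ (ω a) * ξ (ω b)) • c.d a b (c.C a b z) := by
  classical
  have hX : (X i : MvPolynomial (Fin 5) K) ^ n ≠ 0 := pow_ne_zero _ (X_ne_zero _)
  have hinj : ∀ u v : M, (X i : MvPolynomial (Fin 5) K) ^ n • u =
      (X i : MvPolynomial (Fin 5) K) ^ n • v → u = v := by
    intro u v huv
    have : (X i : MvPolynomial (Fin 5) K) ^ n • (u - v) = 0 := by
      rw [smul_sub, huv, sub_self]
    exact sub_eq_zero.mp ((P.tf _ _ this).resolve_left hX)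
  have htwo : ∀ x : M, x + x = 0 → x = 0 := fun x hx => two_smul_zero (K := K) x hx
  apply hinj
  -- the sum over `a` of the operators `U`
  have h1 : (X i : MvPolynomial (Fin 5) K) ^ n • ∑ a, ξ (ω a) •
      (if a ∈ I then c.Z κ a (I.erase a) ((X a : MvPolynomial (Fin 5) K) • z)
      else (X a : MvPolynomial (Fin 5) K) • c.Z κ a I z) =
      ∑ a, ξ (ω a) • (if a ∈ I then c.U c.R₀ (κ.Q₀ a (I.erase a)) ξ a (I.erase a)
          ((X a : MvPolynomial (Fin 5) K) • z)
      else (X a : MvPolynomial (Fin 5) K) • c.U c.R₀ (κ.Q₀ a I) ξ a I z) := by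
    rw [Finset.smul_sum]
    refine Finset.sum_congr rfl (fun a _ => ?_)
    split_ifs with ha
    · rw [c.Z_eq κ a (I.erase a) (Finset.notMem_erase a I), smul_comm]
    · rw [c.Z_eq κ a I ha, smul_comm (X i ^ n : MvPolynomial (Fin 5) K),
        smul_comm (X a : MvPolynomial (Fin 5) K)]
  -- part two
  have h2 : ∑ a, ∑ b, (ξ (ω a) * ξ (ω b)) • (if a ∈ I then
      lam (I.erase a) b (c.R₀ ∘ₗ c.F b a) ((X a : MvPolynomial (Fin 5) K) • z)
      else (X a : MvPolynomial (Fin 5) K) • lam I b (c.R₀ ∘ₗ c.F b a) z) = 0 := by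
    apply sum_antisymm htwo
    intro a b
    rw [mul_comm (ξ (ω b)), ← smul_neg]
    congr 1
    have sk : ∀ w, c.R₀ (c.F a b w) = - c.R₀ (c.F b a w) := by
      intro w; rw [c.skew, map_neg]
    by_cases hab : a = b
    · subst hab
      have : ∀ w, c.F a a w = 0 := by
        intro w
        apply htwo
        nth_rewrite 1 [c.skew]
        exact neg_add_cancel _
      have h0 : ∀ (J : Finset (Fin 5)) (w : M), lam J a (c.R₀ ∘ₗ c.F a a) w = 0 := by
        intro J w
        rw [lam]
        split_ifs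
        · simp only [LinearMap.comp_apply, this, map_zero]
        · simp only [LinearMap.comp_apply, this, map_zero]
      rw [h0, h0, smul_zero, ite_self, neg_zero]
    · have hba : b ≠ a := fun h => hab h.symm
      simp only [lam, Finset.mem_erase, ne_eq, hab, hba, not_false_eq_true, true_and]
      by_cases ha : a ∈ I <;> by_cases hb : b ∈ I
      · simp only [ha, hb, if_true, LinearMap.comp_apply, mulX_apply]
        rw [sk, neg_neg, smul_comm]
      · simp only [ha, hb, if_true, if_false, LinearMap.comp_apply, mulX_apply]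
        rw [sk, smul_neg, neg_neg]
      · simp only [ha, hb, if_true, if_false, LinearMap.comp_apply, mulX_apply]
        rw [sk, smul_neg, neg_neg]
      · simp only [ha, hb, if_false, LinearMap.comp_apply, mulX_apply]
        rw [sk, smul_neg, smul_neg, neg_neg, smul_comm]
  -- part three
  have h3 : ∑ a, ξ (ω a) • (if a ∈ I then ∑ b ∈ (I.erase a)ᶜ, ξ (ω b) •
        c.R₀ ((X b : MvPolynomial (Fin 5) K) • c.C b a ((X a : MvPolynomial (Fin 5) K) • z))
      else (X a : MvPolynomial (Fin 5) K) • ∑ b ∈ Iᶜ, ξ (ω b) •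
        c.R₀ ((X b : MvPolynomial (Fin 5) K) • c.C b a z)) =
      - ((2⁻¹ : K) • ∑ a ∈ Iᶜ, ∑ b ∈ Iᶜ, (ξ (ω a) * ξ (ω b)) •
        c.dd c.R₀ a b (c.C a b z)) := by
    have hCaa : ∀ a w, c.C a a w = 0 := by
      intro a w
      apply htwo
      nth_rewrite 1 [c.C_skew]
      exact neg_add_cancel _
    have e1 : ∑ a, ξ (ω a) • (if a ∈ I then ∑ b ∈ (I.erase a)ᶜ, ξ (ω b) •
        c.R₀ ((X b : MvPolynomial (Fin 5) K) • c.C b a ((X a : MvPolynomial (Fin 5) K) • z))
      else (X a : MvPolynomial (Fin 5) K) • ∑ b ∈ Iᶜ, ξ (ω b) •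
        c.R₀ ((X b : MvPolynomial (Fin 5) K) • c.C b a z)) =
        ∑ a ∈ I, ∑ b ∈ Iᶜ, (ξ (ω a) * ξ (ω b)) • c.R₀ ((X b : MvPolynomial (Fin 5) K) •
          c.C b a ((X a : MvPolynomial (Fin 5) K) • z)) +
        ∑ a ∈ Iᶜ, ∑ b ∈ Iᶜ, (ξ (ω a) * ξ (ω b)) • (X a : MvPolynomial (Fin 5) K) •
          c.R₀ ((X b : MvPolynomial (Fin 5) K) • c.C b a z) := by
      rw [← Finset.sum_add_sum_compl I]
      congr 1
      · refine Finset.sum_congr rfl (fun a ha => ?_)
        rw [if_pos ha, Finset.compl_erase, Finset.sum_insert (by simpa using ha), hCaa,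
          smul_zero, map_zero, smul_zero, zero_add, Finset.smul_sum]
        refine Finset.sum_congr rfl (fun b _ => ?_)
        rw [smul_smul]
      · refine Finset.sum_congr rfl (fun a ha => ?_)
        rw [if_neg (Finset.mem_compl.mp ha), Finset.smul_sum, Finset.smul_sum]
        refine Finset.sum_congr rfl (fun b _ => ?_)
        rw [smul_comm (X a : MvPolynomial (Fin 5) K) (ξ (ω b)), smul_smul]
    have e2 : ∑ a ∈ I, ∑ b ∈ Iᶜ, (ξ (ω a) * ξ (ω b)) • c.R₀ ((X b : MvPolynomial (Fin 5) K) •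
          c.C b a ((X a : MvPolynomial (Fin 5) K) • z)) =
        ∑ a ∈ Iᶜ, ∑ b ∈ Iᶜ, (ξ (ω a) * ξ (ω b)) • c.R₀ ((X b : MvPolynomial (Fin 5) K) •
          c.ρ ((X a : MvPolynomial (Fin 5) K) • c.C a b z)) := by
      rw [Finset.sum_comm]
      conv_rhs => rw [Finset.sum_comm]
      refine Finset.sum_congr rfl (fun b hb => ?_)
      have e3 := c.W0 κ b I (Finset.mem_compl.mp hb) z
      rw [← Finset.sum_add_sum_compl I, map_add, map_sum, map_sum] at e3
      have e4 : ∀ a ∈ I, c.ρ (ξ (ω a) • lam I a (c.F a b) z) =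
          - (ξ (ω a) • c.C b a ((X a : MvPolynomial (Fin 5) K) • z)) := by
        intro a ha
        rw [map_smul, lam, if_pos ha, LinearMap.comp_apply, mulX_apply, c.skew, map_neg,
          smul_neg]
        rfl
      have e5 : ∀ a ∈ Iᶜ, c.ρ (ξ (ω a) • lam I a (c.F a b) z) =
          ξ (ω a) • c.ρ ((X a : MvPolynomial (Fin 5) K) • c.C a b z) := by
        intro a ha
        rw [map_smul, lam, if_neg (Finset.mem_compl.mp ha), LinearMap.comp_apply, mulX_apply,
          Chart.C, LinearMap.comp_apply, c.ρX]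
      rw [Finset.sum_congr rfl e4, Finset.sum_congr rfl e5, Finset.sum_neg_distrib,
        neg_add_eq_zero] at e3
      have e6 : ∀ (s : Finset (Fin 5)) (f : Fin 5 → M), ∑ a ∈ s, (ξ (ω a) * ξ (ω b)) •
          c.R₀ ((X b : MvPolynomial (Fin 5) K) • f a) =
          ξ (ω b) • c.R₀ ((X b : MvPolynomial (Fin 5) K) • ∑ a ∈ s, ξ (ω a) • f a) := by
        intro s f
        rw [Finset.smul_sum, map_sum, Finset.smul_sum]
        refine Finset.sum_congr rfl (fun a _ => ?_)
        rw [smul_comm (X b : MvPolynomial (Fin 5) K), LinearMap.map_smul, smul_smul, mul_comm]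
      rw [e6, e6, e3]
    have e7 : ∀ a b, c.dd c.R₀ a b (c.C a b z) =
        ((X a : MvPolynomial (Fin 5) K) • c.R₀ ((X b : MvPolynomial (Fin 5) K) • c.C a b z) -
        c.R₀ ((X b : MvPolynomial (Fin 5) K) • c.ρ ((X a : MvPolynomial (Fin 5) K) •
          c.C a b z))) +
        ((X b : MvPolynomial (Fin 5) K) • c.R₀ ((X a : MvPolynomial (Fin 5) K) • c.C b a z) -
        c.R₀ ((X a : MvPolynomial (Fin 5) K) • c.ρ ((X b : MvPolynomial (Fin 5) K) •
          c.C b a z))) := by
      intro a b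
      rw [c.dd_apply, c.C_skew b a]
      simp only [smul_neg, map_neg]
      abel
    have e8 : ∑ a ∈ Iᶜ, ∑ b ∈ Iᶜ, (ξ (ω a) * ξ (ω b)) • c.dd c.R₀ a b (c.C a b z) =
        (2 : K) • ∑ a ∈ Iᶜ, ∑ b ∈ Iᶜ, (ξ (ω a) * ξ (ω b)) •
        ((X a : MvPolynomial (Fin 5) K) • c.R₀ ((X b : MvPolynomial (Fin 5) K) • c.C a b z) -
        c.R₀ ((X b : MvPolynomial (Fin 5) K) • c.ρ ((X a : MvPolynomial (Fin 5) K) •
          c.C a b z))) := by
      rw [two_smul]
      nth_rewrite 3 [Finset.sum_comm]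
      rw [← Finset.sum_add_distrib]
      refine Finset.sum_congr rfl (fun a _ => ?_)
      rw [← Finset.sum_add_distrib]
      refine Finset.sum_congr rfl (fun b _ => ?_)
      rw [e7, mul_comm (ξ (ω b)), smul_add]
    rw [e1, e2, e8, smul_smul, inv_mul_cancel₀ two_ne_zero, one_smul, ← Finset.sum_add_distrib,
      ← Finset.sum_neg_distrib]
    refine Finset.sum_congr rfl (fun a _ => ?_)
    rw [← Finset.sum_add_distrib, ← Finset.sum_neg_distrib]
    refine Finset.sum_congr rfl (fun b _ => ?_)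
    rw [c.C_skew b a]
    simp only [smul_neg, map_neg]
    module
  -- putting everything together
  have h4 : ∑ a, ξ (ω a) • (if a ∈ I then c.U c.R₀ (κ.Q₀ a (I.erase a)) ξ a (I.erase a)
          ((X a : MvPolynomial (Fin 5) K) • z)
      else (X a : MvPolynomial (Fin 5) K) • c.U c.R₀ (κ.Q₀ a I) ξ a I z) =
      ∑ a, ξ (ω a) • (if a ∈ I then κ.Q₀ a (I.erase a) ((X a : MvPolynomial (Fin 5) K) • z)
      else (X a : MvPolynomial (Fin 5) K) • κ.Q₀ a I z) +
      ∑ a, ∑ b, (ξ (ω a) * ξ (ω b)) • (if a ∈ I then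
      lam (I.erase a) b (c.R₀ ∘ₗ c.F b a) ((X a : MvPolynomial (Fin 5) K) • z)
      else (X a : MvPolynomial (Fin 5) K) • lam I b (c.R₀ ∘ₗ c.F b a) z) +
      ∑ a, ξ (ω a) • (if a ∈ I then ∑ b ∈ (I.erase a)ᶜ, ξ (ω b) •
        c.R₀ ((X b : MvPolynomial (Fin 5) K) • c.C b a ((X a : MvPolynomial (Fin 5) K) • z))
      else (X a : MvPolynomial (Fin 5) K) • ∑ b ∈ Iᶜ, ξ (ω b) •
        c.R₀ ((X b : MvPolynomial (Fin 5) K) • c.C b a z)) := by
    rw [← Finset.sum_add_distrib, ← Finset.sum_add_distrib]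
    refine Finset.sum_congr rfl (fun a _ => ?_)
    by_cases ha : a ∈ I
    · simp only [ha, if_true]
      rw [c.U_apply, smul_add, smul_add, Finset.smul_sum]
      simp only [smul_smul]
    · simp only [ha, if_false]
      rw [c.U_apply, smul_add, smul_add, smul_add, smul_add,
        Finset.smul_sum (r := (X a : MvPolynomial (Fin 5) K))
          (f := fun b => ξ (ω b) • lam I b (c.R₀ ∘ₗ c.F b a) z), Finset.smul_sum]
      simp only [smul_comm (X a : MvPolynomial (Fin 5) K) (ξ _), smul_smul]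
  have h5 : (2⁻¹ : K) • ∑ a ∈ Iᶜ, ∑ b ∈ Iᶜ, (ξ (ω a) * ξ (ω b)) •
        c.dd c.R₀ a b (c.C a b z) = (X i : MvPolynomial (Fin 5) K) ^ n • ((2⁻¹ : K) •
        ∑ a ∈ Iᶜ, ∑ b ∈ Iᶜ, (ξ (ω a) * ξ (ω b)) • c.d a b (c.C a b z)) := by
    rw [smul_comm (X i ^ n : MvPolynomial (Fin 5) K) (2⁻¹ : K)]
    congr 1
    rw [Finset.smul_sum]
    refine Finset.sum_congr rfl (fun a _ => ?_)
    rw [Finset.smul_sum]
    refine Finset.sum_congr rfl (fun b _ => ?_)
    rw [c.d_eq, smul_comm]
  rw [h1, h4, h2, h3, κ.tot, add_zero, h5, ← sub_eq_add_neg, ← smul_sub]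

end Pool.Agent.Lib.MP_745d3a_ag.Gm

end

section

open Module MvPolynomial

set_option linter.unusedSectionVars false
set_option linter.unusedVariables false

namespace Pool.Agent.Lib.MP_745d3a_ag.Gm

variable {K : Type*} [Field K] {G : Type*} [AddCommGroup G] [DecidableEq G]
  {M : Type*} [AddCommGroup M] [Module K M] [Module (MvPolynomial (Fin 5) K) M]
  [IsScalarTower K (MvPolynomial (Fin 5) K) M]

variable {ω : Fin 5 → G} {V : G → Submodule K M} [DirectSum.Decomposition V]
  {P : Pairing ω V} [CharZero K] {C : Fam P} {i j : Fin 5}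

/-- The chart data. -/
lemma exists_chart (E : Eps C i j) (hij : i ≠ j)
    (hreg : ∀ u v : M, (X j : MvPolynomial (Fin 5) K) ^ (2 * P.N) • u =
      (X i : MvPolynomial (Fin 5) K) ^ (2 * P.N) • v →
      ∃ w : M, u = (X i : MvPolynomial (Fin 5) K) ^ (2 * P.N) • w) :
    ∃ c : Chart P i j (2 * P.N), c.F = E.Fe := by
  have hdeg : ∀ e : Fin 5, HasDeg V
      (smulK ((X e : MvPolynomial (Fin 5) K) ^ (2 * P.N)) : M →ₗ[K] M)
      ((2 * P.N) • ω e) := fun e g z hz =>
    P.smul_mem _ _ ((isWeightedHomogeneous_X K ω e).pow _) g z hz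
  obtain ⟨ρ, R₀, R₁, h1, h2, h3, h4, h5, h6⟩ := exists_division V (hdeg j) (hdeg i)
  exact ⟨{ hij := hij
           hreg := hreg
           F := E.Fe
           skew := E.Fe_skew
           Fdeg := fun a b => (E.Fe_deg a b).congr (by rw [dF, smul_smul, smul_smul])
           ρ := ρ
           R₀ := R₀
           R₁ := R₁
           ρdeg := h1
           R₀deg := h2
           R₁deg := h3
           div := h4
           ρj := h5
           ρi := h6 }, rfl⟩

/-- The determinant of the moment. -/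
lemma exists_det {f : MvPolynomial (Fin 5) K} {d : G} (C : Conn P f d) (ξ : G →+ K) :
    ∃ q : MvPolynomial (Fin 5) K, IsWeightedHomogeneous ω q (2 • d) ∧
      ∀ z, ξ P.δ • f • C.mu ξ z - C.mu ξ (C.mu ξ z) = q • z := by
  let φ : M →ₗ[MvPolynomial (Fin 5) K] M :=
    (MvPolynomial.C (ξ P.δ) * f) • C.mu ξ - C.mu ξ ∘ₗ C.mu ξ
  have hφ : ∀ z, φ z = ξ P.δ • f • C.mu ξ z - C.mu ξ (C.mu ξ z) := by
    intro z
    have : φ z = (MvPolynomial.C (ξ P.δ) * f) • C.mu ξ z - C.mu ξ (C.mu ξ z) := rfl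
    rw [this, mul_smul, ← MvPolynomial.algebraMap_eq, algebraMap_smul]
  obtain ⟨q, hq1, hq2⟩ := P.scalar_hom φ (by
    intro z
    have h1 := C.mu_adj ξ (C.mu ξ z) z
    have h2 := P.alt (C.mu ξ z)
    have : φ z = (MvPolynomial.C (ξ P.δ) * f) • C.mu ξ z - C.mu ξ (C.mu ξ z) := rfl
    rw [this]
    rw [MvPolynomial.smul_eq_C_mul] at h1
    simp only [map_sub, map_smul, LinearMap.sub_apply, LinearMap.smul_apply, smul_eq_mul]
    linear_combination h2 - h1) (d := 2 • d) (by
    intro g z hz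
    rw [hφ]
    refine Submodule.sub_mem _ (Submodule.smul_mem _ _ ?_) ?_
    · have := P.smul_mem _ _ C.hf _ _ (C.mu_deg ξ _ _ hz)
      rwa [add_assoc, ← two_smul ℕ] at this
    · have := C.mu_deg ξ _ _ (C.mu_deg ξ _ _ hz)
      rwa [add_assoc, ← two_smul ℕ] at this)
  exact ⟨q, hq1, fun z => by rw [← hφ, hq2]⟩

/-- A polynomial of weight zero is constant. -/
lemma const_of_weight_zero (hpos : ∃ φ : G →+ ℤ, ∀ a, 0 < φ (ω a))
    {q : MvPolynomial (Fin 5) K} (hq : IsWeightedHomogeneous ω q 0) :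
    ∃ c : K, q = MvPolynomial.C c := by
  obtain ⟨φ, hφ⟩ := hpos
  refine ⟨coeff 0 q, ?_⟩
  ext m
  rw [coeff_C]
  split_ifs with hm
  · rw [hm]
  · by_contra hne
    have h1 := hq hne
    apply hm
    rw [Finsupp.weight_apply, Finsupp.sum_fintype _ _ (by intro κ; simp)] at h1
    have h2 := congrArg φ h1
    rw [map_sum, map_zero] at h2
    have h3 : ∀ a, 0 ≤ φ (m a • ω a) := by
      intro a
      rw [map_nsmul, nsmul_eq_mul]
      exact mul_nonneg (by positivity) (hφ a).le
    have h4 := (Finset.sum_eq_zero_iff_of_nonneg (fun a _ => h3 a)).mp h2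
    ext a
    have h5 := h4 a (Finset.mem_univ a)
    rw [map_nsmul, nsmul_eq_mul, mul_eq_zero] at h5
    rcases h5 with h5 | h5
    · rw [Finsupp.coe_zero, Pi.zero_apply]; exact_mod_cast h5.symm
    · exact absurd h5 (hφ a).ne'


/-- The operator `P' + γ` as a linear map. -/
noncomputable def PpL {f : MvPolynomial (Fin 5) K} {d : G} (C : Conn P f d) (ξ : G →+ K)
    (γ : Fin 5 → MvPolynomial (Fin 5) K) (a : Fin 5) (I : Finset (Fin 5)) : M →ₗ[K] M where
  toFun z := Pp C ξ a I z + γ a • z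
  map_add' z z' := by
    simp only [Pp, map_add, smul_add]; module
  map_smul' h z := by
    have e1 : wt V ξ (h • z) + tsum ω ξ I • h • z = h • (wt V ξ z + tsum ω ξ I • z) := by
      rw [map_smul]; module
    rw [Pp, Pp, RingHom.id_apply, e1, map_smul, map_smul, lin_smul]
    module

lemma PpL_apply {f : MvPolynomial (Fin 5) K} {d : G} (C : Conn P f d) (ξ : G →+ K)
    (γ : Fin 5 → MvPolynomial (Fin 5) K) (a : Fin 5) (I : Finset (Fin 5)) (z : M) :
    PpL C ξ γ a I z = Pp C ξ a I z + γ a • z := rfl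

/-- The operators `P + γ`. -/
lemma exists_con (hpos : ∃ φ : G →+ ℤ, ∀ a, 0 < φ (ω a)) (E : Eps C i j)
    (c : Chart P i j (2 * P.N)) (hc : c.F = E.Fe) (ξ : G →+ K) :
    ∃ c2 : K, Nonempty (c.Con ξ c2) := by
  classical
  have pw : ∀ e : Fin 5, ((X e : MvPolynomial (Fin 5) K) ^ P.N) ^ 2 = X e ^ (2 * P.N) := by
    intro e; rw [← pow_mul, mul_comm]
  have htwo : ∀ x : M, x + x = 0 → x = 0 := fun x hx => two_smul_zero (K := K) x hx
  obtain ⟨γi, γj, hγi, hγj, hrel⟩ := exists_gamma E c.hij ξ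
  obtain ⟨Di, hDi1, hDi2⟩ := exists_det (C i) ξ
  obtain ⟨Dj, hDj1, hDj2⟩ := exists_det (C j) ξ
  -- the sums over `a` on the two charts
  have tot : ∀ (l : Fin 5) (γ : Fin 5 → MvPolynomial (Fin 5) K) (D : MvPolynomial (Fin 5) K),
      (∀ z, ξ P.δ • (X l : MvPolynomial (Fin 5) K) ^ P.N • (C l).mu ξ z -
        (C l).mu ξ ((C l).mu ξ z) = D • z) → ∀ I z,
      ∑ a, ξ (ω a) • (if a ∈ I then PpL (C l) ξ γ a (I.erase a)
          ((X a : MvPolynomial (Fin 5) K) • z)
        else (X a : MvPolynomial (Fin 5) K) • PpL (C l) ξ γ a I z) =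
      (X l : MvPolynomial (Fin 5) K) ^ (2 * P.N) •
        (wt V ξ (wt V ξ z + tsum ω ξ I • z) + tsum ω ξ I • (wt V ξ z + tsum ω ξ I • z) -
        ξ P.δ • (wt V ξ z + tsum ω ξ I • z)) + (D + iot ω ξ γ) • z := by
    intro l γ D hD I z
    have h1 := Pp_sum (C l) ξ I z
    rw [hD, pw] at h1
    have h2 : ∑ a, ξ (ω a) • (if a ∈ I then PpL (C l) ξ γ a (I.erase a)
          ((X a : MvPolynomial (Fin 5) K) • z)
        else (X a : MvPolynomial (Fin 5) K) • PpL (C l) ξ γ a I z) =
        ∑ a, ξ (ω a) • (if a ∈ I then Pp (C l) ξ a (I.erase a)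
          ((X a : MvPolynomial (Fin 5) K) • z)
        else (X a : MvPolynomial (Fin 5) K) • Pp (C l) ξ a I z) + iot ω ξ γ • z := by
      rw [iot_smul, ← Finset.sum_add_distrib]
      refine Finset.sum_congr rfl (fun a _ => ?_)
      split_ifs with ha
      · rw [PpL_apply, smul_add, smul_comm (γ a)]
      · rw [PpL_apply, smul_add, smul_add]
    rw [h2, h1, add_smul]
    module
  have toti := tot i γi Di hDi2
  have totj := tot j γj Dj hDj2
  -- contraction of the relation for `I = ∅`
  have h1 : ∀ z : M, (X j ^ (2 * P.N) * (Di + iot ω ξ γi) -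
      X i ^ (2 * P.N) * (Dj + iot ω ξ γj)) • z = 0 := by
    intro z
    have h2 : ∑ a, ξ (ω a) • (X a : MvPolynomial (Fin 5) K) •
        (- ∑ b, ξ (ω b) • lam ∅ b (E.Fe b a) z) = 0 := by
      have h3 : ∀ a, ξ (ω a) • (X a : MvPolynomial (Fin 5) K) •
          (- ∑ b, ξ (ω b) • lam ∅ b (E.Fe b a) z) = ∑ b, (ξ (ω a) * ξ (ω b)) •
          (X a : MvPolynomial (Fin 5) K) • (X b : MvPolynomial (Fin 5) K) •
            (- E.Fe b a z) := by
        intro a
        rw [← Finset.sum_neg_distrib, Finset.smul_sum, Finset.smul_sum]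
        refine Finset.sum_congr rfl (fun b _ => ?_)
        have : lam ∅ b (E.Fe b a) z = (X b : MvPolynomial (Fin 5) K) • E.Fe b a z := by
          rw [lam, if_neg (Finset.notMem_empty b)]; rfl
        rw [this]; module
      rw [Finset.sum_congr rfl (fun a _ => h3 a)]
      apply sum_antisymm htwo
      intro a b
      rw [E.Fe_skew b a]; module
    have h4 : ∑ a, ξ (ω a) • (X a : MvPolynomial (Fin 5) K) •
        (- ∑ b, ξ (ω b) • lam ∅ b (E.Fe b a) z) =
        (X j : MvPolynomial (Fin 5) K) ^ (2 * P.N) •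
          (∑ a, ξ (ω a) • (X a : MvPolynomial (Fin 5) K) • PpL (C i) ξ γi a ∅ z) -
        (X i : MvPolynomial (Fin 5) K) ^ (2 * P.N) •
          (∑ a, ξ (ω a) • (X a : MvPolynomial (Fin 5) K) • PpL (C j) ξ γj a ∅ z) := by
      rw [Finset.smul_sum, Finset.smul_sum, ← Finset.sum_sub_distrib]
      refine Finset.sum_congr rfl (fun a _ => ?_)
      rw [← hrel a ∅ (Finset.notMem_empty a) z, PpL_apply, PpL_apply]
      module
    have h5 := toti ∅ z
    have h6 := totj ∅ z
    simp only [Finset.notMem_empty, if_false] at h5 h6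
    rw [h2, h5, h6] at h4
    rw [sub_smul, mul_smul, mul_smul]
    linear_combination (norm := module) -h4
  -- the constant
  obtain ⟨c2, hc2⟩ : ∃ c2 : K, ∀ z : M, (Di + iot ω ξ γi) • z =
      (X i : MvPolynomial (Fin 5) K) ^ (2 * P.N) • c2 • z := by
    by_cases hM : ∀ z : M, z = 0
    · exact ⟨0, fun z => by rw [hM z]; simp⟩
    push Not at hM
    obtain ⟨z0, hz0⟩ := hM
    have h2 := sub_eq_zero.mp ((P.tf _ _ (h1 z0)).resolve_right hz0)
    have hp : Prime (X i : MvPolynomial (Fin 5) K) := MvPolynomial.X_prime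
    have h3 : (X i : MvPolynomial (Fin 5) K) ^ (2 * P.N) ∣ Di + iot ω ξ γi := by
      refine hp.pow_dvd_of_dvd_mul_left (2 * P.N) ?_ ⟨_, h2⟩
      intro hd
      have h6 := hp.dvd_of_dvd_pow hd
      rw [MvPolynomial.X_dvd_X] at h6
      exact c.hij h6
    obtain ⟨q, hq⟩ := h3
    have h4 : IsWeightedHomogeneous ω (Di + iot ω ξ γi) (2 • (P.N • ω i)) := by
      refine hDi1.add ?_
      rw [iot]
      refine IsWeightedHomogeneous.sum _ _ _ (fun b _ => ?_)
      rw [mul_assoc]
      refine IsWeightedHomogeneous.C_mul ?_ _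
      have h8 := (isWeightedHomogeneous_X K ω b).mul (hγi b)
      have e1 : ω b + (2 • (P.N • ω i) - ω b) = 2 • (P.N • ω i) := by abel
      rwa [e1] at h8
    have hXw : IsWeightedHomogeneous ω
        ((X i : MvPolynomial (Fin 5) K) ^ (2 * P.N)) (2 • (P.N • ω i)) := by
      rw [smul_smul]
      exact (isWeightedHomogeneous_X K ω i).pow _
    have h5 : Di + iot ω ξ γi = X i ^ (2 * P.N) * weightedHomogeneousComponent ω 0 q := by
      rw [← whc_mul hXw, ← hq, add_zero, weightedHomogeneousComponent_eq_self h4]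
    obtain ⟨c2, hc2⟩ := const_of_weight_zero hpos
      (weightedHomogeneousComponent_isWeightedHomogeneous (w := ω) 0 q)
    refine ⟨c2, fun z => ?_⟩
    rw [h5, hc2, mul_smul, ← MvPolynomial.algebraMap_eq, algebraMap_smul]
  refine ⟨c2, ⟨{ Q₀ := PpL (C i) ξ γi
                 Q₁ := PpL (C j) ξ γj
                 deg₀ := ?_
                 rel := ?_
                 tot := ?_ }⟩⟩
  · intro a I g z hz
    rw [PpL_apply, Pp]
    have e : ∀ g', g' = g + ((2 * P.N) • ω i - ω a) → ∀ w ∈ V g',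
        w ∈ V (g + ((2 * P.N) • ω i - ω a)) := by
      intro g' hg' w hw; rwa [← hg']
    have hz' : wt V ξ z + tsum ω ξ I • z ∈ V g := by
      refine Submodule.add_mem _ ?_ (Submodule.smul_mem _ _ hz)
      have := wt_deg V ξ g z hz
      rwa [add_zero] at this
    refine Submodule.add_mem _ (Submodule.sub_mem _ ?_ (Submodule.sub_mem _
      (Submodule.smul_mem _ _ ?_) ?_)) ?_
    · refine e _ ?_ _ (P.smul_mem _ _ (C i).hf _ _ ((C i).deg a _ _ hz'))
      rw [two_mul, add_smul]; abel
    · refine e _ ?_ _ (P.smul_mem _ _ (C i).hf _ _ ((C i).deg a _ _ hz))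
      rw [two_mul, add_smul]; abel
    · refine e _ ?_ _ ((C i).mu_deg ξ _ _ ((C i).deg a _ _ hz))
      rw [two_mul, add_smul]; abel
    · refine e _ ?_ _ (P.smul_mem _ _ (hγi a) _ _ hz)
      rw [smul_smul]
  · intro a I ha z
    rw [PpL_apply, PpL_apply, hrel a I ha z, hc]
  · intro I z
    rw [toti I z, hc2]
    module

/-- Elements outside of finitely many degrees are killed: a `K`-subspace spanned by finitely
many elements lives in finitely many degrees. -/
lemma finite_degrees (B : Finset M) : ∃ S : Finset G, ∀ w ∈ Submodule.span K (B : Set M),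
    ∀ g, g ∉ S → (pr V g w : M) = 0 := by
  classical
  have h0 : ∀ b : M, ∃ S : Finset G, ∀ g, g ∉ S → (pr V g b : M) = 0 := by
    intro b
    refine ⟨(DirectSum.decompose V b).support, fun g hg => ?_⟩
    rw [DFinsupp.notMem_support_iff] at hg
    have : (pr V g b : M) = ((DirectSum.decompose V b) g : M) := rfl
    rw [this, hg]; rfl
  choose S hS using h0
  refine ⟨B.biUnion S, fun w hw g hg => ?_⟩
  rw [Finset.mem_biUnion] at hg
  push Not at hg
  induction hw using Submodule.span_induction with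
  | mem x hx => exact hS x g (hg x hx)
  | zero => rw [map_zero]; rfl
  | add x y _ _ hx hy => rw [map_add, Submodule.coe_add, hx, hy, add_zero]
  | smul a x _ hx => rw [map_smul, Submodule.coe_smul, hx, smul_zero]

/-- The operators `C` live in finitely many degrees. -/
lemma C_finite [Module.Finite (MvPolynomial (Fin 5) K) M] {n : ℕ}
    (c : Chart P i j n) (htor : ∀ a b z (e : Fin 5), (X e : MvPolynomial (Fin 5) K) ^ n •
      c.F a b z ∈ InJ K i j n) :
    ∃ S : Finset G, ∀ a b g, g ∉ S → ∀ z ∈ V g, c.C a b z = 0 := by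
  classical
  -- the submodule `L`
  let L : Submodule (MvPolynomial (Fin 5) K) M :=
    { carrier := {w | ∀ e : Fin 5, (X e : MvPolynomial (Fin 5) K) ^ n • w ∈ InJ K i j n}
      add_mem' := by
        intro x y hx hy e
        rw [smul_add]; exact Submodule.add_mem _ (hx e) (hy e)
      zero_mem' := by intro e; rw [smul_zero]; exact Submodule.zero_mem _
      smul_mem' := by
        intro q x hx e
        rw [smul_comm]; exact Submodule.smul_mem _ _ (hx e) }
  have hLF : ∀ a b z, c.F a b z ∈ L := fun a b z e => htor a b z e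
  have hρJ : ∀ w ∈ InJ K i j n, c.ρ w = 0 := by
    rintro w ⟨u, v, rfl⟩
    rw [map_add, c.ρi, c.ρj, add_zero]
  -- generators of `L`
  obtain ⟨T, hT⟩ : L.FG := IsNoetherian.noetherian L
  let B : Finset M := (((Finset.univ : Finset (Fin 5 → Fin (n + 1))) ×ˢ T).image
    (fun p => c.ρ ((monomial (Finsupp.equivFunOnFinite.symm (fun e => (p.1 e : ℕ))) (1 : K) :
      MvPolynomial (Fin 5) K) • p.2)))
  have hmono : ∀ (m : Fin 5 →₀ ℕ) (t : M), t ∈ T →
      c.ρ ((monomial m (1 : K) : MvPolynomial (Fin 5) K) • t) ∈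
        Submodule.span K (B : Set M) := by
    intro m t ht
    by_cases hm : ∃ e, n ≤ m e
    · obtain ⟨e, he⟩ := hm
      have h1 : (monomial m (1 : K) : MvPolynomial (Fin 5) K) =
          monomial (m - Finsupp.single e n) 1 * X e ^ n := by
        rw [X_pow_eq_monomial, monomial_mul, one_mul]
        congr 1
        rw [tsub_add_cancel_of_le]
        rw [Finsupp.single_le_iff]; exact he
      have h2 : (monomial m (1 : K) : MvPolynomial (Fin 5) K) • t ∈ InJ K i j n := by
        rw [h1, mul_smul]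
        have : t ∈ L := by rw [← hT]; exact Submodule.subset_span ht
        exact Submodule.smul_mem _ _ (this e)
      rw [hρJ _ h2]; exact Submodule.zero_mem _
    · push Not at hm
      apply Submodule.subset_span
      rw [Finset.mem_coe, Finset.mem_image]
      refine ⟨(fun e => ⟨m e, by have := hm e; omega⟩, t), ?_, ?_⟩
      · rw [Finset.mem_product]; exact ⟨Finset.mem_univ _, ht⟩
      · have : (Finsupp.equivFunOnFinite.symm fun e => m e) = m := by ext e; rfl
        simp only [this]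
  have hpoly : ∀ (q : MvPolynomial (Fin 5) K) (t : M), t ∈ T →
      c.ρ (q • t) ∈ Submodule.span K (B : Set M) := by
    intro q t ht
    induction q using MvPolynomial.induction_on' with
    | monomial m a =>
      have h1 : (monomial m a : MvPolynomial (Fin 5) K) = a • monomial m 1 := by
        rw [smul_monomial, smul_eq_mul, mul_one]
      rw [h1, smul_assoc, map_smul]
      exact Submodule.smul_mem _ _ (hmono m t ht)
    | add a b ha hb => rw [add_smul, map_add]; exact Submodule.add_mem _ ha hb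
  have hL : ∀ w ∈ L, ∀ q : MvPolynomial (Fin 5) K, c.ρ (q • w) ∈
      Submodule.span K (B : Set M) := by
    intro w hw
    rw [← hT] at hw
    induction hw using Submodule.span_induction with
    | mem x hx => exact fun q => hpoly q x hx
    | zero => intro q; rw [smul_zero, map_zero]; exact Submodule.zero_mem _
    | add x y _ _ hx hy =>
      intro q; rw [smul_add, map_add]; exact Submodule.add_mem _ (hx q) (hy q)
    | smul a x _ hx => intro q; rw [smul_smul]; exact hx _
  obtain ⟨S, hS⟩ := finite_degrees (V := V) B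
  refine ⟨(Finset.univ : Finset (Fin 5 × Fin 5)).biUnion (fun p =>
    S.image (fun g => g - (n • ω i + n • ω j - ω p.1 - ω p.2))), ?_⟩
  intro a b g hg z hz
  have h0 := hL _ (hLF a b z) 1
  rw [one_smul] at h0
  have h1 := hS _ h0 (g + (n • ω i + n • ω j - ω a - ω b)) (by
    intro hmem
    apply hg
    rw [Finset.mem_biUnion]
    refine ⟨(a, b), Finset.mem_univ _, ?_⟩
    rw [Finset.mem_image]
    exact ⟨_, hmem, by abel⟩)
  rw [← h1]
  exact (pr_mem V (c.C_deg a b g z hz)).symm

/-- The corrected operators are torsion modulo `(x_i ^ n, x_j ^ n)`. -/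
lemma Eps.tor_all (E : Eps C i j) (a b : Fin 5) (z : M) (e : Fin 5) :
    (X e : MvPolynomial (Fin 5) K) ^ (2 * P.N) • E.Fe a b z ∈ InJ K i j (2 * P.N) := by
  by_cases hei : e = i
  · subst hei; exact InJ_left _ _ _ _
  by_cases hej : e = j
  · subst hej; exact InJ_right _ _ _ _
  exact E.tor a b e hei hej z

end Pool.Agent.Lib.MP_745d3a_ag.Gm

end

section

open Module MvPolynomial

set_option linter.unusedSectionVars false
set_option linter.unusedVariables false

namespace Pool.Agent.Lib.MP_745d3a_ag.Gm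

variable {K : Type*} [Field K] {G : Type*} [AddCommGroup G] [DecidableEq G]
  {M : Type*} [AddCommGroup M] [Module K M] [Module (MvPolynomial (Fin 5) K) M]
  [IsScalarTower K (MvPolynomial (Fin 5) K) M]

variable {ω : Fin 5 → G} {V : G → Submodule K M} [DirectSum.Decomposition V]
  (P : Pairing ω V)

lemma conn_zero (d : G) : Nonempty (Conn P 0 d) :=
  ⟨{ hf := isWeightedHomogeneous_zero K ω d
     D := fun _ => 0
     leib := by intro a h z; simp
     compat := by intro a z z'; simp
     deg := fun a => HasDeg.zero _ }⟩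

variable {P}

lemma conn_add {f g : MvPolynomial (Fin 5) K} {d : G} (h1 : Nonempty (Conn P f d))
    (h2 : Nonempty (Conn P g d)) : Nonempty (Conn P (f + g) d) := by
  obtain ⟨C1⟩ := h1
  obtain ⟨C2⟩ := h2
  exact ⟨{ hf := C1.hf.add C2.hf
           D := fun a => C1.D a + C2.D a
           leib := by
             intro a h z
             rw [LinearMap.add_apply, LinearMap.add_apply, C1.leib, C2.leib]
             module
           compat := by
             intro a z z'
             have k1 := C1.compat a z z'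
             have k2 := C2.compat a z z'
             simp only [LinearMap.add_apply, map_add]
             linear_combination k1 + k2
           deg := fun a => (C1.deg a).add (C2.deg a) }⟩

lemma conn_mul {f c : MvPolynomial (Fin 5) K} {d e : G} (hc : IsWeightedHomogeneous ω c e)
    (h1 : Nonempty (Conn P f d)) : Nonempty (Conn P (c * f) (e + d)) := by
  obtain ⟨C1⟩ := h1
  exact ⟨{ hf := hc.mul C1.hf
           D := fun a => c • C1.D a
           leib := by
             intro a h z
             rw [LinearMap.smul_apply, LinearMap.smul_apply, C1.leib]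
             module
           compat := by
             intro a z z'
             have k1 := C1.compat a z z'
             simp only [LinearMap.smul_apply, map_smul, smul_eq_mul]
             linear_combination c * k1
           deg := by
             intro a g z hz
             have := P.smul_mem _ _ hc _ _ (C1.deg a g z hz)
             have e1 : g + (d - ω a) + e = g + (e + d - ω a) := by abel
             rwa [e1] at this }⟩

lemma conn_base [CharZero K] {g h : G} {u v : M} (hu : u ∈ V g) (hv : v ∈ V h) :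
    Nonempty (Conn P (P.B u v) (g + h - P.δ)) := by
  have hh : (MvPolynomial.C 2⁻¹ : MvPolynomial (Fin 5) K) * 2 = 1 := by
    rw [show (2 : MvPolynomial (Fin 5) K) = MvPolynomial.C 2 from rfl, ← map_mul,
      inv_mul_cancel₀ two_ne_zero, map_one]
  exact ⟨{ hf := P.hom g h u hu v hv
           D := fun a =>
             { toFun := fun z => pderiv a (P.B z v) • u - pderiv a (P.B z u) • v -
                 (MvPolynomial.C 2⁻¹ * pderiv a (P.B u v)) • z
               map_add' := by
                 intro z z'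
                 simp only [map_add, LinearMap.add_apply]
                 module
               map_smul' := by
                 intro c z
                 have e1 : ∀ w, P.B (c • z) w = c • P.B z w := by
                   intro w
                   rw [← algebraMap_smul (MvPolynomial (Fin 5) K) c z, map_smul,
                     LinearMap.smul_apply, algebraMap_smul]
                 simp only [e1, Derivation.map_smul, RingHom.id_apply, smul_assoc]
                 module }
           leib := by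
             intro a q z
             have k := P.rank2 u v z
             simp only [LinearMap.coe_mk, AddHom.coe_mk, map_smul, LinearMap.smul_apply,
               smul_eq_mul, Derivation.leibniz]
             linear_combination (norm := module) (-(pderiv a q)) • k
           compat := by
             intro a z z'
             have k1 := congrArg (fun t => P.B t z') (P.rank2 u v z)
             simp only [map_smul, map_sub, LinearMap.sub_apply, LinearMap.smul_apply,
               smul_eq_mul] at k1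
             have k2 := congrArg (fun t => pderiv a t) k1
             simp only [map_sub, Derivation.leibniz, smul_eq_mul] at k2
             rw [P.skew u z', P.skew v z'] at k1 k2
             simp only [map_neg] at k2
             simp only [LinearMap.coe_mk, AddHom.coe_mk, map_smul, map_sub,
               LinearMap.sub_apply, LinearMap.smul_apply, smul_eq_mul]
             rw [P.skew u z', P.skew v z']
             linear_combination -k2 - (pderiv a (P.B u v) * P.B z z') * hh
           deg := by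
             intro a k z hz
             have e : ∀ g', g' = k + (g + h - P.δ - ω a) → ∀ w ∈ V g',
                 w ∈ V (k + (g + h - P.δ - ω a)) := by
               intro g' hg' w hw; rwa [← hg']
             refine Submodule.sub_mem _ (Submodule.sub_mem _ ?_ ?_) ?_
             · refine e _ ?_ _ (P.smul_mem _ _ ((P.hom k h z hz v hv).pderiv (i := a)
                 (n' := k + h - P.δ - ω a) (by abel)) _ _ hu)
               abel
             · refine e _ ?_ _ (P.smul_mem _ _ ((P.hom k g z hz u hu).pderiv (i := a)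
                 (n' := k + g - P.δ - ω a) (by abel)) _ _ hv)
               abel
             · refine e _ ?_ _ (P.smul_mem _ _ (((P.hom g h u hu v hv).pderiv (i := a)
                 (n' := g + h - P.δ - ω a) (by abel)).C_mul _) _ _ hz)
               abel }⟩

variable (P) in
lemma conn_span [CharZero K] {f : MvPolynomial (Fin 5) K}
    (hf : f ∈ Ideal.span (Set.range (fun p : M × M => P.B p.1 p.2))) (d : G) :
    Nonempty (Conn P (weightedHomogeneousComponent ω d f) d) := by
  induction hf using Submodule.span_induction generalizing d with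
  | mem x hx =>
    obtain ⟨p, rfl⟩ := hx
    simp only
    refine hom_ind V (P := fun u => Nonempty (Conn P
      (weightedHomogeneousComponent ω d (P.B u p.2)) d)) ?_ ?_ ?_ p.1
    · simp only [map_zero, LinearMap.zero_apply]; exact conn_zero P d
    · intro g u hu
      refine hom_ind V (P := fun v => Nonempty (Conn P
        (weightedHomogeneousComponent ω d (P.B u v)) d)) ?_ ?_ ?_ p.2
      · simp only [map_zero]; exact conn_zero P d
      · intro h v hv
        have h1 := P.hom g h u hu v hv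
        by_cases hd : g + h - P.δ = d
        · rw [← hd, weightedHomogeneousComponent_eq_self h1]
          exact conn_base hu hv
        · rw [h1.weightedHomogeneousComponent_ne _ (Ne.symm hd)]
          exact conn_zero P d
      · intro m n hm hn
        rw [map_add, map_add]; exact conn_add hm hn
    · intro m n hm hn
      rw [map_add, LinearMap.add_apply, map_add]; exact conn_add hm hn
  | zero => rw [map_zero]; exact conn_zero P d
  | add x y _ _ hx hy => rw [map_add]; exact conn_add (hx d) (hy d)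
  | smul a x _ hx =>
    induction a using MvPolynomial.induction_on' with
    | monomial m c =>
      have h1 : IsWeightedHomogeneous ω (monomial m c) (Finsupp.weight ω m) :=
        isWeightedHomogeneous_monomial ω m c rfl
      have h2 := conn_mul h1 (hx (d - Finsupp.weight ω m))
      rw [← whc_mul h1, add_sub_cancel] at h2
      exact h2
    | add a b ha hb => rw [add_smul, map_add]; exact conn_add ha hb

variable (P) in
/-- Connections over the sets `x_i ≠ 0` exist. -/
lemma exists_fam [CharZero K] : Nonempty (Fam P) := by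
  have h : ∀ i : Fin 5, Nonempty (Conn P (X i ^ P.N) (P.N • ω i)) := by
    intro i
    have h1 := conn_span P (P.van i) (P.N • ω i)
    rwa [weightedHomogeneousComponent_eq_self ((isWeightedHomogeneous_X K ω i).pow _)] at h1
  exact ⟨fun i => (h i).some⟩

end Pool.Agent.Lib.MP_745d3a_ag.Gm

end
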