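import Pool.Agent.Lib.MP_745d3a_ag.GM.Defs

/-!
Rank of the quotient by the colon ideal.
-/

section

set_option autoImplicit false
set_option linter.unusedSectionVars false
set_option linter.unusedSimpArgs false
set_option linter.unusedVariables false

open MvPolynomial

namespace Pool.Agent.Lib.MP_745d3a_ag.GM

section

variable {K : Type*} [Field K]

/-- The monomials `x_s ^ a * x_t ^ b`, `(a, b) ∈ E`, become linearly dependent over the polynomials
in the other variables after multiplication by `Δ`, modulo `J s t N`. -/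
def Dep (s t : Fin 5) (N : ℕ) (Δ : MvPolynomial (Fin 5) K) (E : Finset (ℕ × ℕ)) : Prop :=
  ∃ r : ℕ × ℕ → MvPolynomial (Fin 5) K, (∀ e, ∀ ε, coeff ε (r e) ≠ 0 → ε s = 0 ∧ ε t = 0) ∧
    (∃ e ∈ E, r e ≠ 0) ∧ (∑ e ∈ E, r e * (X s ^ e.1 * X t ^ e.2)) * Δ ∈ J s t N

/-- The rank of `Δ` is at most `ρ`. -/
def RkLe (s t : Fin 5) (N : ℕ) (Δ : MvPolynomial (Fin 5) K) (ρ : ℕ) : Prop :=
  ∀ E : Finset (ℕ × ℕ), (∀ e ∈ E, e.1 < N ∧ e.2 < N) → ρ < E.card → Dep s t N Δ E

/-- Consider a polynomial as a polynomial in `x_s, x_t` over the polynomials in the others. -/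
noncomputable def B1.tau (s t : Fin 5) :
    MvPolynomial (Fin 5) K →+* MvPolynomial (Fin 5) (MvPolynomial (Fin 5) K) :=
  eval₂Hom (C.comp C) (fun κ => if κ = s ∨ κ = t then X κ else C (X κ))

lemma B1.tau_monomial {s t : Fin 5} (hst : s ≠ t) (e : Fin 5 →₀ ℕ) (c : K) :
    B1.tau s t (monomial e c) =
      monomial (Finsupp.single s (e s) + Finsupp.single t (e t))
        (monomial (e.filter (fun κ => ¬ (κ = s ∨ κ = t))) c) := by
  classical
  rw [B1.tau, coe_eval₂Hom, eval₂_monomial, Finsupp.prod_fintype _ _ (by intro κ; simp)]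
  have h1 : (monomial (e.filter (fun κ => ¬ (κ = s ∨ κ = t))) c : MvPolynomial (Fin 5) K) =
      C c * ∏ κ, X κ ^ (e.filter (fun κ => ¬ (κ = s ∨ κ = t)) κ) := by
    rw [monomial_eq, Finsupp.prod_fintype _ _ (by intro κ; simp)]
  have h2 : (monomial (Finsupp.single s (e s) + Finsupp.single t (e t))
      (monomial (e.filter (fun κ => ¬ (κ = s ∨ κ = t))) c) :
        MvPolynomial (Fin 5) (MvPolynomial (Fin 5) K)) =
      C (monomial (e.filter (fun κ => ¬ (κ = s ∨ κ = t))) c) *
        (X s ^ (e s) * X t ^ (e t)) := by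
    rw [X_pow_eq_monomial, X_pow_eq_monomial, monomial_mul, C_mul_monomial, mul_one, mul_one]
  rw [h2, h1, map_mul, map_prod, RingHom.comp_apply, mul_assoc]
  refine congrArg (fun z => C (C c) * z) ?_
  have h3 : (X s ^ (e s) * X t ^ (e t) : MvPolynomial (Fin 5) (MvPolynomial (Fin 5) K)) =
      ∏ κ, ((if κ = s then X κ ^ e κ else 1) * (if κ = t then X κ ^ e κ else 1)) := by
    rw [Finset.prod_mul_distrib, Finset.prod_ite_eq', Finset.prod_ite_eq']
    simp
  rw [h3, ← Finset.prod_mul_distrib]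
  refine Finset.prod_congr rfl ?_
  intro κ _
  rw [Finsupp.filter_apply]
  by_cases h : κ = s
  · have : κ ≠ t := fun h' => hst (h.symm.trans h')
    simp [h, hst]
  · by_cases h' : κ = t
    · simp [h', hst.symm]
    · simp [h, h']

lemma B1.coeff_tau {s t : Fin 5} (hst : s ≠ t) (f : MvPolynomial (Fin 5) K) (u ε : Fin 5 →₀ ℕ) :
    coeff ε (coeff u (B1.tau s t f)) =
      if (ε s = 0 ∧ ε t = 0) ∧ (∀ κ, κ ≠ s → κ ≠ t → u κ = 0) then coeff (ε + u) f else 0 := by
  classical
  induction f using MvPolynomial.induction_on' with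
  | monomial e c =>
    rw [B1.tau_monomial hst, coeff_monomial]
    have key : (((ε s = 0 ∧ ε t = 0) ∧ (∀ κ, κ ≠ s → κ ≠ t → u κ = 0)) ∧ e = ε + u) ↔
        (Finsupp.single s (e s) + Finsupp.single t (e t) = u ∧
          e.filter (fun κ => ¬ (κ = s ∨ κ = t)) = ε) := by
      constructor
      · rintro ⟨⟨⟨h1, h2⟩, h3⟩, h4⟩
        constructor
        · ext κ
          rw [h4]
          by_cases hs : κ = s
          · subst hs; simp [h1, Finsupp.single_apply, hst.symm]
          · by_cases ht : κ = t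
            · subst ht; simp [h2, Finsupp.single_apply, hst]
            · rw [h3 κ hs ht]
              simp [Finsupp.single_apply, Ne.symm hs, Ne.symm ht]
        · ext κ
          rw [h4, Finsupp.filter_apply]
          by_cases hs : κ = s
          · subst hs; simp [h1]
          · by_cases ht : κ = t
            · subst ht; simp [h2]
            · simp [hs, ht, h3 κ hs ht]
      · rintro ⟨h1, h2⟩
        refine ⟨⟨⟨?_, ?_⟩, ?_⟩, ?_⟩
        · rw [← h2, Finsupp.filter_apply]; simp
        · rw [← h2, Finsupp.filter_apply]; simp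
        · intro κ hs ht
          rw [← h1]; simp [Finsupp.single_apply, Ne.symm hs, Ne.symm ht]
        · ext κ
          rw [← h1, ← h2, Finsupp.add_apply, Finsupp.filter_apply]
          by_cases hs : κ = s
          · subst hs; simp [Finsupp.single_apply, hst.symm]
          · by_cases ht : κ = t
            · subst ht; simp [Finsupp.single_apply, hst]
            · simp [hs, ht, Finsupp.single_apply, Ne.symm hs, Ne.symm ht]
    by_cases h1 : Finsupp.single s (e s) + Finsupp.single t (e t) = u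
    · rw [if_pos h1, coeff_monomial]
      by_cases h2 : e.filter (fun κ => ¬ (κ = s ∨ κ = t)) = ε
      · obtain ⟨h3, h4⟩ := key.mpr ⟨h1, h2⟩
        rw [if_pos h2, if_pos h3, coeff_monomial, if_pos h4]
      · rw [if_neg h2]
        split_ifs with h3
        · rw [coeff_monomial, if_neg]
          intro h4
          exact h2 (key.mp ⟨h3, h4⟩).2
        · rfl
    · rw [if_neg h1, coeff_zero]
      split_ifs with h3
      · rw [coeff_monomial, if_neg]
        intro h4
        exact h1 (key.mp ⟨h3, h4⟩).1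
      · rfl
  | add p q hp hq =>
    rw [map_add, coeff_add, coeff_add, hp, hq]
    split_ifs
    · rw [coeff_add]
    · rw [add_zero]

/-- The coefficient of `x_s ^ a * x_t ^ b`. -/
noncomputable def B1.co (s t : Fin 5) (c : ℕ × ℕ) (f : MvPolynomial (Fin 5) K) :
    MvPolynomial (Fin 5) K :=
  coeff (Finsupp.single s c.1 + Finsupp.single t c.2) (B1.tau s t f)

lemma B1.coeff_co {s t : Fin 5} (hst : s ≠ t) (c : ℕ × ℕ) (f : MvPolynomial (Fin 5) K)
    (ε : Fin 5 →₀ ℕ) : coeff ε (B1.co s t c f) =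
      if ε s = 0 ∧ ε t = 0 then coeff (ε + (Finsupp.single s c.1 + Finsupp.single t c.2)) f
      else 0 := by
  rw [B1.co, B1.coeff_tau hst]
  have : ∀ κ, κ ≠ s → κ ≠ t →
      (Finsupp.single s c.1 + Finsupp.single t c.2 : Fin 5 →₀ ℕ) κ = 0 := by
    intro κ hs ht
    simp [Finsupp.single_apply, Ne.symm hs, Ne.symm ht]
  by_cases h : ε s = 0 ∧ ε t = 0
  · rw [if_pos ⟨h, this⟩, if_pos h]
  · rw [if_neg h, if_neg (fun h' => h h'.1)]

lemma B1.co_add (s t : Fin 5) (c : ℕ × ℕ) (f g : MvPolynomial (Fin 5) K) :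
    B1.co s t c (f + g) = B1.co s t c f + B1.co s t c g := by
  simp [B1.co]

lemma B1.co_sum {ι : Type*} (s t : Fin 5) (c : ℕ × ℕ) (T : Finset ι)
    (f : ι → MvPolynomial (Fin 5) K) :
    B1.co s t c (∑ a ∈ T, f a) = ∑ a ∈ T, B1.co s t c (f a) := by
  simp [B1.co, coeff_sum]

lemma B1.tau_off {s t : Fin 5} (hst : s ≠ t) {r : MvPolynomial (Fin 5) K}
    (hr : ∀ ε, coeff ε r ≠ 0 → ε s = 0 ∧ ε t = 0) : B1.tau s t r = C r := by
  classical
  ext u ε
  rw [B1.coeff_tau hst, coeff_C]
  by_cases hu : 0 = u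
  · rw [if_pos hu, ← hu, add_zero]
    split_ifs with h
    · rfl
    · by_contra h1
      exact h ⟨hr ε (Ne.symm h1), by simp⟩
  · rw [if_neg hu, coeff_zero]
    split_ifs with h
    · by_contra h1
      apply hu
      ext κ
      have h2 := hr _ h1
      by_cases hs : κ = s
      · rw [hs]; have := h2.1; simp at this ⊢; omega
      · by_cases ht : κ = t
        · rw [ht]; have := h2.2; simp at this ⊢; omega
        · rw [h.2 κ hs ht]; rfl
    · rfl

lemma B1.co_mul {s t : Fin 5} (hst : s ≠ t) {r : MvPolynomial (Fin 5) K}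
    (hr : ∀ ε, coeff ε r ≠ 0 → ε s = 0 ∧ ε t = 0) (c : ℕ × ℕ) (f : MvPolynomial (Fin 5) K) :
    B1.co s t c (r * f) = r * B1.co s t c f := by
  rw [B1.co, B1.co, map_mul, B1.tau_off hst hr, coeff_C_mul]

/-- Coefficients and membership in `J`. -/
lemma B1.mem_J_of_co {s t : Fin 5} (hst : s ≠ t) {N : ℕ} {f : MvPolynomial (Fin 5) K}
    (h : ∀ c : ℕ × ℕ, c.1 < N → c.2 < N → B1.co s t c f = 0) : f ∈ J s t N := by
  classical
  rw [mem_J_coeff]
  intro e hs ht
  have h1 := h (e s, e t) hs ht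
  have h2 := congrArg (coeff (e.filter (fun κ => ¬ (κ = s ∨ κ = t)))) h1
  rw [B1.coeff_co hst, coeff_zero] at h2
  have h3 : (e.filter (fun κ => ¬ (κ = s ∨ κ = t))) s = 0 ∧
      (e.filter (fun κ => ¬ (κ = s ∨ κ = t))) t = 0 := by
    constructor <;> rw [Finsupp.filter_apply] <;> simp
  rw [if_pos h3] at h2
  rw [← h2]
  congr 1
  ext κ
  rw [Finsupp.add_apply, Finsupp.filter_apply]
  by_cases hκs : κ = s
  · subst hκs; simp [Finsupp.single_apply, hst.symm]
  · by_cases hκt : κ = t
    · subst hκt; simp [Finsupp.single_apply, hst]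
    · simp [hκs, hκt, Finsupp.single_apply, Ne.symm hκs, Ne.symm hκt]

lemma B1.map_tau (s t : Fin 5) (q : Fin 5 → K) (f : MvPolynomial (Fin 5) K) :
    MvPolynomial.map (eval q) (B1.tau s t f) = th s t q f := by
  have : (MvPolynomial.map (eval q)).comp (B1.tau s t) =
      ((th s t q : MvPolynomial (Fin 5) K →ₐ[K] MvPolynomial (Fin 5) K) :
        MvPolynomial (Fin 5) K →+* MvPolynomial (Fin 5) K) := by
    apply ringHom_ext
    · intro r
      simp [B1.tau, th]
    · intro κ
      by_cases h : κ = s ∨ κ = t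
      · simp [B1.tau, th, h]
      · simp [B1.tau, th, h]
  exact DFunLike.congr_fun this f

lemma B1.eval_co (s t : Fin 5) (q : Fin 5 → K) (c : ℕ × ℕ) (f : MvPolynomial (Fin 5) K) :
    eval q (B1.co s t c f) =
      coeff (Finsupp.single s c.1 + Finsupp.single t c.2) (th s t q f) := by
  rw [← B1.map_tau, coeff_map, B1.co]


lemma B1.exists_dep {R : Type*} [CommRing R] [IsDomain R] {ι κ : Type*} [Fintype ι] [Fintype κ]
    (h : Fintype.card κ < Fintype.card ι) (M : ι → κ → R) :
    ∃ v : ι → R, v ≠ 0 ∧ ∀ c, ∑ a, v a * M a c = 0 := by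
  by_contra hcon
  push Not at hcon
  let f : (ι → R) →ₗ[R] (κ → R) := Matrix.vecMulLinear (Matrix.of M)
  have hinj : Function.Injective f := by
    rw [← LinearMap.ker_eq_bot, LinearMap.ker_eq_bot']
    intro v hv
    by_contra hne
    obtain ⟨c, hc⟩ := hcon v hne
    refine hc ?_
    have h1 := congrFun hv c
    simpa [f, Matrix.vecMul, dotProduct] using h1
  have := card_le_of_injective R f hinj
  omega

lemma B1.mem_supported {s t : Fin 5} {p : MvPolynomial (Fin 5) K} :
    p ∈ supported K {κ : Fin 5 | κ ≠ s ∧ κ ≠ t} ↔ ∀ ε, coeff ε p ≠ 0 → ε s = 0 ∧ ε t = 0 := by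
  rw [MvPolynomial.mem_supported]
  constructor
  · intro h ε hε
    constructor
    · by_contra h1
      have h2 : s ∈ (p.vars : Set (Fin 5)) := by
        rw [Finset.mem_coe, mem_vars_iff_mem_support]
        exact ⟨ε, mem_support_iff.mpr hε, Finsupp.mem_support_iff.mpr h1⟩
      exact (h h2).1 rfl
    · by_contra h1
      have h2 : t ∈ (p.vars : Set (Fin 5)) := by
        rw [Finset.mem_coe, mem_vars_iff_mem_support]
        exact ⟨ε, mem_support_iff.mpr hε, Finsupp.mem_support_iff.mpr h1⟩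
      exact (h h2).2 rfl
  · intro h κ hκ
    rw [Finset.mem_coe, mem_vars_iff_mem_support] at hκ
    obtain ⟨d, hd, h1⟩ := hκ
    have h2 := h d (mem_support_iff.mp hd)
    rw [Finsupp.mem_support_iff] at h1
    exact ⟨fun h3 => h1 (by rw [h3]; exact h2.1), fun h3 => h1 (by rw [h3]; exact h2.2)⟩

lemma B1.co_mem {s t : Fin 5} (hst : s ≠ t) (c : ℕ × ℕ) (f : MvPolynomial (Fin 5) K) :
    B1.co s t c f ∈ supported K {κ : Fin 5 | κ ≠ s ∧ κ ≠ t} := by
  rw [B1.mem_supported]
  intro ε hε
  rw [B1.coeff_co hst] at hε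
  by_contra h
  rw [if_neg h] at hε
  exact hε rfl

lemma B1.ex_le {s t : Fin 5} (hst : s ≠ t) {e c : ℕ × ℕ}
    (h : Finsupp.single s e.1 + Finsupp.single t e.2 ≤
      (Finsupp.single s c.1 + Finsupp.single t c.2 : Fin 5 →₀ ℕ)) : e.1 ≤ c.1 ∧ e.2 ≤ c.2 := by
  have h1 := h s
  have h2 := h t
  simp [Finsupp.single_apply, hst, hst.symm] at h1 h2
  exact ⟨h1, h2⟩

lemma B1.det_ne_zero {s t : Fin 5} (hst : s ≠ t) {q : Fin 5 → K} (P : Finset (ℕ × ℕ))
    (F D : ℕ × ℕ → MvPolynomial (Fin 5) K)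
    (hF : ∀ e ∈ P, th s t q (F e) = th s t q (D e) * (X s ^ e.1 * X t ^ e.2))
    (hD : ∀ e ∈ P, eval (pt s t q) (D e) ≠ 0) (v : P → MvPolynomial (Fin 5) K)
    (hv : ∀ c : P, ∑ e, v e * B1.co s t c.1 (F e.1) = 0) : v = 0 := by
  classical
  by_contra hne
  set A : Matrix P P (MvPolynomial (Fin 5) K) := fun e c => B1.co s t c.1 (F e.1) with hA
  have h1 : A.det = 0 := by
    rw [← Matrix.exists_vecMul_eq_zero_iff]
    refine ⟨v, hne, ?_⟩
    funext c
    simpa [Matrix.vecMul, dotProduct, hA] using hv c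
  have h2 : ((eval q : MvPolynomial (Fin 5) K →+* K).mapMatrix A).det = 0 := by
    rw [← RingHom.map_det, h1, map_zero]
  rw [← Matrix.exists_vecMul_eq_zero_iff] at h2
  obtain ⟨w, hw, hw2⟩ := h2
  obtain ⟨e1, he1⟩ : ∃ e, w e ≠ 0 := by
    by_contra h
    push Not at h
    exact hw (funext h)
  obtain ⟨e0, he0, hmin⟩ := Finset.exists_min_image (Finset.univ.filter (fun e => w e ≠ 0))
    (fun e => e.1.1 + e.1.2) ⟨e1, by simpa using he1⟩
  rw [Finset.mem_filter] at he0
  have h3 := congrFun hw2 e0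
  rw [Pi.zero_apply, Matrix.vecMul, dotProduct] at h3
  have hentry : ∀ e : P, ((eval q : MvPolynomial (Fin 5) K →+* K).mapMatrix A) e e0 =
      coeff (Finsupp.single s e0.1.1 + Finsupp.single t e0.1.2)
        (th s t q (D e.1) * (X s ^ e.1.1 * X t ^ e.1.2)) := by
    intro e
    rw [RingHom.mapMatrix_apply, Matrix.map_apply, hA, B1.eval_co, hF e.1 e.2]
  rw [Finset.sum_eq_single e0] at h3
  · rw [hentry] at h3
    have h4 : coeff (Finsupp.single s e0.1.1 + Finsupp.single t e0.1.2)
        (th s t q (D e0.1) * (X s ^ e0.1.1 * X t ^ e0.1.2)) = eval (pt s t q) (D e0.1) := by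
      rw [X_pow_eq_monomial, X_pow_eq_monomial, monomial_mul, coeff_mul_monomial', if_pos le_rfl,
        tsub_self, coeff_zero_th]
      ring
    rw [h4] at h3
    rcases mul_eq_zero.mp h3 with h5 | h5
    · exact he0.2 h5
    · exact hD e0.1 e0.2 h5
  · intro e _ hne
    by_cases hwe : w e = 0
    · rw [hwe, zero_mul]
    · have h5 := hmin e (by simpa using hwe)
      rw [hentry, X_pow_eq_monomial, X_pow_eq_monomial, monomial_mul, coeff_mul_monomial']
      split_ifs with h6
      · exfalso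
        obtain ⟨h7, h8⟩ := B1.ex_le hst h6
        apply hne
        apply Subtype.ext
        apply Prod.ext
        · omega
        · omega
      · rw [mul_zero]
  · intro h
    exact absurd (Finset.mem_univ _) h

theorem rk_of_point {s t : Fin 5} {N : ℕ} {Δ : MvPolynomial (Fin 5) K} (hst : s ≠ t)
    (hBC : BC s t N Δ) {q : Fin 5 → K} (hq : ∃ κ, κ ≠ s ∧ κ ≠ t ∧ q κ ≠ 0) {i j : ℕ}
    (hi : i ≤ N) (hj : j ≤ N) {G : MvPolynomial (Fin 5) K}
    (hG : th s t q Δ = X s ^ (N - i) * X t ^ (N - j) * G) : RkLe s t N Δ (i * j) := by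
  classical
  intro E hE hcard
  set B := Finset.range N ×ˢ Finset.range N with hB
  set P := B \ (Finset.range i ×ˢ Finset.range j) with hP
  have hFD : ∀ e : ℕ × ℕ, ∃ F D : MvPolynomial (Fin 5) K, e ∈ P → F * Δ ∈ J s t N ∧
      th s t q F = th s t q D * (X s ^ e.1 * X t ^ e.2) ∧ eval (pt s t q) D ≠ 0 := by
    intro e
    by_cases he : e ∈ P
    · have hmem : th s t q (X s ^ e.1 * X t ^ e.2) * th s t q Δ ∈ J s t N := by
        rw [hG, map_mul, map_pow, map_pow, th_X_left, th_X_right, mem_J_exists]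
        rw [hP, Finset.mem_sdiff, hB, Finset.mem_product, Finset.mem_product, Finset.mem_range,
          Finset.mem_range, Finset.mem_range, Finset.mem_range] at he
        by_cases h1 : i ≤ e.1
        · refine ⟨X s ^ (e.1 - i) * X t ^ e.2 * X t ^ (N - j) * G, 0, ?_⟩
          have h2 : (X s : MvPolynomial (Fin 5) K) ^ e.1 * X s ^ (N - i) =
              X s ^ N * X s ^ (e.1 - i) := by
            rw [← pow_add, ← pow_add]; congr 1; omega
          linear_combination (X t ^ e.2 * X t ^ (N - j) * G) * h2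
        · have h3 : j ≤ e.2 := by
            by_contra h3
            exact he.2 ⟨by omega, by omega⟩
          refine ⟨0, X t ^ (e.2 - j) * X s ^ e.1 * X s ^ (N - i) * G, ?_⟩
          have h2 : (X t : MvPolynomial (Fin 5) K) ^ e.2 * X t ^ (N - j) =
              X t ^ N * X t ^ (e.2 - j) := by
            rw [← pow_add, ← pow_add]; congr 1; omega
          linear_combination (X s ^ e.1 * X s ^ (N - i) * G) * h2
      obtain ⟨F, D, h1, h2, h3⟩ := hBC q hq _ hmem
      refine ⟨F, D, fun _ => ⟨h1, ?_, h3⟩⟩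
      rw [h2, map_mul, map_pow, map_pow, th_X_left, th_X_right]
    · exact ⟨0, 0, fun h => absurd h he⟩
  choose F D hFD using hFD
  set gen : E ⊕ P → MvPolynomial (Fin 5) K :=
    Sum.elim (fun e => X s ^ e.1.1 * X t ^ e.1.2) (fun e => F e.1) with hgen
  have hcard2 : Fintype.card B < Fintype.card (E ⊕ P) := by
    rw [Fintype.card_sum, Fintype.card_coe, Fintype.card_coe, Fintype.card_coe, hP,
      Finset.card_sdiff_of_subset, hB, Finset.card_product, Finset.card_product,
      Finset.card_range, Finset.card_range, Finset.card_range]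
    · have : i * j ≤ N * N := Nat.mul_le_mul hi hj
      omega
    · rw [hB]
      exact Finset.product_subset_product (Finset.range_mono hi) (Finset.range_mono hj)
  obtain ⟨v, hv, hv2⟩ := B1.exists_dep (R := supported K {κ : Fin 5 | κ ≠ s ∧ κ ≠ t}) hcard2
    (fun a c => ⟨B1.co s t c.1 (gen a), B1.co_mem hst _ _⟩)
  have hvoff : ∀ a, ∀ ε, coeff ε (v a : MvPolynomial (Fin 5) K) ≠ 0 → ε s = 0 ∧ ε t = 0 :=
    fun a => B1.mem_supported.mp (v a).2
  have hv3 : ∀ c ∈ B, ∑ a, (v a : MvPolynomial (Fin 5) K) * B1.co s t c (gen a) = 0 := by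
    intro c hc
    have h1 := congrArg (fun z : supported K {κ : Fin 5 | κ ≠ s ∧ κ ≠ t} =>
      (z : MvPolynomial (Fin 5) K)) (hv2 ⟨c, hc⟩)
    simpa using h1
  have hsum : ∑ a, (v a : MvPolynomial (Fin 5) K) * gen a ∈ J s t N := by
    refine B1.mem_J_of_co hst ?_
    intro c h1 h2
    have hc : c ∈ B := by
      rw [hB, Finset.mem_product, Finset.mem_range, Finset.mem_range]
      exact ⟨h1, h2⟩
    rw [B1.co_sum, ← hv3 c hc]
    exact Finset.sum_congr rfl (fun a _ => B1.co_mul hst (hvoff a) _ _)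
  rw [Fintype.sum_sum_type] at hsum
  have hsum2 : (∑ e : E, (v (Sum.inl e) : MvPolynomial (Fin 5) K) *
      (X s ^ e.1.1 * X t ^ e.1.2)) * Δ ∈ J s t N := by
    have h1 : (∑ e : P, (v (Sum.inr e) : MvPolynomial (Fin 5) K) * gen (Sum.inr e)) * Δ ∈
        J s t N := by
      rw [Finset.sum_mul]
      refine Ideal.sum_mem _ ?_
      intro e _
      rw [mul_assoc]
      exact Ideal.mul_mem_left _ _ (hFD e.1 e.2).1
    have h2 := Ideal.sub_mem _ (Ideal.mul_mem_right Δ _ hsum) h1
    rw [← sub_mul, add_sub_cancel_right] at h2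
    exact h2
  by_cases hE0 : ∃ e : E, v (Sum.inl e) ≠ 0
  · obtain ⟨e0, he0⟩ := hE0
    refine ⟨fun e => if h : e ∈ E then (v (Sum.inl ⟨e, h⟩) : MvPolynomial (Fin 5) K) else 0,
      ?_, ⟨e0.1, e0.2, ?_⟩, ?_⟩
    · intro e ε hε
      by_cases h : e ∈ E
      · simp only [h, dite_true] at hε
        exact hvoff _ ε hε
      · simp only [h, dite_false, coeff_zero] at hε
        exact absurd rfl hε
    · simp only [e0.2, dite_true]
      intro h
      exact he0 (Subtype.ext (by simpa using h))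
    · have h1 : (∑ e ∈ E, (if h : e ∈ E then (v (Sum.inl ⟨e, h⟩) : MvPolynomial (Fin 5) K) else 0) *
          (X s ^ e.1 * X t ^ e.2)) = ∑ e : E, (v (Sum.inl e) : MvPolynomial (Fin 5) K) *
            (X s ^ e.1.1 * X t ^ e.1.2) := by
        rw [← Finset.sum_coe_sort]
        refine Finset.sum_congr rfl ?_
        intro e _
        simp
      rw [h1]
      exact hsum2
  · exfalso
    push Not at hE0
    have h1 : (fun e : P => (v (Sum.inr e) : MvPolynomial (Fin 5) K)) = 0 := by
      refine B1.det_ne_zero hst P F D (fun e he => (hFD e he).2.1) (fun e he => (hFD e he).2.2) _ ?_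
      intro c
      have hPB : ∀ x ∈ P, x ∈ B := by
        intro x hx
        rw [hP, Finset.mem_sdiff] at hx
        exact hx.1
      have h2 := hv3 c.1 (hPB c.1 c.2)
      rw [Fintype.sum_sum_type] at h2
      have h3 : ∑ e : E, (v (Sum.inl e) : MvPolynomial (Fin 5) K) *
          B1.co s t c.1 (gen (Sum.inl e)) = 0 := by
        refine Finset.sum_eq_zero ?_
        intro e _
        rw [hE0 e]
        simp
      rw [h3, zero_add] at h2
      exact h2
    apply hv
    funext a
    rcases a with e | e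
    · exact hE0 e
    · have := congrFun h1 e
      exact Subtype.ext (by simpa using this)


lemma B1.wHC_mul_top {φ : Fin 5 → ℚ} {v M : ℚ} {r Δ : MvPolynomial (Fin 5) K}
    (hr : ∀ ε, coeff ε r ≠ 0 → Finsupp.weight φ ε ≤ v)
    (hM : ∀ e, coeff e Δ ≠ 0 → Finsupp.weight φ e ≤ M) :
    weightedHomogeneousComponent φ (v + M) (r * Δ) =
      weightedHomogeneousComponent φ v r * weightedHomogeneousComponent φ M Δ := by
  classical
  ext e
  rw [coeff_weightedHomogeneousComponent, coeff_mul, coeff_mul]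
  by_cases h : Finsupp.weight φ e = v + M
  · rw [if_pos h]
    refine Finset.sum_congr rfl ?_
    intro x hx
    rw [Finset.HasAntidiagonal.mem_antidiagonal] at hx
    rw [coeff_weightedHomogeneousComponent, coeff_weightedHomogeneousComponent]
    by_cases h1 : coeff x.1 r = 0
    · rw [h1, ite_self, zero_mul, zero_mul]
    by_cases h2 : coeff x.2 Δ = 0
    · rw [h2, ite_self, mul_zero, mul_zero]
    have h3 := hr _ h1
    have h4 := hM _ h2
    have h5 : Finsupp.weight φ x.1 + Finsupp.weight φ x.2 = v + M := by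
      rw [← map_add, hx, h]
    rw [if_pos (by linarith), if_pos (by linarith)]
  · rw [if_neg h]
    symm
    refine Finset.sum_eq_zero ?_
    intro x hx
    rw [Finset.HasAntidiagonal.mem_antidiagonal] at hx
    rw [coeff_weightedHomogeneousComponent, coeff_weightedHomogeneousComponent]
    split_ifs with h1 h2
    · exact absurd (by rw [← hx, map_add, h1, h2]) h
    · rw [mul_zero]
    · rw [zero_mul]
    · rw [zero_mul]

lemma B1.weight_ex {s t : Fin 5} {φ : Fin 5 → ℚ} (hs : φ s = 0) (ht : φ t = 0) (a b : ℕ) :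
    Finsupp.weight φ (Finsupp.single s a + Finsupp.single t b : Fin 5 →₀ ℕ) = 0 := by
  rw [map_add, Finsupp.weight_single, Finsupp.weight_single, hs, ht, smul_zero, smul_zero,
    add_zero]

theorem Dep.top {s t : Fin 5} {N : ℕ} {Δ : MvPolynomial (Fin 5) K} {E : Finset (ℕ × ℕ)}
    (hst : s ≠ t) (h : Dep s t N Δ E) {φ : Fin 5 → ℚ} (hs : φ s = 0) (ht : φ t = 0) {M : ℚ}
    (hM : ∀ e, coeff e Δ ≠ 0 → Finsupp.weight φ e ≤ M) :
    Dep s t N (weightedHomogeneousComponent φ M Δ) E := by
  classical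
  obtain ⟨r, hoff, ⟨e1, he1, hr1⟩, hmem⟩ := h
  -- the top weight of the coefficients
  set T : Finset ((ℕ × ℕ) × (Fin 5 →₀ ℕ)) :=
    E.biUnion (fun e => (r e).support.image (fun ε => (e, ε))) with hT
  have hmemT : ∀ e ε, (e, ε) ∈ T ↔ e ∈ E ∧ coeff ε (r e) ≠ 0 := by
    intro e ε
    rw [hT, Finset.mem_biUnion]
    constructor
    · rintro ⟨e', he', h2⟩
      rw [Finset.mem_image] at h2
      obtain ⟨ε', h3, h4⟩ := h2
      rw [Prod.mk.injEq] at h4
      rw [← h4.1, ← h4.2]
      exact ⟨he', mem_support_iff.mp h3⟩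
    · rintro ⟨h2, h3⟩
      exact ⟨e, h2, Finset.mem_image.mpr ⟨ε, mem_support_iff.mpr h3, rfl⟩⟩
  have hTne : T.Nonempty := by
    obtain ⟨ε, hε⟩ := exists_coeff_ne hr1
    exact ⟨(e1, ε), (hmemT _ _).mpr ⟨he1, hε⟩⟩
  obtain ⟨⟨e0, ε0⟩, h0, hmax⟩ := Finset.exists_max_image T
    (fun x => Finsupp.weight φ x.2) hTne
  rw [hmemT] at h0
  set v := Finsupp.weight φ ε0 with hv
  have hle : ∀ e ∈ E, ∀ ε, coeff ε (r e) ≠ 0 → Finsupp.weight φ ε ≤ v := by
    intro e he ε hε
    exact hmax (e, ε) ((hmemT _ _).mpr ⟨he, hε⟩)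
  refine ⟨fun e => weightedHomogeneousComponent φ v (r e), ?_, ⟨e0, h0.1, ?_⟩, ?_⟩
  · intro e ε hε
    rw [coeff_weightedHomogeneousComponent] at hε
    split_ifs at hε with h2
    · exact hoff e ε hε
    · exact absurd rfl hε
  · intro h2
    have h3 := congrArg (coeff ε0) h2
    rw [coeff_weightedHomogeneousComponent, if_pos rfl, coeff_zero] at h3
    exact h0.2 h3
  · have h2 := wHC_mem_J (ω := φ) (v + M) hmem
    have h3 : weightedHomogeneousComponent φ (v + M)
        ((∑ e ∈ E, r e * (X s ^ e.1 * X t ^ e.2)) * Δ) =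
        (∑ e ∈ E, weightedHomogeneousComponent φ v (r e) * (X s ^ e.1 * X t ^ e.2)) *
          weightedHomogeneousComponent φ M Δ := by
      rw [Finset.sum_mul, Finset.sum_mul, map_sum]
      refine Finset.sum_congr rfl ?_
      intro e he
      have h4 : r e * (X s ^ e.1 * X t ^ e.2) * Δ = (r e * Δ) *
          monomial (Finsupp.single s e.1 + Finsupp.single t e.2) (1 : K) := by
        rw [X_pow_eq_monomial, X_pow_eq_monomial, monomial_mul, one_mul]
        ring
      have h5 : IsWeightedHomogeneous φ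
          (monomial (Finsupp.single s e.1 + Finsupp.single t e.2) (1 : K) :
            MvPolynomial (Fin 5) K) 0 :=
        isWeightedHomogeneous_monomial _ _ _ (B1.weight_ex hs ht _ _)
      have h6 := wHC_mul_right (F := r e * Δ) h5 (v + M)
      rw [add_zero] at h6
      rw [h4, h6, B1.wHC_mul_top (hle e he) hM, X_pow_eq_monomial, X_pow_eq_monomial,
        monomial_mul, one_mul]
      ring
    rw [h3] at h2
    exact h2

theorem RkLe.top {s t : Fin 5} {N : ℕ} {Δ : MvPolynomial (Fin 5) K} {ρ : ℕ}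
    (hst : s ≠ t) (h : RkLe s t N Δ ρ) {φ : Fin 5 → ℚ} (hs : φ s = 0) (ht : φ t = 0) {M : ℚ}
    (hM : ∀ e, coeff e Δ ≠ 0 → Finsupp.weight φ e ≤ M) :
    RkLe s t N (weightedHomogeneousComponent φ M Δ) ρ :=
  fun E hE hc => (h E hE hc).top hst hs ht hM

theorem not_dep_monomial {s t : Fin 5} {N : ℕ} (hst : s ≠ t) {e0 : Fin 5 →₀ ℕ} {c : K}
    (hc : c ≠ 0) {i j : ℕ} (hi : e0 s + i ≤ N) (hj : e0 t + j ≤ N) :
    ¬ Dep s t N (monomial e0 c) (Finset.range i ×ˢ Finset.range j) := by
  classical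
  rintro ⟨r, hoff, ⟨e1, he1, hr1⟩, hmem⟩
  obtain ⟨ε, hε⟩ := exists_coeff_ne hr1
  obtain ⟨hεs, hεt⟩ := hoff e1 ε hε
  rw [Finset.mem_product, Finset.mem_range, Finset.mem_range] at he1
  set u : Fin 5 →₀ ℕ := ε + (Finsupp.single s e1.1 + Finsupp.single t e1.2) with hu
  have hus : u s = e1.1 := by
    simp [hu, hεs, Finsupp.single_apply, hst.symm]
  have hut : u t = e1.2 := by
    simp [hu, hεt, Finsupp.single_apply, hst]
  have h1 := mem_J_coeff.mp hmem (u + e0) (by rw [Finsupp.add_apply]; omega)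
    (by rw [Finsupp.add_apply]; omega)
  rw [coeff_mul_monomial] at h1
  have h2 : coeff u (∑ e ∈ Finset.range i ×ˢ Finset.range j, r e * (X s ^ e.1 * X t ^ e.2)) = 0 :=
    (mul_eq_zero.mp h1).resolve_right hc
  rw [coeff_sum, Finset.sum_eq_single_of_mem e1
    (by rw [Finset.mem_product, Finset.mem_range, Finset.mem_range]; exact he1)] at h2
  · rw [X_pow_eq_monomial, X_pow_eq_monomial, monomial_mul, hu, coeff_mul_monomial] at h2
    apply hε
    simpa using h2
  · intro e _ hne
    rw [X_pow_eq_monomial, X_pow_eq_monomial, monomial_mul, coeff_mul_monomial']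
    split_ifs with h3
    · by_contra h4
      have h5 := hoff e _ (left_ne_zero_of_mul h4)
      rw [Finsupp.tsub_apply, Finsupp.tsub_apply, hus, hut] at h5
      have h6 := h3 s
      have h7 := h3 t
      rw [hus] at h6
      rw [hut] at h7
      simp [Finsupp.single_apply, hst, hst.symm] at h5 h6 h7
      apply hne
      exact Prod.ext (by omega) (by omega)
    · rfl

theorem not_dep_of_vertex {s t : Fin 5} {N : ℕ} {Δ : MvPolynomial (Fin 5) K} (hst : s ≠ t)
    {c : Fin 5} (hcs : c ≠ s) (hct : c ≠ t) {e0 : Fin 5 →₀ ℕ} (he0 : coeff e0 Δ ≠ 0)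
    {i j : ℕ} (hi : e0 s + i ≤ N) (hj : e0 t + j ≤ N)
    (htop : ∀ e, coeff e Δ ≠ 0 → e c ≤ e0 c ∧ (e c = e0 c → e = e0)) :
    ¬ Dep s t N Δ (Finset.range i ×ˢ Finset.range j) := by
  classical
  intro h
  have hw : ∀ e : Fin 5 →₀ ℕ, Finsupp.weight (Pi.single c (1 : ℚ)) e = e c := by
    intro e
    rw [Finsupp.weight_apply, Finsupp.sum_fintype _ _ (by intro κ; simp),
      Finset.sum_eq_single c]
    · simp
    · intro b _ hb
      simp [Pi.single_apply, hb]
    · intro h'; exact absurd (Finset.mem_univ _) h'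
  have h1 := h.top hst (φ := Pi.single c (1 : ℚ)) (by simp [Pi.single_apply, hcs.symm])
    (by simp [Pi.single_apply, hct.symm]) (M := e0 c) (by
      intro e he
      rw [hw]
      exact_mod_cast (htop e he).1)
  have h2 : weightedHomogeneousComponent (Pi.single c (1 : ℚ)) (e0 c : ℚ) Δ =
      monomial e0 (coeff e0 Δ) := by
    ext e
    rw [coeff_weightedHomogeneousComponent, coeff_monomial, hw]
    by_cases h3 : e0 = e
    · rw [if_pos (by rw [h3]), if_pos h3, h3]
    · rw [if_neg h3]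
      split_ifs with h4
      · by_contra h5
        exact h3 ((htop e h5).2 (by exact_mod_cast h4)).symm
      · rfl
  rw [h2] at h1
  exact not_dep_monomial hst he0 hi hj h1

/-- Pass to tops, first for `φ`, then for the coordinates, until only a monomial is left. -/
theorem exists_top_mono {s t : Fin 5} {N : ℕ} {Δ : MvPolynomial (Fin 5) K} (hst : s ≠ t)
    (hΔ : Δ ≠ 0)
    (hinj : ∀ e e', coeff e Δ ≠ 0 → coeff e' Δ ≠ 0 → (∀ c, c ≠ s → c ≠ t → e c = e' c) → e = e')
    {φ : Fin 5 → ℚ} (hs : φ s = 0) (ht : φ t = 0) :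
    ∃ e, coeff e Δ ≠ 0 ∧
      (∀ e', coeff e' Δ ≠ 0 → Finsupp.weight φ e' ≤ Finsupp.weight φ e) ∧
      ∀ E, Dep s t N Δ E → Dep s t N (monomial e (coeff e Δ)) E := by
  classical
  have hw : ∀ (c : Fin 5) (e : Fin 5 →₀ ℕ), Finsupp.weight (Pi.single c (1 : ℚ)) e = e c := by
    intro c e
    rw [Finsupp.weight_apply, Finsupp.sum_fintype _ _ (by intro κ; simp),
      Finset.sum_eq_single c]
    · simp
    · intro b _ hb
      simp [Pi.single_apply, hb]
    · intro h'; exact absurd (Finset.mem_univ _) h'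
  -- one step
  have step : ∀ (ψ : Fin 5 → ℚ) (p : MvPolynomial (Fin 5) K), p ≠ 0 → ψ s = 0 → ψ t = 0 →
      ∃ e0, coeff e0 p ≠ 0 ∧ (∀ e', coeff e' p ≠ 0 → Finsupp.weight ψ e' ≤ Finsupp.weight ψ e0) ∧
        coeff e0 (weightedHomogeneousComponent ψ (Finsupp.weight ψ e0) p) ≠ 0 ∧
        ∀ E, Dep s t N p E →
          Dep s t N (weightedHomogeneousComponent ψ (Finsupp.weight ψ e0) p) E := by
    intro ψ p hp hψs hψt
    obtain ⟨e1, he1⟩ := exists_coeff_ne hp
    obtain ⟨e0, he0, hmax⟩ := Finset.exists_max_image p.support (fun e => Finsupp.weight ψ e)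
      ⟨e1, mem_support_iff.mpr he1⟩
    refine ⟨e0, mem_support_iff.mp he0, fun e' he' => hmax e' (mem_support_iff.mpr he'), ?_, ?_⟩
    · rw [coeff_weightedHomogeneousComponent, if_pos rfl]
      exact mem_support_iff.mp he0
    · intro E hE
      exact hE.top hst hψs hψt (fun e he => hmax e (mem_support_iff.mpr he))
  obtain ⟨e0, he0, hmax0, hne0, hdep0⟩ := step φ Δ hΔ hs ht
  -- induction over the coordinates
  have main : ∀ T : Finset (Fin 5), s ∉ T → t ∉ T → ∃ p : MvPolynomial (Fin 5) K, p ≠ 0 ∧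
      (∀ e, coeff e p ≠ 0 → coeff e p = coeff e Δ ∧
        Finsupp.weight φ e = Finsupp.weight φ e0) ∧
      (∀ e e', coeff e p ≠ 0 → coeff e' p ≠ 0 → ∀ c ∈ T, e c = e' c) ∧
      ∀ E, Dep s t N Δ E → Dep s t N p E := by
    intro T
    induction T using Finset.induction_on with
    | empty =>
      intro _ _
      refine ⟨weightedHomogeneousComponent φ (Finsupp.weight φ e0) Δ, ?_, ?_, ?_, hdep0⟩
      · intro h
        rw [h, coeff_zero] at hne0
        exact hne0 rfl
      · intro e he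
        rw [coeff_weightedHomogeneousComponent] at he ⊢
        by_cases h1 : Finsupp.weight φ e = Finsupp.weight φ e0
        · exact ⟨by rw [if_pos h1], h1⟩
        · rw [if_neg h1] at he
          exact absurd rfl he
      · intro e e' _ _ c hc
        exact absurd hc (Finset.notMem_empty _)
    | insert c T hcT ih =>
      intro hsT htT
      rw [Finset.mem_insert, not_or] at hsT htT
      obtain ⟨p, hp, hp1, hp2, hp3⟩ := ih hsT.2 htT.2
      obtain ⟨e1, he1, hmax1, hne1, hdep1⟩ := step (Pi.single c (1 : ℚ)) p hp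
        (by simp [Pi.single_apply, hsT.1]) (by simp [Pi.single_apply, htT.1])
      have hcoef : ∀ e, coeff e (weightedHomogeneousComponent (Pi.single c (1 : ℚ))
          (Finsupp.weight (Pi.single c (1 : ℚ)) e1) p) ≠ 0 → coeff e p ≠ 0 ∧
          coeff e (weightedHomogeneousComponent (Pi.single c (1 : ℚ))
          (Finsupp.weight (Pi.single c (1 : ℚ)) e1) p) = coeff e p ∧ e c = e1 c := by
        intro e he
        rw [coeff_weightedHomogeneousComponent] at he ⊢
        by_cases h1 : Finsupp.weight (Pi.single c (1 : ℚ)) e =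
            Finsupp.weight (Pi.single c (1 : ℚ)) e1
        · rw [if_pos h1] at he ⊢
          refine ⟨he, rfl, ?_⟩
          rw [hw, hw] at h1
          exact_mod_cast h1
        · rw [if_neg h1] at he
          exact absurd rfl he
      refine ⟨weightedHomogeneousComponent (Pi.single c (1 : ℚ))
        (Finsupp.weight (Pi.single c (1 : ℚ)) e1) p, ?_, ?_, ?_, fun E hE => hdep1 E (hp3 E hE)⟩
      · intro h
        rw [h, coeff_zero] at hne1
        exact hne1 rfl
      · intro e he
        obtain ⟨h1, h2, h3⟩ := hcoef e he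
        rw [h2]
        exact hp1 e h1
      · intro e e' he he' c' hc'
        obtain ⟨h1, h2, h3⟩ := hcoef e he
        obtain ⟨h1', h2', h3'⟩ := hcoef e' he'
        rw [Finset.mem_insert] at hc'
        rcases hc' with hc' | hc'
        · rw [hc', h3, h3']
        · exact hp2 e e' h1 h1' c' hc'
  obtain ⟨p, hp, hp1, hp2, hp3⟩ := main (Finset.univ.filter (fun c => c ≠ s ∧ c ≠ t))
    (by simp) (by simp)
  obtain ⟨e, he⟩ := exists_coeff_ne hp
  obtain ⟨h1, h2⟩ := hp1 e he
  have he' : coeff e Δ ≠ 0 := by rw [← h1]; exact he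
  refine ⟨e, he', fun e' h3 => by rw [h2]; exact hmax0 e' h3, ?_⟩
  intro E hE
  have h4 : p = monomial e (coeff e Δ) := by
    ext e'
    rw [coeff_monomial]
    by_cases h5 : e = e'
    · rw [if_pos h5, ← h5, h1]
    · rw [if_neg h5]
      by_contra h6
      apply h5
      have h7 := hp1 e' h6
      refine hinj e e' he' (by rw [← h7.1]; exact h6) ?_
      intro c hcs hct
      exact hp2 e e' he h6 c (by simp [hcs, hct])
  rw [← h4]
  exact hp3 E hE

end

end Pool.Agent.Lib.MP_745d3a_ag.GM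

end
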